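import Pool.Agent.H768.C4.CovDef

/-!
# Interface of the project on convex bodies in `ℝ⁴` with infinitely many affine symmetries

MP_eba1ef_gt (Hadwiger's covering conjecture, very famous). Goal: every convex body in `ℝ⁴` with
infinitely many affine symmetries is covered by `2⁴` translates of its interior. The geometric core
(certificates for the directions) is done by helper768; the statements below are the independent
parts.
-/

set_option autoImplicit false

open Set Topology Module

namespace Pool.Agent.H768.C4

/-- **FLOW.** A convex body with infinitely many affine symmetries is invariant under a one-parameter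
group of affine maps which fix an interior point.

Proof. (1) An affine `g` with `g '' K = K` is bijective (`K` has interior points). Let `μ` be an
additive Haar measure, `c = ⨍ x in K, x ∂μ` the centroid. As `μ (g '' K) = |det| μ K` and
`0 < μ K < ∞`, `|det g.linear| = 1`, so `g` preserves `μ` and `g c = c` for all symmetries `g`; and
`c ∈ interior K` (`Convex.average_mem_interior_of_set`, or: if `c` is not an interior point there is
`f ≠ 0` with `f x ≤ f c` on `K`, and the average of `f c - f x ≥ 0` is `0`, so `f` is constant on `K`).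
(2) Let `K' = {v | c + v ∈ K}`, `0 ∈ interior K'`. The linear parts `A` of the symmetries are
infinitely many linear maps with `A '' K' = K'`. They and their inverses have norm `≤ R/ρ` if
`ball 0 ρ ⊆ K' ⊆ ball 0 R`. Take a sequence of different ones, by compactness (finite dimension) a
subsequence converges to some `A`, which is invertible (the inverses converge along a subsequence).
Then `B n = (A n)⁻¹ * A (n+1) → 1`, `B n ≠ 1`, `B n '' K' = K'`.
(3) `X n = B n - 1 → 0`, `t n = ‖X n‖ > 0`, a subsequence of `(t n)⁻¹ • X n` converges to `X`,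
`‖X‖ = 1`. For `t ≥ 0` and `m n = ⌊t / t n⌋₊` we have `(B n) ^ (m n) → exp (t • X)`, because
`‖(1 + x) ^ m - exp (m • x)‖ ≤ m * ‖1 + x - exp x‖ * exp ((m - 1) ‖x‖)`,
`‖exp x - 1 - x‖ ≤ ‖x‖ ^ 2 * exp ‖x‖`, and `m n • X n → t • X`. As `K'` is closed, `exp (t • X)` maps
`K'` to itself. For `t < 0` use `(B n)⁻¹`, for which `((B n)⁻¹ - 1) / ‖·‖ → -X`. -/
def S_flow : Prop := ∀ (V : Type) [NormedAddCommGroup V] [NormedSpace ℝ V] [FiniteDimensional ℝ V]
  (K : Set V), Convex ℝ K → IsCompact K → (interior K).Nonempty →
  {g : V →ᵃ[ℝ] V | g '' K = K}.Infinite →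
  ∃ c ∈ interior K, ∃ X : V →L[ℝ] V, X ≠ 0 ∧
    ∀ (t : ℝ) (v : V), c + v ∈ K → c + NormedSpace.exp (t • X) v ∈ K

/-- **FORM.** The normal form of a bounded linear flow in dimension four.

Proof. (1) From `ball 0 ρ ⊆ K ⊆ ball 0 R` we get `‖exp (t • X)‖ ≤ R/ρ =: C` for all real `t`.
(2) Take some inner product `⟪,⟫` on `V` (transport to `EuclideanSpace ℝ (Fin 4)`), and
`B x y = lim (1/T) ∫ t in 0..T, ⟪exp (tX) x, exp (tX) y⟫`, the limit along an ultrafilter `≤ atTop`
(the means are bounded; `Filter.hyperfilter` or `Ultrafilter.of`). `B` is bilinear, symmetric,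
`B x x ≥ c ‖x‖²` with `c > 0` (because `‖x‖ ≤ C ‖exp (tX) x‖`), and `B (exp (sX) x) (exp (sX) y) = B x y`
(shifting the interval by `s` changes the mean by `O(1/T)`). Differentiating at `s = 0`:
`B (X x) y = - B x (X y)`. [Any other construction of an invariant inner product is fine.]
(3) In a `B`-orthonormal basis `X` is a skew matrix `A`. `-A²` is symmetric positive semidefinite;
let `v` be a unit eigenvector for its largest eigenvalue `α²`, `α > 0` as `A ≠ 0`. `w = A v / α` is a
unit vector orthogonal to `v`, `A w = -α v`. The orthogonal complement `U` of `span {v, w}` is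
invariant; let `x ∈ U` be a unit eigenvector of `-A²`, with eigenvalue `β² ≤ α²`, `β ≥ 0`. If `β > 0`
let `y = A x / β`, so `A y = -β x`. If `β = 0` then `A x = 0`; let `y ∈ U` be a unit vector orthogonal to
`x`; `A y` is orthogonal to `y`, `x`, `v`, `w`, so `A y = 0`.
(4) `e (a + b i, c + d i) = a v + b w + c x + d y`. Then `X (e z) = e (i α z₁, i β z₂)`, and so
`exp (t • X) (e z) = e (exp (i α t) z₁, exp (i β t) z₂)` (uniqueness for linear ODEs, or both sides
as power series, or `exp` of a block matrix). -/
def S_form : Prop := ∀ (V : Type) [NormedAddCommGroup V] [NormedSpace ℝ V] [FiniteDimensional ℝ V],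
  finrank ℝ V = 4 → ∀ (K : Set V), IsCompact K → (0 : V) ∈ interior K → ∀ X : V →L[ℝ] V, X ≠ 0 →
  (∀ (t : ℝ), ∀ v ∈ K, NormedSpace.exp (t • X) v ∈ K) →
  ∃ (e : (ℂ × ℂ) ≃ₗ[ℝ] V) (α β : ℝ), 0 < α ∧ 0 ≤ β ∧ β ≤ α ∧ ∀ (t : ℝ) (z : ℂ × ℂ),
    NormedSpace.exp (t • X) (e z)
      = e (Complex.exp ((α * t : ℝ) * Complex.I) * z.1, Complex.exp ((β * t : ℝ) * Complex.I) * z.2)

/-- **ROT.** Bodies in `ℂ × ℂ` which are invariant under the rotations of the first coordinate.

Proof. This is a case of the library theorem
`Pool.Graph.R_seed8.Results.MP_eba1ef_gt.UnconditionalSums` (`k = 2`, `r = 1`, `m = 2`, `L` = the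
closed unit disc): `K` only depends on `(z₂, ‖z₁‖)`; the section `B` by `z₁ = 0` is a planar convex
body with `c(B) ≤ 4` (Levi's theorem, in the library: look at the modules used for the planar case,
e.g. zgrep in libres.tsv.gz / libmod.tsv.gz), and `c(L) + 1 ≤ 4`. The work is the transport
between the types; a direct proof is also possible (directions `(R a, b)` with `a` in a set of three
directions of the disc or `a = 0`, and `b` in a set of four directions for `B`, `R` large). -/
def S_rot : Prop := ∀ K : Set (ℂ × ℂ), Convex ℝ K → IsCompact K → (interior K).Nonempty →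
  (∀ (θ : ℝ), ∀ z ∈ K, (Complex.exp (θ * Complex.I) * z.1, z.2) ∈ K) → Cov 16 K

end Pool.Agent.H768.C4
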