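import Mathlib

/-! # A certificate checker for the directions of circled bodies in `ℂ²` -/

set_option autoImplicit false

namespace Pool.Agent.H768.C4

/-- certificate trees: a leaf names a direction, the other nodes bisect one of the three parameters -/
inductive Tr where
  | l (k : ℕ) : Tr
  | s (a b : Tr) : Tr
  | u (a b : Tr) : Tr
  | r (a b : Tr) : Tr

/-- the five directions (real and imaginary parts) -/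
def ds : ℕ → ℤ × ℤ × ℤ × ℤ
  | 0 => (10, 0, 9, 0)
  | 1 => (9, 0, -10, 0)
  | 2 => (9, 9, 10, -10)
  | 3 => (10, -10, -9, -9)
  | _ => (0, 10, 0, -9)

/-- the corners of a polygon containing the right half of the unit disc (times `70`) -/
def cs : List (ℤ × ℤ) := [(0, 70), (0, -70), (29, 70), (29, -70), (70, 29), (70, -29)]

def F1 (w : ℤ × ℤ × ℤ × ℤ) (c : ℤ × ℤ) (s : ℤ × ℤ) (r : ℤ) : ℤ :=
  (w.1 * (4480 - r * c.1) + w.2.1 * (r * c.2)) * (1638400 - s.1 * s.2)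
    - (w.2.1 * (4480 - r * c.1) - w.1 * (r * c.2)) * (1280 * (s.1 + s.2))

def F2 (w : ℤ × ℤ × ℤ × ℤ) (c : ℤ × ℤ) (u : ℤ × ℤ) : ℤ :=
  64 * (-(c.1 * w.2.2.2 + c.2 * w.2.2.1) * (65536 - u.1 * u.2)
    - (c.1 * w.2.2.1 - c.2 * w.2.2.2) * (256 * (u.1 + u.2)))

def leafOK (k : ℕ) (s0 s1 u0 u1 r0 r1 : ℤ) : Bool :=
  cs.all fun c => [r0, r1].all fun r => [(s0, s0), (s0, s1), (s1, s1)].all fun s =>
    [(u0, u0), (u0, u1), (u1, u1)].all fun u =>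
      decide (0 < F1 (ds k) c s r * (65536 + u.1 * u.2) + F2 (ds k) c u * (1638400 + s.1 * s.2))

def check : Tr → ℤ → ℤ → ℤ → ℤ → ℤ → ℤ → Bool
  | .l k, s0, s1, u0, u1, r0, r1 => leafOK k s0 s1 u0 u1 r0 r1
  | .s a b, s0, s1, u0, u1, r0, r1 =>
      check a s0 ((s0 + s1) / 2) u0 u1 r0 r1 && check b ((s0 + s1) / 2) s1 u0 u1 r0 r1
  | .u a b, s0, s1, u0, u1, r0, r1 =>
      check a s0 s1 u0 ((u0 + u1) / 2) r0 r1 && check b s0 s1 ((u0 + u1) / 2) u1 r0 r1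
  | .r a b, s0, s1, u0, u1, r0, r1 =>
      check a s0 s1 u0 u1 r0 ((r0 + r1) / 2) && check b s0 s1 u0 u1 ((r0 + r1) / 2) r1

def tree : Tr :=
  (.u (.u (.r (.l 0) (.u (.l 0) (.s (.r (.l 0) (.u (.l 0) (.s (.r (.l 0) (.u (.l 0) (.l 2))) (.l 0))))
  (.l 0)))) (.r (.u (.s (.l 2) (.l 0)) (.s (.r (.u (.l 2) (.s (.l 2) (.r (.l 0) (.l 2)))) (.l 2)) (.r
  (.u (.l 0) (.s (.r (.l 0) (.l 3)) (.l 0))) (.l 3)))) (.u (.s (.r (.l 2) (.u (.s (.l 2) (.r (.l 0)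
  (.u (.l 0) (.s (.l 2) (.l 0))))) (.l 2))) (.r (.l 0) (.u (.l 0) (.s (.r (.l 0) (.u (.l 0) (.l 3)))
  (.l 0))))) (.s (.l 2) (.l 3))))) (.u (.r (.u (.s (.r (.u (.s (.r (.u (.l 4) (.s (.l 4) (.r (.u (.l
  4) (.s (.l 4) (.l 3))) (.l 4)))) (.u (.l 2) (.l 4))) (.r (.u (.s (.r (.l 0) (.u (.s (.l 2) (.l 3))
  (.l 3))) (.r (.l 0) (.l 3))) (.l 3)) (.l 3))) (.s (.r (.u (.s (.r (.u (.l 4) (.s (.l 4) (.l 3))) (.l
  4)) (.l 3)) (.l 3)) (.l 3)) (.l 3))) (.u (.s (.l 2) (.l 3)) (.l 3))) (.l 3)) (.s (.r (.l 3) (.l 1))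
  (.l 3))) (.u (.s (.r (.u (.l 2) (.s (.r (.l 3) (.u (.l 2) (.s (.l 1) (.l 2)))) (.l 3))) (.u (.l 2)
  (.s (.r (.u (.l 2) (.s (.r (.l 1) (.u (.l 2) (.l 1))) (.l 2))) (.u (.l 2) (.s (.r (.u (.l 2) (.l 1))
  (.u (.l 2) (.l 1))) (.l 2)))) (.l 2)))) (.l 3)) (.s (.r (.u (.s (.l 1) (.r (.l 3) (.u (.l 3) (.l
  1)))) (.l 1)) (.u (.s (.l 1) (.r (.u (.s (.r (.l 3) (.u (.l 2) (.l 1))) (.l 3)) (.s (.l 1) (.l 3)))
  (.u (.s (.r (.l 2) (.u (.l 2) (.s (.l 1) (.r (.l 2) (.u (.l 2) (.l 1)))))) (.l 2)) (.s (.l 1) (.r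
  (.u (.l 3) (.l 1)) (.u (.s (.r (.u (.l 3) (.l 1)) (.u (.s (.l 1) (.l 3)) (.l 1))) (.l 3)) (.s (.l 1)
  (.r (.l 1) (.u (.l 3) (.l 1)))))))))) (.l 1))) (.r (.l 3) (.u (.l 3) (.s (.r (.u (.l 3) (.l 1)) (.u
  (.s (.r (.l 3) (.u (.l 3) (.l 1))) (.l 3)) (.s (.l 1) (.l 3)))) (.l 3))))))) (.r (.l 1) (.u (.s (.l
  1) (.r (.u (.s (.l 1) (.l 3)) (.l 1)) (.u (.s (.l 1) (.r (.l 3) (.u (.l 3) (.s (.l 1) (.l 3))))) (.l
  1)))) (.l 1)))))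

theorem check_tree : check tree (-256) 256 (-256) 256 0 64 = true := by
  decide +kernel

end Pool.Agent.H768.C4
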