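import Mathlib

/-! # A certificate checker for directions, with four parameters and multipliers -/

set_option autoImplicit false

namespace Pool.Agent.H768.C4.E

/-- a form `a + b r + c q + d r q` -/
structure Q4 where
  a : ℤ
  b : ℤ
  c : ℤ
  d : ℤ

/-- certificate trees: a leaf names a direction and multipliers, the other nodes bisect one of the
four parameters; `v` is a vacuous leaf -/
inductive Tr where
  | l (k : ℕ) (m : List (ℤ × ℕ)) : Tr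
  | v : Tr
  | s (a b : Tr) : Tr
  | u (a b : Tr) : Tr
  | r (a b : Tr) : Tr
  | q (a b : Tr) : Tr

/-- the data of one inequality `X₁ E - Y₁ S + X₂ F - Y₂ G - K > 0` -/
structure CV where
  X1 : Q4
  Y1 : Q4
  X2 : Q4
  Y2 : Q4
  K : Q4

/-- value of a form at `(R / 64, Q / 64)`, times `4096` -/
def Q4.ev (x : Q4) (R Q : ℤ) : ℤ :=
  Int.add (Int.mul (Int.add (Int.mul x.a 64) (Int.mul x.b R)) 64)
    (Int.mul (Int.add (Int.mul x.c 64) (Int.mul x.d R)) Q)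

/-- the three pairs of a range, for the second variable -/
def pr (a b : ℤ) : List (ℤ × ℤ) := [(a, a), (a, b), (b, b)]

def lt0 (x : ℤ) : Bool := match x with
  | Int.ofNat n => Nat.blt 0 n
  | Int.negSucc _ => false

def chk1 (x1 y1 x2 y2 k s0 s1 u0 u1 : ℤ) : Bool :=
  (pr s0 s1).all fun s => (pr u0 u1).all fun u =>
    lt0 (Int.sub (Int.add (Int.mul (Int.sub (Int.mul x1 (Int.sub 1638400 (Int.mul s.1 s.2)))
      (Int.mul y1 (Int.mul 1280 (Int.add s.1 s.2)))) (Int.add 65536 (Int.mul u.1 u.2)))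
      (Int.mul (Int.sub (Int.neg (Int.mul y2 (Int.sub 65536 (Int.mul u.1 u.2))))
      (Int.mul x2 (Int.mul 256 (Int.add u.1 u.2)))) (Int.add 1638400 (Int.mul s.1 s.2))))
      (Int.mul (Int.mul k (Int.add 1638400 (Int.mul s.1 s.2))) (Int.add 65536 (Int.mul u.1 u.2))))

def chkCV (c : CV) (s0 s1 u0 u1 r0 r1 q0 q1 : ℤ) : Bool :=
  [r0, r1].all fun R => [q0, q1].all fun Q =>
    chk1 (c.X1.ev R Q) (c.Y1.ev R Q) (c.X2.ev R Q) (c.Y2.ev R Q) (c.K.ev R Q) s0 s1 u0 u1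

section

variable (dat : ℕ → List (ℤ × ℕ) → ℤ → List CV) (vac : ℤ → ℤ → ℤ → ℤ → Bool)

def check : Tr → ℤ → ℤ → ℤ → ℤ → ℤ → ℤ → ℤ → ℤ → Bool
  | .l k m, s0, s1, u0, u1, r0, r1, q0, q1 =>
      (dat k m q1).all fun c => chkCV c s0 s1 u0 u1 r0 r1 q0 q1
  | .v, _, _, _, _, r0, r1, q0, q1 => vac r0 r1 q0 q1
  | .s a b, s0, s1, u0, u1, r0, r1, q0, q1 =>
      check a s0 ((s0 + s1) / 2) u0 u1 r0 r1 q0 q1 && check b ((s0 + s1) / 2) s1 u0 u1 r0 r1 q0 q1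
  | .u a b, s0, s1, u0, u1, r0, r1, q0, q1 =>
      check a s0 s1 u0 ((u0 + u1) / 2) r0 r1 q0 q1 && check b s0 s1 ((u0 + u1) / 2) u1 r0 r1 q0 q1
  | .r a b, s0, s1, u0, u1, r0, r1, q0, q1 =>
      check a s0 s1 u0 u1 r0 ((r0 + r1) / 2) q0 q1 && check b s0 s1 u0 u1 ((r0 + r1) / 2) r1 q0 q1
  | .q a b, s0, s1, u0, u1, r0, r1, q0, q1 =>
      check a s0 s1 u0 u1 r0 r1 q0 ((q0 + q1) / 2) && check b s0 s1 u0 u1 r0 r1 ((q0 + q1) / 2) q1

end

/-! ### soundness -/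

theorem lt0_iff (x : ℤ) : lt0 x = true ↔ 0 < x := by
  cases x with
  | ofNat n => simp [lt0, Nat.blt_eq]
  | negSucc n => simp [lt0]

/-- the real value of a form -/
def Q4.re (x : Q4) (r q : ℝ) : ℝ := x.a + x.b * r + x.c * q + x.d * r * q

theorem Q4.ev_re (x : Q4) (R Q : ℤ) : ((x.ev R Q : ℤ) : ℝ) = 4096 * x.re (R / 64) (Q / 64) := by
  have : x.ev R Q = (x.a * 64 + x.b * R) * 64 + (x.c * 64 + x.d * R) * Q := rfl
  rw [this]
  push_cast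
  simp only [Q4.re]; ring

/-- the blossomed value -/
noncomputable def HH (x1 y1 x2 y2 k s s' u u' : ℝ) : ℝ :=
  (x1 * (1638400 - s * s') - y1 * (1280 * (s + s'))) * (65536 + u * u')
      + (-(y2 * (65536 - u * u')) - x2 * (256 * (u + u'))) * (1638400 + s * s')
      - k * (1638400 + s * s') * (65536 + u * u')

theorem aff {f : ℝ → ℝ} (hf : ∀ x, f x = f 0 + (f 1 - f 0) * x) {a b x : ℝ} (hax : a ≤ x)
    (hxb : x ≤ b) (ha : 0 < f a) (hb : 0 < f b) : 0 < f x := by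
  rcases eq_or_lt_of_le hax with h | h
  · rw [← h]; exact ha
  · have hab : 0 < b - a := by linarith
    have h1 := hf x
    have h2 := hf a
    have h3 := hf b
    have key : (b - a) * f x = (b - x) * f a + (x - a) * f b := by
      rw [h1, h2, h3]; ring
    have : 0 < (b - a) * f x := by
      rw [key]
      have := mul_nonneg (sub_nonneg.2 hxb) ha.le
      have := mul_pos (sub_pos.2 h) hb
      linarith
    exact (mul_pos_iff_of_pos_left hab).1 this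

theorem HH_u (x1 y1 x2 y2 k s s' u : ℝ) : ∀ u', HH x1 y1 x2 y2 k s s' u u'
    = HH x1 y1 x2 y2 k s s' u 0 + (HH x1 y1 x2 y2 k s s' u 1 - HH x1 y1 x2 y2 k s s' u 0) * u' := by
  intro r; simp only [HH]; ring

theorem HH_s (x1 y1 x2 y2 k s u u' : ℝ) : ∀ s', HH x1 y1 x2 y2 k s s' u u'
    = HH x1 y1 x2 y2 k s 0 u u' + (HH x1 y1 x2 y2 k s 1 u u' - HH x1 y1 x2 y2 k s 0 u u') * s' := by
  intro r; simp only [HH]; ring

theorem HH_usymm (x1 y1 x2 y2 k s s' u u' : ℝ) :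
    HH x1 y1 x2 y2 k s s' u u' = HH x1 y1 x2 y2 k s s' u' u := by
  simp only [HH]; ring

theorem HH_ssymm (x1 y1 x2 y2 k s s' u u' : ℝ) :
    HH x1 y1 x2 y2 k s s' u u' = HH x1 y1 x2 y2 k s' s u u' := by
  simp only [HH]; ring

theorem HH_box {x1 y1 x2 y2 k s0 s1 u0 u1 : ℝ}
    (h : ∀ s ∈ [(s0, s0), (s0, s1), (s1, s1)], ∀ u ∈ [(u0, u0), (u0, u1), (u1, u1)],
      0 < HH x1 y1 x2 y2 k s.1 s.2 u.1 u.2)
    {s u : ℝ} (hs0 : s0 ≤ s) (hs1 : s ≤ s1) (hu0 : u0 ≤ u) (hu1 : u ≤ u1) :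
    0 < HH x1 y1 x2 y2 k s s u u := by
  have h2 : ∀ s ∈ [(s0, s0), (s0, s1), (s1, s1)], 0 < HH x1 y1 x2 y2 k s.1 s.2 u u := by
    intro s hs
    have e1 : 0 < HH x1 y1 x2 y2 k s.1 s.2 u0 u :=
      aff (HH_u x1 y1 x2 y2 k s.1 s.2 u0) hu0 hu1 (h s hs (u0, u0) (by simp))
        (h s hs (u0, u1) (by simp))
    have e2 : 0 < HH x1 y1 x2 y2 k s.1 s.2 u1 u := by
      refine aff (HH_u x1 y1 x2 y2 k s.1 s.2 u1) hu0 hu1 ?_ (h s hs (u1, u1) (by simp))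
      rw [HH_usymm]; exact h s hs (u0, u1) (by simp)
    refine aff (HH_u x1 y1 x2 y2 k s.1 s.2 u) hu0 hu1 ?_ ?_
    · rw [HH_usymm]; exact e1
    · rw [HH_usymm]; exact e2
  have e1 : 0 < HH x1 y1 x2 y2 k s0 s u u :=
    aff (HH_s x1 y1 x2 y2 k s0 u u) hs0 hs1 (h2 (s0, s0) (by simp)) (h2 (s0, s1) (by simp))
  have e2 : 0 < HH x1 y1 x2 y2 k s1 s u u := by
    refine aff (HH_s x1 y1 x2 y2 k s1 u u) hs0 hs1 ?_ (h2 (s1, s1) (by simp))
    rw [HH_ssymm]; exact h2 (s0, s1) (by simp)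
  refine aff (HH_s x1 y1 x2 y2 k s u u) hs0 hs1 ?_ ?_
  · rw [HH_ssymm]; exact e1
  · rw [HH_ssymm]; exact e2

theorem chk1_sound {x1 y1 x2 y2 k s0 s1 u0 u1 : ℤ} (h : chk1 x1 y1 x2 y2 k s0 s1 u0 u1 = true)
    {s u : ℝ} (hs0 : (s0 : ℝ) ≤ s) (hs1 : s ≤ s1) (hu0 : (u0 : ℝ) ≤ u) (hu1 : u ≤ u1) :
    0 < HH x1 y1 x2 y2 k s s u u := by
  simp only [chk1, List.all_eq_true, lt0_iff] at h
  refine HH_box ?_ hs0 hs1 hu0 hu1
  have key : ∀ s ∈ pr s0 s1, ∀ u ∈ pr u0 u1,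
      0 < HH (x1 : ℝ) y1 x2 y2 k (s.1 : ℝ) (s.2 : ℝ) (u.1 : ℝ) (u.2 : ℝ) := by
    intro s hs u hu
    have h2 : (0 : ℤ) < (x1 * (1638400 - s.1 * s.2) - y1 * (1280 * (s.1 + s.2)))
        * (65536 + u.1 * u.2)
      + (-(y2 * (65536 - u.1 * u.2)) - x2 * (256 * (u.1 + u.2))) * (1638400 + s.1 * s.2)
      - k * (1638400 + s.1 * s.2) * (65536 + u.1 * u.2) := h s hs u hu
    have h3 : (0 : ℝ) < (((x1 * (1638400 - s.1 * s.2) - y1 * (1280 * (s.1 + s.2)))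
        * (65536 + u.1 * u.2)
      + (-(y2 * (65536 - u.1 * u.2)) - x2 * (256 * (u.1 + u.2))) * (1638400 + s.1 * s.2)
      - k * (1638400 + s.1 * s.2) * (65536 + u.1 * u.2) : ℤ) : ℝ) := by exact_mod_cast h2
    push_cast at h3
    simp only [HH]
    exact h3
  intro s hs u hu
  simp only [List.mem_cons, List.not_mem_nil, or_false] at hs hu
  rcases hs with rfl | rfl | rfl <;> rcases hu with rfl | rfl | rfl <;>
    exact key (_, _) (by simp [pr]) (_, _) (by simp [pr])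

theorem Q4.re_r (x : Q4) (q : ℝ) : ∀ r, x.re r q = x.re 0 q + (x.re 1 q - x.re 0 q) * r := by
  intro r; simp only [Q4.re]; ring

theorem Q4.re_q (x : Q4) (r : ℝ) : ∀ q, x.re r q = x.re r 0 + (x.re r 1 - x.re r 0) * q := by
  intro r; simp only [Q4.re]; ring

/-- the value of an inequality -/
noncomputable def CV.H (c : CV) (s u r q : ℝ) : ℝ :=
  HH (c.X1.re r q) (c.Y1.re r q) (c.X2.re r q) (c.Y2.re r q) (c.K.re r q) s s u u

theorem chkCV_sound {c : CV} {s0 s1 u0 u1 r0 r1 q0 q1 : ℤ}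
    (h : chkCV c s0 s1 u0 u1 r0 r1 q0 q1 = true)
    {s u r q : ℝ} (hs0 : (s0 : ℝ) ≤ s) (hs1 : s ≤ s1) (hu0 : (u0 : ℝ) ≤ u) (hu1 : u ≤ u1)
    (hr0 : (r0 : ℝ) ≤ 64 * r) (hr1 : 64 * r ≤ r1) (hq0 : (q0 : ℝ) ≤ 64 * q) (hq1 : 64 * q ≤ q1) :
    0 < c.H s u r q := by
  simp only [chkCV, List.all_eq_true] at h
  have h1 : ∀ R ∈ [r0, r1], ∀ Q ∈ [q0, q1], 0 < c.H s u ((R : ℝ) / 64) ((Q : ℝ) / 64) := by
    intro R hR Q hQ
    have := chk1_sound (h R hR Q hQ) hs0 hs1 hu0 hu1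
    simp only [Q4.ev_re] at this
    have e : HH (4096 * c.X1.re (R / 64) (Q / 64)) (4096 * c.Y1.re (R / 64) (Q / 64))
        (4096 * c.X2.re (R / 64) (Q / 64)) (4096 * c.Y2.re (R / 64) (Q / 64))
        (4096 * c.K.re (R / 64) (Q / 64)) s s u u = 4096 * c.H s u ((R : ℝ) / 64) ((Q : ℝ) / 64) := by
      simp only [CV.H, HH]; ring
    rw [e] at this
    exact (mul_pos_iff_of_pos_left (by norm_num)).1 this
  have hr : ∀ q' : ℝ, ∀ r', c.H s u r' q' = c.H s u 0 q' + (c.H s u 1 q' - c.H s u 0 q') * r' := by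
    intro q' r'
    simp only [CV.H, HH, Q4.re]; ring
  have hq : ∀ r' : ℝ, ∀ q', c.H s u r' q' = c.H s u r' 0 + (c.H s u r' 1 - c.H s u r' 0) * q' := by
    intro q' r'
    simp only [CV.H, HH, Q4.re]; ring
  have h2 : ∀ Q ∈ [q0, q1], 0 < c.H s u r ((Q : ℝ) / 64) := by
    intro Q hQ
    exact aff (hr _) (by linarith : (r0 : ℝ) / 64 ≤ r) (by linarith : r ≤ (r1 : ℝ) / 64)
      (h1 r0 (by simp) Q hQ) (h1 r1 (by simp) Q hQ)
  exact aff (hq r) (by linarith : (q0 : ℝ) / 64 ≤ q) (by linarith : q ≤ (q1 : ℝ) / 64)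
      (h2 q0 (by simp)) (h2 q1 (by simp))

theorem check_sound {dat : ℕ → List (ℤ × ℕ) → ℤ → List CV} {vac : ℤ → ℤ → ℤ → ℤ → Bool} (t : Tr) :
    ∀ {s0 s1 u0 u1 r0 r1 q0 q1 : ℤ}, check dat vac t s0 s1 u0 u1 r0 r1 q0 q1 = true →
    ∀ {s u r q : ℝ}, (s0 : ℝ) ≤ s → s ≤ s1 → (u0 : ℝ) ≤ u → u ≤ u1 → (r0 : ℝ) ≤ 64 * r →
    64 * r ≤ r1 → (q0 : ℝ) ≤ 64 * q → 64 * q ≤ q1 →
    (∃ k m, ∃ q2 : ℤ, 64 * q ≤ q2 ∧ q2 ≤ q1 ∧ ∀ c ∈ dat k m q2, 0 < c.H s u r q) ∨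
      ∃ r0' r1' q0' q1' : ℤ, vac r0' r1' q0' q1' = true ∧ (r0' : ℝ) ≤ 64 * r ∧ 64 * r ≤ r1' ∧
        (q0' : ℝ) ≤ 64 * q ∧ 64 * q ≤ q1' := by
  induction t with
  | l k m =>
    intro s0 s1 u0 u1 r0 r1 q0 q1 h s u r q a b c d e f g i
    left
    simp only [check, List.all_eq_true] at h
    exact ⟨k, m, q1, i, le_refl _, fun c' hc => chkCV_sound (h c' hc) a b c d e f g i⟩
  | v =>
    intro s0 s1 u0 u1 r0 r1 q0 q1 h s u r q a b c d e f g i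
    exact Or.inr ⟨r0, r1, q0, q1, h, e, f, g, i⟩
  | s A B iA iB =>
    intro s0 s1 u0 u1 r0 r1 q0 q1 h s u r q a b c d e f g i
    simp only [check, Bool.and_eq_true] at h
    rcases le_total s (((s0 + s1) / 2 : ℤ) : ℝ) with j | j
    · exact iA h.1 a j c d e f g i
    · exact iB h.2 j b c d e f g i
  | u A B iA iB =>
    intro s0 s1 u0 u1 r0 r1 q0 q1 h s u r q a b c d e f g i
    simp only [check, Bool.and_eq_true] at h
    rcases le_total u (((u0 + u1) / 2 : ℤ) : ℝ) with j | j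
    · exact iA h.1 a b c j e f g i
    · exact iB h.2 a b j d e f g i
  | r A B iA iB =>
    intro s0 s1 u0 u1 r0 r1 q0 q1 h s u r q a b c d e f g i
    simp only [check, Bool.and_eq_true] at h
    rcases le_total (64 * r) (((r0 + r1) / 2 : ℤ) : ℝ) with j | j
    · exact iA h.1 a b c d e j g i
    · exact iB h.2 a b c d j f g i
  | q A B iA iB =>
    intro s0 s1 u0 u1 r0 r1 q0 q1 h s u r q a b c d e f g i
    simp only [check, Bool.and_eq_true] at h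
    rcases le_total (64 * q) (((q0 + q1) / 2 : ℤ) : ℝ) with j | j
    · rcases iA h.1 a b c d e f g j with ⟨k, m, q2, h1, h2, h3⟩ | h
      · rcases le_total (((q0 + q1) / 2 : ℤ) : ℝ) (q1 : ℝ) with j' | j'
        · exact Or.inl ⟨k, m, q2, h1, h2.trans (by exact_mod_cast j'), h3⟩
        · exact Or.inl ⟨k, m, q2, h1, h2.trans (by
            by_contra hcon
            push Not at hcon
            have h5 : q0 ≤ q1 := by
              have : (q0 : ℝ) ≤ q1 := g.trans i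
              exact_mod_cast this
            omega), h3⟩
      · exact Or.inr h
    · exact iB h.2 a b c d e f j i

/-- interpretation of the value for unit vectors `(E, S)`, `(F, G)` -/
theorem CV.H_pos {c : CV} {E S F G r q : ℝ} (hes : E ^ 2 + S ^ 2 = 1) (hfg : F ^ 2 + G ^ 2 = 1)
    (hE : 0 < 1 + E) (hG : 0 < 1 + G)
    (h : 0 < c.H (1280 * (S / (1 + E))) (256 * (-F / (1 + G))) r q) :
    0 < c.X1.re r q * E - c.Y1.re r q * S + c.X2.re r q * F - c.Y2.re r q * G - c.K.re r q := by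
  have e1 : 1 - (S / (1 + E)) ^ 2 = (1 + (S / (1 + E)) ^ 2) * E := by
    field_simp
    nlinarith
  have e2 : 2 * (S / (1 + E)) = (1 + (S / (1 + E)) ^ 2) * S := by
    field_simp
    linear_combination (-S) * hes
  have f1 : 1 - (-F / (1 + G)) ^ 2 = (1 + (-F / (1 + G)) ^ 2) * G := by
    field_simp
    nlinarith
  have f2 : -(2 * (-F / (1 + G))) = (1 + (-F / (1 + G)) ^ 2) * F := by
    field_simp
    linear_combination (-F) * hfg
  set s := S / (1 + E) with hs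
  set u := -F / (1 + G) with hu
  have E1 : (1638400 : ℝ) - 1280 * s * (1280 * s) = 1638400 * ((1 + s ^ 2) * E) := by
    rw [← e1]; ring
  have E2 : (1280 : ℝ) * (1280 * s + 1280 * s) = 1638400 * ((1 + s ^ 2) * S) := by
    rw [← e2]; ring
  have U1 : (65536 : ℝ) - 256 * u * (256 * u) = 65536 * ((1 + u ^ 2) * G) := by
    rw [← f1]; ring
  have U2 : (256 : ℝ) * (256 * u + 256 * u) = -(65536 * ((1 + u ^ 2) * F)) := by
    rw [← f2]; ring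
  have E3 : (1638400 : ℝ) + 1280 * s * (1280 * s) = 1638400 * (1 + s ^ 2) := by ring
  have U3 : (65536 : ℝ) + 256 * u * (256 * u) = 65536 * (1 + u ^ 2) := by ring
  have key : c.H (1280 * s) (256 * u) r q = 1638400 * 65536 * (1 + s ^ 2) * (1 + u ^ 2) *
      (c.X1.re r q * E - c.Y1.re r q * S + c.X2.re r q * F - c.Y2.re r q * G - c.K.re r q) := by
    simp only [CV.H, HH, E1, E2, E3, U1, U2, U3]
    ring
  rw [key] at h
  exact (mul_pos_iff_of_pos_left (by positivity)).1 h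

/-- **the certificate theorem** -/
theorem cert {dat : ℕ → List (ℤ × ℕ) → ℤ → List CV} {vac : ℤ → ℤ → ℤ → ℤ → Bool} {t : Tr}
    {r0 r1 q0 q1 : ℤ} (ht : check dat vac t (-256) 256 (-256) 256 r0 r1 q0 q1 = true)
    {E S F G r q : ℝ} (hes : E ^ 2 + S ^ 2 = 1) (hfg : F ^ 2 + G ^ 2 = 1)
    (hE : 0 ≤ E) (hS1 : S ≤ 5 / 12 * E) (hS2 : -S ≤ 5 / 12 * E) (hG : 0 ≤ G)
    (hr0 : (r0 : ℝ) ≤ 64 * r) (hr1 : 64 * r ≤ r1) (hq0 : (q0 : ℝ) ≤ 64 * q) (hq1 : 64 * q ≤ q1) :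
    (∃ k m, ∃ q2 : ℤ, 64 * q ≤ q2 ∧ q2 ≤ q1 ∧ ∀ c ∈ dat k m q2,
      0 < c.X1.re r q * E - c.Y1.re r q * S + c.X2.re r q * F - c.Y2.re r q * G - c.K.re r q) ∨
      ∃ r0' r1' q0' q1' : ℤ, vac r0' r1' q0' q1' = true ∧ (r0' : ℝ) ≤ 64 * r ∧ 64 * r ≤ r1' ∧
        (q0' : ℝ) ≤ 64 * q ∧ 64 * q ≤ q1' := by
  have hE1 : 0 < 1 + E := by linarith
  have hG1 : 0 < 1 + G := by linarith
  have hk1 : 5 * S ≤ 1 + E := by nlinarith
  have hk2 : -(5 * S) ≤ 1 + E := by nlinarith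
  have a1 : ((-256 : ℤ) : ℝ) ≤ 1280 * (S / (1 + E)) := by
    rw [← mul_div_assoc, le_div_iff₀ hE1]; push_cast; linarith
  have a2 : 1280 * (S / (1 + E)) ≤ ((256 : ℤ) : ℝ) := by
    rw [← mul_div_assoc, div_le_iff₀ hE1]; push_cast; linarith
  have hF1 : F ≤ 1 := by nlinarith
  have hF2 : -1 ≤ F := by nlinarith
  have b1 : ((-256 : ℤ) : ℝ) ≤ 256 * (-F / (1 + G)) := by
    rw [← mul_div_assoc, le_div_iff₀ hG1]; push_cast; linarith
  have b2 : 256 * (-F / (1 + G)) ≤ ((256 : ℤ) : ℝ) := by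
    rw [← mul_div_assoc, div_le_iff₀ hG1]; push_cast; linarith
  rcases check_sound t ht a1 a2 b1 b2 hr0 hr1 hq0 hq1 with ⟨k, m, q2, h1, h2, h3⟩ | h
  · exact Or.inl ⟨k, m, q2, h1, h2, fun c hc => CV.H_pos hes hfg hE1 hG1 (h3 c hc)⟩
  · exact Or.inr h

end Pool.Agent.H768.C4.E
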