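import Mathlib
import Pool.Agent.H768.C4.Eng

/-! # Families of inequalities without multipliers -/

set_option autoImplicit false

namespace Pool.Agent.H768.C4.E

theorem and_intro {a b : Bool} (h1 : a = true) (h2 : b = true) : (a && b) = true := by
  rw [h1, h2]; rfl

def Q4.lin (m n : ℤ) (x y : Q4) : Q4 :=
  ⟨m * x.a + n * y.a, m * x.b + n * y.b, m * x.c + n * y.c, m * x.d + n * y.d⟩

theorem Q4.lin_re (m n : ℤ) (x y : Q4) (r q : ℝ) :
    (Q4.lin m n x y).re r q = m * x.re r q + n * y.re r q := by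
  simp only [Q4.lin, Q4.re]; push_cast; ring

/-- multiples of the eighth roots of unity -/
def zt : ℕ → ℤ × ℤ
  | 0 => (1, 0)
  | 1 => (1, 1)
  | 2 => (0, 1)
  | 3 => (-1, 1)
  | 4 => (-1, 0)
  | 5 => (-1, -1)
  | 6 => (0, -1)
  | 7 => (1, -1)
  | (n + 8) => zt n

/-- the sixteen directions -/
def dir (n1 d1 n2 d2 : ℤ) (k : ℕ) : ℤ × ℤ × ℤ × ℤ :=
  if k < 8 then (d1 * (zt k).1, d1 * (zt k).2, n1 * (zt (3 * k)).1, n1 * (zt (3 * k)).2)
  else (-n2 * (zt (3 * (k - 8))).1, -n2 * (zt (3 * (k - 8))).2, d2 * (zt (k - 8)).1,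
    d2 * (zt (k - 8)).2)

/-- the functions `α₁ = (a₀ + a₁ x, a₂ y)`, `α₂ = (b₀ + b₁ x, b₂ y)` and a symmetric polygon with
vertices `(x / K, ± h / K)` -/
structure Fm where
  a0 : Q4
  a1 : Q4
  a2 : Q4
  b0 : Q4
  b1 : Q4
  b2 : Q4
  K : ℤ
  cor : List (ℤ × ℤ)

def Fm.cv (f : Fm) (w : ℤ × ℤ × ℤ × ℤ) (x h : ℤ) : CV :=
  let p1 := Q4.lin f.K x f.a0 f.a1
  let p2 := Q4.lin h 0 f.a2 f.a2
  let p3 := Q4.lin f.K x f.b0 f.b1
  let p4 := Q4.lin h 0 f.b2 f.b2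
  ⟨Q4.lin w.1 (-w.2.1) p1 p2, Q4.lin w.1 w.2.1 p2 p1, Q4.lin w.2.2.1 (-w.2.2.2) p3 p4,
    Q4.lin w.2.2.1 w.2.2.2 p4 p3, ⟨0, 0, 0, 0⟩⟩

def Fm.dat (f : Fm) (n1 d1 n2 d2 : ℤ) (k : ℕ) (_ : List (ℤ × ℕ)) (_ : ℤ) : List CV :=
  let w := dir n1 d1 n2 d2 k
  f.cor.flatMap fun c => [f.cv w c.1 c.2, f.cv w c.1 (-c.2)]

/-- the value of the direction `w = (a + b i, c + d i)` on the functional
`((A₁ + A₂ i) (E + S i), (B₁ + B₂ i) (F + G i))` -/
def VV (w : ℤ × ℤ × ℤ × ℤ) (E S F G A1 A2 B1 B2 : ℝ) : ℝ :=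
  A1 * (w.1 * E - w.2.1 * S) - A2 * (w.1 * S + w.2.1 * E)
    + B1 * (w.2.2.1 * F - w.2.2.2 * G) - B2 * (w.2.2.1 * G + w.2.2.2 * F)

/-- the region above a chain of points, symmetric about the first axis -/
def InPoly : List (ℤ × ℤ) → ℝ → ℝ → Prop
  | p :: q :: l, x, y => ((p.1 : ℝ) < q.1 ∧ (p.1 : ℝ) ≤ x ∧ x ≤ q.1 ∧
      |y| * (q.1 - p.1) ≤ p.2 * (q.1 - x) + q.2 * (x - p.1)) ∨ InPoly (q :: l) x y
  | _, _, _ => False

theorem InPoly.pos {l : List (ℤ × ℤ)} {c0 c1 c2 : ℝ}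
    (h : ∀ p ∈ l, 0 < c0 + c1 * p.1 + c2 * p.2 ∧ 0 < c0 + c1 * p.1 - c2 * p.2) {x y : ℝ}
    (hxy : InPoly l x y) : 0 < c0 + c1 * x + c2 * y := by
  induction l with
  | nil => exact hxy.elim
  | cons p l ih =>
    cases l with
    | nil => exact hxy.elim
    | cons q l =>
      rcases hxy with ⟨h1, h2, h3, h4⟩ | hxy
      · have hp := h p (by simp)
        have hq := h q (by simp)
        have key : ∀ z : ℝ × ℝ, 0 < c0 + c1 * z.1 + c2 * z.2 → 0 < c0 + c1 * z.1 - c2 * z.2 →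
            0 < c0 + c1 * z.1 - |c2| * z.2 := by
          intro z a b
          rcases abs_cases c2 with ⟨e, _⟩ | ⟨e, _⟩
          · rw [e]; exact b
          · rw [e]; linarith
        have kp := key (p.1, p.2) hp.1 hp.2
        have kq := key (q.1, q.2) hq.1 hq.2
        simp only at kp kq
        have hd : (0 : ℝ) < q.1 - p.1 := by linarith
        have e1 : c2 * y ≥ -(|c2| * |y|) := by
          have := neg_abs_le (c2 * y)
          rw [abs_mul] at this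
          exact this
        have e2 : |c2| * (|y| * (q.1 - p.1)) ≤ |c2| * (p.2 * (q.1 - x) + q.2 * (x - p.1)) :=
          mul_le_mul_of_nonneg_left h4 (abs_nonneg _)
        have e3 : 0 < ((q.1 : ℝ) - p.1) * (c0 + c1 * x + c2 * y) := by
          have s1 : ((q.1 : ℝ) - p.1) * (c0 + c1 * x + c2 * y)
              ≥ (q.1 - x) * (c0 + c1 * p.1 - |c2| * p.2) + (x - p.1) * (c0 + c1 * q.1 - |c2| * q.2) := by
            have : ((q.1 : ℝ) - p.1) * (c2 * y) ≥ ((q.1 : ℝ) - p.1) * (-(|c2| * |y|)) :=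
              mul_le_mul_of_nonneg_left e1 hd.le
            nlinarith
          rcases eq_or_lt_of_le h2 with h5 | h5
          · have s2 : 0 < ((q.1 : ℝ) - x) * (c0 + c1 * p.1 - |c2| * p.2) :=
              mul_pos (by linarith) kp
            have s3 : 0 ≤ (x - p.1) * (c0 + c1 * q.1 - |c2| * q.2) :=
              mul_nonneg (by linarith) kq.le
            linarith
          · have s2 : 0 ≤ ((q.1 : ℝ) - x) * (c0 + c1 * p.1 - |c2| * p.2) :=
              mul_nonneg (by linarith) kp.le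
            have s3 : 0 < (x - p.1) * (c0 + c1 * q.1 - |c2| * q.2) :=
              mul_pos (by linarith) kq
            linarith
        exact (mul_pos_iff_of_pos_left hd).1 e3
      · exact ih (fun p hp => h p (List.mem_cons_of_mem _ hp)) hxy

/-- the value of a family -/
def Fm.val (f : Fm) (w : ℤ × ℤ × ℤ × ℤ) (E S F G r q x y : ℝ) : ℝ :=
  VV w E S F G (f.a0.re r q + f.a1.re r q * x) (f.a2.re r q * y) (f.b0.re r q + f.b1.re r q * x)
    (f.b2.re r q * y)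

theorem Fm.light (f : Fm) {n1 d1 n2 d2 : ℤ} (hK : 0 < f.K) {vac : ℤ → ℤ → ℤ → ℤ → Bool} {t : Tr}
    {r0 r1 q0 q1 : ℤ}
    (ht : check (f.dat n1 d1 n2 d2) vac t (-256) 256 (-256) 256 r0 r1 q0 q1 = true)
    {E S F G r q : ℝ} (hes : E ^ 2 + S ^ 2 = 1) (hfg : F ^ 2 + G ^ 2 = 1)
    (hE : 0 ≤ E) (hS1 : S ≤ 5 / 12 * E) (hS2 : -S ≤ 5 / 12 * E) (hG : 0 ≤ G)
    (hr0 : (r0 : ℝ) ≤ 64 * r) (hr1 : 64 * r ≤ r1) (hq0 : (q0 : ℝ) ≤ 64 * q) (hq1 : 64 * q ≤ q1)
    (hv : ∀ r0' r1' q0' q1' : ℤ, vac r0' r1' q0' q1' = true → (r0' : ℝ) ≤ 64 * r → 64 * r ≤ r1' →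
        (q0' : ℝ) ≤ 64 * q → 64 * q ≤ q1' → False) :
    ∃ k, ∀ x y, InPoly f.cor (f.K * x) (f.K * y) →
      0 < f.val (dir n1 d1 n2 d2 k) E S F G r q x y := by
  rcases cert ht hes hfg hE hS1 hS2 hG hr0 hr1 hq0 hq1 with ⟨k, m, q2, -, -, h⟩ |
    ⟨r0', r1', q0', q1', h1, h2, h3, h4, h5⟩
  · refine ⟨k, fun x y hxy => ?_⟩
    set w := dir n1 d1 n2 d2 k with hw
    have hval : ∀ x h : ℤ, (f.cv w x h).X1.re r q * E - (f.cv w x h).Y1.re r q * S
        + (f.cv w x h).X2.re r q * F - (f.cv w x h).Y2.re r q * G - (f.cv w x h).K.re r q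
        = (f.K * (f.a0.re r q * (w.1 * E - w.2.1 * S) + f.b0.re r q * (w.2.2.1 * F - w.2.2.2 * G)))
          + (f.a1.re r q * (w.1 * E - w.2.1 * S) + f.b1.re r q * (w.2.2.1 * F - w.2.2.2 * G)) * x
          + (-(f.a2.re r q * (w.1 * S + w.2.1 * E) + f.b2.re r q * (w.2.2.1 * G + w.2.2.2 * F))) * h
          := by
      intro x h
      simp only [Fm.cv, Q4.lin_re]
      simp only [Q4.re]
      push_cast
      ring
    have hc : ∀ p ∈ f.cor,
        0 < (f.K * (f.a0.re r q * (w.1 * E - w.2.1 * S) + f.b0.re r q * (w.2.2.1 * F - w.2.2.2 * G)))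
          + (f.a1.re r q * (w.1 * E - w.2.1 * S) + f.b1.re r q * (w.2.2.1 * F - w.2.2.2 * G)) * p.1
          + (-(f.a2.re r q * (w.1 * S + w.2.1 * E) + f.b2.re r q * (w.2.2.1 * G + w.2.2.2 * F)))
            * p.2 ∧
        0 < (f.K * (f.a0.re r q * (w.1 * E - w.2.1 * S) + f.b0.re r q * (w.2.2.1 * F - w.2.2.2 * G)))
          + (f.a1.re r q * (w.1 * E - w.2.1 * S) + f.b1.re r q * (w.2.2.1 * F - w.2.2.2 * G)) * p.1
          - (-(f.a2.re r q * (w.1 * S + w.2.1 * E) + f.b2.re r q * (w.2.2.1 * G + w.2.2.2 * F)))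
            * p.2 := by
      intro p hp
      have h1 := h (f.cv w p.1 p.2) (by
        simp only [Fm.dat, List.mem_flatMap]
        exact ⟨p, hp, by simp [hw]⟩)
      have h2 := h (f.cv w p.1 (-p.2)) (by
        simp only [Fm.dat, List.mem_flatMap]
        exact ⟨p, hp, by simp [hw]⟩)
      rw [hval] at h1 h2
      refine ⟨h1, ?_⟩
      push_cast at h2
      linarith
    have := InPoly.pos hc hxy
    have hK' : (0 : ℝ) < f.K := by exact_mod_cast hK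
    have e : (f.K * (f.a0.re r q * (w.1 * E - w.2.1 * S) + f.b0.re r q * (w.2.2.1 * F - w.2.2.2 * G)))
          + (f.a1.re r q * (w.1 * E - w.2.1 * S) + f.b1.re r q * (w.2.2.1 * F - w.2.2.2 * G))
            * (f.K * x)
          + (-(f.a2.re r q * (w.1 * S + w.2.1 * E) + f.b2.re r q * (w.2.2.1 * G + w.2.2.2 * F)))
            * (f.K * y) = f.K * f.val w E S F G r q x y := by
      simp only [Fm.val, VV]; ring
    rw [e] at this
    exact (mul_pos_iff_of_pos_left hK').1 this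
  · exact (hv _ _ _ _ h1 h2 h3 h4 h5).elim

end Pool.Agent.H768.C4.E
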