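import Mathlib
import Pool.Agent.H768.C4.Cert

/-! # Soundness of the certificate checker -/

set_option autoImplicit false

namespace Pool.Agent.H768.C4

/-- the real version of the form computed by the checker -/
noncomputable def Hr (a b c d x y s s' u u' r : ℝ) : ℝ :=
  ((a * (4480 - r * x) + b * (r * y)) * (1638400 - s * s')
      - (b * (4480 - r * x) - a * (r * y)) * (1280 * (s + s'))) * (65536 + u * u')
    + 64 * (-(x * d + y * c) * (65536 - u * u') - (x * c - y * d) * (256 * (u + u')))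
      * (1638400 + s * s')

theorem aff {f : ℝ → ℝ} (hf : ∀ x, f x = f 0 + (f 1 - f 0) * x) {a b x : ℝ} (hax : a ≤ x)
    (hxb : x ≤ b) (ha : 0 < f a) (hb : 0 < f b) : 0 < f x := by
  rcases eq_or_lt_of_le hax with h | h
  · rw [← h]; exact ha
  · have hab : 0 < b - a := by linarith
    have h1 := hf x
    have h2 := hf a
    have h3 := hf b
    have key : (b - a) * f x = (b - x) * f a + (x - a) * f b := by
      rw [h1, h2, h3]; ring
    have : 0 < (b - a) * f x := by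
      rw [key]
      have := mul_nonneg (sub_nonneg.2 hxb) ha.le
      have := mul_pos (sub_pos.2 h) hb
      linarith
    exact (mul_pos_iff_of_pos_left hab).1 this

theorem Hr_r (a b c d x y s s' u u' : ℝ) : ∀ r, Hr a b c d x y s s' u u' r
    = Hr a b c d x y s s' u u' 0 + (Hr a b c d x y s s' u u' 1 - Hr a b c d x y s s' u u' 0) * r := by
  intro r; simp only [Hr]; ring

theorem Hr_u (a b c d x y s s' u r : ℝ) : ∀ u', Hr a b c d x y s s' u u' r
    = Hr a b c d x y s s' u 0 r + (Hr a b c d x y s s' u 1 r - Hr a b c d x y s s' u 0 r) * u' := by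
  intro r; simp only [Hr]; ring

theorem Hr_s (a b c d x y s u u' r : ℝ) : ∀ s', Hr a b c d x y s s' u u' r
    = Hr a b c d x y s 0 u u' r + (Hr a b c d x y s 1 u u' r - Hr a b c d x y s 0 u u' r) * s' := by
  intro r; simp only [Hr]; ring

theorem Hr_usymm (a b c d x y s s' u u' r : ℝ) :
    Hr a b c d x y s s' u u' r = Hr a b c d x y s s' u' u r := by
  simp only [Hr]; ring

theorem Hr_ssymm (a b c d x y s s' u u' r : ℝ) :
    Hr a b c d x y s s' u u' r = Hr a b c d x y s' s u u' r := by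
  simp only [Hr]; ring

/-- positivity at the vertices gives positivity on the box -/
theorem box_pos {a b c d x y s0 s1 u0 u1 r0 r1 : ℝ}
    (h : ∀ r ∈ [r0, r1], ∀ s ∈ [(s0, s0), (s0, s1), (s1, s1)], ∀ u ∈ [(u0, u0), (u0, u1), (u1, u1)],
      0 < Hr a b c d x y s.1 s.2 u.1 u.2 r)
    {s u r : ℝ} (hs0 : s0 ≤ s) (hs1 : s ≤ s1) (hu0 : u0 ≤ u) (hu1 : u ≤ u1) (hr0 : r0 ≤ r)
    (hr1 : r ≤ r1) : 0 < Hr a b c d x y s s u u r := by
  have h1 : ∀ s ∈ [(s0, s0), (s0, s1), (s1, s1)], ∀ u ∈ [(u0, u0), (u0, u1), (u1, u1)],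
      0 < Hr a b c d x y s.1 s.2 u.1 u.2 r := by
    intro s hs u hu
    exact aff (Hr_r a b c d x y s.1 s.2 u.1 u.2) hr0 hr1 (h r0 (by simp) s hs u hu)
      (h r1 (by simp) s hs u hu)
  have h2 : ∀ s ∈ [(s0, s0), (s0, s1), (s1, s1)], 0 < Hr a b c d x y s.1 s.2 u u r := by
    intro s hs
    have e1 : 0 < Hr a b c d x y s.1 s.2 u0 u r :=
      aff (Hr_u a b c d x y s.1 s.2 u0 r) hu0 hu1 (h1 s hs (u0, u0) (by simp))
        (h1 s hs (u0, u1) (by simp))
    have e2 : 0 < Hr a b c d x y s.1 s.2 u1 u r := by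
      refine aff (Hr_u a b c d x y s.1 s.2 u1 r) hu0 hu1 ?_ (h1 s hs (u1, u1) (by simp))
      rw [Hr_usymm]; exact h1 s hs (u0, u1) (by simp)
    refine aff (Hr_u a b c d x y s.1 s.2 u r) hu0 hu1 ?_ ?_
    · rw [Hr_usymm]; exact e1
    · rw [Hr_usymm]; exact e2
  have e1 : 0 < Hr a b c d x y s0 s u u r :=
    aff (Hr_s a b c d x y s0 u u r) hs0 hs1 (h2 (s0, s0) (by simp)) (h2 (s0, s1) (by simp))
  have e2 : 0 < Hr a b c d x y s1 s u u r := by
    refine aff (Hr_s a b c d x y s1 u u r) hs0 hs1 ?_ (h2 (s1, s1) (by simp))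
    rw [Hr_ssymm]; exact h2 (s0, s1) (by simp)
  refine aff (Hr_s a b c d x y s u u r) hs0 hs1 ?_ ?_
  · rw [Hr_ssymm]; exact e1
  · rw [Hr_ssymm]; exact e2

/-- what a direction has to satisfy -/
def Good (k : ℕ) (s u r : ℝ) : Prop :=
  ∀ c ∈ cs, 0 < Hr ((ds k).1 : ℝ) ((ds k).2.1 : ℝ) ((ds k).2.2.1 : ℝ) ((ds k).2.2.2 : ℝ)
    (c.1 : ℝ) (c.2 : ℝ) s s u u r

theorem leaf_sound {k : ℕ} {s0 s1 u0 u1 r0 r1 : ℤ} (h : leafOK k s0 s1 u0 u1 r0 r1 = true)
    {s u r : ℝ} (hs0 : (s0 : ℝ) ≤ s) (hs1 : s ≤ s1) (hu0 : (u0 : ℝ) ≤ u) (hu1 : u ≤ u1)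
    (hr0 : (r0 : ℝ) ≤ r) (hr1 : r ≤ r1) : Good k s u r := by
  intro c hc
  simp only [leafOK, List.all_eq_true, decide_eq_true_eq] at h
  have h1 := h c hc
  refine box_pos (s0 := s0) (s1 := s1) (u0 := u0) (u1 := u1) (r0 := r0) (r1 := r1) ?_ hs0 hs1 hu0
    hu1 hr0 hr1
  have key : ∀ r ∈ [r0, r1], ∀ s ∈ [(s0, s0), (s0, s1), (s1, s1)],
      ∀ u ∈ [(u0, u0), (u0, u1), (u1, u1)],
      0 < Hr ((ds k).1 : ℝ) ((ds k).2.1 : ℝ) ((ds k).2.2.1 : ℝ) ((ds k).2.2.2 : ℝ)
        (c.1 : ℝ) (c.2 : ℝ) (s.1 : ℝ) (s.2 : ℝ) (u.1 : ℝ) (u.2 : ℝ) (r : ℝ) := by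
    intro r hr s hs u hu
    have h2 := h1 r hr s hs u hu
    have h3 : (0 : ℝ) < ((F1 (ds k) c s r * (65536 + u.1 * u.2)
        + F2 (ds k) c u * (1638400 + s.1 * s.2) : ℤ) : ℝ) := by exact_mod_cast h2
    simp only [F1, F2] at h3
    push_cast at h3
    simp only [Hr]
    exact h3
  intro r hr s hs u hu
  simp only [List.mem_cons, List.not_mem_nil, or_false] at hr hs hu
  rcases hr with rfl | rfl <;> rcases hs with rfl | rfl | rfl <;> rcases hu with rfl | rfl | rfl <;>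
    exact key _ (by simp) (_, _) (by simp) (_, _) (by simp)

theorem check_sound (t : Tr) : ∀ {s0 s1 u0 u1 r0 r1 : ℤ}, check t s0 s1 u0 u1 r0 r1 = true →
    ∀ {s u r : ℝ}, (s0 : ℝ) ≤ s → s ≤ s1 → (u0 : ℝ) ≤ u → u ≤ u1 → (r0 : ℝ) ≤ r → r ≤ r1 →
    ∃ k, Good k s u r := by
  induction t with
  | l k =>
    intro s0 s1 u0 u1 r0 r1 h s u r a b c d e f
    exact ⟨k, leaf_sound h a b c d e f⟩
  | s A B iA iB =>
    intro s0 s1 u0 u1 r0 r1 h s u r a b c d e f
    simp only [check, Bool.and_eq_true] at h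
    rcases le_total s (((s0 + s1) / 2 : ℤ) : ℝ) with g | g
    · exact iA h.1 a g c d e f
    · exact iB h.2 g b c d e f
  | u A B iA iB =>
    intro s0 s1 u0 u1 r0 r1 h s u r a b c d e f
    simp only [check, Bool.and_eq_true] at h
    rcases le_total u (((u0 + u1) / 2 : ℤ) : ℝ) with g | g
    · exact iA h.1 a b c g e f
    · exact iB h.2 a b g d e f
  | r A B iA iB =>
    intro s0 s1 u0 u1 r0 r1 h s u r a b c d e f
    simp only [check, Bool.and_eq_true] at h
    rcases le_total r (((r0 + r1) / 2 : ℤ) : ℝ) with g | g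
    · exact iA h.1 a b c d e g
    · exact iB h.2 a b c d g f

/-- an affine function which is positive at the corners is positive on the half disc -/
theorem poly_pos {c0 c1 c2 : ℝ} (h : ∀ c ∈ cs, 0 < c0 + c1 * (c.1 : ℝ) + c2 * (c.2 : ℝ)) {x y : ℝ}
    (hx : 0 ≤ x) (hxy : x ^ 2 + y ^ 2 ≤ 4900) : 0 < c0 + c1 * x + c2 * y := by
  have h1 := h (0, 70) (by simp [cs])
  have h2 := h (0, -70) (by simp [cs])
  have h3 := h (29, 70) (by simp [cs])
  have h4 := h (29, -70) (by simp [cs])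
  have h5 := h (70, 29) (by simp [cs])
  have h6 := h (70, -29) (by simp [cs])
  push_cast at h1 h2 h3 h4 h5 h6
  have hy1 : y ≤ 70 := by nlinarith
  have hy2 : -70 ≤ y := by nlinarith
  have hx1 : x ≤ 70 := by nlinarith
  have hp : x + y ≤ 99 := by nlinarith [sq_nonneg (x - y)]
  have hm : x - y ≤ 99 := by nlinarith [sq_nonneg (x + y)]
  rcases le_total 0 c1 with hc | hc
  · have : 0 < c0 + c2 * y := by
      have := aff (f := fun y => c0 + c2 * y) (by intro x; ring) hy2 hy1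
        (by linarith) (by linarith)
      simpa using this
    nlinarith [mul_nonneg hc hx]
  · rcases le_total y 29 with ha | ha
    · rcases le_total (-29) y with hb | hb
      · have : 0 < c0 + c1 * 70 + c2 * y := by
          have := aff (f := fun y => c0 + c1 * 70 + c2 * y) (by intro x; ring) hb ha
            (by linarith) (by linarith)
          simpa using this
        nlinarith [mul_nonneg (neg_nonneg.2 hc) (sub_nonneg.2 hx1)]
      · have : 0 < c0 + c1 * (99 + y) + c2 * y := by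
          have := aff (f := fun y => c0 + c1 * (99 + y) + c2 * y) (by intro x; ring)
            hy2 hb (by linarith) (by linarith)
          simpa using this
        nlinarith [mul_nonneg (neg_nonneg.2 hc) (sub_nonneg.2 hm)]
    · have : 0 < c0 + c1 * (99 - y) + c2 * y := by
        have := aff (f := fun y => c0 + c1 * (99 - y) + c2 * y) (by intro x; ring)
          ha hy1 (by linarith) (by linarith)
        simpa using this
      nlinarith [mul_nonneg (neg_nonneg.2 hc) (sub_nonneg.2 hp)]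

/-- the value of a direction `(a + bi, c + di)` -/
noncomputable def V (a b c d E S F G r x y : ℝ) : ℝ :=
  (a * E - b * S) * (1 - r * x) + (a * S + b * E) * (r * y) + (x * (c * F - d * G)
    - y * (c * G + d * F))

theorem Hr_V {a b c d E S F G r x y : ℝ} (hes : E ^ 2 + S ^ 2 = 1) (hfg : F ^ 2 + G ^ 2 = 1)
    (hE : 0 < 1 + E) (hG : 0 < 1 + G) :
    Hr a b c d (70 * x) (70 * y) (1280 * (S / (1 + E))) (1280 * (S / (1 + E)))
      (256 * (-F / (1 + G))) (256 * (-F / (1 + G))) (64 * r)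
      = 4480 * 1638400 * 65536 * (1 + (S / (1 + E)) ^ 2) * (1 + (-F / (1 + G)) ^ 2)
        * V a b c d E S F G r x y := by
  have e1 : 1 - (S / (1 + E)) ^ 2 = (1 + (S / (1 + E)) ^ 2) * E := by
    field_simp
    nlinarith
  have e2 : 2 * (S / (1 + E)) = (1 + (S / (1 + E)) ^ 2) * S := by
    field_simp
    linear_combination (-S) * hes
  have f1 : 1 - (-F / (1 + G)) ^ 2 = (1 + (-F / (1 + G)) ^ 2) * G := by
    field_simp
    nlinarith
  have f2 : -(2 * (-F / (1 + G))) = (1 + (-F / (1 + G)) ^ 2) * F := by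
    field_simp
    linear_combination (-F) * hfg
  set s := S / (1 + E) with hs
  set u := -F / (1 + G) with hu
  have E1 : (1638400 : ℝ) - 1280 * s * (1280 * s) = 1638400 * ((1 + s ^ 2) * E) := by
    rw [← e1]; ring
  have E2 : (1280 : ℝ) * (1280 * s + 1280 * s) = 1638400 * ((1 + s ^ 2) * S) := by
    rw [← e2]; ring
  have U1 : (65536 : ℝ) - 256 * u * (256 * u) = 65536 * ((1 + u ^ 2) * G) := by
    rw [← f1]; ring
  have U2 : (256 : ℝ) * (256 * u + 256 * u) = -(65536 * ((1 + u ^ 2) * F)) := by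
    rw [← f2]; ring
  have E3 : (1638400 : ℝ) + 1280 * s * (1280 * s) = 1638400 * (1 + s ^ 2) := by ring
  have U3 : (65536 : ℝ) + 256 * u * (256 * u) = 65536 * (1 + u ^ 2) := by ring
  simp only [Hr, V, E1, E2, E3, U1, U2, U3]
  ring

/-- **the certificate** -/
theorem exists_dir {E S F G r : ℝ} (hes : E ^ 2 + S ^ 2 = 1) (hfg : F ^ 2 + G ^ 2 = 1)
    (hE : 0 ≤ E) (hS1 : S ≤ 5 / 12 * E) (hS2 : -S ≤ 5 / 12 * E) (hG : 0 ≤ G) (hr0 : 0 ≤ r)
    (hr1 : r ≤ 1) : ∃ k, ∀ x y : ℝ, 0 ≤ x → x ^ 2 + y ^ 2 ≤ 1 →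
      0 < V ((ds k).1 : ℝ) ((ds k).2.1 : ℝ) ((ds k).2.2.1 : ℝ) ((ds k).2.2.2 : ℝ) E S F G r x y := by
  have hE1 : 0 < 1 + E := by linarith
  have hG1 : 0 < 1 + G := by linarith
  have hk1 : 5 * S ≤ 1 + E := by nlinarith
  have hk2 : -(5 * S) ≤ 1 + E := by nlinarith
  have a1 : ((-256 : ℤ) : ℝ) ≤ 1280 * (S / (1 + E)) := by
    rw [← mul_div_assoc, le_div_iff₀ hE1]; push_cast; linarith
  have a2 : 1280 * (S / (1 + E)) ≤ ((256 : ℤ) : ℝ) := by
    rw [← mul_div_assoc, div_le_iff₀ hE1]; push_cast; linarith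
  have hF1 : F ≤ 1 := by nlinarith
  have hF2 : -1 ≤ F := by nlinarith
  have b1 : ((-256 : ℤ) : ℝ) ≤ 256 * (-F / (1 + G)) := by
    rw [← mul_div_assoc, le_div_iff₀ hG1]; push_cast; linarith
  have b2 : 256 * (-F / (1 + G)) ≤ ((256 : ℤ) : ℝ) := by
    rw [← mul_div_assoc, div_le_iff₀ hG1]; push_cast; linarith
  obtain ⟨k, hk⟩ := check_sound tree check_tree a1 a2 b1 b2 (r := 64 * r) (by push_cast; linarith)
    (by push_cast; linarith)
  refine ⟨k, fun x y hx hxy => ?_⟩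
  set a := ((ds k).1 : ℝ)
  set b := ((ds k).2.1 : ℝ)
  set c := ((ds k).2.2.1 : ℝ)
  set d := ((ds k).2.2.2 : ℝ)
  have hpos : 0 < Hr a b c d (70 * x) (70 * y) (1280 * (S / (1 + E))) (1280 * (S / (1 + E)))
      (256 * (-F / (1 + G))) (256 * (-F / (1 + G))) (64 * r) := by
    set s := 1280 * (S / (1 + E))
    set u := 256 * (-F / (1 + G))
    set ρ := 64 * r
    have hlin : ∀ x y : ℝ, Hr a b c d x y s s u u ρ = Hr a b c d 0 0 s s u u ρ
        + (Hr a b c d 1 0 s s u u ρ - Hr a b c d 0 0 s s u u ρ) * x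
        + (Hr a b c d 0 1 s s u u ρ - Hr a b c d 0 0 s s u u ρ) * y := by
      intro x y; simp only [Hr]; ring
    rw [hlin]
    apply poly_pos
    · intro c hc
      rw [← hlin]
      exact hk c hc
    · linarith
    · nlinarith
  rw [Hr_V hes hfg hE1 hG1] at hpos
  have : (0 : ℝ) < 4480 * 1638400 * 65536 * (1 + (S / (1 + E)) ^ 2) * (1 + (-F / (1 + G)) ^ 2) := by
    positivity
  exact (mul_pos_iff_of_pos_left this).1 hpos

end Pool.Agent.H768.C4
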