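import Mathlib
import Pool.Agent.H768.C4.Sound

/-! # The sixteen directions for circled bodies in `ℂ²` -/

set_option autoImplicit false

namespace Pool.Agent.H768.C4

/-- the eighth root of unity `(1 + i) / √2` -/
noncomputable def z8 : ℂ := ⟨√2 / 2, √2 / 2⟩

theorem h2 : (√2 / 2 : ℝ) * (√2 / 2) = 1 / 2 := by
  have := Real.mul_self_sqrt (show (0 : ℝ) ≤ 2 by norm_num)
  nlinarith

theorem z8_sq : z8 ^ 2 = Complex.I := by
  rw [sq]
  apply Complex.ext
  · simp [z8]
  · simp only [z8, Complex.mul_im, Complex.I_im]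
    nlinarith [h2]

theorem z8_8 : z8 ^ 8 = 1 := by
  have : z8 ^ 8 = (z8 ^ 2) ^ 4 := by ring
  rw [this, z8_sq, Complex.I_pow_four]

theorem z8_4 : z8 ^ 4 = -1 := by
  have : z8 ^ 4 = (z8 ^ 2) ^ 2 := by ring
  rw [this, z8_sq, Complex.I_sq]

theorem z8_norm : ‖z8‖ = 1 := by
  have h : ‖z8‖ ^ 8 = 1 := by rw [← norm_pow, z8_8, norm_one]
  have h0 := norm_nonneg z8
  exact (pow_eq_one_iff_of_nonneg h0 (by norm_num)).1 h

theorem z8_conj : (starRingEnd ℂ) z8 = z8 ^ 7 := by
  have h1 : z8 * (starRingEnd ℂ) z8 = 1 := by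
    rw [Complex.mul_conj, Complex.normSq_eq_norm_sq, z8_norm]; norm_num
  have h2 : z8 * z8 ^ 7 = 1 := by
    have : z8 * z8 ^ 7 = z8 ^ 8 := by ring
    rw [this, z8_8]
  have h3 : z8 ≠ 0 := by
    intro h; rw [h, zero_mul] at h1; exact zero_ne_one h1
  exact mul_left_cancel₀ h3 (h1.trans h2.symm)

/-- the directions -/
noncomputable def D (k : Bool) (a : ℕ) : ℂ × ℂ :=
  if k then (-(9 / 10) * z8 ^ (3 * a), z8 ^ a) else (z8 ^ a, (9 / 10) * z8 ^ (3 * a))

/-- `w` is positive on all admissible functionals at `p` -/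
def Lt (w p : ℂ × ℂ) : Prop := ∀ a b : ℂ, ‖a‖ ≤ 1 → ‖b‖ ≤ 1 → a * p.1 + b * p.2 = 1 →
  0 < (a * w.1 + b * w.2).re

def P (p : ℂ × ℂ) : Prop := ∃ k a, Lt (D k a) p

theorem pow_mod (n : ℕ) : z8 ^ (n + 8) = z8 ^ n := by rw [pow_add, z8_8, mul_one]

theorem P_rot {p q : ℂ} (h : P (z8 * p, z8 ^ 3 * q)) : P (p, q) := by
  obtain ⟨k, n, h⟩ := h
  have key : ∀ a b : ℂ, ‖a‖ ≤ 1 → ‖b‖ ≤ 1 → a * p + b * q = 1 →
      0 < (a * (z8 ^ 7 * (D k n).1) + b * (z8 ^ 5 * (D k n).2)).re := by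
    intro a b ha hb hab
    have := h (a * z8 ^ 7) (b * z8 ^ 5) (by rw [norm_mul, norm_pow, z8_norm]; simpa using ha)
      (by rw [norm_mul, norm_pow, z8_norm]; simpa using hb)
      (by
        have e : a * z8 ^ 7 * (z8 * p) + b * z8 ^ 5 * (z8 ^ 3 * q) = z8 ^ 8 * (a * p + b * q) := by
          ring
        show a * z8 ^ 7 * (z8 * p) + b * z8 ^ 5 * (z8 ^ 3 * q) = 1
        rw [e, z8_8, hab, one_mul])
    rw [mul_assoc, mul_assoc] at this
    exact this
  cases k with
  | false =>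
    refine ⟨false, n + 7, fun a b ha hb hab => ?_⟩
    have := key a b ha hb hab
    have e1 : z8 ^ 7 * (D false n).1 = (D false (n + 7)).1 := by
      simp only [D, Bool.false_eq_true, if_false]; ring
    have e2 : z8 ^ 5 * (D false n).2 = (D false (n + 7)).2 := by
      simp only [D, Bool.false_eq_true, if_false]
      have : z8 ^ (3 * (n + 7)) = z8 ^ 8 * z8 ^ 8 * (z8 ^ 5 * z8 ^ (3 * n)) := by ring
      rw [this, z8_8]; ring
    rw [e1, e2] at this
    exact this
  | true =>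
    refine ⟨true, n + 5, fun a b ha hb hab => ?_⟩
    have := key a b ha hb hab
    have e1 : z8 ^ 7 * (D true n).1 = (D true (n + 5)).1 := by
      simp only [D, if_true]
      have : z8 ^ (3 * (n + 5)) = z8 ^ 8 * (z8 ^ 7 * z8 ^ (3 * n)) := by ring
      rw [this, z8_8]; ring
    have e2 : z8 ^ 5 * (D true n).2 = (D true (n + 5)).2 := by
      simp only [D, if_true]; ring
    rw [e1, e2] at this
    exact this

theorem P_J {p q : ℂ} (h : P (q, -p)) : P (p, q) := by
  obtain ⟨k, n, h⟩ := h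
  have key : ∀ a b : ℂ, ‖a‖ ≤ 1 → ‖b‖ ≤ 1 → a * p + b * q = 1 →
      0 < (a * (-(D k n).2) + b * (D k n).1).re := by
    intro a b ha hb hab
    have := h b (-a) hb (by rwa [norm_neg]) (by
      show b * q + -a * -p = 1
      rw [← hab]; ring)
    have e : b * (D k n).1 + -a * (D k n).2 = a * (-(D k n).2) + b * (D k n).1 := by ring
    rw [e] at this
    exact this
  cases k with
  | false =>
    refine ⟨true, n, fun a b ha hb hab => ?_⟩
    have := key a b ha hb hab
    have e1 : -(D false n).2 = (D true n).1 := by simp [D]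
    have e2 : (D false n).1 = (D true n).2 := by simp [D]
    rw [e1, e2] at this
    exact this
  | true =>
    refine ⟨false, n + 4, fun a b ha hb hab => ?_⟩
    have := key a b ha hb hab
    have e1 : -(D true n).2 = (D false (n + 4)).1 := by
      simp only [D, Bool.false_eq_true, if_false, if_true, pow_add, z8_4]; ring
    have e2 : (D true n).1 = (D false (n + 4)).2 := by
      simp only [D, Bool.false_eq_true, if_false, if_true]
      have : z8 ^ (3 * (n + 4)) = z8 ^ 8 * (z8 ^ 4 * z8 ^ (3 * n)) := by ring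
      rw [this, z8_8, z8_4]; ring
    rw [e1, e2] at this
    exact this

theorem P_conj {p q : ℂ} (h : P ((starRingEnd ℂ) p, (starRingEnd ℂ) q)) : P (p, q) := by
  obtain ⟨k, n, h⟩ := h
  have hc : ∀ m : ℕ, (starRingEnd ℂ) (z8 ^ m) = z8 ^ (7 * m) := by
    intro m; rw [map_pow, z8_conj, ← pow_mul]
  refine ⟨k, 7 * n, fun a b ha hb hab => ?_⟩
  have := h ((starRingEnd ℂ) a) ((starRingEnd ℂ) b) (by rwa [Complex.norm_conj])
    (by rwa [Complex.norm_conj]) (by
      show (starRingEnd ℂ) a * (starRingEnd ℂ) p + (starRingEnd ℂ) b * (starRingEnd ℂ) q = 1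
      rw [← map_mul, ← map_mul, ← map_add, hab, map_one])
  have e : (starRingEnd ℂ) (D k n).1 = (D k (7 * n)).1 ∧
      (starRingEnd ℂ) (D k n).2 = (D k (7 * n)).2 := by
    have e7 : 7 * (3 * n) = 3 * (7 * n) := by ring
    cases k <;> constructor <;> simp only [D, Bool.false_eq_true, if_false, if_true, map_mul,
      map_neg, hc, map_div₀, map_ofNat, e7]
  rw [← e.1, ← e.2]
  have e3 : (starRingEnd ℂ) a * (D k n).1 + (starRingEnd ℂ) b * (D k n).2
      = (starRingEnd ℂ) (a * (starRingEnd ℂ) (D k n).1 + b * (starRingEnd ℂ) (D k n).2) := by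
    simp
  rw [e3, Complex.conj_re] at this
  exact this

theorem P_scale {p q : ℂ} {c : ℝ} (hc0 : 0 < c) (hc1 : c ≤ 1) (h : P (p, q)) :
    P ((c : ℂ) * p, (c : ℂ) * q) := by
  obtain ⟨k, n, h⟩ := h
  refine ⟨k, n, fun a b ha hb hab => ?_⟩
  have hn : ‖(c : ℂ)‖ = c := by
    rw [Complex.norm_real, Real.norm_of_nonneg hc0.le]
  have := h (c * a) (c * b) (by rw [norm_mul, hn]; nlinarith [norm_nonneg a])
    (by rw [norm_mul, hn]; nlinarith [norm_nonneg b]) (by
      show (c : ℂ) * a * p + (c : ℂ) * b * q = 1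
      rw [← hab]
      show (c : ℂ) * a * p + (c : ℂ) * b * q = a * (c * p) + b * (c * q)
      ring)
  have e : (c : ℂ) * a * (D k n).1 + (c : ℂ) * b * (D k n).2
      = (c : ℂ) * (a * (D k n).1 + b * (D k n).2) := by ring
  rw [e, Complex.re_ofReal_mul] at this
  exact (mul_pos_iff_of_pos_left hc0).1 this

end Pool.Agent.H768.C4
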