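import Mathlib
import Pool.Agent.H768.C4.Dirs

/-! # Every point of the bidisc is lit by one of the sixteen directions -/

set_option autoImplicit false

namespace Pool.Agent.H768.C4

theorem s22 : √2 * √2 = (2 : ℝ) := Real.mul_self_sqrt (by norm_num)

theorem ds_dir (k : ℕ) : ∃ (κ : Bool) (n : ℕ) (c : ℝ), 0 < c ∧
    (c : ℂ) * (D κ n).1 = ⟨((ds k).1 : ℝ), ((ds k).2.1 : ℝ)⟩ ∧
    (c : ℂ) * (D κ n).2 = ⟨((ds k).2.2.1 : ℝ), ((ds k).2.2.2 : ℝ)⟩ := by
  have hs : (0 : ℝ) < √2 := by positivity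
  have hz7 : z8 ^ 7 = ⟨√2 / 2, -(√2 / 2)⟩ := by rw [← z8_conj]; rfl
  match k with
  | 0 =>
    refine ⟨false, 0, 10, by norm_num, ?_, ?_⟩ <;>
    · apply Complex.ext <;> norm_num [D, ds]
  | 1 =>
    have h12 : z8 ^ 12 = -1 := by
      have : z8 ^ 12 = z8 ^ 8 * z8 ^ 4 := by ring
      rw [this, z8_8, z8_4]; ring
    refine ⟨true, 4, 10, by norm_num, ?_, ?_⟩ <;>
    · apply Complex.ext <;> norm_num [D, ds, h12, z8_4]
  | 2 =>
    have h21 : z8 ^ 21 = -z8 := by
      have : z8 ^ 21 = z8 ^ 8 * z8 ^ 8 * z8 ^ 4 * z8 := by ring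
      rw [this, z8_8, z8_4]; ring
    refine ⟨true, 7, 10 * √2, by positivity, ?_, ?_⟩
    · apply Complex.ext
      · simp only [D, if_true, ds, h21]
        simp [z8]
        nlinarith [s22]
      · simp only [D, if_true, ds, h21]
        simp [z8]
        nlinarith [s22]
    · apply Complex.ext
      · simp only [D, if_true, ds, hz7]
        simp
        nlinarith [s22]
      · simp only [D, if_true, ds, hz7]
        simp
        nlinarith [s22]
  | 3 =>
    have h21 : z8 ^ 21 = -z8 := by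
      have : z8 ^ 21 = z8 ^ 8 * z8 ^ 8 * z8 ^ 4 * z8 := by ring
      rw [this, z8_8, z8_4]; ring
    refine ⟨false, 7, 10 * √2, by positivity, ?_, ?_⟩
    · apply Complex.ext
      · simp only [D, Bool.false_eq_true, if_false, ds, hz7]
        simp
        nlinarith [s22]
      · simp only [D, Bool.false_eq_true, if_false, ds, hz7]
        simp
        nlinarith [s22]
    · apply Complex.ext
      · simp only [D, Bool.false_eq_true, if_false, ds, h21]
        simp [z8]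
        nlinarith [s22]
      · simp only [D, Bool.false_eq_true, if_false, ds, h21]
        simp [z8]
        nlinarith [s22]
  | (m + 4) =>
    have h6 : z8 ^ 6 = -Complex.I := by
      have : z8 ^ 6 = z8 ^ 4 * z8 ^ 2 := by ring
      rw [this, z8_sq, z8_4]; ring
    have hd : ds (m + 4) = (0, 10, 0, -9) := rfl
    rw [hd]
    refine ⟨false, 2, 10, by norm_num, ?_, ?_⟩ <;>
    · apply Complex.ext <;> norm_num [D, h6, z8_sq]

/-- the core case -/
theorem P_core {E S F G r : ℝ} (hes : E ^ 2 + S ^ 2 = 1) (hfg : F ^ 2 + G ^ 2 = 1)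
    (hE : 0 ≤ E) (hS1 : S ≤ 5 / 12 * E) (hS2 : -S ≤ 5 / 12 * E) (hG : 0 ≤ G) (hr0 : 0 < r)
    (hr1 : r ≤ 1) : P (⟨E, -S⟩, (r : ℂ) * ⟨F, -G⟩) := by
  obtain ⟨k, hk⟩ := exists_dir hes hfg hE hS1 hS2 hG hr0.le hr1
  obtain ⟨κ, n, c, hc, h1, h2⟩ := ds_dir k
  refine ⟨κ, n, fun a b ha hb hab => ?_⟩
  simp only at hab
  have he : (⟨E, -S⟩ : ℂ) * ⟨E, S⟩ = 1 := by
    apply Complex.ext
    · simp only [Complex.mul_re, Complex.one_re]; nlinarith
    · simp only [Complex.mul_im, Complex.one_im]; ring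
  have hf : (⟨F, -G⟩ : ℂ) * ⟨F, G⟩ = 1 := by
    apply Complex.ext
    · simp only [Complex.mul_re, Complex.one_re]; nlinarith
    · simp only [Complex.mul_im, Complex.one_im]; ring
  have ne : ‖(⟨E, S⟩ : ℂ)‖ = 1 := by
    rw [Complex.norm_eq_sqrt_sq_add_sq]; simp only; rw [hes, Real.sqrt_one]
  have nf : ‖(⟨F, -G⟩ : ℂ)‖ = 1 := by
    rw [Complex.norm_eq_sqrt_sq_add_sq]; simp only
    have : F ^ 2 + (-G) ^ 2 = 1 := by nlinarith
    rw [this, Real.sqrt_one]
  obtain ⟨B, hB⟩ : ∃ B : ℂ, B = b * ⟨F, -G⟩ := ⟨_, rfl⟩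
  have hbB : b = B * ⟨F, G⟩ := by
    rw [hB, mul_assoc, hf, mul_one]
  have hBn : ‖B‖ ≤ 1 := by rw [hB, norm_mul, nf, mul_one]; exact hb
  have haB : a = (1 - r * B) * ⟨E, S⟩ := by
    have : a * ⟨E, -S⟩ = 1 - r * B := by
      rw [← hab, hB]; ring
    rw [← this, mul_assoc, he, mul_one]
  have hAn : ‖1 - (r : ℂ) * B‖ ≤ 1 := by
    have := ha
    rw [haB, norm_mul, ne, mul_one] at this
    exact this
  have hx2 : B.re ^ 2 + B.im ^ 2 ≤ 1 := by
    have h3 : ‖B‖ ^ 2 ≤ 1 := by nlinarith [norm_nonneg B]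
    rw [← Complex.normSq_eq_norm_sq, Complex.normSq_apply] at h3
    nlinarith
  have hx : 0 ≤ B.re := by
    have h3 : ‖1 - (r : ℂ) * B‖ ^ 2 ≤ 1 := by nlinarith [norm_nonneg (1 - (r : ℂ) * B)]
    rw [← Complex.normSq_eq_norm_sq, Complex.normSq_apply] at h3
    simp only [Complex.sub_re, Complex.one_re, Complex.mul_re, Complex.ofReal_re,
      Complex.ofReal_im, zero_mul, sub_zero, Complex.sub_im, Complex.one_im, Complex.mul_im,
      add_zero, zero_sub] at h3
    have h4 : 0 ≤ r * B.re := by nlinarith [sq_nonneg (r * B.re), sq_nonneg (r * B.im)]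
    exact nonneg_of_mul_nonneg_right h4 hr0
  have hV := hk B.re B.im hx hx2
  have e3 : (c : ℂ) * (a * (D κ n).1 + b * (D κ n).2)
      = (1 - r * B) * ⟨E, S⟩ * ⟨((ds k).1 : ℝ), ((ds k).2.1 : ℝ)⟩
        + B * ⟨F, G⟩ * ⟨((ds k).2.2.1 : ℝ), ((ds k).2.2.2 : ℝ)⟩ := by
    rw [← h1, ← h2, ← haB, ← hbB]; ring
  have e4 : c * (a * (D κ n).1 + b * (D κ n).2).re
      = V ((ds k).1 : ℝ) ((ds k).2.1 : ℝ) ((ds k).2.2.1 : ℝ) ((ds k).2.2.2 : ℝ) E S F G r
        B.re B.im := by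
    rw [← Complex.re_ofReal_mul, e3]
    simp only [V, Complex.add_re, Complex.mul_re, Complex.sub_re, Complex.one_re,
      Complex.ofReal_re, Complex.ofReal_im, zero_mul, sub_zero, Complex.sub_im, Complex.one_im,
      Complex.mul_im, add_zero, zero_sub]
    ring
  rw [← e4] at hV
  exact (mul_pos_iff_of_pos_left hc).1 hV

/-- the case of a point of the first axis -/
theorem P_axis {E S : ℝ} (hes : E ^ 2 + S ^ 2 = 1)
    (hE : 0 ≤ E) (hS1 : S ≤ 5 / 12 * E) (hS2 : -S ≤ 5 / 12 * E) : P (⟨E, -S⟩, 0) := by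
  refine ⟨false, 0, fun a b ha hb hab => ?_⟩
  have he : (⟨E, -S⟩ : ℂ) * ⟨E, S⟩ = 1 := by
    apply Complex.ext
    · simp only [Complex.mul_re, Complex.one_re]; nlinarith
    · simp only [Complex.mul_im, Complex.one_im]; ring
  have haB : a = ⟨E, S⟩ := by
    have h : a * ⟨E, -S⟩ = 1 := by simpa using hab
    calc a = a * (⟨E, -S⟩ * ⟨E, S⟩) := by rw [he, mul_one]
      _ = ⟨E, S⟩ := by rw [← mul_assoc, h, one_mul]
  have hE9 : 9 / 10 < E := by nlinarith
  have hb2 : |b.re| ≤ 1 := (Complex.abs_re_le_norm b).trans hb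
  have := abs_le.1 hb2
  simp only [D, Bool.false_eq_true, if_false, haB, pow_zero, mul_zero, mul_one, Complex.add_re]
  have e : (b * (9 / 10 : ℂ)).re = b.re * (9 / 10) := by
    have : (9 / 10 : ℂ) = ((9 / 10 : ℝ) : ℂ) := by push_cast; ring
    rw [this, Complex.re_mul_ofReal]
  rw [e]
  nlinarith [this.1, this.2]

/-- the sector of the first coordinate -/
def Sec (p : ℂ) : Prop := 0 ≤ p.re ∧ p.im ≤ 5 / 12 * p.re ∧ -p.im ≤ 5 / 12 * p.re

theorem P_sec {p q : ℂ} (hp : ‖p‖ = 1) (hq : ‖q‖ ≤ 1) (hs : Sec p) : P (p, q) := by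
  obtain ⟨h1, h2, h3⟩ := hs
  have hp2 : p.re ^ 2 + p.im ^ 2 = 1 := by
    have : ‖p‖ ^ 2 = 1 := by rw [hp]; norm_num
    rw [← Complex.normSq_eq_norm_sq, Complex.normSq_apply] at this
    nlinarith
  rcases eq_or_ne q 0 with rfl | hq0
  · have := P_axis (E := p.re) (S := -p.im) (by nlinarith) h1 (by linarith) (by linarith)
    rw [neg_neg] at this
    exact this
  · have hr : 0 < ‖q‖ := norm_pos_iff.2 hq0
    have hq2 : (q.re / ‖q‖) ^ 2 + (q.im / ‖q‖) ^ 2 = 1 := by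
      have : ‖q‖ ^ 2 = q.re ^ 2 + q.im ^ 2 := by
        rw [← Complex.normSq_eq_norm_sq, Complex.normSq_apply]; ring
      rw [div_pow, div_pow, ← add_div, ← this]
      exact div_self (by positivity)
    have hqe : ∀ z : ℂ, ‖z‖ = ‖q‖ → (‖q‖ : ℂ) * ⟨z.re / ‖q‖, z.im / ‖q‖⟩ = z := by
      intro z hz
      apply Complex.ext
      · simp only [Complex.mul_re, Complex.ofReal_re, Complex.ofReal_im, zero_mul, sub_zero]
        field_simp
      · simp only [Complex.mul_im, Complex.ofReal_re, Complex.ofReal_im, zero_mul, add_zero]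
        field_simp
    rcases le_total q.im 0 with hi | hi
    · have := P_core (E := p.re) (S := -p.im) (F := q.re / ‖q‖) (G := -(q.im / ‖q‖)) (r := ‖q‖)
        (by nlinarith) (by nlinarith) h1 (by linarith) (by linarith)
        (by rw [← neg_div]; exact div_nonneg (by linarith) hr.le) hr hq
      rw [neg_neg, neg_neg, hqe q rfl] at this
      exact this
    · apply P_conj
      have := P_core (E := p.re) (S := p.im) (F := q.re / ‖q‖) (G := q.im / ‖q‖) (r := ‖q‖)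
        (by nlinarith) (by nlinarith) h1 (by linarith) (by linarith)
        (div_nonneg hi hr.le) hr hq
      have e := hqe ((starRingEnd ℂ) q) (Complex.norm_conj q)
      rw [Complex.conj_re, Complex.conj_im, neg_div] at e
      rw [e] at this
      exact this

/-- every unit complex number gets into the sector by a rotation by a multiple of `π / 4` -/
theorem exists_rot (p : ℂ) : ∃ n : ℕ, Sec (z8 ^ n * p) := by
  have hs : (0 : ℝ) < √2 / 2 := by positivity
  have key : ∀ p : ℂ, 0 ≤ p.im → p.im ≤ p.re → ∃ n : ℕ, Sec (z8 ^ n * p) := by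
    intro p h0 h1
    rcases le_total p.im (5 / 12 * p.re) with h | h
    · exact ⟨0, by rw [pow_zero, one_mul]; exact ⟨by linarith, h, by linarith⟩⟩
    · refine ⟨7, ?_⟩
      have hz7 : z8 ^ 7 = ⟨√2 / 2, -(√2 / 2)⟩ := by rw [← z8_conj]; rfl
      rw [hz7]
      have er : ((⟨√2 / 2, -(√2 / 2)⟩ : ℂ) * p).re = √2 / 2 * (p.re + p.im) := by
        rw [Complex.mul_re]; ring
      have ei : ((⟨√2 / 2, -(√2 / 2)⟩ : ℂ) * p).im = √2 / 2 * (p.im - p.re) := by
        rw [Complex.mul_im]; ring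
      refine ⟨?_, ?_, ?_⟩
      · rw [er]; exact mul_nonneg hs.le (by linarith)
      · rw [er, ei]; nlinarith
      · rw [er, ei]; nlinarith
  have key2 : ∀ p : ℂ, 0 ≤ p.im → 0 ≤ p.re → ∃ n : ℕ, Sec (z8 ^ n * p) := by
    intro p h0 h1
    rcases le_total p.im p.re with h | h
    · exact key p h0 h
    · -- reflect: rotate by `-π/4` or `-π/2`
      rcases le_total p.re (5 / 12 * p.im) with h' | h'
      · refine ⟨6, ?_⟩
        have h6 : z8 ^ 6 = -Complex.I := by
          have : z8 ^ 6 = z8 ^ 4 * z8 ^ 2 := by ring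
          rw [this, z8_sq, z8_4]; ring
        rw [h6]
        refine ⟨?_, ?_, ?_⟩ <;> simp <;> linarith
      · refine ⟨7, ?_⟩
        have hz7 : z8 ^ 7 = ⟨√2 / 2, -(√2 / 2)⟩ := by rw [← z8_conj]; rfl
        rw [hz7]
        have er : ((⟨√2 / 2, -(√2 / 2)⟩ : ℂ) * p).re = √2 / 2 * (p.re + p.im) := by
          rw [Complex.mul_re]; ring
        have ei : ((⟨√2 / 2, -(√2 / 2)⟩ : ℂ) * p).im = √2 / 2 * (p.im - p.re) := by
          rw [Complex.mul_im]; ring
        refine ⟨?_, ?_, ?_⟩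
        · rw [er]; exact mul_nonneg hs.le (by linarith)
        · rw [er, ei]; nlinarith
        · rw [er, ei]; nlinarith
  have key3 : ∀ p : ℂ, 0 ≤ p.im → ∃ n : ℕ, Sec (z8 ^ n * p) := by
    intro p h0
    rcases le_total 0 p.re with h | h
    · exact key2 p h0 h
    · obtain ⟨n, hn⟩ := key2 (-Complex.I * p) (by simp; linarith) (by simp; linarith)
      refine ⟨n + 6, ?_⟩
      have h6 : z8 ^ 6 = -Complex.I := by
        have : z8 ^ 6 = z8 ^ 4 * z8 ^ 2 := by ring
        rw [this, z8_sq, z8_4]; ring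
      rw [pow_add, h6, mul_assoc]
      exact hn
  rcases le_total 0 p.im with h | h
  · exact key3 p h
  · obtain ⟨n, hn⟩ := key3 (-p) (by simp; linarith)
    refine ⟨n + 4, ?_⟩
    rw [pow_add, z8_4]
    have : z8 ^ n * -1 * p = z8 ^ n * -p := by ring
    rw [this]
    exact hn

theorem P_rots (n : ℕ) : ∀ {p q : ℂ}, P (z8 ^ n * p, z8 ^ (3 * n) * q) → P (p, q) := by
  induction n with
  | zero => intro p q h; simpa using h
  | succ n ih =>
    intro p q h
    apply P_rot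
    apply ih
    have e1 : z8 ^ n * (z8 * p) = z8 ^ (n + 1) * p := by ring
    have e2 : z8 ^ (3 * n) * (z8 ^ 3 * q) = z8 ^ (3 * (n + 1)) * q := by ring
    rw [e1, e2]
    exact h

/-- the case `|q| ≤ |p|` -/
theorem P_le {p q : ℂ} (hp0 : p ≠ 0) (hp : ‖p‖ ≤ 1) (hq : ‖q‖ ≤ ‖p‖) : P (p, q) := by
  have hpp : 0 < ‖p‖ := norm_pos_iff.2 hp0
  have hc : ((‖p‖ : ℝ) : ℂ) ≠ 0 := by exact_mod_cast hpp.ne'
  have e1 : ((‖p‖ : ℝ) : ℂ) * (p / ‖p‖) = p := by field_simp
  have e2 : ((‖p‖ : ℝ) : ℂ) * (q / ‖p‖) = q := by field_simp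
  rw [← e1, ← e2]
  refine P_scale hpp hp ?_
  obtain ⟨n, hn⟩ := exists_rot (p / ‖p‖)
  apply P_rots n
  apply P_sec _ _ hn
  · rw [norm_mul, norm_pow, z8_norm, one_pow, one_mul, norm_div, Complex.norm_real,
      Real.norm_of_nonneg hpp.le]
    exact div_self hpp.ne'
  · rw [norm_mul, norm_pow, z8_norm, one_pow, one_mul, norm_div, Complex.norm_real,
      Real.norm_of_nonneg hpp.le]
    exact (div_le_one hpp).2 hq

/-- **every nonzero point of the bidisc is lit** -/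
theorem P_all {p q : ℂ} (h0 : ¬ (p = 0 ∧ q = 0)) (hp : ‖p‖ ≤ 1) (hq : ‖q‖ ≤ 1) : P (p, q) := by
  rcases le_total ‖q‖ ‖p‖ with h | h
  · apply P_le _ hp h
    rintro rfl
    apply h0
    simpa using h
  · apply P_J
    apply P_le _ hq (by rwa [norm_neg])
    rintro rfl
    apply h0
    simpa using h

end Pool.Agent.H768.C4
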