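import Mathlib
import Pool.Agent.H768.C4.Light
import Pool.Agent.H768.C4.Fam

/-! # Directions and classes of functionals in `ℂ²` -/

set_option autoImplicit false

namespace Pool.Agent.H768.C4

open E

/-- the directions -/
noncomputable def DT (T1 T2 : ℝ) (k : Bool) (a : ℕ) : ℂ × ℂ :=
  if k then (-(T2 : ℂ) * z8 ^ (3 * a), z8 ^ a) else (z8 ^ a, (T1 : ℂ) * z8 ^ (3 * a))

/-- a class of functionals, in terms of the norms of the coefficients and of the products with the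
coordinates of the point -/
abbrev Cls := ℝ → ℝ → ℂ → ℂ → Prop

/-- the class with the coordinates exchanged -/
def Cls.sw (Q : Cls) : Cls := fun x y A B => Q y x B A

/-- closed under complex conjugation and scaling -/
structure Cls.Ok (Q : Cls) : Prop where
  conj : ∀ x y A B, Q x y A B → Q x y ((starRingEnd ℂ) A) ((starRingEnd ℂ) B)
  scale : ∀ x y A B (c : ℝ), 0 < c → c ≤ 1 → 0 ≤ x → 0 ≤ y → Q x y A B → Q (c * x) (c * y) A B

theorem Cls.Ok.sw {Q : Cls} (h : Q.Ok) : Q.sw.Ok :=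
  ⟨fun x y A B hq => h.conj y x B A hq, fun x y A B c h0 h1 hx hy hq => h.scale y x B A c h0 h1 hy hx hq⟩

/-- `w` is positive on all admissible functionals at `p` -/
def LQ (Q : Cls) (w p : ℂ × ℂ) : Prop :=
  ∀ a b : ℂ, Q ‖a‖ ‖b‖ (a * p.1) (b * p.2) → 0 < (a * w.1 + b * w.2).re

def PQ (Q : Cls) (T1 T2 : ℝ) (p : ℂ × ℂ) : Prop := ∃ k a, LQ Q (DT T1 T2 k a) p

theorem z8_inv7 (w : ℂ) : z8 ^ 7 * (z8 * w) = w := by
  have : z8 ^ 7 * (z8 * w) = z8 ^ 8 * w := by ring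
  rw [this, z8_8, one_mul]

theorem PQ_rot {Q : Cls} {T1 T2 : ℝ} {p q : ℂ} (h : PQ Q T1 T2 (z8 * p, z8 ^ 3 * q)) :
    PQ Q T1 T2 (p, q) := by
  obtain ⟨k, n, h⟩ := h
  have key : ∀ a b : ℂ, Q ‖a‖ ‖b‖ (a * p) (b * q) →
      0 < (a * (z8 ^ 7 * (DT T1 T2 k n).1) + b * (z8 ^ 5 * (DT T1 T2 k n).2)).re := by
    intro a b hab
    have e1 : a * z8 ^ 7 * (z8 * p) = z8 ^ 8 * (a * p) := by ring
    have e2 : b * z8 ^ 5 * (z8 ^ 3 * q) = z8 ^ 8 * (b * q) := by ring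
    have := h (a * z8 ^ 7) (b * z8 ^ 5) (by
      simp only [norm_mul, norm_pow, z8_norm, one_pow, mul_one]
      rw [e1, e2, z8_8, one_mul, one_mul]
      exact hab)
    rw [mul_assoc, mul_assoc] at this
    exact this
  cases k with
  | false =>
    refine ⟨false, n + 7, fun a b hab => ?_⟩
    have := key a b hab
    have e1 : z8 ^ 7 * (DT T1 T2 false n).1 = (DT T1 T2 false (n + 7)).1 := by
      simp only [DT, Bool.false_eq_true, if_false]; ring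
    have e2 : z8 ^ 5 * (DT T1 T2 false n).2 = (DT T1 T2 false (n + 7)).2 := by
      simp only [DT, Bool.false_eq_true, if_false]
      have : z8 ^ (3 * (n + 7)) = z8 ^ 8 * z8 ^ 8 * (z8 ^ 5 * z8 ^ (3 * n)) := by ring
      rw [this, z8_8]; ring
    rw [e1, e2] at this
    exact this
  | true =>
    refine ⟨true, n + 5, fun a b hab => ?_⟩
    have := key a b hab
    have e1 : z8 ^ 7 * (DT T1 T2 true n).1 = (DT T1 T2 true (n + 5)).1 := by
      simp only [DT, if_true]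
      have : z8 ^ (3 * (n + 5)) = z8 ^ 8 * (z8 ^ 7 * z8 ^ (3 * n)) := by ring
      rw [this, z8_8]; ring
    have e2 : z8 ^ 5 * (DT T1 T2 true n).2 = (DT T1 T2 true (n + 5)).2 := by
      simp only [DT, if_true]; ring
    rw [e1, e2] at this
    exact this

theorem PQ_J {Q : Cls} {T1 T2 : ℝ} {p q : ℂ} (h : PQ Q.sw T2 T1 (q, -p)) : PQ Q T1 T2 (p, q) := by
  obtain ⟨k, n, h⟩ := h
  have key : ∀ a b : ℂ, Q ‖a‖ ‖b‖ (a * p) (b * q) →
      0 < (a * (-(DT T2 T1 k n).2) + b * (DT T2 T1 k n).1).re := by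
    intro a b hab
    have := h b (-a) (by
      show Q ‖-a‖ ‖b‖ (-a * -p) (b * q)
      rw [norm_neg, neg_mul_neg]
      exact hab)
    have e : b * (DT T2 T1 k n).1 + -a * (DT T2 T1 k n).2
        = a * (-(DT T2 T1 k n).2) + b * (DT T2 T1 k n).1 := by ring
    rw [e] at this
    exact this
  cases k with
  | false =>
    refine ⟨true, n, fun a b hab => ?_⟩
    have := key a b hab
    have e1 : -(DT T2 T1 false n).2 = (DT T1 T2 true n).1 := by simp [DT]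
    have e2 : (DT T2 T1 false n).1 = (DT T1 T2 true n).2 := by simp [DT]
    rw [e1, e2] at this
    exact this
  | true =>
    refine ⟨false, n + 4, fun a b hab => ?_⟩
    have := key a b hab
    have e1 : -(DT T2 T1 true n).2 = (DT T1 T2 false (n + 4)).1 := by
      simp only [DT, Bool.false_eq_true, if_false, if_true, pow_add, z8_4]; ring
    have e2 : (DT T2 T1 true n).1 = (DT T1 T2 false (n + 4)).2 := by
      simp only [DT, Bool.false_eq_true, if_false, if_true]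
      have : z8 ^ (3 * (n + 4)) = z8 ^ 8 * (z8 ^ 4 * z8 ^ (3 * n)) := by ring
      rw [this, z8_8, z8_4]; ring
    rw [e1, e2] at this
    exact this

theorem conj_z8_pow (m : ℕ) : (starRingEnd ℂ) (z8 ^ m) = z8 ^ (7 * m) := by
  rw [map_pow, z8_conj, ← pow_mul]

theorem PQ_conj {Q : Cls} (hQ : Q.Ok) {T1 T2 : ℝ} {p q : ℂ}
    (h : PQ Q T1 T2 ((starRingEnd ℂ) p, (starRingEnd ℂ) q)) : PQ Q T1 T2 (p, q) := by
  obtain ⟨k, n, h⟩ := h
  refine ⟨k, 7 * n, fun a b hab => ?_⟩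
  have := h ((starRingEnd ℂ) a) ((starRingEnd ℂ) b) (by
    rw [Complex.norm_conj, Complex.norm_conj, ← map_mul, ← map_mul]
    exact hQ.conj _ _ _ _ hab)
  have e : (starRingEnd ℂ) (DT T1 T2 k n).1 = (DT T1 T2 k (7 * n)).1 ∧
      (starRingEnd ℂ) (DT T1 T2 k n).2 = (DT T1 T2 k (7 * n)).2 := by
    have e7 : 7 * (3 * n) = 3 * (7 * n) := by ring
    cases k <;> constructor <;> simp only [DT, Bool.false_eq_true, if_false, if_true, map_mul,
      map_neg, conj_z8_pow, Complex.conj_ofReal, e7]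
  rw [← e.1, ← e.2]
  have e3 : (starRingEnd ℂ) a * (DT T1 T2 k n).1 + (starRingEnd ℂ) b * (DT T1 T2 k n).2
      = (starRingEnd ℂ) (a * (starRingEnd ℂ) (DT T1 T2 k n).1
        + b * (starRingEnd ℂ) (DT T1 T2 k n).2) := by
    simp
  rw [e3, Complex.conj_re] at this
  exact this

theorem PQ_scale {Q : Cls} (hQ : Q.Ok) {T1 T2 : ℝ} {p q : ℂ} {c : ℝ} (hc0 : 0 < c) (hc1 : c ≤ 1)
    (h : PQ Q T1 T2 (p, q)) : PQ Q T1 T2 ((c : ℂ) * p, (c : ℂ) * q) := by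
  obtain ⟨k, n, h⟩ := h
  refine ⟨k, n, fun a b hab => ?_⟩
  have hn : ‖(c : ℂ)‖ = c := by
    rw [Complex.norm_real, Real.norm_of_nonneg hc0.le]
  have := h (c * a) (c * b) (by
    rw [norm_mul, norm_mul, hn]
    have e1 : (c : ℂ) * a * p = a * (c * p) := by ring
    have e2 : (c : ℂ) * b * q = b * (c * q) := by ring
    rw [e1, e2]
    exact hQ.scale _ _ _ _ c hc0 hc1 (norm_nonneg _) (norm_nonneg _) hab)
  have e : (c : ℂ) * a * (DT T1 T2 k n).1 + (c : ℂ) * b * (DT T1 T2 k n).2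
      = (c : ℂ) * (a * (DT T1 T2 k n).1 + b * (DT T1 T2 k n).2) := by ring
  rw [e, Complex.re_ofReal_mul] at this
  exact (mul_pos_iff_of_pos_left hc0).1 this

/-- the table `zt` -/
theorem zt_z8 (a : ℕ) : ∃ c : ℝ, 0 < c ∧ (c : ℂ) * z8 ^ a = ⟨((zt a).1 : ℝ), ((zt a).2 : ℝ)⟩ ∧
    (c : ℂ) * z8 ^ (3 * a) = ⟨((zt (3 * a)).1 : ℝ), ((zt (3 * a)).2 : ℝ)⟩ ∧
    (c = if a % 2 = 0 then 1 else √2) := by
  have hs : (0 : ℝ) < √2 := by positivity
  have p0 : z8 ^ 0 = 1 := pow_zero _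
  have p2 : z8 ^ 2 = Complex.I := z8_sq
  have p4 : z8 ^ 4 = -1 := z8_4
  have p6 : z8 ^ 6 = -Complex.I := by
    have : z8 ^ 6 = z8 ^ 4 * z8 ^ 2 := by ring
    rw [this, p4, p2]; ring
  have q1 : ((√2 : ℝ) : ℂ) * z8 ^ 1 = ⟨1, 1⟩ := by
    apply Complex.ext <;> simp [z8] <;> nlinarith [s22]
  have q3 : ((√2 : ℝ) : ℂ) * z8 ^ 3 = ⟨-1, 1⟩ := by
    have : ((√2 : ℝ) : ℂ) * z8 ^ 3 = (((√2 : ℝ) : ℂ) * z8 ^ 1) * z8 ^ 2 := by ring
    rw [this, q1, p2]; apply Complex.ext <;> simp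
  have q5 : ((√2 : ℝ) : ℂ) * z8 ^ 5 = ⟨-1, -1⟩ := by
    have : ((√2 : ℝ) : ℂ) * z8 ^ 5 = (((√2 : ℝ) : ℂ) * z8 ^ 1) * z8 ^ 4 := by ring
    rw [this, q1, p4]; apply Complex.ext <;> simp
  have q7 : ((√2 : ℝ) : ℂ) * z8 ^ 7 = ⟨1, -1⟩ := by
    have : ((√2 : ℝ) : ℂ) * z8 ^ 7 = (((√2 : ℝ) : ℂ) * z8 ^ 1) * z8 ^ 6 := by ring
    rw [this, q1, p6]; apply Complex.ext <;> simp
  have per : ∀ n m, z8 ^ (n + 8 * m) = z8 ^ n := by
    intro n m; rw [pow_add, pow_mul, z8_8, one_pow, mul_one]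
  have zper : ∀ m n, zt (n + 8 * m) = zt n := by
    intro m
    induction m with
    | zero => intro n; rfl
    | succ m ih =>
      intro n
      have : n + 8 * (m + 1) = (n + 8 * m) + 8 := by ring
      rw [this]
      show zt (n + 8 * m) = zt n
      exact ih n
  -- the table for exponents below eight
  have tab : ∀ n, n < 8 → ((if n % 2 = 0 then (1 : ℝ) else √2 : ℝ) : ℂ) * z8 ^ n
      = ⟨((zt n).1 : ℝ), ((zt n).2 : ℝ)⟩ := by
    intro n hn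
    interval_cases n
    · rw [p0]; apply Complex.ext <;> simp [zt]
    · rw [if_neg (by norm_num), q1]; apply Complex.ext <;> simp [zt]
    · rw [p2]; apply Complex.ext <;> simp [zt]
    · rw [if_neg (by norm_num), q3]; apply Complex.ext <;> simp [zt]
    · rw [p4]; apply Complex.ext <;> simp [zt]
    · rw [if_neg (by norm_num), q5]; apply Complex.ext <;> simp [zt]
    · rw [p6]; apply Complex.ext <;> simp [zt]
    · rw [if_neg (by norm_num), q7]; apply Complex.ext <;> simp [zt]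
  have tab2 : ∀ n, ((if n % 2 = 0 then (1 : ℝ) else √2 : ℝ) : ℂ) * z8 ^ n
      = ⟨((zt n).1 : ℝ), ((zt n).2 : ℝ)⟩ := by
    intro n
    have h1 : n = n % 8 + 8 * (n / 8) := by omega
    have h2 : z8 ^ n = z8 ^ (n % 8) := by
      conv_lhs => rw [h1]
      exact per _ _
    have h3 : zt n = zt (n % 8) := by
      conv_lhs => rw [h1]
      exact zper _ _
    have h4 : n % 2 = (n % 8) % 2 := by omega
    rw [h2, h3, h4]
    exact tab _ (Nat.mod_lt _ (by norm_num))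
  refine ⟨if a % 2 = 0 then 1 else √2, by split <;> positivity, tab2 a, ?_, rfl⟩
  have h5 : (3 * a) % 2 = a % 2 := by omega
  have := tab2 (3 * a)
  rw [h5] at this
  exact this

/-- the integer directions are multiples of the directions `DT` -/
theorem dir_DT {n1 d1 n2 d2 : ℤ} (h1 : 0 < d1) (h2 : 0 < d2) (k : ℕ) :
    ∃ (κ : Bool) (n : ℕ) (c : ℝ), 0 < c ∧
    (c : ℂ) * (DT (n1 / d1) (n2 / d2) κ n).1
      = ⟨((dir n1 d1 n2 d2 k).1 : ℝ), ((dir n1 d1 n2 d2 k).2.1 : ℝ)⟩ ∧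
    (c : ℂ) * (DT (n1 / d1) (n2 / d2) κ n).2
      = ⟨((dir n1 d1 n2 d2 k).2.2.1 : ℝ), ((dir n1 d1 n2 d2 k).2.2.2 : ℝ)⟩ := by
  have h1' : (0 : ℝ) < d1 := by exact_mod_cast h1
  have h2' : (0 : ℝ) < d2 := by exact_mod_cast h2
  have h1c : (d1 : ℂ) ≠ 0 := by exact_mod_cast h1'.ne'
  have h2c : (d2 : ℂ) ≠ 0 := by exact_mod_cast h2'.ne'
  by_cases hk : k < 8
  · obtain ⟨c, hc, e1, e2, -⟩ := zt_z8 k
    refine ⟨false, k, d1 * c, mul_pos h1' hc, ?_, ?_⟩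
    · simp only [DT, Bool.false_eq_true, if_false, dir, hk, if_true]
      have : ((d1 * c : ℝ) : ℂ) * z8 ^ k = (d1 : ℂ) * ((c : ℂ) * z8 ^ k) := by push_cast; ring
      rw [this, e1]
      apply Complex.ext <;> simp
    · simp only [DT, Bool.false_eq_true, if_false, dir, hk, if_true]
      have : ((d1 * c : ℝ) : ℂ) * (((n1 / d1 : ℝ) : ℂ) * z8 ^ (3 * k))
          = (n1 : ℂ) * ((c : ℂ) * z8 ^ (3 * k)) := by
        push_cast; field_simp
      rw [this, e2]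
      apply Complex.ext <;> simp
  · obtain ⟨c, hc, e1, e2, -⟩ := zt_z8 (k - 8)
    refine ⟨true, k - 8, d2 * c, mul_pos h2' hc, ?_, ?_⟩
    · simp only [DT, if_true, dir, hk, if_false]
      have : ((d2 * c : ℝ) : ℂ) * (-((n2 / d2 : ℝ) : ℂ) * z8 ^ (3 * (k - 8)))
          = -(n2 : ℂ) * ((c : ℂ) * z8 ^ (3 * (k - 8))) := by
        push_cast; field_simp
      rw [this, e2]
      apply Complex.ext <;> simp
    · simp only [DT, if_true, dir, hk, if_false]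
      have : ((d2 * c : ℝ) : ℂ) * z8 ^ (k - 8) = (d2 : ℂ) * ((c : ℂ) * z8 ^ (k - 8)) := by
        push_cast; ring
      rw [this, e1]
      apply Complex.ext <;> simp

/-- the core property of a class: the first coordinate of the point is a unit -/
def Core (Q : Cls) (n1 d1 n2 d2 : ℤ) : Prop :=
  ∀ E S F G r : ℝ, E ^ 2 + S ^ 2 = 1 → F ^ 2 + G ^ 2 = 1 → 0 ≤ E → S ≤ 5 / 12 * E →
    -S ≤ 5 / 12 * E → 0 ≤ G → 0 < r → r ≤ 1 → ∃ k, ∀ A B : ℂ, Q ‖A‖ ‖B‖ A ((r : ℂ) * B) →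
      0 < VV (dir n1 d1 n2 d2 k) E S F G A.re A.im B.re B.im

theorem PQ_core {Q : Cls} {n1 d1 n2 d2 : ℤ} (h1 : 0 < d1) (h2 : 0 < d2)
    (hcore : Core Q n1 d1 n2 d2) {E S F G r : ℝ} (hes : E ^ 2 + S ^ 2 = 1) (hfg : F ^ 2 + G ^ 2 = 1)
    (hE : 0 ≤ E) (hS1 : S ≤ 5 / 12 * E) (hS2 : -S ≤ 5 / 12 * E) (hG : 0 ≤ G) (hr0 : 0 < r)
    (hr1 : r ≤ 1) : PQ Q (n1 / d1) (n2 / d2) (⟨E, -S⟩, (r : ℂ) * ⟨F, -G⟩) := by
  obtain ⟨k, hk⟩ := hcore E S F G r hes hfg hE hS1 hS2 hG hr0 hr1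
  obtain ⟨κ, n, c, hc, e1, e2⟩ := dir_DT (n1 := n1) (n2 := n2) h1 h2 k
  refine ⟨κ, n, fun a b hab => ?_⟩
  simp only at hab
  have he : (⟨E, -S⟩ : ℂ) * ⟨E, S⟩ = 1 := by
    apply Complex.ext
    · simp only [Complex.mul_re, Complex.one_re]; nlinarith
    · simp only [Complex.mul_im, Complex.one_im]; ring
  have hf : (⟨F, -G⟩ : ℂ) * ⟨F, G⟩ = 1 := by
    apply Complex.ext
    · simp only [Complex.mul_re, Complex.one_re]; nlinarith
    · simp only [Complex.mul_im, Complex.one_im]; ring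
  have ne : ‖(⟨E, -S⟩ : ℂ)‖ = 1 := by
    rw [Complex.norm_eq_sqrt_sq_add_sq]; simp only
    have : E ^ 2 + (-S) ^ 2 = 1 := by nlinarith
    rw [this, Real.sqrt_one]
  have nf : ‖(⟨F, -G⟩ : ℂ)‖ = 1 := by
    rw [Complex.norm_eq_sqrt_sq_add_sq]; simp only
    have : F ^ 2 + (-G) ^ 2 = 1 := by nlinarith
    rw [this, Real.sqrt_one]
  obtain ⟨A, hA⟩ : ∃ A : ℂ, A = a * ⟨E, -S⟩ := ⟨_, rfl⟩
  obtain ⟨B, hB⟩ : ∃ B : ℂ, B = b * ⟨F, -G⟩ := ⟨_, rfl⟩
  have haA : a = A * ⟨E, S⟩ := by rw [hA, mul_assoc, he, mul_one]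
  have hbB : b = B * ⟨F, G⟩ := by rw [hB, mul_assoc, hf, mul_one]
  have nA : ‖a‖ = ‖A‖ := by rw [hA, norm_mul, ne, mul_one]
  have nB : ‖b‖ = ‖B‖ := by rw [hB, norm_mul, nf, mul_one]
  have hab' : Q ‖A‖ ‖B‖ A ((r : ℂ) * B) := by
    rw [← nA, ← nB]
    have e3 : (r : ℂ) * B = b * ((r : ℂ) * ⟨F, -G⟩) := by rw [hB]; ring
    rw [e3, hA]
    exact hab
  have hV := hk A B hab'
  have e3 : (c : ℂ) * (a * (DT (n1 / d1) (n2 / d2) κ n).1 + b * (DT (n1 / d1) (n2 / d2) κ n).2)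
      = A * ⟨E, S⟩ * ⟨((dir n1 d1 n2 d2 k).1 : ℝ), ((dir n1 d1 n2 d2 k).2.1 : ℝ)⟩
        + B * ⟨F, G⟩ * ⟨((dir n1 d1 n2 d2 k).2.2.1 : ℝ), ((dir n1 d1 n2 d2 k).2.2.2 : ℝ)⟩ := by
    rw [← e1, ← e2, ← haA, ← hbB]; ring
  have e4 : c * (a * (DT (n1 / d1) (n2 / d2) κ n).1 + b * (DT (n1 / d1) (n2 / d2) κ n).2).re
      = VV (dir n1 d1 n2 d2 k) E S F G A.re A.im B.re B.im := by
    rw [← Complex.re_ofReal_mul, e3]
    simp only [VV, Complex.add_re, Complex.mul_re, Complex.mul_im]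
    ring
  rw [← e4] at hV
  exact (mul_pos_iff_of_pos_left hc).1 hV

/-- the axis property: the second coordinate of the point vanishes -/
def Axis (Q : Cls) (T1 : ℝ) : Prop :=
  ∀ A B : ℂ, Q ‖A‖ ‖B‖ A 0 → A = 1 ∧ T1 * ‖B‖ < 12 / 13

theorem PQ_axis {Q : Cls} {T1 T2 : ℝ} (hT : 0 ≤ T1) (hax : Axis Q T1) {p : ℂ} (hp : ‖p‖ = 1)
    (hs : Sec p) : PQ Q T1 T2 (p, 0) := by
  refine ⟨false, 0, fun a b hab => ?_⟩
  simp only [mul_zero] at hab
  have hpc : p * (starRingEnd ℂ) p = 1 := by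
    rw [Complex.mul_conj, Complex.normSq_eq_norm_sq, hp]; norm_num
  have h := hax (a * p) b (by rw [norm_mul, hp, mul_one]; exact hab)
  have ha : a = (starRingEnd ℂ) p := by
    calc a = a * (p * (starRingEnd ℂ) p) := by rw [hpc, mul_one]
      _ = (starRingEnd ℂ) p := by rw [← mul_assoc, h.1, one_mul]
  obtain ⟨s1, s2, s3⟩ := hs
  have hp2 : p.re ^ 2 + p.im ^ 2 = 1 := by
    have : ‖p‖ ^ 2 = 1 := by rw [hp]; norm_num
    rw [← Complex.normSq_eq_norm_sq, Complex.normSq_apply] at this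
    nlinarith
  have hE9 : 12 / 13 ≤ p.re := by nlinarith
  simp only [DT, Bool.false_eq_true, if_false, pow_zero, mul_zero, mul_one, Complex.add_re, ha,
    Complex.conj_re]
  have e : (b * (T1 : ℂ)).re = b.re * T1 := Complex.re_mul_ofReal _ _
  rw [e]
  have hb2 : |b.re| ≤ ‖b‖ := Complex.abs_re_le_norm b
  have hb3 := (abs_le.1 hb2).1
  have h4 : b.re * T1 ≥ -‖b‖ * T1 := mul_le_mul_of_nonneg_right hb3 hT
  nlinarith [h.2]

theorem PQ_sec {Q : Cls} (hQ : Q.Ok) {n1 d1 n2 d2 : ℤ} (hn1 : 0 ≤ n1) (h1 : 0 < d1) (h2 : 0 < d2)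
    (hcore : Core Q n1 d1 n2 d2) (hax : Axis Q (n1 / d1)) {p q : ℂ} (hp : ‖p‖ = 1) (hq : ‖q‖ ≤ 1)
    (hs : Sec p) : PQ Q (n1 / d1) (n2 / d2) (p, q) := by
  obtain ⟨s1, s2, s3⟩ := hs
  have hp2 : p.re ^ 2 + p.im ^ 2 = 1 := by
    have : ‖p‖ ^ 2 = 1 := by rw [hp]; norm_num
    rw [← Complex.normSq_eq_norm_sq, Complex.normSq_apply] at this
    nlinarith
  rcases eq_or_ne q 0 with rfl | hq0
  · apply PQ_axis _ hax hp ⟨s1, s2, s3⟩
    have h1' : (0 : ℝ) < d1 := by exact_mod_cast h1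
    have hn1' : (0 : ℝ) ≤ n1 := by exact_mod_cast hn1
    exact div_nonneg hn1' h1'.le
  · have hr : 0 < ‖q‖ := norm_pos_iff.2 hq0
    have hq2 : (q.re / ‖q‖) ^ 2 + (q.im / ‖q‖) ^ 2 = 1 := by
      have : ‖q‖ ^ 2 = q.re ^ 2 + q.im ^ 2 := by
        rw [← Complex.normSq_eq_norm_sq, Complex.normSq_apply]; ring
      rw [div_pow, div_pow, ← add_div, ← this]
      exact div_self (by positivity)
    have hqe : ∀ z : ℂ, ‖z‖ = ‖q‖ → (‖q‖ : ℂ) * ⟨z.re / ‖q‖, z.im / ‖q‖⟩ = z := by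
      intro z hz
      apply Complex.ext
      · simp only [Complex.mul_re, Complex.ofReal_re, Complex.ofReal_im, zero_mul, sub_zero]
        field_simp
      · simp only [Complex.mul_im, Complex.ofReal_re, Complex.ofReal_im, zero_mul, add_zero]
        field_simp
    rcases le_total q.im 0 with hi | hi
    · have := PQ_core h1 h2 hcore (E := p.re) (S := -p.im) (F := q.re / ‖q‖)
        (G := -(q.im / ‖q‖)) (r := ‖q‖)
        (by nlinarith) (by nlinarith) s1 (by linarith) (by linarith)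
        (by rw [← neg_div]; exact div_nonneg (by linarith) hr.le) hr hq
      rw [neg_neg, neg_neg, hqe q rfl] at this
      exact this
    · apply PQ_conj hQ
      have := PQ_core h1 h2 hcore (E := p.re) (S := p.im) (F := q.re / ‖q‖) (G := q.im / ‖q‖)
        (r := ‖q‖)
        (by nlinarith) (by nlinarith) s1 (by linarith) (by linarith)
        (div_nonneg hi hr.le) hr hq
      have e := hqe ((starRingEnd ℂ) q) (Complex.norm_conj q)
      rw [Complex.conj_re, Complex.conj_im, neg_div] at e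
      rw [e] at this
      exact this

theorem PQ_rots {Q : Cls} {T1 T2 : ℝ} (n : ℕ) : ∀ {p q : ℂ},
    PQ Q T1 T2 (z8 ^ n * p, z8 ^ (3 * n) * q) → PQ Q T1 T2 (p, q) := by
  induction n with
  | zero => intro p q h; simpa using h
  | succ n ih =>
    intro p q h
    apply PQ_rot
    apply ih
    have e1 : z8 ^ n * (z8 * p) = z8 ^ (n + 1) * p := by ring
    have e2 : z8 ^ (3 * n) * (z8 ^ 3 * q) = z8 ^ (3 * (n + 1)) * q := by ring
    rw [e1, e2]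
    exact h

/-- the case `|q| ≤ |p|` -/
theorem PQ_le {Q : Cls} (hQ : Q.Ok) {n1 d1 n2 d2 : ℤ} (hn1 : 0 ≤ n1) (h1 : 0 < d1) (h2 : 0 < d2)
    (hcore : Core Q n1 d1 n2 d2) (hax : Axis Q (n1 / d1)) {p q : ℂ} (hp0 : p ≠ 0) (hp : ‖p‖ ≤ 1)
    (hq : ‖q‖ ≤ ‖p‖) : PQ Q (n1 / d1) (n2 / d2) (p, q) := by
  have hpp : 0 < ‖p‖ := norm_pos_iff.2 hp0
  have hc : ((‖p‖ : ℝ) : ℂ) ≠ 0 := by exact_mod_cast hpp.ne'
  have e1 : ((‖p‖ : ℝ) : ℂ) * (p / ‖p‖) = p := by field_simp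
  have e2 : ((‖p‖ : ℝ) : ℂ) * (q / ‖p‖) = q := by field_simp
  rw [← e1, ← e2]
  refine PQ_scale hQ hpp hp ?_
  obtain ⟨n, hn⟩ := exists_rot (p / ‖p‖)
  apply PQ_rots n
  apply PQ_sec hQ hn1 h1 h2 hcore hax _ _ hn
  · rw [norm_mul, norm_pow, z8_norm, one_pow, one_mul, norm_div, Complex.norm_real,
      Real.norm_of_nonneg hpp.le]
    exact div_self hpp.ne'
  · rw [norm_mul, norm_pow, z8_norm, one_pow, one_mul, norm_div, Complex.norm_real,
      Real.norm_of_nonneg hpp.le]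
    exact (div_le_one hpp).2 hq

/-- **every nonzero point of the bidisc is lit** -/
theorem PQ_all {Q : Cls} (hQ : Q.Ok) {n1 d1 n2 d2 : ℤ} (hn1 : 0 ≤ n1) (hn2 : 0 ≤ n2) (h1 : 0 < d1)
    (h2 : 0 < d2)
    (hcore : Core Q n1 d1 n2 d2) (hax : Axis Q (n1 / d1))
    (hcore' : Core Q.sw n2 d2 n1 d1) (hax' : Axis Q.sw (n2 / d2)) {p q : ℂ}
    (h0 : ¬ (p = 0 ∧ q = 0)) (hp : ‖p‖ ≤ 1) (hq : ‖q‖ ≤ 1) : PQ Q (n1 / d1) (n2 / d2) (p, q) := by
  rcases le_total ‖q‖ ‖p‖ with h | h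
  · apply PQ_le hQ hn1 h1 h2 hcore hax _ hp h
    rintro rfl
    apply h0
    simpa using h
  · apply PQ_J
    apply PQ_le hQ.sw hn2 h2 h1 hcore' hax' _ hq (by rwa [norm_neg])
    rintro rfl
    apply h0
    simpa using h

end Pool.Agent.H768.C4
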