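import Mathlib
import Pool.Agent.H768.C4.Fam

/-! # Certificates -/

set_option autoImplicit false

namespace Pool.Agent.H768.C4.E

def fF1 : Fm where
  a0 := ⟨1, 0, 0, 0⟩
  a1 := ⟨0, -1, 0, 0⟩
  a2 := ⟨0, 0, -1, 0⟩
  b0 := ⟨0, 0, 0, 0⟩
  b1 := ⟨1, 0, 0, 0⟩
  b2 := ⟨1, 0, 0, 0⟩
  K := 21
  cor := [(0, 21), (7, 21), (15, 15), (21, 7)]

def tF1_0 : Tr :=
  (.q (.l 0 []) (.u (.l 0 []) (.u (.l 0 []) (.s (.s (.s (.l 15 []) (.l 0 [])) (.l 0 [])) (.l 0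
  [])))))

theorem ctF1_0 : check (fF1.dat 9 10 9 10)
    (fun r0 _ _ q1 => decide (5 * q1 ≤ 1 * r0)) tF1_0 (-256) 256 (-256) (-128) 0 64 0 64 = true := by
  decide +kernel

def tF1_1 : Tr :=
  (.l 15 [])

theorem ctF1_1 : check (fF1.dat 9 10 9 10)
    (fun r0 _ _ q1 => decide (5 * q1 ≤ 1 * r0)) tF1_1 (-256) (-128) (-128) 0 0 64 0 64 = true := by
  decide +kernel

def tF1_2 : Tr :=
  (.q (.q (.u (.l 15 []) (.u (.l 15 []) (.u (.l 15 []) (.q (.u (.l 15 []) (.q (.r (.u (.l 15 []) (.l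
  2 [])) .v) (.l 15 []))) (.l 15 []))))) (.l 15 [])) (.q (.l 15 []) (.u (.u (.u (.l 0 []) (.l 15
  [])) (.l 15 [])) (.l 7 []))))

theorem ctF1_2 : check (fF1.dat 9 10 9 10)
    (fun r0 _ _ q1 => decide (5 * q1 ≤ 1 * r0)) tF1_2 (-128) (-64) (-128) 0 0 64 0 64 = true := by
  decide +kernel

def tF1_3 : Tr :=
  (.u (.l 0 []) (.l 15 []))

theorem ctF1_3 : check (fF1.dat 9 10 9 10)
    (fun r0 _ _ q1 => decide (5 * q1 ≤ 1 * r0)) tF1_3 (-64) 0 (-128) (-64) 0 64 0 64 = true := by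
  decide +kernel

def tF1_4 : Tr :=
  (.u (.l 15 []) (.q (.u (.l 15 []) (.u (.q (.q (.r (.r (.l 0 []) (.q .v (.q .v (.l 15 [])))) .v)
  (.l 15 [])) (.l 15 [])) (.q (.r (.q (.r (.l 0 []) (.q .v (.q .v (.r (.r (.s (.u (.l 15 []) (.l 7
  [])) (.l 7 [])) .v) .v)))) (.l 7 [])) (.q .v (.q .v (.l 7 [])))) (.l 7 [])))) (.l 15 [])))

theorem ctF1_4 : check (fF1.dat 9 10 9 10)
    (fun r0 _ _ q1 => decide (5 * q1 ≤ 1 * r0)) tF1_4 (-64) 0 (-64) 0 0 64 0 32 = true := by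
  decide +kernel

def tF1_5 : Tr :=
  (.l 7 [])

theorem ctF1_5 : check (fF1.dat 9 10 9 10)
    (fun r0 _ _ q1 => decide (5 * q1 ≤ 1 * r0)) tF1_5 (-64) 0 (-64) 0 0 64 32 64 = true := by
  decide +kernel

def tF1_6 : Tr :=
  (.r (.l 0 []) (.u (.l 0 []) (.q (.u (.l 0 []) (.l 15 [])) (.l 0 []))))

theorem ctF1_6 : check (fF1.dat 9 10 9 10)
    (fun r0 _ _ q1 => decide (5 * q1 ≤ 1 * r0)) tF1_6 0 256 (-128) (-64) 0 64 0 64 = true := by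
  decide +kernel

def tF1_7 : Tr :=
  (.u (.l 15 []) (.q (.s (.l 15 []) (.u (.l 15 []) (.q (.r (.l 0 []) .v) (.l 15 [])))) (.l 15 [])))

theorem ctF1_7 : check (fF1.dat 9 10 9 10)
    (fun r0 _ _ q1 => decide (5 * q1 ≤ 1 * r0)) tF1_7 0 128 (-64) (-32) 0 64 0 16 = true := by
  decide +kernel

def tF1_8 : Tr :=
  (.u (.q (.r (.l 0 []) (.q .v (.q .v (.l 15 [])))) (.l 15 [])) (.s (.q (.r (.u (.l 0 []) (.l 7 []))
  (.q .v (.q .v (.r (.r (.l 7 []) .v) .v)))) (.l 15 [])) (.r (.l 7 []) (.q (.r (.r (.q .v (.l 7 []))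
  .v) .v) (.l 14 [])))))

theorem ctF1_8 : check (fF1.dat 9 10 9 10)
    (fun r0 _ _ q1 => decide (5 * q1 ≤ 1 * r0)) tF1_8 128 256 (-64) (-32) 0 64 0 16 = true := by
  decide +kernel

def tF1_9 : Tr :=
  (.l 15 [])

theorem ctF1_9 : check (fF1.dat 9 10 9 10)
    (fun r0 _ _ q1 => decide (5 * q1 ≤ 1 * r0)) tF1_9 0 256 (-64) (-32) 0 64 16 32 = true := by
  decide +kernel

def tF1_10 : Tr :=
  (.q (.l 15 []) (.l 7 []))

theorem ctF1_10 : check (fF1.dat 9 10 9 10)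
    (fun r0 _ _ q1 => decide (5 * q1 ≤ 1 * r0)) tF1_10 0 256 (-64) (-32) 0 64 32 64 = true := by
  decide +kernel

def tF1_11 : Tr :=
  (.s (.q (.u (.l 15 []) (.q (.r (.r (.l 0 []) (.r (.l 0 []) .v)) .v) (.r (.l 7 []) (.q .v (.l 15
  []))))) (.l 15 [])) (.u (.q (.r (.l 7 []) (.q .v (.q .v (.l 15 [])))) (.l 15 [])) (.r (.l 7 [])
  (.q (.r (.l 7 []) .v) (.l 7 [])))))

theorem ctF1_11 : check (fF1.dat 9 10 9 10)
    (fun r0 _ _ q1 => decide (5 * q1 ≤ 1 * r0)) tF1_11 0 128 (-32) (-16) 0 64 0 16 = true := by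
  decide +kernel

def tF1_12 : Tr :=
  (.r (.l 7 []) (.q (.r (.l 7 []) .v) (.l 7 [])))

theorem ctF1_12 : check (fF1.dat 9 10 9 10)
    (fun r0 _ _ q1 => decide (5 * q1 ≤ 1 * r0)) tF1_12 128 256 (-32) (-16) 0 64 0 16 = true := by
  decide +kernel

def tF1_13 : Tr :=
  (.q (.s (.r (.s (.q (.u (.r (.l 0 []) (.q .v (.l 7 []))) (.l 7 [])) (.l 7 [])) (.l 7 [])) (.r (.q
  .v (.l 7 [])) .v)) (.l 7 [])) (.l 7 []))

theorem ctF1_13 : check (fF1.dat 9 10 9 10)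
    (fun r0 _ _ q1 => decide (5 * q1 ≤ 1 * r0)) tF1_13 0 256 (-16) 0 0 64 0 16 = true := by
  decide +kernel

def tF1_14 : Tr :=
  (.l 7 [])

theorem ctF1_14 : check (fF1.dat 9 10 9 10)
    (fun r0 _ _ q1 => decide (5 * q1 ≤ 1 * r0)) tF1_14 0 256 (-32) 0 0 64 16 32 = true := by
  decide +kernel

def tF1_15 : Tr :=
  (.l 7 [])

theorem ctF1_15 : check (fF1.dat 9 10 9 10)
    (fun r0 _ _ q1 => decide (5 * q1 ≤ 1 * r0)) tF1_15 0 256 (-32) 0 0 64 32 64 = true := by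
  decide +kernel

def tF1_16 : Tr :=
  (.s (.l 2 []) (.r (.s (.l 2 []) (.q (.u (.l 2 []) (.u (.l 2 []) (.l 7 []))) (.u (.l 15 []) (.l 7
  [])))) (.s (.l 2 []) (.q (.q .v (.l 2 [])) (.q (.l 2 []) (.l 7 []))))))

theorem ctF1_16 : check (fF1.dat 9 10 9 10)
    (fun r0 _ _ q1 => decide (5 * q1 ≤ 1 * r0)) tF1_16 (-256) (-128) 0 32 0 64 0 16 = true := by
  decide +kernel

def tF1_17 : Tr :=
  (.q (.u (.s (.q (.r (.u (.l 2 []) (.s (.l 2 []) (.l 7 []))) .v) (.l 2 [])) (.l 7 [])) (.l 7 []))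
  (.l 7 []))

theorem ctF1_17 : check (fF1.dat 9 10 9 10)
    (fun r0 _ _ q1 => decide (5 * q1 ≤ 1 * r0)) tF1_17 (-256) (-128) 32 64 0 64 0 16 = true := by
  decide +kernel

def tF1_18 : Tr :=
  (.u (.s (.r (.s (.l 2 []) (.q (.u (.l 2 []) (.u (.l 2 []) (.l 7 []))) (.l 7 []))) (.q .v (.q .v
  (.s (.l 2 []) (.l 7 []))))) (.q (.r (.u (.s (.r (.s (.l 2 []) (.l 7 [])) (.q .v (.l 7 []))) (.l 7
  [])) (.l 7 [])) .v) (.l 7 []))) (.l 7 []))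

theorem ctF1_18 : check (fF1.dat 9 10 9 10)
    (fun r0 _ _ q1 => decide (5 * q1 ≤ 1 * r0)) tF1_18 (-128) 0 0 32 0 64 0 8 = true := by
  decide +kernel

def tF1_19 : Tr :=
  (.l 7 [])

theorem ctF1_19 : check (fF1.dat 9 10 9 10)
    (fun r0 _ _ q1 => decide (5 * q1 ≤ 1 * r0)) tF1_19 (-128) 0 0 32 0 64 8 16 = true := by
  decide +kernel

def tF1_20 : Tr :=
  (.l 7 [])

theorem ctF1_20 : check (fF1.dat 9 10 9 10)
    (fun r0 _ _ q1 => decide (5 * q1 ≤ 1 * r0)) tF1_20 (-128) 0 32 64 0 64 0 16 = true := by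
  decide +kernel

def tF1_21 : Tr :=
  (.u (.u (.s (.l 15 []) (.l 7 [])) (.l 7 [])) (.l 7 []))

theorem ctF1_21 : check (fF1.dat 9 10 9 10)
    (fun r0 _ _ q1 => decide (5 * q1 ≤ 1 * r0)) tF1_21 (-256) 0 0 64 0 64 16 32 = true := by
  decide +kernel

def tF1_22 : Tr :=
  (.u (.l 7 []) (.s (.s (.q (.l 7 []) (.u (.l 7 []) (.r (.l 12 []) (.u (.s (.q (.l 7 []) (.r (.l 12
  []) (.s (.u (.l 7 []) (.l 2 [])) (.l 7 [])))) (.l 7 [])) (.s (.l 2 []) (.l 7 [])))))) (.l 7 []))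
  (.l 7 [])))

theorem ctF1_22 : check (fF1.dat 9 10 9 10)
    (fun r0 _ _ q1 => decide (5 * q1 ≤ 1 * r0)) tF1_22 (-256) 0 0 64 0 64 32 48 = true := by
  decide +kernel

def tF1_23 : Tr :=
  (.l 15 [])

theorem ctF1_23 : check (fF1.dat 9 10 9 10)
    (fun r0 _ _ q1 => decide (5 * q1 ≤ 1 * r0)) tF1_23 (-256) 0 0 32 0 64 48 64 = true := by
  decide +kernel

def tF1_24 : Tr :=
  (.l 15 [])

theorem ctF1_24 : check (fF1.dat 9 10 9 10)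
    (fun r0 _ _ q1 => decide (5 * q1 ≤ 1 * r0)) tF1_24 (-256) 0 32 64 0 32 48 64 = true := by
  decide +kernel

def tF1_25 : Tr :=
  (.l 15 [])

theorem ctF1_25 : check (fF1.dat 9 10 9 10)
    (fun r0 _ _ q1 => decide (5 * q1 ≤ 1 * r0)) tF1_25 (-256) 0 32 48 32 64 48 64 = true := by
  decide +kernel

def tF1_26 : Tr :=
  (.l 15 [])

theorem ctF1_26 : check (fF1.dat 9 10 9 10)
    (fun r0 _ _ q1 => decide (5 * q1 ≤ 1 * r0)) tF1_26 (-256) 0 48 64 32 48 48 64 = true := by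
  decide +kernel

def tF1_27 : Tr :=
  (.u (.q (.r (.l 15 []) (.q (.u (.l 15 []) (.s (.l 12 []) (.l 7 []))) (.l 15 []))) (.l 15 [])) (.l
  12 []))

theorem ctF1_27 : check (fF1.dat 9 10 9 10)
    (fun r0 _ _ q1 => decide (5 * q1 ≤ 1 * r0)) tF1_27 (-256) (-192) 48 64 48 64 48 64 = true := by
  decide +kernel

def tF1_28 : Tr :=
  (.u (.l 15 []) (.r (.l 15 []) (.q (.q (.l 7 []) (.r (.l 15 []) (.u (.l 15 []) (.s (.l 12 []) (.l 7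
  []))))) (.l 15 []))))

theorem ctF1_28 : check (fF1.dat 9 10 9 10)
    (fun r0 _ _ q1 => decide (5 * q1 ≤ 1 * r0)) tF1_28 (-192) (-128) 48 64 48 64 48 64 = true := by
  decide +kernel

def tF1_29 : Tr :=
  (.l 15 [])

theorem ctF1_29 : check (fF1.dat 9 10 9 10)
    (fun r0 _ _ q1 => decide (5 * q1 ≤ 1 * r0)) tF1_29 (-128) 0 48 64 48 64 48 64 = true := by
  decide +kernel

def tF1_30 : Tr :=
  (.q (.l 7 []) (.q (.l 7 []) (.s (.s (.l 2 []) (.l 7 [])) (.l 7 []))))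

theorem ctF1_30 : check (fF1.dat 9 10 9 10)
    (fun r0 _ _ q1 => decide (5 * q1 ≤ 1 * r0)) tF1_30 (-256) 0 64 96 0 64 0 32 = true := by
  decide +kernel

def tF1_31 : Tr :=
  (.l 12 [])

theorem ctF1_31 : check (fF1.dat 9 10 9 10)
    (fun r0 _ _ q1 => decide (5 * q1 ≤ 1 * r0)) tF1_31 (-256) 0 64 96 0 32 32 64 = true := by
  decide +kernel

def tF1_32 : Tr :=
  (.r (.l 12 []) (.u (.q (.s (.q (.l 7 []) (.l 12 [])) (.l 7 [])) (.s (.l 12 []) (.r (.l 12 []) (.s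
  (.l 12 []) (.u (.q (.q (.l 7 []) (.l 12 [])) (.l 12 [])) (.l 12 [])))))) (.q (.q (.l 2 []) (.l 12
  [])) (.l 12 []))))

theorem ctF1_32 : check (fF1.dat 9 10 9 10)
    (fun r0 _ _ q1 => decide (5 * q1 ≤ 1 * r0)) tF1_32 (-256) (-128) 64 80 32 64 32 64 = true := by
  decide +kernel

def tF1_33 : Tr :=
  (.l 7 [])

theorem ctF1_33 : check (fF1.dat 9 10 9 10)
    (fun r0 _ _ q1 => decide (5 * q1 ≤ 1 * r0)) tF1_33 (-128) 0 64 80 32 64 32 48 = true := by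
  decide +kernel

def tF1_34 : Tr :=
  (.s (.s (.u (.l 7 []) (.l 12 [])) (.l 7 [])) (.l 7 []))

theorem ctF1_34 : check (fF1.dat 9 10 9 10)
    (fun r0 _ _ q1 => decide (5 * q1 ≤ 1 * r0)) tF1_34 (-128) 0 64 80 32 64 48 56 = true := by
  decide +kernel

def tF1_35 : Tr :=
  (.r (.l 15 []) (.s (.u (.r (.l 15 []) (.r (.l 15 []) (.u (.l 15 []) (.s (.l 12 []) (.l 7 [])))))
  (.r (.l 12 []) (.s (.l 12 []) (.u (.q (.l 7 []) (.l 12 [])) (.l 12 []))))) (.l 7 [])))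

theorem ctF1_35 : check (fF1.dat 9 10 9 10)
    (fun r0 _ _ q1 => decide (5 * q1 ≤ 1 * r0)) tF1_35 (-128) 0 64 80 32 64 56 64 = true := by
  decide +kernel

def tF1_36 : Tr :=
  (.s (.l 12 []) (.r (.l 12 []) (.u (.q (.l 7 []) (.s (.l 12 []) (.s (.l 12 []) (.l 7 [])))) (.l 12
  []))))

theorem ctF1_36 : check (fF1.dat 9 10 9 10)
    (fun r0 _ _ q1 => decide (5 * q1 ≤ 1 * r0)) tF1_36 (-256) 0 80 96 32 64 32 64 = true := by
  decide +kernel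

def tF1_37 : Tr :=
  (.l 12 [])

theorem ctF1_37 : check (fF1.dat 9 10 9 10)
    (fun r0 _ _ q1 => decide (5 * q1 ≤ 1 * r0)) tF1_37 (-256) 0 96 128 0 64 0 64 = true := by
  decide +kernel

def tF1_38 : Tr :=
  (.s (.q (.l 7 []) (.u (.l 7 []) (.u (.l 7 []) (.s (.u (.r (.l 12 []) (.s (.l 12 []) (.l 7 [])))
  (.l 12 [])) (.l 7 []))))) (.l 7 []))

theorem ctF1_38 : check (fF1.dat 9 10 9 10)
    (fun r0 _ _ q1 => decide (5 * q1 ≤ 1 * r0)) tF1_38 0 256 0 128 0 64 0 64 = true := by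
  decide +kernel

def tF1_39 : Tr :=
  (.u (.s (.l 12 []) (.s (.l 12 []) (.u (.q (.l 7 []) (.q (.l 7 []) (.s (.u (.l 7 []) (.l 12 []))
  (.l 7 [])))) (.l 12 [])))) (.l 12 []))

theorem ctF1_39 : check (fF1.dat 9 10 9 10)
    (fun r0 _ _ q1 => decide (5 * q1 ≤ 1 * r0)) tF1_39 (-256) 256 128 256 0 64 0 64 = true := by
  decide +kernel

def tF1 : Tr :=
  (.u (.u tF1_0 (.s (.s tF1_1 (.s tF1_2 (.u tF1_3 (.q tF1_4 tF1_5)))) (.u tF1_6 (.u (.q (.q (.s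
  tF1_7 tF1_8) tF1_9) tF1_10) (.q (.q (.u (.s tF1_11 tF1_12) tF1_13) tF1_14) tF1_15))))) (.u (.s (.u
  (.q (.q (.s (.u tF1_16 tF1_17) (.u (.q tF1_18 tF1_19) tF1_20)) tF1_21) (.q tF1_22 (.u tF1_23 (.r
  tF1_24 (.u tF1_25 (.r tF1_26 (.s (.s tF1_27 tF1_28) tF1_29))))))) (.u (.q tF1_30 (.r tF1_31 (.u
  (.s tF1_32 (.q tF1_33 (.q tF1_34 tF1_35))) tF1_36))) tF1_37)) tF1_38) tF1_39))

theorem cF1 : check (fF1.dat 9 10 9 10) (fun r0 _ _ q1 => decide (5 * q1 ≤ 1 * r0)) tF1 (-256) 256 (-256) 256 0 64 0 64 = true :=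
  and_intro (and_intro (ctF1_0) (and_intro (and_intro (ctF1_1) (and_intro (ctF1_2) (and_intro
  (ctF1_3) (and_intro (ctF1_4) (ctF1_5))))) (and_intro (ctF1_6) (and_intro (and_intro (and_intro
  (and_intro (ctF1_7) (ctF1_8)) (ctF1_9)) (ctF1_10)) (and_intro (and_intro (and_intro (and_intro
  (ctF1_11) (ctF1_12)) (ctF1_13)) (ctF1_14)) (ctF1_15)))))) (and_intro (and_intro (and_intro
  (and_intro (and_intro (and_intro (and_intro (ctF1_16) (ctF1_17)) (and_intro (and_intro (ctF1_18)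
  (ctF1_19)) (ctF1_20))) (ctF1_21)) (and_intro (ctF1_22) (and_intro (ctF1_23) (and_intro (ctF1_24)
  (and_intro (ctF1_25) (and_intro (ctF1_26) (and_intro (and_intro (ctF1_27) (ctF1_28))
  (ctF1_29)))))))) (and_intro (and_intro (ctF1_30) (and_intro (ctF1_31) (and_intro (and_intro
  (ctF1_32) (and_intro (ctF1_33) (and_intro (ctF1_34) (ctF1_35)))) (ctF1_36)))) (ctF1_37)))
  (ctF1_38)) (ctF1_39))

end Pool.Agent.H768.C4.E
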