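import Mathlib
import Pool.Agent.H768.C4.Fam

/-! # Certificates -/

set_option autoImplicit false

namespace Pool.Agent.H768.C4.E

def fF3a : Fm where
  a0 := ⟨1, 0, 0, 0⟩
  a1 := ⟨0, -1, 0, 0⟩
  a2 := ⟨-1, 0, 0, 0⟩
  b0 := ⟨0, 0, 0, 0⟩
  b1 := ⟨1, 0, 0, 0⟩
  b2 := ⟨0, 0, 1, 0⟩
  K := 1
  cor := [(0, 1), (1, 1)]

def tF3a_0 : Tr :=
  (.q (.l 0 []) (.r (.l 0 []) (.r (.l 0 []) (.r (.l 0 []) (.u (.l 0 []) (.u (.l 0 []) (.s (.s (.l 15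
  []) (.l 0 [])) (.l 0 []))))))))

theorem ctF3a_0 : check (fF3a.dat 9 10 9 10)
    (fun _ _ _ _ => false) tF3a_0 (-256) 256 (-256) (-128) 0 64 12 40 = true := by
  decide +kernel

def tF3a_1 : Tr :=
  (.s (.l 15 []) (.u (.s (.l 15 []) (.l 0 [])) (.l 15 [])))

theorem ctF3a_1 : check (fF3a.dat 9 10 9 10)
    (fun _ _ _ _ => false) tF3a_1 (-256) 0 (-128) (-64) 0 64 12 40 = true := by
  decide +kernel

def tF3a_2 : Tr :=
  (.q (.l 0 []) (.r (.l 0 []) (.r (.l 0 []) (.u (.l 0 []) (.s (.r (.l 0 []) (.u (.l 0 []) (.s (.s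
  (.l 15 []) (.q (.l 0 []) (.u (.l 0 []) (.q (.l 0 []) (.l 7 []))))) (.l 0 [])))) (.l 0 []))))))

theorem ctF3a_2 : check (fF3a.dat 9 10 9 10)
    (fun _ _ _ _ => false) tF3a_2 0 256 (-128) (-64) 0 64 12 40 = true := by
  decide +kernel

def tF3a_3 : Tr :=
  (.l 15 [])

theorem ctF3a_3 : check (fF3a.dat 9 10 9 10)
    (fun _ _ _ _ => false) tF3a_3 (-256) 0 (-64) 0 0 64 12 40 = true := by
  decide +kernel

def tF3a_4 : Tr :=
  (.l 7 [])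

theorem ctF3a_4 : check (fF3a.dat 9 10 9 10)
    (fun _ _ _ _ => false) tF3a_4 0 128 (-64) 0 0 32 12 40 = true := by
  decide +kernel

def tF3a_5 : Tr :=
  (.u (.r (.l 0 []) (.q (.u (.l 0 []) (.l 15 [])) (.l 15 []))) (.l 15 []))

theorem ctF3a_5 : check (fF3a.dat 9 10 9 10)
    (fun _ _ _ _ => false) tF3a_5 0 32 (-64) 0 32 64 12 26 = true := by
  decide +kernel

def tF3a_6 : Tr :=
  (.q (.l 0 []) (.u (.l 0 []) (.r (.l 0 []) (.r (.l 0 []) (.s (.l 15 []) (.u (.l 0 []) (.l 15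
  [])))))))

theorem ctF3a_6 : check (fF3a.dat 9 10 9 10)
    (fun _ _ _ _ => false) tF3a_6 32 64 (-64) (-32) 32 64 12 26 = true := by
  decide +kernel

def tF3a_7 : Tr :=
  (.r (.l 7 []) (.r (.l 7 []) (.q (.u (.s (.l 15 []) (.u (.q (.l 0 []) (.u (.l 0 []) (.l 7 []))) (.r
  (.l 7 []) (.q (.u (.l 0 []) (.l 7 [])) (.l 7 []))))) (.l 7 [])) (.l 7 []))))

theorem ctF3a_7 : check (fF3a.dat 9 10 9 10)
    (fun _ _ _ _ => false) tF3a_7 32 64 (-32) 0 32 64 12 26 = true := by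
  decide +kernel

def tF3a_8 : Tr :=
  (.r (.l 7 []) (.u (.s (.l 15 []) (.u (.q (.r (.l 0 []) (.u (.l 0 []) (.l 15 []))) (.l 7 [])) (.l 7
  []))) (.l 7 [])))

theorem ctF3a_8 : check (fF3a.dat 9 10 9 10)
    (fun _ _ _ _ => false) tF3a_8 0 64 (-64) 0 32 64 26 40 = true := by
  decide +kernel

def tF3a_9 : Tr :=
  (.u (.l 0 []) (.l 7 []))

theorem ctF3a_9 : check (fF3a.dat 9 10 9 10)
    (fun _ _ _ _ => false) tF3a_9 64 128 (-64) 0 32 48 12 40 = true := by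
  decide +kernel

def tF3a_10 : Tr :=
  (.u (.r (.l 0 []) (.u (.l 0 []) (.q (.l 0 []) (.u (.l 0 []) (.l 7 []))))) (.r (.l 7 []) (.q (.u
  (.u (.l 0 []) (.l 7 [])) (.l 7 [])) (.l 7 []))))

theorem ctF3a_10 : check (fF3a.dat 9 10 9 10)
    (fun _ _ _ _ => false) tF3a_10 64 128 (-64) 0 48 64 12 26 = true := by
  decide +kernel

def tF3a_11 : Tr :=
  (.u (.r (.l 7 []) (.q (.u (.u (.l 0 []) (.l 7 [])) (.l 7 [])) (.l 7 []))) (.l 7 []))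

theorem ctF3a_11 : check (fF3a.dat 9 10 9 10)
    (fun _ _ _ _ => false) tF3a_11 64 128 (-64) 0 48 64 26 40 = true := by
  decide +kernel

def tF3a_12 : Tr :=
  (.r (.l 0 []) (.r (.l 7 []) (.u (.q (.l 0 []) (.l 7 [])) (.l 7 []))))

theorem ctF3a_12 : check (fF3a.dat 9 10 9 10)
    (fun _ _ _ _ => false) tF3a_12 128 256 (-64) 0 0 64 12 40 = true := by
  decide +kernel

def tF3a_13 : Tr :=
  (.r (.l 15 []) (.u (.l 15 []) (.q (.u (.q (.u (.q (.l 12 []) (.l 15 [])) (.l 12 [])) (.l 15 []))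
  (.r (.l 12 []) (.r (.l 12 []) (.s (.l 12 []) (.q (.l 12 []) (.s (.l 12 []) (.s (.l 12 []) (.l 7
  [])))))))) (.l 15 []))))

theorem ctF3a_13 : check (fF3a.dat 9 10 9 10)
    (fun _ _ _ _ => false) tF3a_13 (-256) 0 0 64 0 64 12 40 = true := by
  decide +kernel

def tF3a_14 : Tr :=
  (.l 7 [])

theorem ctF3a_14 : check (fF3a.dat 9 10 9 10)
    (fun _ _ _ _ => false) tF3a_14 0 256 0 64 0 64 12 40 = true := by
  decide +kernel

def tF3a_15 : Tr :=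
  (.s (.q (.l 12 []) (.r (.l 12 []) (.r (.l 12 []) (.u (.s (.l 12 []) (.u (.q (.l 12 []) (.l 15 []))
  (.l 12 []))) (.l 12 []))))) (.s (.u (.l 7 []) (.l 12 [])) (.l 7 [])))

theorem ctF3a_15 : check (fF3a.dat 9 10 9 10)
    (fun _ _ _ _ => false) tF3a_15 (-256) 256 64 128 0 64 12 40 = true := by
  decide +kernel

def tF3a_16 : Tr :=
  (.l 12 [])

theorem ctF3a_16 : check (fF3a.dat 9 10 9 10)
    (fun _ _ _ _ => false) tF3a_16 (-256) 256 128 256 0 64 12 40 = true := by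
  decide +kernel

def tF3a : Tr :=
  (.u (.u tF3a_0 (.u (.s tF3a_1 tF3a_2) (.s tF3a_3 (.s (.r tF3a_4 (.s (.q (.s tF3a_5 (.u tF3a_6
  tF3a_7)) tF3a_8) (.r tF3a_9 (.q tF3a_10 tF3a_11)))) tF3a_12)))) (.u (.u (.s tF3a_13 tF3a_14)
  tF3a_15) tF3a_16))

theorem cF3a : check (fF3a.dat 9 10 9 10) (fun _ _ _ _ => false) tF3a (-256) 256 (-256) 256 0 64 12 40 = true :=
  and_intro (and_intro (ctF3a_0) (and_intro (and_intro (ctF3a_1) (ctF3a_2)) (and_intro (ctF3a_3)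
  (and_intro (and_intro (ctF3a_4) (and_intro (and_intro (and_intro (ctF3a_5) (and_intro (ctF3a_6)
  (ctF3a_7))) (ctF3a_8)) (and_intro (ctF3a_9) (and_intro (ctF3a_10) (ctF3a_11))))) (ctF3a_12)))))
  (and_intro (and_intro (and_intro (ctF3a_13) (ctF3a_14)) (ctF3a_15)) (ctF3a_16))

def fF3b : Fm where
  a0 := ⟨1, 0, 0, 0⟩
  a1 := ⟨0, -1, 0, 0⟩
  a2 := ⟨-1, 0, 0, 0⟩
  b0 := ⟨0, 0, 0, 0⟩
  b1 := ⟨1, 0, 0, 0⟩
  b2 := ⟨0, 0, 1, 0⟩
  K := 1000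
  cor := [(0, 1000), (782, 1000), (1000, 534)]

def tF3b_0 : Tr :=
  (.r (.l 0 []) (.r (.l 0 []) (.u (.l 0 []) (.u (.l 0 []) (.s (.s (.l 15 []) (.l 0 [])) (.l 0
  []))))))

theorem ctF3b_0 : check (fF3b.dat 9 10 9 10)
    (fun _ _ _ _ => false) tF3b_0 (-256) 256 (-256) (-128) 0 64 40 46 = true := by
  decide +kernel

def tF3b_1 : Tr :=
  (.s (.u (.s (.l 15 []) (.u (.s (.l 15 []) (.l 0 [])) (.l 15 []))) (.l 15 [])) (.u (.r (.l 0 [])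
  (.r (.l 0 []) (.u (.l 0 []) (.u (.l 0 []) (.l 7 []))))) (.l 7 [])))

theorem ctF3b_1 : check (fF3b.dat 9 10 9 10)
    (fun _ _ _ _ => false) tF3b_1 (-256) 256 (-128) 0 0 64 40 46 = true := by
  decide +kernel

def tF3b_2 : Tr :=
  (.u (.u (.s (.l 15 []) (.l 7 [])) (.s (.r (.l 12 []) (.r (.l 12 []) (.u (.s (.l 12 []) (.u (.l 15
  []) (.l 12 []))) (.l 12 [])))) (.s (.u (.l 7 []) (.s (.l 12 []) (.l 7 []))) (.l 7 [])))) (.l 12
  []))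

theorem ctF3b_2 : check (fF3b.dat 9 10 9 10)
    (fun _ _ _ _ => false) tF3b_2 (-256) 256 0 256 0 64 40 46 = true := by
  decide +kernel

def tF3b : Tr :=
  (.u (.u tF3b_0 tF3b_1) tF3b_2)

theorem cF3b : check (fF3b.dat 9 10 9 10) (fun _ _ _ _ => false) tF3b (-256) 256 (-256) 256 0 64 40 46 = true :=
  and_intro (and_intro (ctF3b_0) (ctF3b_1)) (ctF3b_2)

def fF3c : Fm where
  a0 := ⟨1, 0, 0, 0⟩
  a1 := ⟨0, -1, 0, 0⟩
  a2 := ⟨-1, 0, 0, 0⟩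
  b0 := ⟨0, 0, 0, 0⟩
  b1 := ⟨1, 0, 0, 0⟩
  b2 := ⟨0, 0, 1, 0⟩
  K := 1000
  cor := [(0, 1000), (709, 1000), (715, 995), (1000, 464)]

def tF3c_0 : Tr :=
  (.u (.l 0 []) (.u (.l 0 []) (.s (.s (.s (.l 15 []) (.l 0 [])) (.l 0 [])) (.l 0 []))))

theorem ctF3c_0 : check (fF3c.dat 9 10 9 10)
    (fun _ _ _ _ => false) tF3c_0 (-256) 256 (-256) (-128) 0 64 46 54 = true := by
  decide +kernel

def tF3c_1 : Tr :=
  (.u (.s (.s (.l 15 []) (.u (.s (.l 15 []) (.l 0 [])) (.l 15 []))) (.r (.l 0 []) (.r (.l 0 []) (.u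
  (.l 0 []) (.u (.l 0 []) (.s (.l 7 []) (.l 0 []))))))) (.s (.l 15 []) (.l 7 [])))

theorem ctF3c_1 : check (fF3c.dat 9 10 9 10)
    (fun _ _ _ _ => false) tF3c_1 (-256) 256 (-128) 0 0 64 46 54 = true := by
  decide +kernel

def tF3c_2 : Tr :=
  (.s (.r (.l 15 []) (.r (.l 15 []) (.u (.l 15 []) (.u (.l 15 []) (.s (.r (.l 15 []) (.s (.u (.l 15
  []) (.l 12 [])) (.l 15 []))) (.l 15 [])))))) (.l 7 []))

theorem ctF3c_2 : check (fF3c.dat 9 10 9 10)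
    (fun _ _ _ _ => false) tF3c_2 (-256) 256 0 64 0 64 46 54 = true := by
  decide +kernel

def tF3c_3 : Tr :=
  (.s (.r (.l 12 []) (.u (.s (.l 12 []) (.u (.l 15 []) (.r (.l 12 []) (.s (.l 12 []) (.u (.r (.l 12
  []) (.s (.l 12 []) (.l 7 []))) (.l 12 [])))))) (.l 12 []))) (.s (.u (.l 7 []) (.s (.l 12 []) (.l 7
  []))) (.l 7 [])))

theorem ctF3c_3 : check (fF3c.dat 9 10 9 10)
    (fun _ _ _ _ => false) tF3c_3 (-256) 256 64 128 0 64 46 54 = true := by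
  decide +kernel

def tF3c_4 : Tr :=
  (.u (.u (.s (.l 12 []) (.s (.l 12 []) (.l 7 []))) (.l 12 [])) (.l 12 []))

theorem ctF3c_4 : check (fF3c.dat 9 10 9 10)
    (fun _ _ _ _ => false) tF3c_4 (-256) 256 128 256 0 64 46 54 = true := by
  decide +kernel

def tF3c : Tr :=
  (.u (.u tF3c_0 tF3c_1) (.u (.u tF3c_2 tF3c_3) tF3c_4))

theorem cF3c : check (fF3c.dat 9 10 9 10) (fun _ _ _ _ => false) tF3c (-256) 256 (-256) 256 0 64 46 54 = true :=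
  and_intro (and_intro (ctF3c_0) (ctF3c_1)) (and_intro (and_intro (ctF3c_2) (ctF3c_3)) (ctF3c_4))

end Pool.Agent.H768.C4.E
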