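import Mathlib
import Pool.Agent.H768.C4.Fam

/-! # Certificates -/

set_option autoImplicit false

namespace Pool.Agent.H768.C4.E

def fF3d : Fm where
  a0 := ⟨1, 0, 0, 0⟩
  a1 := ⟨0, -1, 0, 0⟩
  a2 := ⟨-1, 0, 0, 0⟩
  b0 := ⟨0, 0, 0, 0⟩
  b1 := ⟨1, 0, 0, 0⟩
  b2 := ⟨0, 0, 1, 0⟩
  K := 1000
  cor := [(0, 1000), (542, 1000), (715, 848), (1000, 396)]

def tF3d_0 : Tr :=
  (.u (.l 0 []) (.u (.l 0 []) (.s (.s (.s (.l 15 []) (.l 0 [])) (.l 0 [])) (.l 0 []))))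

theorem ctF3d_0 : check (fF3d.dat 9 10 9 10)
    (fun _ _ _ _ => false) tF3d_0 (-256) 256 (-256) (-128) 0 64 54 59 = true := by
  decide +kernel

def tF3d_1 : Tr :=
  (.r (.s (.s (.l 15 []) (.l 7 [])) (.l 7 [])) (.u (.s (.s (.l 15 []) (.u (.s (.u (.l 0 []) (.l 15
  [])) (.l 0 [])) (.l 7 []))) (.u (.l 0 []) (.u (.l 0 []) (.s (.l 7 []) (.l 0 []))))) (.s (.l 15 [])
  (.l 7 []))))

theorem ctF3d_1 : check (fF3d.dat 9 10 9 10)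
    (fun _ _ _ _ => false) tF3d_1 (-256) 256 (-128) 0 0 64 54 59 = true := by
  decide +kernel

def tF3d_2 : Tr :=
  (.r (.l 15 []) (.r (.l 15 []) (.u (.l 15 []) (.u (.l 15 []) (.s (.s (.s (.u (.l 15 []) (.l 12 []))
  (.l 15 [])) (.l 15 [])) (.l 7 []))))))

theorem ctF3d_2 : check (fF3d.dat 9 10 9 10)
    (fun _ _ _ _ => false) tF3d_2 (-256) 256 0 64 0 64 54 59 = true := by
  decide +kernel

def tF3d_3 : Tr :=
  (.r (.l 12 []) (.u (.s (.l 12 []) (.u (.r (.l 15 []) (.r (.l 15 []) (.u (.l 15 []) (.s (.s (.l 12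
  []) (.l 15 [])) (.l 15 []))))) (.r (.l 12 []) (.s (.l 12 []) (.u (.s (.l 12 []) (.l 7 [])) (.l 12
  [])))))) (.l 12 [])))

theorem ctF3d_3 : check (fF3d.dat 9 10 9 10)
    (fun _ _ _ _ => false) tF3d_3 (-256) 0 64 128 0 64 54 59 = true := by
  decide +kernel

def tF3d_4 : Tr :=
  (.s (.u (.l 7 []) (.s (.r (.l 12 []) (.r (.l 12 []) (.u (.s (.l 12 []) (.l 7 [])) (.l 12 []))))
  (.l 7 []))) (.l 7 []))

theorem ctF3d_4 : check (fF3d.dat 9 10 9 10)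
    (fun _ _ _ _ => false) tF3d_4 0 256 64 128 0 64 54 59 = true := by
  decide +kernel

def tF3d_5 : Tr :=
  (.u (.s (.l 12 []) (.s (.l 12 []) (.u (.l 7 []) (.l 12 [])))) (.l 12 []))

theorem ctF3d_5 : check (fF3d.dat 9 10 9 10)
    (fun _ _ _ _ => false) tF3d_5 (-256) 256 128 256 0 64 54 59 = true := by
  decide +kernel

def tF3d : Tr :=
  (.u (.u tF3d_0 tF3d_1) (.u (.u tF3d_2 (.s tF3d_3 tF3d_4)) tF3d_5))

theorem cF3d : check (fF3d.dat 9 10 9 10) (fun _ _ _ _ => false) tF3d (-256) 256 (-256) 256 0 64 54 59 = true :=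
  and_intro (and_intro (ctF3d_0) (ctF3d_1)) (and_intro (and_intro (ctF3d_2) (and_intro (ctF3d_3)
  (ctF3d_4))) (ctF3d_5))

def fF3e : Fm where
  a0 := ⟨1, 0, 0, 0⟩
  a1 := ⟨0, -1, 0, 0⟩
  a2 := ⟨-1, 0, 0, 0⟩
  b0 := ⟨0, 0, 0, 0⟩
  b1 := ⟨1, 0, 0, 0⟩
  b2 := ⟨0, 0, 1, 0⟩
  K := 1000
  cor := [(0, 1000), (438, 1000), (715, 776), (1000, 362)]

def tF3e_0 : Tr :=
  (.u (.l 0 []) (.s (.s (.u (.l 0 []) (.s (.l 15 []) (.l 0 []))) (.l 0 [])) (.l 0 [])))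

theorem ctF3e_0 : check (fF3e.dat 9 10 9 10)
    (fun _ _ _ _ => false) tF3e_0 (-256) 256 (-256) (-128) 0 64 59 64 = true := by
  decide +kernel

def tF3e_1 : Tr :=
  (.u (.s (.s (.l 15 []) (.u (.s (.u (.l 0 []) (.l 15 [])) (.l 0 [])) (.l 15 []))) (.r (.l 0 []) (.u
  (.l 0 []) (.u (.l 0 []) (.s (.l 7 []) (.l 0 [])))))) (.l 7 []))

theorem ctF3e_1 : check (fF3e.dat 9 10 9 10)
    (fun _ _ _ _ => false) tF3e_1 (-256) 256 (-128) 0 0 64 59 64 = true := by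
  decide +kernel

def tF3e_2 : Tr :=
  (.r (.l 15 []) (.u (.l 15 []) (.s (.r (.l 15 []) (.u (.l 15 []) (.s (.s (.u (.l 15 []) (.l 12 []))
  (.l 15 [])) (.l 15 [])))) (.l 7 []))))

theorem ctF3e_2 : check (fF3e.dat 9 10 9 10)
    (fun _ _ _ _ => false) tF3e_2 (-256) 256 0 64 0 64 59 64 = true := by
  decide +kernel

def tF3e_3 : Tr :=
  (.r (.l 12 []) (.u (.r (.l 12 []) (.s (.l 12 []) (.u (.r (.l 12 []) (.q (.l 12 []) (.s (.l 12 [])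
  (.u (.l 15 []) (.l 12 []))))) (.l 12 [])))) (.l 12 [])))

theorem ctF3e_3 : check (fF3e.dat 9 10 9 10)
    (fun _ _ _ _ => false) tF3e_3 (-256) (-128) 64 96 0 64 59 64 = true := by
  decide +kernel

def tF3e_4 : Tr :=
  (.r (.l 12 []) (.r (.l 15 []) (.r (.l 15 []) (.u (.l 15 []) (.s (.s (.l 12 []) (.u (.l 15 []) (.q
  (.l 12 []) (.q (.l 12 []) (.s (.l 12 []) (.u (.l 15 []) (.l 12 []))))))) (.l 7 []))))))

theorem ctF3e_4 : check (fF3e.dat 9 10 9 10)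
    (fun _ _ _ _ => false) tF3e_4 (-128) 0 64 80 0 64 59 64 = true := by
  decide +kernel

def tF3e_5 : Tr :=
  (.r (.l 12 []) (.r (.l 12 []) (.s (.l 12 []) (.s (.u (.s (.r (.l 12 []) (.q (.l 12 []) (.u (.s (.l
  12 []) (.l 7 [])) (.l 12 [])))) (.u (.l 7 []) (.l 12 []))) (.l 12 [])) (.u (.l 7 []) (.s (.l 12
  []) (.l 7 [])))))))

theorem ctF3e_5 : check (fF3e.dat 9 10 9 10)
    (fun _ _ _ _ => false) tF3e_5 (-128) 0 80 96 0 64 59 64 = true := by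
  decide +kernel

def tF3e_6 : Tr :=
  (.l 12 [])

theorem ctF3e_6 : check (fF3e.dat 9 10 9 10)
    (fun _ _ _ _ => false) tF3e_6 (-256) 0 96 128 0 64 59 64 = true := by
  decide +kernel

def tF3e_7 : Tr :=
  (.s (.u (.l 7 []) (.s (.u (.u (.l 7 []) (.l 12 [])) (.l 12 [])) (.l 7 []))) (.l 7 []))

theorem ctF3e_7 : check (fF3e.dat 9 10 9 10)
    (fun _ _ _ _ => false) tF3e_7 0 256 64 128 0 64 59 64 = true := by
  decide +kernel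

def tF3e_8 : Tr :=
  (.u (.s (.l 12 []) (.s (.l 12 []) (.u (.s (.u (.l 7 []) (.l 12 [])) (.l 7 [])) (.l 12 [])))) (.l
  12 []))

theorem ctF3e_8 : check (fF3e.dat 9 10 9 10)
    (fun _ _ _ _ => false) tF3e_8 (-256) 256 128 256 0 64 59 64 = true := by
  decide +kernel

def tF3e : Tr :=
  (.u (.u tF3e_0 tF3e_1) (.u (.u tF3e_2 (.s (.u (.s tF3e_3 (.u tF3e_4 tF3e_5)) tF3e_6) tF3e_7))
  tF3e_8))

theorem cF3e : check (fF3e.dat 9 10 9 10) (fun _ _ _ _ => false) tF3e (-256) 256 (-256) 256 0 64 59 64 = true :=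
  and_intro (and_intro (ctF3e_0) (ctF3e_1)) (and_intro (and_intro (ctF3e_2) (and_intro (and_intro
  (and_intro (ctF3e_3) (and_intro (ctF3e_4) (ctF3e_5))) (ctF3e_6)) (ctF3e_7))) (ctF3e_8))

def fF4 : Fm where
  a0 := ⟨1, 0, 0, 0⟩
  a1 := ⟨0, -1, 0, 0⟩
  a2 := ⟨-1, 0, 0, 0⟩
  b0 := ⟨0, 0, 0, 0⟩
  b1 := ⟨1, 0, 0, 0⟩
  b2 := ⟨0, 0, 1, 0⟩
  K := 11
  cor := [(0, 8), (11, 8)]

def tF4_0 : Tr :=
  (.l 0 [])

theorem ctF4_0 : check (fF4.dat 9 10 9 10)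
    (fun _ _ _ _ => false) tF4_0 (-256) 256 (-256) (-128) 0 64 0 13 = true := by
  decide +kernel

def tF4_1 : Tr :=
  (.l 15 [])

theorem ctF4_1 : check (fF4.dat 9 10 9 10)
    (fun _ _ _ _ => false) tF4_1 (-256) 0 (-128) 0 0 64 0 13 = true := by
  decide +kernel

def tF4_2 : Tr :=
  (.l 0 [])

theorem ctF4_2 : check (fF4.dat 9 10 9 10)
    (fun _ _ _ _ => false) tF4_2 0 256 (-128) (-64) 0 64 0 13 = true := by
  decide +kernel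

def tF4_3 : Tr :=
  (.u (.r (.l 0 []) (.r (.l 0 []) (.s (.l 0 []) (.u (.l 0 []) (.s (.l 0 []) (.l 7 [])))))) (.r (.l 0
  []) (.r (.l 7 []) (.s (.s (.l 15 []) (.r (.l 7 []) (.u (.u (.l 0 []) (.l 7 [])) (.l 7 [])))) (.l 7
  [])))))

theorem ctF4_3 : check (fF4.dat 9 10 9 10)
    (fun _ _ _ _ => false) tF4_3 0 256 (-64) 0 0 64 0 13 = true := by
  decide +kernel

def tF4_4 : Tr :=
  (.s (.r (.l 12 []) (.u (.u (.u (.l 15 []) (.r (.l 12 []) (.r (.l 12 []) (.u (.s (.l 15 []) (.l 12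
  [])) (.l 12 []))))) (.l 12 [])) (.l 12 []))) (.l 7 []))

theorem ctF4_4 : check (fF4.dat 9 10 9 10)
    (fun _ _ _ _ => false) tF4_4 (-256) 256 0 256 0 64 0 13 = true := by
  decide +kernel

def tF4 : Tr :=
  (.u (.u tF4_0 (.s tF4_1 (.u tF4_2 tF4_3))) tF4_4)

theorem cF4 : check (fF4.dat 9 10 9 10) (fun _ _ _ _ => false) tF4 (-256) 256 (-256) 256 0 64 0 13 = true :=
  and_intro (and_intro (ctF4_0) (and_intro (ctF4_1) (and_intro (ctF4_2) (ctF4_3)))) (ctF4_4)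

def fF2 : Fm where
  a0 := ⟨1, 0, 0, 0⟩
  a1 := ⟨0, -1, 0, 0⟩
  a2 := ⟨0, 0, 0, -1⟩
  b0 := ⟨0, 0, 0, 0⟩
  b1 := ⟨1, 0, 0, 0⟩
  b2 := ⟨1, 0, 0, 0⟩
  K := 11
  cor := [(0, 0), (11, 8)]

def tF2 : Tr :=
  (.u (.l 15 []) (.l 7 []))

theorem cF2 : check (fF2.dat 9 10 9 10) (fun _ _ _ _ => false) tF2 (-256) 256 (-256) 256 0 64 0 13 = true := by
  decide +kernel

end Pool.Agent.H768.C4.E
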