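import Mathlib
import Pool.Agent.H768.C4.Dir16
import Pool.Agent.H768.C4.TreeA
import Pool.Agent.H768.C4.TreeB
import Pool.Agent.H768.C4.TreeC

/-! # The class of functionals when both coordinate projections preserve the body -/

set_option autoImplicit false

namespace Pool.Agent.H768.C4

open E

/-- the class of functionals, `κ` is the quotient of the weights -/
def QI (κ : ℝ) : Cls := fun x y A B => x ≤ 1 ∧ y ≤ 1 ∧ A.re + B.re = 1 ∧ A.im + κ * B.im = 0 ∧
  0 ≤ A.re ∧ 0 ≤ B.re ∧ (κ ≤ 1 / 5 → |B.im| ≤ 8 / 11 * B.re) ∧
  (5 ≤ κ → |A.im| ≤ 8 / 11 * A.re)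

theorem QI_ok (κ : ℝ) : (QI κ).Ok := by
  constructor
  · rintro x y A B ⟨h1, h2, h3, h4, h5, h6, h7, h8⟩
    refine ⟨h1, h2, ?_, ?_, ?_, ?_, ?_, ?_⟩
    · simpa using h3
    · simp only [Complex.conj_im]; linarith
    · simpa using h5
    · simpa using h6
    · simpa using h7
    · simpa using h8
  · rintro x y A B c hc0 hc1 hx hy ⟨h1, h2, h3, h4, h5, h6, h7, h8⟩
    exact ⟨by nlinarith, by nlinarith, h3, h4, h5, h6, h7, h8⟩

theorem QI_sw {κ : ℝ} (hκ : 0 < κ) {x y : ℝ} {A B : ℂ} (h : (QI κ).sw x y A B) :
    QI κ⁻¹ x y A B := by
  obtain ⟨h1, h2, h3, h4, h5, h6, h7, h8⟩ := h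
  refine ⟨h2, h1, by linarith, ?_, h6, h5, ?_, ?_⟩
  · field_simp
    linarith
  · intro hk
    apply h8
    by_contra hcon
    push Not at hcon
    have : 1 / 5 < κ⁻¹ := by
      rw [lt_inv_comm₀ (by norm_num) hκ]; norm_num; exact hcon
    linarith
  · intro hk
    apply h7
    have := inv_anti₀ (by norm_num : (0 : ℝ) < 5) hk
    rw [inv_inv] at this
    linarith

theorem Core.mono {Q Q' : Cls} {n1 d1 n2 d2 : ℤ} (h : ∀ x y A B, Q' x y A B → Q x y A B)
    (hc : Core Q n1 d1 n2 d2) : Core Q' n1 d1 n2 d2 := by
  intro E S F G r a b c d e f g i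
  obtain ⟨k, hk⟩ := hc E S F G r a b c d e f g i
  exact ⟨k, fun A B hAB => hk A B (h _ _ _ _ hAB)⟩

theorem Axis.mono {Q Q' : Cls} {T : ℝ} (h : ∀ x y A B, Q' x y A B → Q x y A B)
    (hc : Axis Q T) : Axis Q' T := fun A B hAB => hc A B (h _ _ _ _ hAB)

theorem QI_axis (κ : ℝ) : Axis (QI κ) ((9 : ℤ) / (10 : ℤ)) := by
  rintro A B ⟨h1, h2, h3, h4, h5, h6, h7, h8⟩
  simp only [Complex.zero_re, add_zero, Complex.zero_im, mul_zero] at h3 h4
  refine ⟨Complex.ext h3 h4, ?_⟩
  push_cast
  linarith

/-- the facts about a functional of the class -/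
theorem QI_facts {κ r : ℝ} (hr0 : 0 < r) {A B : ℂ} (h : QI κ ‖A‖ ‖B‖ A ((r : ℂ) * B)) :
    A.re = 1 - r * B.re ∧ A.im = -(κ * (r * B.im)) ∧ 0 ≤ B.re ∧ B.re ^ 2 + B.im ^ 2 ≤ 1 ∧
    |A.im| ≤ 1 ∧ (κ ≤ 1 / 5 → |B.im| ≤ 8 / 11 * B.re) ∧ (5 ≤ κ → |A.im| ≤ 8 / 11 * A.re) ∧
    0 ≤ A.re := by
  obtain ⟨h1, h2, h3, h4, h5, h6, h7, h8⟩ := h
  simp only [Complex.mul_re, Complex.mul_im, Complex.ofReal_re, Complex.ofReal_im, zero_mul,
    sub_zero, add_zero] at h3 h4 h6 h7
  have hB : B.re ^ 2 + B.im ^ 2 ≤ 1 := by
    have : ‖B‖ ^ 2 ≤ 1 := by nlinarith [norm_nonneg B]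
    rw [← Complex.normSq_eq_norm_sq, Complex.normSq_apply] at this
    nlinarith
  refine ⟨by linarith, by linarith, nonneg_of_mul_nonneg_right h6 hr0, hB,
    (Complex.abs_im_le_norm A).trans h1, fun hk => ?_, h8, h5⟩
  have := h7 hk
  rw [abs_mul, abs_of_pos hr0] at this
  have e : r * |B.im| ≤ r * (8 / 11 * B.re) := by linarith
  exact le_of_mul_le_mul_left e hr0

theorem two_cuts {x y : ℝ} (h : x ^ 2 + y ^ 2 ≤ 1) :
    3 * x + 4 * |y| ≤ 5 ∧ 4 * x + 3 * |y| ≤ 5 ∧ x ≤ 1 ∧ -1 ≤ x ∧ |y| ≤ 1 ∧
    -3 * x + 4 * |y| ≤ 5 ∧ -4 * x + 3 * |y| ≤ 5 := by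
  have h' : x ^ 2 + |y| ^ 2 ≤ 1 := by rw [sq_abs]; exact h
  have h0 := abs_nonneg y
  refine ⟨?_, ?_, ?_, ?_, ?_, ?_, ?_⟩
  · nlinarith [sq_nonneg (4 * x - 3 * |y|), sq_nonneg (3 * x + 4 * |y|)]
  · nlinarith [sq_nonneg (3 * x - 4 * |y|), sq_nonneg (4 * x + 3 * |y|)]
  · nlinarith
  · nlinarith
  · nlinarith
  · nlinarith [sq_nonneg (4 * x + 3 * |y|), sq_nonneg (-3 * x + 4 * |y|)]
  · nlinarith [sq_nonneg (3 * x + 4 * |y|), sq_nonneg (-4 * x + 3 * |y|)]

theorem no_vac {a b c d : ℝ} : ∀ r0' r1' q0' q1' : ℤ,
    (fun _ _ _ _ => false : ℤ → ℤ → ℤ → ℤ → Bool) r0' r1' q0' q1' = true → (r0' : ℝ) ≤ a → b ≤ r1' →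
        (q0' : ℝ) ≤ c → d ≤ q1' → False := by
  intro _ _ _ _ h
  exact absurd h (by simp)

theorem QI_core {κ : ℝ} (hκ : 0 < κ) : Core (QI κ) 9 10 9 10 := by
  intro E S F G r hes hfg hE hS1 hS2 hG hr0 hr1
  have hκr : 0 < κ * r := mul_pos hκ hr0
  rcases le_or_gt κ (1 / 5) with hk | hk
  · -- small `κ`
    obtain ⟨k, hk'⟩ := fF2.light (by norm_num [fF2]) cF2 (r := r) (q := κ) hes hfg hE hS1 hS2 hG
      (by push_cast; linarith) (by push_cast; linarith) (by push_cast; linarith)
      (by push_cast; linarith) no_vac
    refine ⟨k, fun A B hAB => ?_⟩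
    obtain ⟨hA1, hA2, hx, hxy, -, hc, -, -⟩ := QI_facts hr0 hAB
    have hc := hc hk
    have := hk' B.re B.im (by
      simp only [fF2, InPoly]
      left
      push_cast
      obtain ⟨-, -, h3, -, -, -, -⟩ := two_cuts hxy
      rw [abs_mul, abs_of_pos (by norm_num : (0 : ℝ) < 11)]
      refine ⟨by norm_num, by linarith, by linarith, by linarith⟩)
    simp only [Fm.val, fF2, Q4.re] at this
    rw [hA1, hA2]
    convert this using 1
    push_cast
    congr 1 <;> ring
  · rcases le_or_gt (κ * r) 1 with hκ1 | hκ1
    · obtain ⟨k, hk'⟩ := fF1.light (by norm_num [fF1]) cF1 (r := r) (q := κ * r) hes hfg hE hS1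
        hS2 hG
        (by push_cast; linarith) (by push_cast; linarith) (by push_cast; linarith)
        (by push_cast; linarith) (by
          intro r0' r1' q0' q1' h a b c d
          simp only [decide_eq_true_eq] at h
          have h' : (5 : ℝ) * q1' ≤ 1 * r0' := by exact_mod_cast h
          nlinarith)
      refine ⟨k, fun A B hAB => ?_⟩
      obtain ⟨hA1, hA2, hx, hxy, -, hc, -, -⟩ := QI_facts hr0 hAB
      have := hk' B.re B.im (by
        simp only [fF1, InPoly]
        push_cast
        obtain ⟨h1, h2, h3, -, h4, -, -⟩ := two_cuts hxy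
        rw [abs_mul, abs_of_pos (by norm_num : (0 : ℝ) < 21)]
        rcases le_total B.re (1 / 3) with g | g
        · left
          refine ⟨by norm_num, by linarith, by linarith, by linarith⟩
        · right
          rcases le_total B.re (5 / 7) with g' | g'
          · left
            refine ⟨by norm_num, by linarith, by linarith, by linarith⟩
          · right; left
            refine ⟨by norm_num, by linarith, by linarith, by linarith⟩)
      simp only [Fm.val, fF1, Q4.re] at this
      rw [hA1, hA2]
      convert this using 1
      push_cast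
      congr 1 <;> ring
    · -- large `κ r`
      obtain ⟨v, hv⟩ : ∃ v, v = (κ * r)⁻¹ := ⟨_, rfl⟩
      have hv0 : 0 < v := by rw [hv]; exact inv_pos.2 hκr
      have hv1 : v * (κ * r) = 1 := by rw [hv]; exact inv_mul_cancel₀ hκr.ne'
      have hvl : v ≤ 1 := by nlinarith
      -- the parametrisation by `(x, Y)`, `Y = κ r y`
      have hfin : ∀ {A B : ℂ}, QI κ ‖A‖ ‖B‖ A ((r : ℂ) * B) → ∀ k,
          0 < VV (dir 9 10 9 10 k) E S F G (1 - r * B.re) (A.im) B.re (v * -A.im) →
          0 < VV (dir 9 10 9 10 k) E S F G A.re A.im B.re B.im := by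
        intro A B hAB k h
        obtain ⟨hA1, hA2, hx, hxy, -, hc, -, -⟩ := QI_facts hr0 hAB
        have e1 : v * -A.im = B.im := by
          rw [hA2]
          linear_combination B.im * hv1
        rw [e1] at h
        rw [hA1]
        exact h
      have hfacts : ∀ {A B : ℂ}, QI κ ‖A‖ ‖B‖ A ((r : ℂ) * B) → 0 ≤ B.re ∧ B.re ≤ 1 ∧
          |-A.im| ≤ 1 ∧ 3 * B.re + 4 * (v * |-A.im|) ≤ 5 ∧ 4 * B.re + 3 * (v * |-A.im|) ≤ 5 := by
        intro A B hAB
        obtain ⟨hA1, hA2, hx, hxy, hA3, hc, -, -⟩ := QI_facts hr0 hAB
        obtain ⟨h1, h2, h3, -, h4, -, -⟩ := two_cuts hxy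
        have e1 : v * |-A.im| = |B.im| := by
          have e2 : v * |-A.im| = |v * -A.im| := by rw [abs_mul, abs_of_pos hv0]
          rw [e2]
          congr 1
          rw [hA2]
          linear_combination B.im * hv1
        rw [e1, abs_neg]
        exact ⟨hx, h3, hA3, h1, h2⟩
      rcases le_total v (1 / 5) with hv5 | hv5
      · have hκ5 : 5 ≤ κ := by
          by_contra hcon
          push Not at hcon
          nlinarith
        obtain ⟨k, hk'⟩ := fF4.light (by norm_num [fF4]) cF4 (r := r) (q := v) hes hfg hE hS1
          hS2 hG (by push_cast; linarith) (by push_cast; linarith) (by push_cast; linarith)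
          (by push_cast; linarith) no_vac
        refine ⟨k, fun A B hAB => hfin hAB k ?_⟩
        obtain ⟨g1, g2, g3, g4, g5⟩ := hfacts hAB
        have hcone : |-A.im| ≤ 8 / 11 := by
          obtain ⟨hA1, hA2, hx, hxy, hA3, hc, hc', -⟩ := QI_facts hr0 hAB
          have := hc' hκ5
          rw [abs_neg]
          have : A.re ≤ 1 := by rw [hA1]; nlinarith
          linarith
        have := hk' B.re (-A.im) (by
          simp only [fF4, InPoly]
          left
          push_cast
          rw [abs_mul, abs_of_pos (by norm_num : (0 : ℝ) < 11)]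
          refine ⟨by norm_num, by linarith, by linarith, by linarith⟩)
        simp only [Fm.val, fF4, Q4.re] at this
        convert this using 1
        push_cast
        congr 1 <;> ring
      · rcases le_total v (40 / 64) with hva | hva
        · obtain ⟨k, hk'⟩ := fF3a.light (by norm_num [fF3a]) cF3a (r := r) (q := v) hes hfg hE hS1
            hS2 hG (by push_cast; linarith) (by push_cast; linarith) (by push_cast; linarith)
            (by push_cast; linarith) no_vac
          refine ⟨k, fun A B hAB => hfin hAB k ?_⟩
          obtain ⟨g1, g2, g3, g4, g5⟩ := hfacts hAB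
          have := hk' B.re (-A.im) (by
            simp only [fF3a, InPoly]
            left
            push_cast
            rw [one_mul, one_mul]
            refine ⟨by norm_num, by linarith, by linarith, by linarith⟩)
          simp only [Fm.val, fF3a, Q4.re] at this
          convert this using 1
          push_cast
          congr 1 <;> ring
        · rcases le_total v (46 / 64) with hvb | hvb
          · obtain ⟨k, hk'⟩ := fF3b.light (by norm_num [fF3b]) cF3b (r := r) (q := v) hes hfg hE
              hS1 hS2 hG (by push_cast; linarith) (by push_cast; linarith) (by push_cast; linarith)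
              (by push_cast; linarith) no_vac
            refine ⟨k, fun A B hAB => hfin hAB k ?_⟩
            obtain ⟨g1, g2, g3, g4, g5⟩ := hfacts hAB
            have hv' : 40 / 64 * |-A.im| ≤ v * |-A.im| :=
              mul_le_mul_of_nonneg_right hva (abs_nonneg _)
            have := hk' B.re (-A.im) (by
              simp only [fF3b, InPoly]
              push_cast
              rw [abs_mul, abs_of_pos (by norm_num : (0 : ℝ) < 1000)]
              rcases le_total (1000 * B.re) 782 with g | g
              · left
                refine ⟨by norm_num, by linarith, by linarith, by linarith⟩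
              · right; left
                refine ⟨by norm_num, by linarith, by linarith, by linarith⟩)
            simp only [Fm.val, fF3b, Q4.re] at this
            convert this using 1
            push_cast
            congr 1 <;> ring
          · rcases le_total v (54 / 64) with hvc | hvc
            · obtain ⟨k, hk'⟩ := fF3c.light (by norm_num [fF3c]) cF3c (r := r) (q := v) hes hfg hE
                hS1 hS2 hG (by push_cast; linarith) (by push_cast; linarith)
                (by push_cast; linarith) (by push_cast; linarith) no_vac
              refine ⟨k, fun A B hAB => hfin hAB k ?_⟩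
              obtain ⟨g1, g2, g3, g4, g5⟩ := hfacts hAB
              have hv' : 46 / 64 * |-A.im| ≤ v * |-A.im| :=
                mul_le_mul_of_nonneg_right hvb (abs_nonneg _)
              have := hk' B.re (-A.im) (by
                simp only [fF3c, InPoly]
                push_cast
                rw [abs_mul, abs_of_pos (by norm_num : (0 : ℝ) < 1000)]
                rcases le_total (1000 * B.re) 709 with g | g
                · left
                  refine ⟨by norm_num, by linarith, by linarith, by linarith⟩
                · right
                  rcases le_total (1000 * B.re) 715 with g' | g'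
                  · left
                    refine ⟨by norm_num, by linarith, by linarith, by linarith⟩
                  · right; left
                    refine ⟨by norm_num, by linarith, by linarith, by linarith⟩)
              simp only [Fm.val, fF3c, Q4.re] at this
              convert this using 1
              push_cast
              congr 1 <;> ring
            · rcases le_total v (59 / 64) with hvd | hvd
              · obtain ⟨k, hk'⟩ := fF3d.light (by norm_num [fF3d]) cF3d (r := r) (q := v) hes hfg hE
                  hS1 hS2 hG (by push_cast; linarith) (by push_cast; linarith)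
                  (by push_cast; linarith) (by push_cast; linarith) no_vac
                refine ⟨k, fun A B hAB => hfin hAB k ?_⟩
                obtain ⟨g1, g2, g3, g4, g5⟩ := hfacts hAB
                have hv' : 54 / 64 * |-A.im| ≤ v * |-A.im| :=
                  mul_le_mul_of_nonneg_right (by assumption) (abs_nonneg _)
                have := hk' B.re (-A.im) (by
                  simp only [fF3d, InPoly]
                  push_cast
                  rw [abs_mul, abs_of_pos (by norm_num : (0 : ℝ) < 1000)]
                  rcases le_total (1000 * B.re) 542 with g | g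
                  · left
                    refine ⟨by norm_num, by linarith, by linarith, by linarith⟩
                  · right
                    rcases le_total (1000 * B.re) 715 with g' | g'
                    · left
                      refine ⟨by norm_num, by linarith, by linarith, by linarith⟩
                    · right; left
                      refine ⟨by norm_num, by linarith, by linarith, by linarith⟩)
                simp only [Fm.val, fF3d, Q4.re] at this
                convert this using 1
                push_cast
                congr 1 <;> ring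
              · obtain ⟨k, hk'⟩ := fF3e.light (by norm_num [fF3e]) cF3e (r := r) (q := v) hes hfg hE
                  hS1 hS2 hG (by push_cast; linarith) (by push_cast; linarith)
                  (by push_cast; linarith) (by push_cast; linarith) no_vac
                refine ⟨k, fun A B hAB => hfin hAB k ?_⟩
                obtain ⟨g1, g2, g3, g4, g5⟩ := hfacts hAB
                have hv' : 59 / 64 * |-A.im| ≤ v * |-A.im| :=
                  mul_le_mul_of_nonneg_right (by assumption) (abs_nonneg _)
                have := hk' B.re (-A.im) (by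
                  simp only [fF3e, InPoly]
                  push_cast
                  rw [abs_mul, abs_of_pos (by norm_num : (0 : ℝ) < 1000)]
                  rcases le_total (1000 * B.re) 438 with g | g
                  · left
                    refine ⟨by norm_num, by linarith, by linarith, by linarith⟩
                  · right
                    rcases le_total (1000 * B.re) 715 with g' | g'
                    · left
                      refine ⟨by norm_num, by linarith, by linarith, by linarith⟩
                    · right; left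
                      refine ⟨by norm_num, by linarith, by linarith, by linarith⟩)
                simp only [Fm.val, fF3e, Q4.re] at this
                convert this using 1
                push_cast
                congr 1 <;> ring

end Pool.Agent.H768.C4
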