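import Mathlib
import Pool.Agent.H768.C4.Fam

/-! # Certificates -/

set_option autoImplicit false

namespace Pool.Agent.H768.C4.E

def fG3f : Fm where
  a0 := ⟨3, 0, 0, 0⟩
  a1 := ⟨0, -3, 0, 0⟩
  a2 := ⟨0, -1, 0, 0⟩
  b0 := ⟨0, 0, 0, 0⟩
  b1 := ⟨3, 0, 0, 0⟩
  b2 := ⟨3, 0, 0, 0⟩
  K := 1000
  cor := [(0, 0), (598, 1036), (1155, 479)]

def tG3f : Tr :=
  (.u (.u (.l 0 []) (.u (.l 15 []) (.u (.l 15 []) (.l 7 [])))) (.u (.l 7 []) (.u (.s (.r (.l 7 [])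
  (.u (.u (.l 7 []) (.l 12 [])) (.l 12 []))) (.l 7 [])) (.l 12 []))))

theorem cG3f : check (fG3f.dat 13 20 7 20) (fun _ _ _ _ => false) tG3f (-256) 256 (-256) 256 0 64 0 1 = true := by
  decide +kernel

def fG3s : Fm where
  a0 := ⟨1, 0, 0, 0⟩
  a1 := ⟨0, -1, 0, 0⟩
  a2 := ⟨0, -3, 0, 0⟩
  b0 := ⟨0, 0, 0, 0⟩
  b1 := ⟨1, 0, 0, 0⟩
  b2 := ⟨1, 0, 0, 0⟩
  K := 21
  cor := [(-21, 7), (-15, 15), (-7, 21), (7, 21), (15, 15), (21, 7)]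

def tG3s : Tr :=
  (.u (.l 0 []) (.u (.l 0 []) (.l 0 [])))

theorem cG3s : check (fG3s.dat 7 20 13 20) (fun _ _ _ _ => false) tG3s (-256) 256 (-256) 256 0 20 0 1 = true := by
  decide +kernel

def fG3l : Fm where
  a0 := ⟨0, 0, 0, 0⟩
  a1 := ⟨0, 3, 0, 0⟩
  a2 := ⟨0, 3, 0, 0⟩
  b0 := ⟨3, 0, 0, 0⟩
  b1 := ⟨-3, 0, 0, 0⟩
  b2 := ⟨-1, 0, 0, 0⟩
  K := 1000
  cor := [(0, 0), (598, 1036), (1155, 479)]

def tG3l_0 : Tr :=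
  (.u (.l 0 []) (.u (.l 0 []) (.s (.s (.l 15 []) (.u (.l 0 []) (.l 15 []))) (.u (.l 0 []) (.s (.r
  (.r (.l 7 []) (.l 15 [])) (.l 15 [])) (.l 7 []))))))

theorem ctG3l_0 : check (fG3l.dat 7 20 13 20)
    (fun _ _ _ _ => false) tG3l_0 (-256) 256 (-256) 0 20 64 0 1 = true := by
  decide +kernel

def tG3l_1 : Tr :=
  (.s (.r (.r (.u (.l 15 []) (.u (.l 15 []) (.r (.s (.u (.l 15 []) (.l 12 [])) (.l 15 [])) (.l 15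
  [])))) (.l 15 [])) (.l 15 [])) (.s (.r (.r (.l 7 []) (.l 15 [])) (.l 15 [])) (.l 7 [])))

theorem ctG3l_1 : check (fG3l.dat 7 20 13 20)
    (fun _ _ _ _ => false) tG3l_1 (-256) 256 0 64 20 64 0 1 = true := by
  decide +kernel

def tG3l_2 : Tr :=
  (.s (.l 12 []) (.s (.r (.s (.r (.r (.l 7 []) (.l 12 [])) (.l 12 [])) (.r (.l 7 []) (.l 12 [])))
  (.l 12 [])) (.l 7 [])))

theorem ctG3l_2 : check (fG3l.dat 7 20 13 20)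
    (fun _ _ _ _ => false) tG3l_2 (-256) 256 64 128 20 64 0 1 = true := by
  decide +kernel

def tG3l_3 : Tr :=
  (.r (.r (.s (.l 12 []) (.s (.r (.u (.s (.l 12 []) (.u (.l 7 []) (.l 12 []))) (.l 12 [])) (.l 12
  [])) (.r (.u (.l 7 []) (.s (.l 12 []) (.l 7 []))) (.l 12 [])))) (.l 12 [])) (.l 12 []))

theorem ctG3l_3 : check (fG3l.dat 7 20 13 20)
    (fun _ _ _ _ => false) tG3l_3 (-256) 256 128 256 20 64 0 1 = true := by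
  decide +kernel

def tG3l : Tr :=
  (.u tG3l_0 (.u (.u tG3l_1 tG3l_2) tG3l_3))

theorem cG3l : check (fG3l.dat 7 20 13 20) (fun _ _ _ _ => false) tG3l (-256) 256 (-256) 256 20 64 0 1 = true :=
  and_intro (ctG3l_0) (and_intro (and_intro (ctG3l_1) (ctG3l_2)) (ctG3l_3))

def fG4f : Fm where
  a0 := ⟨1, 0, 0, 0⟩
  a1 := ⟨0, -1, 0, 0⟩
  a2 := ⟨0, 0, 0, -1⟩
  b0 := ⟨0, 0, 0, 0⟩
  b1 := ⟨1, 0, 0, 0⟩
  b2 := ⟨1, 0, 0, 0⟩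
  K := 1000
  cor := [(0, 0), (766, 766), (1083, 449)]

def tG4f : Tr :=
  (.u (.u (.l 0 []) (.l 15 [])) (.u (.l 7 []) (.l 12 [])))

theorem cG4f : check (fG4f.dat 7 10 9 20) (fun _ _ _ _ => false) tG4f (-256) 256 (-256) 256 0 64 0 16 = true := by
  decide +kernel

def fG4a : Fm where
  a0 := ⟨1, 0, 0, 0⟩
  a1 := ⟨0, -1, 0, 0⟩
  a2 := ⟨0, 0, -1, 0⟩
  b0 := ⟨0, 0, 0, 0⟩
  b1 := ⟨1, 0, 0, 0⟩
  b2 := ⟨1, 0, 0, 0⟩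
  K := 21
  cor := [(-21, 7), (-15, 15), (-7, 21), (7, 21), (15, 15), (21, 7)]

def tG4a : Tr :=
  (.u (.u (.l 0 []) (.l 0 [])) (.u (.u (.l 0 []) (.l 0 [])) (.l 0 [])))

theorem cG4a : check (fG4a.dat 9 20 7 10) (fun _ _ _ _ => false) tG4a (-256) 256 (-256) 256 0 12 0 60 = true := by
  decide +kernel

def fG4b : Fm where
  a0 := ⟨1, 0, 0, 0⟩
  a1 := ⟨0, -1, 0, 0⟩
  a2 := ⟨-1, 0, 0, 0⟩
  b0 := ⟨0, 0, 0, 0⟩
  b1 := ⟨1, 0, 0, 0⟩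
  b2 := ⟨0, 0, 1, 0⟩
  K := 1000
  cor := [(-1000, 766), (1000, 766)]

def tG4b : Tr :=
  (.u (.u (.l 0 []) (.l 0 [])) (.u (.s (.s (.u (.l 0 []) (.r (.l 0 []) (.u (.l 15 []) (.s (.l 1 [])
  (.l 0 []))))) (.l 0 [])) (.l 0 [])) (.s (.s (.s (.l 1 []) (.l 0 [])) (.l 0 [])) (.l 0 []))))

theorem cG4b : check (fG4b.dat 9 20 7 10) (fun _ _ _ _ => false) tG4b (-256) 256 (-256) 256 0 12 0 50 = true := by
  decide +kernel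

def fG4c : Fm where
  a0 := ⟨1, 0, 0, 0⟩
  a1 := ⟨0, -1, 0, 0⟩
  a2 := ⟨-1, 0, 0, 0⟩
  b0 := ⟨0, 0, 0, 0⟩
  b1 := ⟨1, 0, 0, 0⟩
  b2 := ⟨0, 0, 1, 0⟩
  K := 1000
  cor := [(-1000, 427), (-802, 766), (802, 766), (1000, 427)]

def tG4c_0 : Tr :=
  (.u (.l 0 []) (.l 0 []))

theorem ctG4c_0 : check (fG4c.dat 9 20 7 10)
    (fun _ _ _ _ => false) tG4c_0 (-256) 256 (-256) 0 0 12 50 69 = true := by
  decide +kernel

def tG4c_1 : Tr :=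
  (.s (.r (.l 0 []) (.s (.u (.l 0 []) (.q (.l 0 []) (.r (.l 0 []) (.s (.q (.l 0 []) (.r (.l 0 [])
  (.u (.l 0 []) (.s (.u (.l 0 []) (.l 1 [])) (.l 0 []))))) (.l 0 []))))) (.l 0 []))) (.l 0 []))

theorem ctG4c_1 : check (fG4c.dat 9 20 7 10)
    (fun _ _ _ _ => false) tG4c_1 (-256) (-128) 0 64 0 12 50 69 = true := by
  decide +kernel

def tG4c_2 : Tr :=
  (.s (.s (.r (.l 0 []) (.u (.s (.l 1 []) (.q (.l 0 []) (.u (.l 0 []) (.l 1 [])))) (.l 1 []))) (.l 0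
  [])) (.l 0 []))

theorem ctG4c_2 : check (fG4c.dat 9 20 7 10)
    (fun _ _ _ _ => false) tG4c_2 (-256) (-128) 64 128 0 12 50 69 = true := by
  decide +kernel

def tG4c_3 : Tr :=
  (.l 0 [])

theorem ctG4c_3 : check (fG4c.dat 9 20 7 10)
    (fun _ _ _ _ => false) tG4c_3 (-128) 0 0 128 0 12 50 69 = true := by
  decide +kernel

def tG4c_4 : Tr :=
  (.l 0 [])

theorem ctG4c_4 : check (fG4c.dat 9 20 7 10)
    (fun _ _ _ _ => false) tG4c_4 0 256 0 128 0 12 50 69 = true := by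
  decide +kernel

def tG4c_5 : Tr :=
  (.s (.s (.s (.l 1 []) (.l 0 [])) (.l 0 [])) (.l 0 []))

theorem ctG4c_5 : check (fG4c.dat 9 20 7 10)
    (fun _ _ _ _ => false) tG4c_5 (-256) 256 128 256 0 12 50 69 = true := by
  decide +kernel

def tG4c : Tr :=
  (.u tG4c_0 (.u (.s (.s (.u tG4c_1 tG4c_2) tG4c_3) tG4c_4) tG4c_5))

theorem cG4c : check (fG4c.dat 9 20 7 10) (fun _ _ _ _ => false) tG4c (-256) 256 (-256) 256 0 12 50 69 = true :=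
  and_intro (ctG4c_0) (and_intro (and_intro (and_intro (and_intro (ctG4c_1) (ctG4c_2)) (ctG4c_3))
  (ctG4c_4)) (ctG4c_5))

def fG4l : Fm where
  a0 := ⟨0, 0, 0, 0⟩
  a1 := ⟨0, 1, 0, 0⟩
  a2 := ⟨0, 1, 0, 0⟩
  b0 := ⟨1, 0, 0, 0⟩
  b1 := ⟨-1, 0, 0, 0⟩
  b2 := ⟨0, 0, -1, 0⟩
  K := 1000
  cor := [(0, 0), (766, 766), (1083, 449)]

def tG4l_0 : Tr :=
  (.u (.l 0 []) (.u (.l 0 []) (.u (.l 0 []) (.s (.s (.l 15 []) (.r (.r (.s (.l 15 []) (.l 7 [])) (.l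
  15 [])) (.l 15 []))) (.l 7 [])))))

theorem ctG4l_0 : check (fG4l.dat 9 20 7 10)
    (fun _ _ _ _ => false) tG4l_0 (-256) 256 (-256) 0 12 64 0 16 = true := by
  decide +kernel

def tG4l_1 : Tr :=
  (.u (.s (.u (.u (.l 15 []) (.l 15 [])) (.u (.l 12 []) (.l 12 []))) (.l 7 [])) (.s (.l 12 []) (.l 7
  [])))

theorem ctG4l_1 : check (fG4l.dat 9 20 7 10)
    (fun _ _ _ _ => false) tG4l_1 (-256) 256 0 256 12 64 0 16 = true := by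
  decide +kernel

def tG4l : Tr :=
  (.u tG4l_0 tG4l_1)

theorem cG4l : check (fG4l.dat 9 20 7 10) (fun _ _ _ _ => false) tG4l (-256) 256 (-256) 256 12 64 0 16 = true :=
  and_intro (ctG4l_0) (ctG4l_1)

end Pool.Agent.H768.C4.E
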