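import Mathlib
import Pool.Agent.H768.C4.ClassI
import Pool.Agent.H768.C4.TreeD

/-! # The class of functionals when the quotient of the weights is an integer `≥ 3` -/

set_option autoImplicit false

namespace Pool.Agent.H768.C4

open E

/-- the class of functionals, `κ` is the quotient of the weights, the first coordinate is the fast
one -/
def QF (κ L2 M : ℝ) : Cls := fun x y A B => x ≤ 1 ∧ y ^ 2 ≤ L2 ∧ A.re + B.re = 1 ∧
  A.im + κ * B.im = 0 ∧ 0 ≤ B.re ∧ B.im ^ 2 ≤ M * B.re ^ 2

theorem QF_ok (κ L2 M : ℝ) : (QF κ L2 M).Ok := by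
  constructor
  · rintro x y A B ⟨h1, h2, h3, h4, h5, h6⟩
    refine ⟨h1, h2, ?_, ?_, ?_, ?_⟩
    · simpa using h3
    · simp only [Complex.conj_im]; linarith
    · simpa using h5
    · simpa using h6
  · rintro x y A B c hc0 hc1 hx hy ⟨h1, h2, h3, h4, h5, h6⟩
    refine ⟨by nlinarith, ?_, h3, h4, h5, h6⟩
    have : c * y ≤ y := by nlinarith
    have h0 : 0 ≤ c * y := by positivity
    nlinarith

/-- the facts about a functional of the class, unit first coordinate -/
theorem QF_facts {κ L2 M r : ℝ} (hr0 : 0 < r) {A B : ℂ} (h : QF κ L2 M ‖A‖ ‖B‖ A ((r : ℂ) * B)) :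
    A.re = 1 - r * B.re ∧ A.im = -(κ * (r * B.im)) ∧ 0 ≤ B.re ∧ B.re ^ 2 + B.im ^ 2 ≤ L2 ∧
    B.im ^ 2 ≤ M * B.re ^ 2 := by
  obtain ⟨h1, h2, h3, h4, h5, h6⟩ := h
  simp only [Complex.mul_re, Complex.mul_im, Complex.ofReal_re, Complex.ofReal_im, zero_mul,
    sub_zero, add_zero] at h3 h4 h5 h6
  have hB : B.re ^ 2 + B.im ^ 2 ≤ L2 := by
    have := h2
    rw [← Complex.normSq_eq_norm_sq, Complex.normSq_apply] at this
    nlinarith
  refine ⟨by linarith, by linarith, nonneg_of_mul_nonneg_right h5 hr0, hB, ?_⟩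
  have e : r ^ 2 * B.im ^ 2 ≤ r ^ 2 * (M * B.re ^ 2) := by nlinarith
  exact le_of_mul_le_mul_left e (by positivity)

/-- the facts about a functional of the class, unit second coordinate -/
theorem QF_facts' {κ L2 M r : ℝ} {A B : ℂ}
    (h : (QF κ L2 M).sw ‖A‖ ‖B‖ A ((r : ℂ) * B)) :
    A.re = 1 - r * B.re ∧ r * B.im = -(κ * A.im) ∧ B.re ^ 2 + B.im ^ 2 ≤ 1 ∧
    A.re ^ 2 + A.im ^ 2 ≤ L2 ∧ 0 ≤ A.re ∧ A.im ^ 2 ≤ M * A.re ^ 2 := by
  obtain ⟨h1, h2, h3, h4, h5, h6⟩ := h
  simp only [Complex.mul_re, Complex.mul_im, Complex.ofReal_re, Complex.ofReal_im, zero_mul,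
    sub_zero, add_zero] at h3 h4
  have hB : B.re ^ 2 + B.im ^ 2 ≤ 1 := by
    have : ‖B‖ ^ 2 ≤ 1 := by nlinarith [norm_nonneg B]
    rw [← Complex.normSq_eq_norm_sq, Complex.normSq_apply] at this
    nlinarith
  have hA : A.re ^ 2 + A.im ^ 2 ≤ L2 := by
    have := h2
    rw [← Complex.normSq_eq_norm_sq, Complex.normSq_apply] at this
    nlinarith
  exact ⟨by linarith, by linarith, hB, hA, h5, h6⟩

theorem sec3_facts {x y : ℝ} (hx : 0 ≤ x) (h1 : x ^ 2 + y ^ 2 ≤ 4 / 3) (h2 : y ^ 2 ≤ 3 * x ^ 2) :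
    598 * |y| ≤ 1036 * x ∧ x + |y| ≤ 1634 / 1000 ∧ x ≤ 1155 / 1000 := by
  have h' : |y| ^ 2 = y ^ 2 := sq_abs y
  have h0 := abs_nonneg y
  refine ⟨?_, ?_, ?_⟩
  · by_contra hcon
    push Not at hcon
    nlinarith
  · nlinarith [sq_nonneg (x - |y|)]
  · nlinarith

theorem sec4_facts {x y : ℝ} (hx : 0 ≤ x) (h1 : x ^ 2 + y ^ 2 ≤ 11716 / 10000)
    (h2 : y ^ 2 ≤ x ^ 2) :
    |y| ≤ x ∧ x + |y| ≤ 1532 / 1000 ∧ x ≤ 1083 / 1000 ∧ |y| ≤ 766 / 1000 := by
  have h' : |y| ^ 2 = y ^ 2 := sq_abs y
  have h0 := abs_nonneg y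
  refine ⟨?_, ?_, ?_, ?_⟩
  · by_contra hcon
    push Not at hcon
    nlinarith
  · nlinarith [sq_nonneg (x - |y|)]
  · nlinarith
  · nlinarith

theorem sec3_poly {x y : ℝ} (hx : 0 ≤ x) (h1 : x ^ 2 + y ^ 2 ≤ 4 / 3) (h2 : y ^ 2 ≤ 3 * x ^ 2) :
    InPoly [(0, 0), (598, 1036), (1155, 479)] (1000 * x) (1000 * y) := by
  obtain ⟨a, b, c⟩ := sec3_facts hx h1 h2
  simp only [InPoly]
  push_cast
  rw [abs_mul, abs_of_pos (by norm_num : (0 : ℝ) < 1000)]
  rcases le_total (1000 * x) 598 with g | g
  · left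
    refine ⟨by norm_num, by linarith, by linarith, by linarith⟩
  · right; left
    refine ⟨by norm_num, by linarith, by linarith, by linarith⟩

theorem sec4_poly {x y : ℝ} (hx : 0 ≤ x) (h1 : x ^ 2 + y ^ 2 ≤ 11716 / 10000)
    (h2 : y ^ 2 ≤ x ^ 2) :
    InPoly [(0, 0), (766, 766), (1083, 449)] (1000 * x) (1000 * y) := by
  obtain ⟨a, b, c, d⟩ := sec4_facts hx h1 h2
  simp only [InPoly]
  push_cast
  rw [abs_mul, abs_of_pos (by norm_num : (0 : ℝ) < 1000)]
  rcases le_total (1000 * x) 766 with g | g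
  · left
    refine ⟨by norm_num, by linarith, by linarith, by linarith⟩
  · right; left
    refine ⟨by norm_num, by linarith, by linarith, by linarith⟩

theorem oct_poly {x y : ℝ} (h : x ^ 2 + y ^ 2 ≤ 1) :
    InPoly [(-21, 7), (-15, 15), (-7, 21), (7, 21), (15, 15), (21, 7)] (21 * x) (21 * y) := by
  obtain ⟨a1, a2, a3, a4, a5, a6, a7⟩ := two_cuts h
  simp only [InPoly]
  push_cast
  rw [abs_mul, abs_of_pos (by norm_num : (0 : ℝ) < 21)]
  rcases le_total (21 * x) (-15) with g | g
  · left
    refine ⟨by norm_num, by linarith, by linarith, by linarith⟩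
  · rcases le_total (21 * x) (-7) with g2 | g2
    · right; left
      refine ⟨by norm_num, by linarith, by linarith, by linarith⟩
    · rcases le_total (21 * x) 7 with g3 | g3
      · right; right; left
        refine ⟨by norm_num, by linarith, by linarith, by linarith⟩
      · rcases le_total (21 * x) 15 with g4 | g4
        · right; right; right; left
          refine ⟨by norm_num, by linarith, by linarith, by linarith⟩
        · right; right; right; right; left
          refine ⟨by norm_num, by linarith, by linarith, by linarith⟩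

theorem VV_smul (w : ℤ × ℤ × ℤ × ℤ) (E S F G A1 A2 B1 B2 c : ℝ) :
    VV w E S F G (c * A1) (c * A2) (c * B1) (c * B2) = c * VV w E S F G A1 A2 B1 B2 := by
  simp only [VV]; ring

/-! ### weights `(3, 1)` -/

theorem QF3_core : Core (QF (1 / 3) (4 / 3) 3) 13 20 7 20 := by
  intro E S F G r hes hfg hE hS1 hS2 hG hr0 hr1
  obtain ⟨k, hk'⟩ := fG3f.light (by norm_num [fG3f]) cG3f (r := r) (q := 0) hes hfg hE hS1 hS2 hG
      (by push_cast; linarith) (by push_cast; linarith) (by push_cast; linarith)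
      (by push_cast; linarith) no_vac
  refine ⟨k, fun A B hAB => ?_⟩
  obtain ⟨hA1, hA2, hx, hxy, hc⟩ := QF_facts hr0 hAB
  have := hk' B.re B.im (by
    have := sec3_poly hx hxy hc
    simp only [fG3f]
    push_cast
    exact this)
  have e : fG3f.val (dir 13 20 7 20 k) E S F G r 0 B.re B.im
      = 3 * VV (dir 13 20 7 20 k) E S F G A.re A.im B.re B.im := by
    rw [← VV_smul, hA1, hA2]
    simp only [Fm.val, fG3f, Q4.re]
    push_cast
    congr 1 <;> ring
  rw [e] at this
  linarith

theorem QF3_core' : Core (QF (1 / 3) (4 / 3) 3).sw 7 20 13 20 := by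
  intro E S F G r hes hfg hE hS1 hS2 hG hr0 hr1
  rcases le_total r (20 / 64) with hr | hr
  · obtain ⟨k, hk'⟩ := fG3s.light (by norm_num [fG3s]) cG3s (r := r) (q := 0) hes hfg hE hS1 hS2
      hG (by push_cast; linarith) (by push_cast; linarith) (by push_cast; linarith)
      (by push_cast; linarith) no_vac
    refine ⟨k, fun A B hAB => ?_⟩
    obtain ⟨hA1, hA2, hxy, hA, hx, hc⟩ := QF_facts' hAB
    have := hk' B.re B.im (by
      have := oct_poly hxy
      simp only [fG3s]
      push_cast
      exact this)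
    simp only [Fm.val, fG3s, Q4.re] at this
    have hA3 : A.im = -(3 * (r * B.im)) := by linarith
    rw [hA1, hA3]
    convert this using 1
    push_cast
    congr 1 <;> ring
  · obtain ⟨k, hk'⟩ := fG3l.light (by norm_num [fG3l]) cG3l (r := r) (q := 0) hes hfg hE hS1 hS2
      hG (by push_cast; linarith) (by push_cast; linarith) (by push_cast; linarith)
      (by push_cast; linarith) no_vac
    refine ⟨k, fun A B hAB => ?_⟩
    obtain ⟨hA1, hA2, hxy, hA, hx, hc⟩ := QF_facts' hAB
    have := hk' A.re A.im (by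
      have := sec3_poly hx hA hc
      simp only [fG3l]
      push_cast
      exact this)
    have e : fG3l.val (dir 7 20 13 20 k) E S F G r 0 A.re A.im
        = (3 * r) * VV (dir 7 20 13 20 k) E S F G A.re A.im B.re B.im := by
      rw [← VV_smul]
      have e1 : (3 * r) * B.re = 3 - 3 * A.re := by rw [hA1]; ring
      have e2 : (3 * r) * B.im = -A.im := by linarith
      rw [e1, e2]
      simp only [Fm.val, fG3l, Q4.re]
      push_cast
      congr 1 <;> ring
    rw [e] at this
    exact (mul_pos_iff_of_pos_left (by positivity)).1 this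

theorem QF3_axis : Axis (QF (1 / 3) (4 / 3) 3) ((13 : ℤ) / (20 : ℤ)) := by
  rintro A B ⟨h1, h2, h3, h4, h5, h6⟩
  simp only [Complex.zero_re, add_zero, Complex.zero_im, mul_zero] at h3 h4
  refine ⟨Complex.ext h3 h4, ?_⟩
  push_cast
  nlinarith [norm_nonneg B]

theorem QF3_axis' : Axis (QF (1 / 3) (4 / 3) 3).sw ((7 : ℤ) / (20 : ℤ)) := by
  rintro A B ⟨h1, h2, h3, h4, h5, h6⟩
  simp only [Complex.zero_re, zero_add, Complex.zero_im] at h3 h4
  refine ⟨Complex.ext h3 ?_, ?_⟩
  · simp only [Complex.one_im]; linarith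
  · push_cast
    nlinarith [norm_nonneg B]

/-! ### weights `(n, 1)`, `n ≥ 4` -/

theorem QF4_core {κ : ℝ} (hκ : 0 < κ) (hκ4 : κ ≤ 1 / 4) :
    Core (QF κ (11716 / 10000) 1) 7 10 9 20 := by
  intro E S F G r hes hfg hE hS1 hS2 hG hr0 hr1
  obtain ⟨k, hk'⟩ := fG4f.light (by norm_num [fG4f]) cG4f (r := r) (q := κ) hes hfg hE hS1 hS2 hG
      (by push_cast; linarith) (by push_cast; linarith) (by push_cast; linarith)
      (by push_cast; linarith) no_vac
  refine ⟨k, fun A B hAB => ?_⟩
  obtain ⟨hA1, hA2, hx, hxy, hc⟩ := QF_facts hr0 hAB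
  have := hk' B.re B.im (by
    have := sec4_poly hx hxy (by linarith)
    simp only [fG4f]
    push_cast
    exact this)
  simp only [Fm.val, fG4f, Q4.re] at this
  rw [hA1, hA2]
  convert this using 1
  push_cast
  congr 1 <;> ring

theorem QF4_core' {κ : ℝ} (hκ : 0 < κ) (hκ4 : κ ≤ 1 / 4) :
    Core (QF κ (11716 / 10000) 1).sw 9 20 7 10 := by
  intro E S F G r hes hfg hE hS1 hS2 hG hr0 hr1
  rcases le_total (12 / 64) r with hr | hr
  · obtain ⟨k, hk'⟩ := fG4l.light (by norm_num [fG4l]) cG4l (r := r) (q := κ) hes hfg hE hS1 hS2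
      hG (by push_cast; linarith) (by push_cast; linarith) (by push_cast; linarith)
      (by push_cast; linarith) no_vac
    refine ⟨k, fun A B hAB => ?_⟩
    obtain ⟨hA1, hA2, hxy, hA, hx, hc⟩ := QF_facts' hAB
    have := hk' A.re A.im (by
      have := sec4_poly hx hA (by linarith)
      simp only [fG4l]
      push_cast
      exact this)
    have e : fG4l.val (dir 9 20 7 10 k) E S F G r κ A.re A.im
        = r * VV (dir 9 20 7 10 k) E S F G A.re A.im B.re B.im := by
      rw [← VV_smul]
      have e1 : r * B.re = 1 - A.re := by rw [hA1]; ring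
      rw [e1, hA2]
      simp only [Fm.val, fG4l, Q4.re]
      push_cast
      congr 1 <;> ring
    rw [e] at this
    exact (mul_pos_iff_of_pos_left hr0).1 this
  · -- small `r`
    have hr' : r ≤ 12 / 64 := hr
    rcases le_total (r * κ⁻¹) (60 / 64) with hm | hm
    · have hm0 : 0 < r * κ⁻¹ := by positivity
      obtain ⟨k, hk'⟩ := fG4a.light (by norm_num [fG4a]) cG4a (r := r) (q := r * κ⁻¹) hes hfg hE
        hS1 hS2 hG (by push_cast; linarith) (by push_cast; linarith) (by push_cast; linarith)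
        (by push_cast; linarith) no_vac
      refine ⟨k, fun A B hAB => ?_⟩
      obtain ⟨hA1, hA2, hxy, hA, hx, hc⟩ := QF_facts' hAB
      have := hk' B.re B.im (by
        have := oct_poly hxy
        simp only [fG4a]
        push_cast
        exact this)
      simp only [Fm.val, fG4a, Q4.re] at this
      have hA3 : A.im = -(r * κ⁻¹ * B.im) := by
        have : κ * A.im = -(r * B.im) := by linarith
        field_simp
        linarith
      rw [hA1, hA3]
      convert this using 1
      push_cast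
      congr 1 <;> ring
    · obtain ⟨v, hv⟩ : ∃ v, v = κ * r⁻¹ := ⟨_, rfl⟩
      have hv0 : 0 < v := by rw [hv]; positivity
      have hvr : v * r = κ := by rw [hv]; field_simp
      have hvm : v * (r * κ⁻¹) = 1 := by
        rw [← mul_assoc, hvr]; exact mul_inv_cancel₀ hκ.ne'
      have hvu : v ≤ 69 / 64 := by nlinarith
      have hfacts : ∀ {A B : ℂ}, (QF κ (11716 / 10000) 1).sw ‖A‖ ‖B‖ A ((r : ℂ) * B) →
          B.im = v * -A.im ∧ A.re = 1 - r * B.re ∧ B.re ≤ 1 ∧ -1 ≤ B.re ∧ |-A.im| ≤ 766 / 1000 ∧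
          4 * B.re + 3 * (v * |-A.im|) ≤ 5 ∧ -4 * B.re + 3 * (v * |-A.im|) ≤ 5 := by
        intro A B hAB
        obtain ⟨hA1, hA2, hxy, hA, hx, hc⟩ := QF_facts' hAB
        have e1 : B.im = v * -A.im := by
          have : r * B.im = r * (v * -A.im) := by
            rw [hA2, ← hvr]; ring
          exact mul_left_cancel₀ hr0.ne' this
        have e2 : |B.im| = v * |-A.im| := by
          rw [e1, abs_mul, abs_of_pos hv0]
        obtain ⟨h1, h2, h3, h4, h5, h6, h7⟩ := two_cuts hxy
        obtain ⟨s1, s2, s3, s4⟩ := sec4_facts hx hA (by linarith)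
        rw [← e2, abs_neg]
        exact ⟨e1, hA1, h3, h4, s4, h2, h7⟩
      rcases le_total v (50 / 64) with hvb | hvb
      · obtain ⟨k, hk'⟩ := fG4b.light (by norm_num [fG4b]) cG4b (r := r) (q := v) hes hfg hE
          hS1 hS2 hG (by push_cast; linarith) (by push_cast; linarith) (by push_cast; linarith)
          (by push_cast; linarith) no_vac
        refine ⟨k, fun A B hAB => ?_⟩
        obtain ⟨g1, g2, g3, g4, g5, g6, g7⟩ := hfacts hAB
        have := hk' B.re (-A.im) (by
          simp only [fG4b, InPoly]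
          push_cast
          rw [abs_mul, abs_of_pos (by norm_num : (0 : ℝ) < 1000)]
          left
          refine ⟨by norm_num, by linarith, by linarith, by linarith⟩)
        simp only [Fm.val, fG4b, Q4.re] at this
        rw [g1, g2]
        convert this using 1
        push_cast
        congr 1 <;> ring
      · obtain ⟨k, hk'⟩ := fG4c.light (by norm_num [fG4c]) cG4c (r := r) (q := v) hes hfg hE
          hS1 hS2 hG (by push_cast; linarith) (by push_cast; linarith) (by push_cast; linarith)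
          (by push_cast; linarith) no_vac
        refine ⟨k, fun A B hAB => ?_⟩
        obtain ⟨g1, g2, g3, g4, g5, g6, g7⟩ := hfacts hAB
        have hv' : 50 / 64 * |-A.im| ≤ v * |-A.im| :=
          mul_le_mul_of_nonneg_right hvb (abs_nonneg _)
        have := hk' B.re (-A.im) (by
          simp only [fG4c, InPoly]
          push_cast
          rw [abs_mul, abs_of_pos (by norm_num : (0 : ℝ) < 1000)]
          rcases le_total (1000 * B.re) (-802) with g | g
          · left
            refine ⟨by norm_num, by linarith, by linarith, by linarith⟩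
          · right
            rcases le_total (1000 * B.re) 802 with g' | g'
            · left
              refine ⟨by norm_num, by linarith, by linarith, by linarith⟩
            · right; left
              refine ⟨by norm_num, by linarith, by linarith, by linarith⟩)
        simp only [Fm.val, fG4c, Q4.re] at this
        rw [g1, g2]
        convert this using 1
        push_cast
        congr 1 <;> ring

theorem QF4_axis {κ : ℝ} : Axis (QF κ (11716 / 10000) 1) ((7 : ℤ) / (10 : ℤ)) := by
  rintro A B ⟨h1, h2, h3, h4, h5, h6⟩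
  simp only [Complex.zero_re, add_zero, Complex.zero_im, mul_zero] at h3 h4
  refine ⟨Complex.ext h3 h4, ?_⟩
  push_cast
  nlinarith [norm_nonneg B]

theorem QF4_axis' {κ : ℝ} (hκ : 0 < κ) :
    Axis (QF κ (11716 / 10000) 1).sw ((9 : ℤ) / (20 : ℤ)) := by
  rintro A B ⟨h1, h2, h3, h4, h5, h6⟩
  simp only [Complex.zero_re, zero_add, Complex.zero_im] at h3 h4
  refine ⟨Complex.ext h3 ?_, ?_⟩
  · simp only [Complex.one_im]
    rcases mul_eq_zero.1 h4 with h | h
    · exact absurd h hκ.ne'
    · exact h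
  · push_cast
    nlinarith [norm_nonneg B]

end Pool.Agent.H768.C4
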