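import Mathlib

/-! # Coverings by translates of the interior -/

set_option autoImplicit false

open Set Topology

namespace Pool.Agent.H768.C4

/-- `K` is covered by at most `N` translates of its interior -/
def Cov {E : Type*} [TopologicalSpace E] [Add E] (N : ℕ) (K : Set E) : Prop :=
  ∃ T : Finset E, T.card ≤ N ∧ K ⊆ ⋃ t ∈ T, (fun x => t + x) '' interior K

theorem Cov.of_image {E F : Type*} [AddCommGroup E] [TopologicalSpace E] [Module ℝ E]
    [AddCommGroup F] [TopologicalSpace F] [Module ℝ F] {N : ℕ} (e : E ≃L[ℝ] F) {K : Set E}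
    (h : Cov N (e '' K)) : Cov N K := by
  classical
  obtain ⟨T, hT, hcov⟩ := h
  refine ⟨T.image e.symm, Finset.card_image_le.trans hT, ?_⟩
  intro x hx
  obtain ⟨t, ht, y, hy, hxy⟩ := mem_iUnion₂.1 (hcov (mem_image_of_mem e hx))
  have hint : interior (e '' K) = e '' interior K :=
    (e.toHomeomorph.image_interior K).symm
  rw [hint] at hy
  obtain ⟨y', hy', rfl⟩ := hy
  refine mem_iUnion₂.2 ⟨e.symm t, Finset.mem_image_of_mem _ ht, y', hy', ?_⟩
  simp only at hxy ⊢
  apply e.injective
  rw [map_add, e.apply_symm_apply, hxy]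

theorem Cov.of_translate {E : Type*} [AddCommGroup E] [TopologicalSpace E] [ContinuousAdd E]
    {N : ℕ} (c : E) {K : Set E} (h : Cov N ((fun x => c + x) '' K)) : Cov N K := by
  obtain ⟨T, hT, hcov⟩ := h
  refine ⟨T, hT, ?_⟩
  intro x hx
  obtain ⟨t, ht, y, hy, hxy⟩ := mem_iUnion₂.1 (hcov (mem_image_of_mem (fun x => c + x) hx))
  have hint : interior ((fun x => c + x) '' K) = (fun x => c + x) '' interior K :=
    ((Homeomorph.addLeft c).image_interior K).symm
  rw [hint] at hy
  obtain ⟨y', hy', rfl⟩ := hy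
  refine mem_iUnion₂.2 ⟨t, ht, y', hy', ?_⟩
  simp only at hxy ⊢
  apply add_left_cancel (a := c)
  rw [← hxy]; abel

end Pool.Agent.H768.C4
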