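import Mathlib
import Pool.Agent.H768.C4.CovDef
import Pool.Agent.H768.C4.Light
import Pool.Agent.H768.D2.Dual

/-! # Circled bodies in `ℂ²` -/

set_option autoImplicit false

open Set Topology

namespace Pool.Agent.H768.C4

/-- the finite set of directions -/
noncomputable def dirs : Finset (ℂ × ℂ) :=
  (Finset.univ : Finset (Bool × Fin 8)).image fun x => -D x.1 x.2

theorem dirs_card : dirs.card ≤ 16 := by
  refine Finset.card_image_le.trans ?_
  simp [Fintype.card_prod]

theorem D_mod (k : Bool) (n : ℕ) : D k n = D k (n % 8) := by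
  have h1 : ∀ m : ℕ, z8 ^ (m + 8 * (n / 8)) = z8 ^ m := by
    intro m; rw [pow_add, pow_mul, z8_8, one_pow, mul_one]
  have h3 : z8 ^ n = z8 ^ (n % 8) := by
    conv_lhs => rw [← Nat.mod_add_div n 8]
    exact h1 _
  have h4 : z8 ^ (3 * n) = z8 ^ (3 * (n % 8)) := by
    conv_lhs => rw [← Nat.mod_add_div n 8]
    have : 3 * (n % 8 + 8 * (n / 8)) = 3 * (n % 8) + 8 * (3 * (n / 8)) := by ring
    rw [this, pow_add, pow_mul z8 8, z8_8, one_pow, mul_one]
  simp only [D, h3, h4]

theorem mem_dirs (k : Bool) (n : ℕ) : -D k n ∈ dirs := by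
  rw [D_mod]
  refine Finset.mem_image.2 ⟨(k, ⟨n % 8, Nat.mod_lt _ (by norm_num)⟩), Finset.mem_univ _, rfl⟩

/-- the complex form of a real functional -/
theorem func_form (f : ℂ × ℂ →L[ℝ] ℝ) : ∃ a b : ℂ, ∀ z : ℂ × ℂ, f z = (a * z.1 + b * z.2).re := by
  refine ⟨⟨f (1, 0), -f (Complex.I, 0)⟩, ⟨f (0, 1), -f (0, Complex.I)⟩, fun z => ?_⟩
  have hz : z = z.1.re • ((1 : ℂ), (0 : ℂ)) + z.1.im • ((Complex.I : ℂ), (0 : ℂ))
      + z.2.re • ((0 : ℂ), (1 : ℂ)) + z.2.im • ((0 : ℂ), (Complex.I : ℂ)) := by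
    apply Prod.ext <;> apply Complex.ext <;> simp
  conv_lhs => rw [hz]
  rw [map_add, map_add, map_add, map_smul, map_smul, map_smul, map_smul]
  simp only [smul_eq_mul, Complex.add_re, Complex.mul_re]
  ring

theorem norm_le_of_re {a : ℂ} {M : ℝ} (h : ∀ c : ℂ, ‖c‖ = 1 → (a * c).re ≤ M) : ‖a‖ ≤ M := by
  rcases eq_or_ne a 0 with rfl | ha
  · have := h 1 (by simp)
    simpa using this
  · have hn : (‖a‖ : ℂ) ≠ 0 := by exact_mod_cast norm_ne_zero_iff.2 ha
    have h1 := h ((starRingEnd ℂ) a / ‖a‖) (by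
      rw [norm_div, Complex.norm_conj, Complex.norm_real, norm_norm]
      exact div_self (norm_ne_zero_iff.2 ha))
    have e : a * ((starRingEnd ℂ) a / ‖a‖) = (‖a‖ : ℂ) := by
      rw [mul_div_assoc', Complex.mul_conj, Complex.normSq_eq_norm_sq, div_eq_iff hn]
      push_cast; ring
    rw [e, Complex.ofReal_re] at h1
    exact h1

/-- circled bodies in Auerbach position -/
theorem cov_normal {K : Set (ℂ × ℂ)} (hK : Convex ℝ K) (hc : IsCompact K)
    (h0 : (0 : ℂ × ℂ) ∈ interior K) (hcirc : ∀ c : ℂ, ‖c‖ = 1 → ∀ z ∈ K, (c * z.1, c * z.2) ∈ K)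
    (hbox : ∀ z ∈ K, ‖z.1‖ ≤ 1 ∧ ‖z.2‖ ≤ 1) (h1 : ((1 : ℂ), (0 : ℂ)) ∈ K)
    (h2 : ((0 : ℂ), (1 : ℂ)) ∈ K) : Cov 16 K := by
  obtain ⟨T, hT, hcov⟩ := Pool.Agent.Y512.cover_of_lit hK hc dirs (by
    intro p hp
    by_cases hp0 : p.1 = 0 ∧ p.2 = 0
    · refine ⟨-D true 0, mem_dirs _ _, ?_⟩
      apply Pool.Agent.H768.D2.lit_of_dual hK h0 hp
      intro f _ hf
      have : p = 0 := Prod.ext hp0.1 hp0.2
      rw [this, map_zero] at hf
      exact absurd hf zero_ne_one
    · obtain ⟨k, n, hk⟩ := P_all hp0 (hbox p hp).1 (hbox p hp).2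
      refine ⟨-D k n, mem_dirs _ _, ?_⟩
      apply Pool.Agent.H768.D2.lit_of_dual hK h0 hp
      intro f hf hfp
      obtain ⟨a, b, hab⟩ := func_form f
      rw [hab]
      apply hk a b
      · apply norm_le_of_re
        intro c hc
        have := hf _ (hcirc c hc _ h1)
        rw [hab] at this
        simpa using this
      · apply norm_le_of_re
        intro c hc
        have := hf _ (hcirc c hc _ h2)
        rw [hab] at this
        simpa using this
      · have h3 : ‖a * p.1 + b * p.2‖ ≤ 1 := by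
          apply norm_le_of_re
          intro c hc
          have := hf _ (hcirc c hc _ hp)
          rw [hab] at this
          have e : (a * p.1 + b * p.2) * c = a * (c * p.1) + b * (c * p.2) := by ring
          rw [e]
          exact this
        have h4 : (a * p.1 + b * p.2).re = 1 := by rw [← hab]; exact hfp
        have h5 : (a * p.1 + b * p.2).im = 0 := by
          have h6 : ‖a * p.1 + b * p.2‖ ^ 2 ≤ 1 := by
            nlinarith [norm_nonneg (a * p.1 + b * p.2)]
          rw [← Complex.normSq_eq_norm_sq, Complex.normSq_apply, h4] at h6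
          nlinarith
        exact Complex.ext h4 h5)
  exact ⟨T, hT.trans dirs_card, hcov⟩

/-- the determinant -/
def dt (u v : ℂ × ℂ) : ℂ := u.1 * v.2 - u.2 * v.1

theorem dt_cont : Continuous fun x : (ℂ × ℂ) × (ℂ × ℂ) => ‖dt x.1 x.2‖ := by
  unfold dt; fun_prop

/-- circled bodies -/
theorem cov_circled {K : Set (ℂ × ℂ)} (hK : Convex ℝ K) (hc : IsCompact K)
    (hint : (interior K).Nonempty)
    (hcirc : ∀ c : ℂ, ‖c‖ = 1 → ∀ z ∈ K, (c * z.1, c * z.2) ∈ K) : Cov 16 K := by
  -- the origin is an interior point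
  have hneg : ∀ z ∈ K, -z ∈ K := by
    intro z hz
    have := hcirc (-1) (by simp) z hz
    have e : -z = (-1 * z.1, -1 * z.2) := by apply Prod.ext <;> simp
    rw [e]; exact this
  have h0 : (0 : ℂ × ℂ) ∈ interior K := by
    obtain ⟨x, hx⟩ := hint
    have h1 := hK.combo_interior_self_mem_interior hx (hneg x (interior_subset hx))
      (a := 1 / 2) (b := 1 / 2) (by norm_num) (by norm_num) (by norm_num)
    have e : (1 / 2 : ℝ) • x + (1 / 2 : ℝ) • -x = 0 := by rw [smul_neg, add_neg_cancel]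
    rwa [e] at h1
  have h0K : (0 : ℂ × ℂ) ∈ K := interior_subset h0
  obtain ⟨w, hw, hmax⟩ := (hc.prod hc).exists_isMaxOn (⟨(0, 0), h0K, h0K⟩ : (K ×ˢ K).Nonempty)
    dt_cont.continuousOn
  obtain ⟨u, v⟩ := w
  have hu : u ∈ K := hw.1
  have hv : v ∈ K := hw.2
  have hmax' : ∀ x ∈ K, ∀ y ∈ K, ‖dt x y‖ ≤ ‖dt u v‖ := fun x hx y hy => by
    have : (x, y) ∈ K ×ˢ K := ⟨hx, hy⟩
    exact hmax this
  have hdt : dt u v ≠ 0 := by
    intro h
    rw [h, norm_zero] at hmax'
    obtain ⟨ε, hε, hball⟩ := Metric.isOpen_iff.1 isOpen_interior 0 h0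
    have ha : (((ε / 2 : ℝ) : ℂ), (0 : ℂ)) ∈ K := by
      apply interior_subset; apply hball
      rw [Metric.mem_ball, dist_zero_right, Prod.norm_def, Complex.norm_real, norm_zero]
      rw [Real.norm_of_nonneg (by positivity), max_eq_left (by positivity)]
      linarith
    have hb : ((0 : ℂ), ((ε / 2 : ℝ) : ℂ)) ∈ K := by
      apply interior_subset; apply hball
      rw [Metric.mem_ball, dist_zero_right, Prod.norm_def, Complex.norm_real, norm_zero]
      rw [Real.norm_of_nonneg (by positivity), max_eq_right (by positivity)]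
      linarith
    have h3 := hmax' _ ha _ hb
    simp only [dt, mul_zero, zero_mul, sub_zero, norm_mul, Complex.norm_real] at h3
    rw [Real.norm_of_nonneg (by positivity)] at h3
    nlinarith
  have hd0 : 0 < ‖dt u v‖ := norm_pos_iff.2 hdt
  -- coordinates
  let φ : (ℂ × ℂ) ≃ₗ[ℝ] (ℂ × ℂ) :=
    { toFun := fun z => (dt z v / dt u v, dt u z / dt u v)
      invFun := fun z => (z.1 * u.1 + z.2 * v.1, z.1 * u.2 + z.2 * v.2)
      map_add' := fun x y => by
        apply Prod.ext <;> simp only [dt, Prod.fst_add, Prod.snd_add] <;> ring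
      map_smul' := fun r x => by
        apply Prod.ext <;> simp only [dt, Prod.smul_fst, Prod.smul_snd, Complex.real_smul,
          RingHom.id_apply] <;> ring
      left_inv := fun z => by
        apply Prod.ext
        · simp only
          field_simp
          simp only [dt]; ring
        · simp only
          field_simp
          simp only [dt]; ring
      right_inv := fun z => by
        apply Prod.ext
        · simp only
          rw [div_eq_iff hdt]
          simp only [dt]; ring
        · simp only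
          rw [div_eq_iff hdt]
          simp only [dt]; ring }
  let φc : (ℂ × ℂ) ≃L[ℝ] (ℂ × ℂ) := φ.toContinuousLinearEquiv
  have hφ : ∀ z, φc z = (dt z v / dt u v, dt u z / dt u v) := fun z => rfl
  refine Cov.of_image φc ?_
  have hφint : interior (φc '' K) = φc '' interior K := (φc.toHomeomorph.image_interior K).symm
  apply cov_normal
  · exact hK.is_linear_image φc.toLinearMap.isLinear
  · exact hc.image φc.continuous
  · rw [hφint]
    exact ⟨0, h0, map_zero φc⟩
  · rintro c hc' _ ⟨z, hz, rfl⟩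
    refine ⟨(c * z.1, c * z.2), hcirc c hc' z hz, ?_⟩
    rw [hφ, hφ]
    apply Prod.ext <;> simp only [dt] <;> ring
  · rintro _ ⟨z, hz, rfl⟩
    rw [hφ]
    constructor
    · rw [norm_div, div_le_one hd0]
      exact hmax' z hz v hv
    · rw [norm_div, div_le_one hd0]
      exact hmax' u hu z hz
  · refine ⟨u, hu, ?_⟩
    rw [hφ]
    apply Prod.ext
    · exact div_self hdt
    · simp only [dt]
      rw [mul_comm, sub_self, zero_div]
  · refine ⟨v, hv, ?_⟩
    rw [hφ]
    apply Prod.ext
    · simp only [dt]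
      rw [mul_comm, sub_self, zero_div]
    · exact div_self hdt

end Pool.Agent.H768.C4
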