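import Mathlib
import Pool.Agent.H768.C4.Fam

/-! # Data of the certificates for the weights `(1, 2)` -/

set_option autoImplicit false

namespace Pool.Agent.H768.C4.E

/-- rational points of the unit circle, times 65 -/
def gt : ℕ → ℤ × ℤ
  | 0 => (65, 0)
  | 1 => (63, 16)
  | 2 => (60, 25)
  | 3 => (56, 33)
  | 4 => (52, 39)
  | 5 => (39, 52)
  | 6 => (33, 56)
  | 7 => (25, 60)
  | 8 => (16, 63)
  | 9 => (0, 65)
  | 10 => (-16, 63)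
  | 11 => (-25, 60)
  | 12 => (-33, 56)
  | 13 => (-39, 52)
  | 14 => (-52, 39)
  | 15 => (-56, 33)
  | 16 => (-60, 25)
  | 17 => (-63, 16)
  | 18 => (-65, 0)
  | 19 => (-63, -16)
  | 20 => (-60, -25)
  | 21 => (-56, -33)
  | 22 => (-52, -39)
  | 23 => (-39, -52)
  | 24 => (-33, -56)
  | 25 => (-25, -60)
  | 26 => (-16, -63)
  | 27 => (0, -65)
  | 28 => (16, -63)
  | 29 => (25, -60)
  | 30 => (33, -56)
  | 31 => (39, -52)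
  | 32 => (52, -39)
  | 33 => (56, -33)
  | 34 => (60, -25)
  | _ => (63, -16)

/-- the sums of the multipliers -/
def mP : List (ℤ × ℕ) → ℤ × ℤ × ℤ × ℤ × ℤ
  | [] => (0, 0, 0, 0, 4)
  | (l, j) :: m =>
    let g := gt j
    let p := mP m
    let n : ℤ := (l.toNat : ℤ)
    (p.1 + 65 * n * g.1, p.2.1 + 65 * n * g.2, p.2.2.1 + n * (g.1 * g.1 - g.2 * g.2),
      p.2.2.2.1 + n * (2 * g.1 * g.2), p.2.2.2.2 + 4225 * n)

/-- the sixteen directions for the weights `(1, 2)`, times `1081600`, rounded -/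
def dir2 (k : ℕ) : ℤ × ℤ × ℤ × ℤ :=
  if k < 8 then
    let c : ℤ := if k % 2 = 0 then 1081600 else 764807
    (c * (zt k).1, c * (zt k).2, 703040 * (zt (2 * k)).1, 703040 * (zt (2 * k)).2)
  else
    let j := k - 8
    let c : ℤ := if j % 2 = 0 then 562432 else 397699
    (c * (zt j).1, c * (zt j).2, -1081600 * (zt (2 * j)).1, -1081600 * (zt (2 * j)).2)

/-- `α₁ = (x₀ + x₁ r, y₀ + y₁ r)` etc. -/
structure Al where
  K : ℤ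
  x10 : ℤ
  x11 : ℤ
  y10 : ℤ
  y11 : ℤ
  x20 : ℤ
  x21 : ℤ
  y20 : ℤ
  y21 : ℤ

def cvN (w : ℤ × ℤ × ℤ × ℤ) (p : ℤ × ℤ × ℤ × ℤ × ℤ) (A : Al) : CV :=
  let P := w.1 + p.1
  let Q := w.2.1 + p.2.1
  ⟨⟨P * A.x10 - Q * A.y10, P * A.x11 - Q * A.y11, 0, 0⟩,
   ⟨P * A.y10 + Q * A.x10, P * A.y11 + Q * A.x11, 0, 0⟩,
   ⟨w.2.2.1 * A.x20 - w.2.2.2 * A.y20, w.2.2.1 * A.x21 - w.2.2.2 * A.y21,
    p.2.2.1 * A.x20 - p.2.2.2.1 * A.y20, p.2.2.1 * A.x21 - p.2.2.2.1 * A.y21⟩,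
   ⟨w.2.2.1 * A.y20 + w.2.2.2 * A.x20, w.2.2.1 * A.y21 + w.2.2.2 * A.x21,
    p.2.2.1 * A.y20 + p.2.2.2.1 * A.x20, p.2.2.1 * A.y21 + p.2.2.2.1 * A.x21⟩,
   ⟨p.2.2.2.2 * A.K, 0, 0, 0⟩⟩

def al1 (x y : ℤ) : Al := ⟨70, 70, -x, 0, -2 * y, x, 0, y, 0⟩

def al2 (x y q1 : ℤ) : Al :=
  ⟨8960, 2 * (x * (64 + q1)), 0, 2 * (y * (64 + q1)), 0, 8960, -2 * (x * (64 + q1)), 0,
    -(y * (64 + q1))⟩

def al3 (x y q1 : ℤ) : Al := ⟨4480, x * (64 + q1), 0, y * (64 + q1), 0, 4480, 0, 0, 0⟩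

def pol8 : List (ℤ × ℤ) := [(-70, 29), (-29, 70), (29, 70), (70, 29)]

def pol6 : List (ℤ × ℤ) := [(0, 70), (29, 70), (70, 29)]

def dat1 (k : ℕ) (m : List (ℤ × ℕ)) (_ : ℤ) : List CV :=
  let w := dir2 k
  let p := mP m
  pol8.flatMap fun c => [cvN w p (al1 c.1 c.2), cvN w p (al1 c.1 (-c.2))]

def dat2 (k : ℕ) (m : List (ℤ × ℕ)) (q1 : ℤ) : List CV :=
  let w := dir2 k
  let p := mP m
  pol6.flatMap fun c => [cvN w p (al2 c.1 c.2 q1), cvN w p (al2 c.1 (-c.2) q1)]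

def dat3 (k : ℕ) (m : List (ℤ × ℕ)) (q1 : ℤ) : List CV :=
  let w := dir2 k
  let p := mP m
  pol8.flatMap fun c => [cvN w p (al3 c.1 c.2 q1), cvN w p (al3 c.1 (-c.2) q1)]

def vN (_ _ _ _ : ℤ) : Bool := false

end Pool.Agent.H768.C4.E
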