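import Mathlib
import Pool.Agent.H768.C4.N2Dat

/-! # Certificates for the weights `(1, 2)` -/

set_option autoImplicit false

namespace Pool.Agent.H768.C4.E

def n1_0 : Tr :=
  (.s (.u (.l 0 [(21, 9), (32, 10)]) (.q (.r (.l 0 []) (.s (.s (.u (.l 0 [(20, 10), (70, 11)]) (.u
  (.l 0 [(49, 10), (42, 11)]) (.r (.l 0 [(6, 9), (117, 10)]) (.r (.l 0 [(94, 10), (14, 11)]) (.r (.l
  0 [(86, 10), (13, 11)]) (.q (.q (.l 10 [(100, 0), (80, 1)]) (.l 10 [(51, 0), (140, 1)])) (.l 0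
  [(105, 13)]))))))) (.l 0 [(70, 10), (10, 11)])) (.l 0 [(60, 10), (9, 11)]))) (.l 0 [(5, 10), (70,
  11)]))) (.l 0 []))

theorem cn1_0 : check dat1
    vN n1_0 (-256) 0 (-256) (-128) 0 64 0 64 = true := by
  decide +kernel

def n1_1 : Tr :=
  (.l 0 [(77, 8), (31, 9)])

theorem cn1_1 : check dat1
    vN n1_1 (-256) (-128) (-128) (-64) 0 32 0 64 = true := by
  decide +kernel

def n1_2 : Tr :=
  (.q (.q (.l 0 [(99, 5), (95, 6)]) (.l 0 [(167, 8)])) (.l 0 [(35, 8), (108, 9)]))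

theorem cn1_2 : check dat1
    vN n1_2 (-256) (-128) (-64) 0 0 16 0 64 = true := by
  decide +kernel

def n1_3 : Tr :=
  (.u (.s (.q (.r (.l 0 [(175, 7)]) (.q (.l 9 [(367, 0), (59, 1)]) (.l 9 [(135, 0), (281, 1)]))) (.l
  0 [(129, 9)])) (.l 0 [(41, 8), (99, 9)])) (.q (.s (.q (.r (.l 9 [(32, 0), (540, 1)]) (.l 9 [(121,
  0), (288, 1)])) (.l 9 [(197, 1), (239, 2)])) (.r (.q (.l 0 [(141, 6)]) (.l 0 [(127, 8)])) (.q (.l
  9 [(303, 0), (137, 1)]) (.l 9 [(107, 0), (293, 1)])))) (.r (.l 9 [(366, 2), (14, 3)]) (.l 9 [(210,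
  1), (84, 2)]))))

theorem cn1_3 : check dat1
    vN n1_3 (-256) (-128) (-64) 0 16 32 0 32 = true := by
  decide +kernel

def n1_4 : Tr :=
  (.s (.q (.l 9 [(180, 2), (82, 3)]) (.l 0 [(36, 10), (108, 11)])) (.l 0 [(97, 10)]))

theorem cn1_4 : check dat1
    vN n1_4 (-256) (-128) (-64) 0 16 32 32 64 = true := by
  decide +kernel

def n1_5 : Tr :=
  (.q (.l 0 [(7, 7), (67, 8)]) (.l 0 [(35, 9), (31, 10)]))

theorem cn1_5 : check dat1
    vN n1_5 (-128) 0 (-128) 0 0 32 0 64 = true := by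
  decide +kernel

def n1_6 : Tr :=
  (.l 0 [(53, 9), (70, 10)])

theorem cn1_6 : check dat1
    vN n1_6 (-256) (-128) (-128) (-96) 32 48 0 32 = true := by
  decide +kernel

def n1_7 : Tr :=
  (.s (.r (.q (.q (.u (.l 0 [(143, 9)]) (.l 9 [(147, 0), (185, 35)])) (.l 0 [(104, 9), (26, 10)]))
  (.l 0 [(127, 10)])) (.q (.q (.u (.l 9 [(164, 34), (90, 35)]) (.l 9 [(17, 0), (240, 35)])) (.l 9
  [(86, 0), (189, 35)])) (.l 9 [(229, 0), (39, 35)]))) (.s (.u (.l 0 [(57, 9), (43, 10)]) (.u (.l 0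
  [(67, 9), (31, 10)]) (.r (.l 0 [(98, 9), (24, 10)]) (.q (.l 9 [(22, 0), (250, 35)]) (.l 0 [(87,
  10)]))))) (.l 0 [(66, 9), (17, 10)])))

theorem cn1_7 : check dat1
    vN n1_7 (-256) (-128) (-96) (-64) 32 48 0 32 = true := by
  decide +kernel

def n1_8 : Tr :=
  (.l 0 [(104, 11), (3, 12)])

theorem cn1_8 : check dat1
    vN n1_8 (-256) (-128) (-128) (-64) 32 48 32 64 = true := by
  decide +kernel

def n1_9 : Tr :=
  (.s (.u (.l 0 [(108, 10)]) (.q (.s (.q (.l 10 [(72, 1), (98, 2)]) (.l 10 [(158, 2), (11, 3)])) (.s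
  (.q (.l 10 [(116, 1), (57, 2)]) (.l 0 [(97, 11)])) (.l 0 [(31, 9), (58, 10)]))) (.l 0 [(114,
  12)]))) (.l 0 [(29, 9), (54, 10)]))

theorem cn1_9 : check dat1
    vN n1_9 (-256) (-128) (-128) (-96) 48 56 0 32 = true := by
  decide +kernel

def n1_10 : Tr :=
  (.s (.u (.q (.l 10 [(51, 0), (112, 1)]) (.l 10 [(4, 0), (166, 1)])) (.q (.l 10 [(22, 0), (123,
  1)]) (.l 10 [(117, 1), (31, 2)]))) (.u (.r (.l 0 [(88, 10)]) (.q (.l 10 [(106, 0), (64, 1)]) (.l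
  10 [(62, 0), (119, 1)]))) (.q (.r (.l 10 [(44, 0), (114, 1)]) (.l 10 [(76, 0), (72, 1)])) (.r (.l
  10 [(2, 0), (156, 1)]) (.l 10 [(40, 0), (111, 1)])))))

theorem cn1_10 : check dat1
    vN n1_10 (-256) (-192) (-128) (-96) 56 64 0 16 = true := by
  decide +kernel

def n1_11 : Tr :=
  (.u (.q (.s (.l 10 [(99, 1), (74, 2)]) (.l 0 [(97, 13)])) (.l 0 [(65, 13), (69, 14)])) (.q (.r (.l
  9 [(10, 33), (215, 34)]) (.l 9 [(129, 33), (77, 34)])) (.l 9 [(101, 34), (127, 35)])))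

theorem cn1_11 : check dat1
    vN n1_11 (-256) (-192) (-128) (-96) 56 64 16 32 = true := by
  decide +kernel

def n1_12 : Tr :=
  (.l 0 [(69, 10)])

theorem cn1_12 : check dat1
    vN n1_12 (-192) (-128) (-128) (-112) 56 64 0 32 = true := by
  decide +kernel

def n1_13 : Tr :=
  (.q (.s (.u (.l 0 [(76, 10)]) (.q (.l 10 [(68, 0), (92, 1)]) (.l 0 [(77, 11)]))) (.l 0 [(22, 9),
  (40, 10)])) (.l 0 [(83, 12)]))

theorem cn1_13 : check dat1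
    vN n1_13 (-192) (-128) (-112) (-96) 56 60 0 32 = true := by
  decide +kernel

def n1_14 : Tr :=
  (.s (.q (.q (.s (.l 10 [(98, 0), (57, 1)]) (.l 10 [(116, 0), (43, 1)])) (.u (.l 10 [(77, 0), (91,
  1)]) (.l 10 [(61, 0), (95, 1)]))) (.u (.l 0 [(86, 13)]) (.l 9 [(162, 33), (67, 34)]))) (.u (.l 0
  [(57, 10)]) (.q (.q (.s (.l 10 [(122, 0), (31, 1)]) (.l 0 [(50, 10)])) (.s (.l 10 [(85, 0), (76,
  1)]) (.l 0 [(52, 11)]))) (.l 0 [(73, 13)]))))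

theorem cn1_14 : check dat1
    vN n1_14 (-192) (-128) (-112) (-96) 60 64 0 32 = true := by
  decide +kernel

def n1_15 : Tr :=
  (.r (.q (.l 9 [(206, 34), (1, 35)]) (.l 9 [(15, 34), (216, 35)])) (.q (.u (.l 9 [(21, 32), (157,
  33)]) (.l 10 [(8, 0), (83, 1)])) (.l 9 [(166, 34), (27, 35)])))

theorem cn1_15 : check dat1
    vN n1_15 (-256) (-192) (-96) (-64) 48 64 0 16 = true := by
  decide +kernel

def n1_16 : Tr :=
  (.u (.r (.l 0 [(51, 9), (38, 10)]) (.s (.q (.l 9 [(81, 32), (130, 33)]) (.l 9 [(99, 33), (133,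
  34)])) (.l 0 [(39, 9), (29, 10)]))) (.q (.l 9 [(95, 33), (131, 34)]) (.l 9 [(144, 34), (105,
  35)])))

theorem cn1_16 : check dat1
    vN n1_16 (-192) (-128) (-96) (-64) 48 56 0 16 = true := by
  decide +kernel

def n1_17 : Tr :=
  (.q (.u (.r (.s (.l 9 [(168, 32), (27, 33)]) (.q (.l 9 [(38, 31), (161, 32)]) (.l 9 [(10, 31),
  (198, 32)]))) (.s (.l 10 [(82, 0), (45, 1)]) (.u (.q (.l 10 [(126, 0), (19, 1)]) (.l 10 [(110, 0),
  (38, 1)])) (.l 10 [(99, 0), (34, 1)])))) (.l 9 [(18, 32), (175, 33)])) (.u (.r (.l 9 [(3, 32),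
  (217, 33)]) (.s (.l 9 [(87, 32), (111, 33)]) (.l 9 [(197, 32), (11, 33)]))) (.l 9 [(77, 33), (132,
  34)])))

theorem cn1_17 : check dat1
    vN n1_17 (-192) (-128) (-96) (-64) 56 64 0 16 = true := by
  decide +kernel

def n1_18 : Tr :=
  (.s (.q (.l 9 [(25, 0), (190, 35)]) (.l 9 [(105, 0), (118, 35)])) (.q (.r (.u (.l 0 [(92, 12)])
  (.l 9 [(27, 0), (240, 35)])) (.u (.l 9 [(70, 33), (163, 34)]) (.l 9 [(140, 34), (86, 35)]))) (.u
  (.r (.l 0 [(106, 13)]) (.l 9 [(100, 34), (153, 35)])) (.l 9 [(74, 0), (177, 35)]))))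

theorem cn1_18 : check dat1
    vN n1_18 (-256) (-128) (-96) (-64) 48 64 16 32 = true := by
  decide +kernel

def n1_19 : Tr :=
  (.u (.l 0 [(12, 12), (92, 13)]) (.s (.q (.l 9 [(188, 0), (27, 35)]) (.l 0 [(101, 13), (28, 14)]))
  (.q (.u (.l 0 [(117, 13)]) (.l 9 [(188, 0), (63, 35)])) (.l 0 [(78, 13), (40, 14)]))))

theorem cn1_19 : check dat1
    vN n1_19 (-256) (-128) (-128) (-64) 48 64 32 64 = true := by
  decide +kernel

def n1_20 : Tr :=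
  (.l 0 [(15, 9), (27, 10)])

theorem cn1_20 : check dat1
    vN n1_20 (-128) 0 (-128) (-96) 32 64 0 64 = true := by
  decide +kernel

def n1_21 : Tr :=
  (.l 0 [(57, 9), (14, 10)])

theorem cn1_21 : check dat1
    vN n1_21 (-128) 0 (-96) (-64) 32 48 0 64 = true := by
  decide +kernel

def n1_22 : Tr :=
  (.s (.u (.l 0 [(32, 9), (24, 10)]) (.q (.s (.u (.l 0 [(37, 9), (17, 10)]) (.q (.l 9 [(59, 33),
  (179, 34)]) (.l 0 [(55, 11)]))) (.l 0 [(31, 9), (8, 10)])) (.l 0 [(108, 13)]))) (.l 0 []))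

theorem cn1_22 : check dat1
    vN n1_22 (-128) 0 (-96) (-64) 48 56 0 64 = true := by
  decide +kernel

def n1_23 : Tr :=
  (.r (.l 0 [(27, 9), (20, 10)]) (.s (.u (.q (.r (.l 0 [(21, 9), (24, 10)]) (.s (.q (.l 10 [(147,
  0), (1, 1)]) (.l 0 [(45, 11)])) (.l 0 [(16, 9), (19, 10)]))) (.l 0 [(50, 12)])) (.q (.q (.q (.l 9
  [(78, 31), (116, 32)]) (.l 9 [(55, 31), (147, 32)])) (.l 9 [(6, 31), (212, 32)])) (.l 9 [(150,
  33), (97, 34)]))) (.l 0 [(15, 9), (12, 10)])))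

theorem cn1_23 : check dat1
    vN n1_23 (-128) (-64) (-96) (-80) 56 64 0 32 = true := by
  decide +kernel

def n1_24 : Tr :=
  (.q (.q (.r (.s (.l 9 [(168, 32), (43, 33)]) (.l 9 [(22, 31), (197, 32)])) (.s (.l 9 [(16, 31),
  (180, 32)]) (.q (.l 9 [(64, 31), (136, 32)]) (.l 9 [(39, 31), (170, 32)])))) (.s (.l 9 [(20, 32),
  (203, 33)]) (.r (.l 9 [(91, 32), (152, 33)]) (.l 9 [(199, 32), (27, 33)])))) (.q (.s (.l 9 [(47,
  33), (196, 34)]) (.l 9 [(164, 33), (94, 34)])) (.l 9 [(163, 34), (110, 35)])))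

theorem cn1_24 : check dat1
    vN n1_24 (-128) (-64) (-80) (-64) 56 64 0 32 = true := by
  decide +kernel

def n1_25 : Tr :=
  (.s (.u (.l 0 []) (.r (.l 0 [(14, 9), (4, 10)]) (.u (.l 0 [(9, 9), (4, 10)]) (.q (.q (.q (.l 9
  [(80, 31), (128, 32)]) (.l 9 [(56, 31), (162, 32)])) (.l 9 [(9, 31), (226, 32)])) (.l 9 [(169,
  33), (98, 34)]))))) (.l 0 []))

theorem cn1_25 : check dat1
    vN n1_25 (-64) 0 (-96) (-64) 56 64 0 32 = true := by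
  decide +kernel

def n1_26 : Tr :=
  (.s (.l 0 [(102, 13)]) (.l 0 [(86, 13)]))

theorem cn1_26 : check dat1
    vN n1_26 (-128) 0 (-96) (-64) 56 64 32 64 = true := by
  decide +kernel

def n1_27 : Tr :=
  (.q (.q (.s (.q (.l 9 [(248, 0), (46, 35)]) (.l 9 [(240, 0), (47, 1)])) (.q (.r (.l 7 [(55, 6),
  (153, 7)]) (.l 9 [(18, 0), (249, 35)])) (.r (.l 7 [(118, 7), (65, 8)]) (.l 9 [(127, 0), (147,
  35)])))) (.s (.l 9 [(126, 0), (128, 1)]) (.q (.l 9 [(287, 0), (15, 1)]) (.l 9 [(194, 0), (83,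
  1)])))) (.s (.l 9 [(182, 1), (7, 2)]) (.q (.l 9 [(97, 0), (139, 1)]) (.l 0 [(98, 12), (27,
  13)]))))

theorem cn1_27 : check dat1
    vN n1_27 (-256) (-128) (-64) (-32) 32 48 0 64 = true := by
  decide +kernel

def n1_28 : Tr :=
  (.q (.q (.s (.l 9 [(140, 0), (117, 1)]) (.q (.l 9 [(251, 0), (35, 35)]) (.l 9 [(215, 0), (53,
  1)]))) (.s (.l 9 [(7, 0), (213, 1)]) (.l 9 [(103, 0), (134, 1)]))) (.q (.l 9 [(176, 1), (12, 2)])
  (.l 9 [(92, 1), (71, 2)])))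

theorem cn1_28 : check dat1
    vN n1_28 (-256) (-128) (-32) 0 32 48 0 64 = true := by
  decide +kernel

def n1_29 : Tr :=
  (.s (.u (.l 0 [(3, 8), (61, 9)]) (.r (.l 0 [(23, 8), (56, 9)]) (.q (.q (.q (.l 7 [(164, 7), (22,
  8)]) (.l 7 [(166, 8)])) (.l 7 [(88, 8), (59, 9)])) (.l 0 [(123, 12)])))) (.l 0 [(9, 8), (22, 9)]))

theorem cn1_29 : check dat1
    vN n1_29 (-128) 0 (-64) (-32) 32 48 0 64 = true := by
  decide +kernel

def n1_30 : Tr :=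
  (.q (.q (.s (.q (.r (.l 9 [(191, 0), (150, 35)]) (.l 9 [(63, 0), (204, 35)])) (.r (.l 9 [(326, 0),
  (7, 35)]) (.l 9 [(165, 0), (107, 35)]))) (.q (.l 7 [(185, 7)]) (.l 7 [(44, 7), (123, 8)]))) (.s
  (.r (.l 9 [(171, 0), (130, 1)]) (.l 9 [(236, 0), (15, 1)])) (.l 7 [(132, 8), (15, 9)]))) (.q (.s
  (.l 9 [(85, 0), (139, 1)]) (.l 7 [(99, 8), (30, 9)])) (.s (.l 0 [(126, 12)]) (.l 0 [(108, 12)]))))

theorem cn1_30 : check dat1
    vN n1_30 (-128) 0 (-32) 0 32 48 0 64 = true := by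
  decide +kernel

def n1_31 : Tr :=
  (.q (.q (.s (.l 9 [(46, 0), (146, 35)]) (.q (.u (.l 9 [(2, 33), (201, 34)]) (.l 9 [(66, 34), (135,
  35)])) (.l 9 [(18, 34), (196, 35)]))) (.s (.l 9 [(138, 0), (46, 35)]) (.q (.l 9 [(57, 0), (162,
  35)]) (.l 9 [(111, 0), (103, 35)])))) (.s (.l 9 [(112, 0), (45, 1)]) (.q (.l 9 [(160, 0), (34,
  35)]) (.l 9 [(142, 0), (33, 1)]))))

theorem cn1_31 : check dat1
    vN n1_31 (-256) (-128) (-64) (-32) 48 64 0 64 = true := by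
  decide +kernel

def n1_32 : Tr :=
  (.q (.q (.r (.u (.l 9 [(124, 33), (117, 34)]) (.l 9 [(220, 34), (20, 35)])) (.u (.l 9 [(39, 32),
  (167, 33)]) (.l 9 [(118, 33), (83, 34)]))) (.u (.r (.l 9 [(202, 34), (69, 35)]) (.l 9 [(114, 33),
  (113, 34)])) (.l 9 [(117, 34), (118, 35)]))) (.q (.u (.r (.l 9 [(23, 34), (257, 35)]) (.l 9 [(196,
  34), (44, 35)])) (.l 9 [(16, 0), (233, 35)])) (.u (.l 9 [(49, 0), (227, 35)]) (.l 9 [(85, 0),
  (163, 35)]))))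

theorem cn1_32 : check dat1
    vN n1_32 (-128) (-64) (-64) (-32) 48 64 0 32 = true := by
  decide +kernel

def n1_33 : Tr :=
  (.r (.u (.l 0 [(1, 8), (19, 9)]) (.q (.s (.l 7 [(158, 8), (3, 9)]) (.l 7 [(1, 7), (149, 8)])) (.l
  9 [(6, 33), (274, 34)]))) (.u (.q (.s (.l 9 [(5, 31), (212, 32)]) (.r (.l 0 []) (.q (.l 9 [(69,
  31), (145, 32)]) (.l 9 [(43, 31), (182, 32)])))) (.s (.l 9 [(42, 32), (198, 33)]) (.r (.l 0 [])
  (.l 9 [(230, 32), (13, 33)])))) (.q (.l 9 [(98, 32), (120, 33)]) (.l 9 [(177, 33), (60, 34)]))))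

theorem cn1_33 : check dat1
    vN n1_33 (-64) 0 (-64) (-32) 48 64 0 16 = true := by
  decide +kernel

def n1_34 : Tr :=
  (.u (.r (.l 0 [(20, 10)]) (.q (.s (.l 9 [(83, 33), (179, 34)]) (.l 9 [(207, 33), (70, 34)])) (.s
  (.l 9 [(157, 34), (130, 35)]) (.l 7 [(54, 9), (70, 10)])))) (.q (.r (.l 7 [(27, 8), (112, 9)]) (.l
  9 [(23, 33), (228, 34)])) (.r (.l 7 [(17, 8), (113, 9)]) (.l 9 [(132, 34), (125, 35)]))))

theorem cn1_34 : check dat1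
    vN n1_34 (-64) 0 (-64) (-32) 48 64 16 32 = true := by
  decide +kernel

def n1_35 : Tr :=
  (.q (.s (.q (.u (.l 9 [(125, 0), (147, 35)]) (.l 9 [(137, 0), (99, 35)])) (.u (.l 9 [(179, 0),
  (78, 35)]) (.l 9 [(175, 0), (46, 35)]))) (.u (.s (.r (.l 0 [(106, 13)]) (.l 9 [(50, 0), (236,
  35)])) (.l 0 [(87, 13)])) (.s (.q (.l 9 [(117, 0), (162, 35)]) (.l 7 [(100, 9), (23, 10)])) (.l 7
  [(96, 9), (24, 10)])))) (.s (.u (.l 0 [(77, 13), (41, 14)]) (.l 9 [(188, 0), (4, 1)])) (.s (.l 0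
  [(97, 13)]) (.l 0 [(87, 13)]))))

theorem cn1_35 : check dat1
    vN n1_35 (-128) 0 (-64) (-32) 48 64 32 64 = true := by
  decide +kernel

def n1_36 : Tr :=
  (.q (.s (.l 9 [(146, 0), (13, 1)]) (.q (.l 9 [(58, 0), (121, 35)]) (.l 9 [(143, 0), (28, 35)])))
  (.s (.l 9 [(41, 0), (89, 1)]) (.l 9 [(99, 0), (47, 1)])))

theorem cn1_36 : check dat1
    vN n1_36 (-256) (-128) (-32) 0 48 64 0 64 = true := by
  decide +kernel

def n1_37 : Tr :=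
  (.q (.s (.u (.l 9 [(33, 34), (193, 35)]) (.l 9 [(45, 0), (166, 35)])) (.q (.u (.l 9 [(54, 33),
  (191, 34)]) (.l 9 [(169, 34), (59, 35)])) (.u (.l 9 [(155, 34), (102, 35)]) (.l 9 [(29, 34), (209,
  35)])))) (.s (.l 9 [(143, 0), (74, 35)]) (.u (.s (.l 9 [(69, 0), (183, 35)]) (.l 7 [(39, 8), (101,
  9)])) (.l 9 [(84, 0), (147, 35)]))))

theorem cn1_37 : check dat1
    vN n1_37 (-128) 0 (-32) 0 48 56 0 32 = true := by
  decide +kernel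

def n1_38 : Tr :=
  (.s (.q (.l 9 [(175, 0), (27, 1)]) (.l 9 [(105, 0), (77, 1)])) (.q (.s (.l 9 [(201, 0), (21, 35)])
  (.l 7 [(35, 8), (93, 9)])) (.l 7 [(25, 8), (94, 9)])))

theorem cn1_38 : check dat1
    vN n1_38 (-128) 0 (-32) 0 48 56 32 64 = true := by
  decide +kernel

end Pool.Agent.H768.C4.E
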