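import Mathlib
import Pool.Agent.H768.C4.N2Dat

/-! # Certificates for the weights `(1, 2)` -/

set_option autoImplicit false

namespace Pool.Agent.H768.C4.E

def n1_39 : Tr :=
  (.q (.q (.s (.l 9 [(147, 34), (46, 35)]) (.q (.l 9 [(181, 33), (26, 34)]) (.l 9 [(61, 33), (158,
  34)]))) (.s (.l 9 [(29, 0), (167, 35)]) (.q (.l 9 [(153, 34), (75, 35)]) (.l 9 [(21, 34), (211,
  35)])))) (.s (.l 9 [(143, 0), (34, 35)]) (.q (.l 9 [(67, 0), (155, 35)]) (.l 9 [(162, 0), (48,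
  35)]))))

theorem cn1_39 : check dat1
    vN n1_39 (-128) 0 (-32) (-16) 56 64 0 64 = true := by
  decide +kernel

def n1_40 : Tr :=
  (.s (.q (.q (.l 9 [(51, 34), (125, 35)]) (.l 9 [(74, 0), (107, 35)])) (.l 9 [(159, 0), (2, 1)]))
  (.q (.q (.l 9 [(19, 33), (177, 34)]) (.l 9 [(9, 34), (192, 35)])) (.q (.l 9 [(96, 0), (103, 35)])
  (.l 9 [(164, 0), (21, 35)]))))

theorem cn1_40 : check dat1
    vN n1_40 (-128) 0 (-16) 0 56 64 0 64 = true := by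
  decide +kernel

def n1_41 : Tr :=
  (.l 0 [])

theorem cn1_41 : check dat1
    vN n1_41 0 256 (-256) (-128) 0 64 0 64 = true := by
  decide +kernel

def n1_42 : Tr :=
  (.l 0 [])

theorem cn1_42 : check dat1
    vN n1_42 0 256 (-128) (-64) 0 64 0 64 = true := by
  decide +kernel

def n1_43 : Tr :=
  (.l 0 [])

theorem cn1_43 : check dat1
    vN n1_43 0 256 (-64) 0 0 32 0 64 = true := by
  decide +kernel

def n1_44 : Tr :=
  (.s (.q (.l 7 [(42, 5), (86, 6)]) (.l 7 [(72, 8), (20, 9)])) (.l 0 []))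

theorem cn1_44 : check dat1
    vN n1_44 0 256 (-64) 0 32 48 0 64 = true := by
  decide +kernel

def n1_45 : Tr :=
  (.s (.q (.u (.q (.l 7 [(55, 8), (73, 9)]) (.l 7 [(121, 9)])) (.q (.s (.u (.l 7 [(37, 8), (103,
  9)]) (.l 7 [(56, 8), (89, 9)])) (.l 7 [(67, 8), (64, 9)])) (.s (.l 7 [(45, 8), (88, 9)]) (.l 7
  [(38, 8), (87, 9)])))) (.u (.q (.l 7 [(114, 9)]) (.l 0 [(66, 12)])) (.q (.l 7 [(124, 9)]) (.l 7
  [(95, 9), (25, 10)])))) (.l 7 [(80, 8), (18, 9)]))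

theorem cn1_45 : check dat1
    vN n1_45 0 128 (-64) (-32) 48 64 0 32 = true := by
  decide +kernel

def n1_46 : Tr :=
  (.s (.u (.q (.r (.l 7 [(83, 7), (67, 8)]) (.s (.l 9 [(102, 32), (121, 33)]) (.l 7 [(92, 8), (50,
  9)]))) (.s (.r (.l 7 [(140, 8), (1, 9)]) (.l 9 [(180, 33), (68, 34)])) (.l 7 [(75, 8), (59, 9)])))
  (.r (.l 7 [(122, 7), (33, 8)]) (.q (.l 9 [(52, 32), (158, 33)]) (.l 9 [(137, 33), (87, 34)]))))
  (.q (.l 7 [(50, 7), (83, 8)]) (.l 7 [(124, 8)])))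

theorem cn1_46 : check dat1
    vN n1_46 0 128 (-32) 0 48 64 0 16 = true := by
  decide +kernel

def n1_47 : Tr :=
  (.s (.u (.q (.s (.l 7 [(137, 9)]) (.l 7 [(129, 9)])) (.l 7 [(126, 9), (1, 10)])) (.q (.s (.l 9
  [(83, 34), (178, 35)]) (.l 7 [(15, 8), (124, 9)])) (.l 7 [(20, 8), (117, 9)]))) (.l 7 [(14, 8),
  (106, 9)]))

theorem cn1_47 : check dat1
    vN n1_47 0 128 (-32) 0 48 64 16 32 = true := by
  decide +kernel

def n1_48 : Tr :=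
  (.u (.u (.l 0 [(59, 13)]) (.q (.l 7 [(91, 9), (15, 10)]) (.l 0 [(60, 13)]))) (.s (.q (.u (.l 7
  [(115, 9), (3, 10)]) (.l 7 [(19, 8), (108, 9)])) (.l 7 [(110, 9)])) (.l 7 [(3, 8), (100, 9)])))

theorem cn1_48 : check dat1
    vN n1_48 0 128 (-64) 0 48 64 32 64 = true := by
  decide +kernel

def n1_49 : Tr :=
  (.q (.l 7 [(12, 5), (71, 6)]) (.l 7 [(60, 9), (15, 10)]))

theorem cn1_49 : check dat1
    vN n1_49 128 256 (-64) 0 48 64 0 64 = true := by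
  decide +kernel

def n1_50 : Tr :=
  (.s (.r (.l 0 []) (.s (.q (.r (.u (.l 0 []) (.s (.r (.l 0 []) (.q (.l 9 [(25, 2), (879, 3)]) (.l 0
  [(114, 6)]))) (.l 0 []))) (.q (.u (.l 9 [(735, 2), (96, 3)]) (.l 9 [(303, 2), (430, 3)])) (.l 9
  [(98, 2), (443, 3)]))) (.q (.l 9 [(210, 3), (246, 4)]) (.l 9 [(62, 3), (304, 4)]))) (.u (.l 0 [])
  (.l 0 [])))) (.l 0 []))

theorem cn1_50 : check dat1
    vN n1_50 (-256) 0 0 64 0 16 0 32 = true := by
  decide +kernel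

def n1_51 : Tr :=
  (.l 0 [])

theorem cn1_51 : check dat1
    vN n1_51 0 256 0 64 0 16 0 32 = true := by
  decide +kernel

def n1_52 : Tr :=
  (.l 0 [(68, 8)])

theorem cn1_52 : check dat1
    vN n1_52 (-256) 256 0 64 0 16 32 64 = true := by
  decide +kernel

def n1_53 : Tr :=
  (.l 0 [])

theorem cn1_53 : check dat1
    vN n1_53 (-256) 0 64 128 0 8 0 64 = true := by
  decide +kernel

def n1_54 : Tr :=
  (.q (.s (.r (.l 0 []) (.q (.q (.s (.u (.q (.l 9 [(108, 3), (668, 4)]) (.l 9 [(633, 4)])) (.q (.r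
  (.l 8 [(813, 0), (1, 1)]) (.l 8 [(574, 0), (110, 35)])) (.l 8 [(619, 0)]))) (.u (.l 0 []) (.r (.l
  0 []) (.l 8 [(408, 0), (265, 35)])))) (.u (.l 9 [(282, 3), (209, 4)]) (.l 8 [(497, 0)]))) (.l 8
  [(281, 0), (68, 35)]))) (.l 0 [])) (.l 8 [(221, 0), (18, 35)]))

theorem cn1_54 : check dat1
    vN n1_54 (-256) 0 64 128 8 16 0 64 = true := by
  decide +kernel

def n1_55 : Tr :=
  (.l 0 [])

theorem cn1_55 : check dat1
    vN n1_55 0 256 64 128 0 16 0 64 = true := by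
  decide +kernel

def n1_56 : Tr :=
  (.q (.q (.q (.u (.r (.s (.l 9 [(110, 1), (475, 2)]) (.l 9 [(489, 1), (119, 2)])) (.l 9 [(351, 1),
  (28, 2)])) (.r (.s (.l 9 [(280, 2), (240, 3)]) (.l 9 [(155, 1), (373, 2)])) (.l 9 [(360, 2), (14,
  3)]))) (.u (.r (.l 9 [(432, 2), (41, 3)]) (.l 9 [(149, 1), (184, 2)])) (.l 9 [(191, 2), (157,
  3)]))) (.u (.q (.l 9 [(327, 2)]) (.l 9 [(197, 2), (82, 3)])) (.l 9 [(55, 2), (210, 3)]))) (.q (.l
  9 [(4, 2), (207, 3)]) (.l 8 [(160, 35)])))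

theorem cn1_56 : check dat1
    vN n1_56 (-256) (-128) 0 64 16 32 0 64 = true := by
  decide +kernel

def n1_57 : Tr :=
  (.u (.l 0 [(58, 7)]) (.s (.q (.q (.q (.q (.l 9 [(5, 0), (593, 1)]) (.l 9 [(326, 1), (198, 2)]))
  (.l 9 [(138, 1), (285, 2)])) (.l 9 [(193, 2), (119, 3)])) (.l 8 [(19, 0), (203, 35)])) (.l 0 [])))

theorem cn1_57 : check dat1
    vN n1_57 (-128) 0 0 64 16 24 0 64 = true := by
  decide +kernel

def n1_58 : Tr :=
  (.q (.u (.q (.q (.s (.l 9 [(247, 0), (179, 1)]) (.l 0 [(15, 6)])) (.l 7 [(235, 6)])) (.l 7 [(99,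
  6), (96, 7)])) (.q (.q (.s (.l 9 [(33, 0), (358, 1)]) (.l 9 [(214, 0), (196, 1)])) (.l 9 [(24, 0),
  (301, 1)])) (.q (.l 9 [(196, 1), (81, 2)]) (.l 9 [(94, 1), (144, 2)])))) (.u (.l 7 [(64, 6), (86,
  7)]) (.l 8 [(105, 34), (96, 35)])))

theorem cn1_58 : check dat1
    vN n1_58 (-128) 0 0 64 24 32 0 64 = true := by
  decide +kernel

def n1_59 : Tr :=
  (.q (.q (.u (.r (.l 9 [(472, 3), (77, 4)]) (.l 9 [(399, 3), (49, 4)])) (.r (.s (.l 8 [(536, 0)])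
  (.l 8 [(317, 0), (242, 35)])) (.l 9 [(310, 4), (79, 5)]))) (.u (.l 9 [(176, 3), (192, 4)]) (.l 8
  [(331, 0), (45, 35)]))) (.l 8 [(189, 0), (86, 35)]))

theorem cn1_59 : check dat1
    vN n1_59 (-256) (-128) 64 128 16 24 0 32 = true := by
  decide +kernel

def n1_60 : Tr :=
  (.q (.q (.u (.r (.s (.l 9 [(507, 2), (23, 3)]) (.l 0 [])) (.u (.l 9 [(300, 1), (179, 2)]) (.l 9
  [(90, 1), (352, 2)]))) (.r (.s (.l 8 [(93, 0), (477, 35)]) (.l 8 [(316, 34), (256, 35)])) (.l 8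
  [(190, 34), (238, 35)]))) (.s (.l 8 [(390, 35)]) (.l 8 [(260, 34), (153, 35)]))) (.l 8 [(45, 0),
  (262, 35)]))

theorem cn1_60 : check dat1
    vN n1_60 (-128) 0 64 128 16 24 0 32 = true := by
  decide +kernel

def n1_61 : Tr :=
  (.s (.l 8 [(167, 0), (24, 35)]) (.l 8 [(95, 0), (119, 35)]))

theorem cn1_61 : check dat1
    vN n1_61 (-256) 0 64 128 16 24 32 64 = true := by
  decide +kernel

def n1_62 : Tr :=
  (.q (.s (.q (.u (.l 9 [(250, 3), (47, 4)]) (.s (.l 8 [(250, 0), (43, 35)]) (.l 9 [(217, 4), (42,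
  5)]))) (.l 9 [(191, 4), (7, 5)])) (.q (.u (.q (.l 9 [(241, 1), (100, 2)]) (.l 9 [(66, 1), (211,
  2)])) (.s (.l 9 [(242, 3), (14, 4)]) (.l 8 [(206, 34), (129, 35)]))) (.l 8 [(118, 34), (107,
  35)]))) (.s (.l 9 [(120, 4), (18, 5)]) (.l 8 [(10, 0), (160, 35)])))

theorem cn1_62 : check dat1
    vN n1_62 (-256) 0 64 128 24 32 0 64 = true := by
  decide +kernel

def n1_63 : Tr :=
  (.q (.q (.s (.l 7 [(154, 4), (81, 5)]) (.l 0 [])) (.l 7 [(150, 6)])) (.l 7 [(83, 6), (37, 7)]))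

theorem cn1_63 : check dat1
    vN n1_63 0 256 0 64 16 32 0 64 = true := by
  decide +kernel

def n1_64 : Tr :=
  (.q (.s (.r (.l 0 []) (.u (.s (.u (.l 0 []) (.q (.q (.l 7 [(334, 4)]) (.l 7 [(286, 5)])) (.l 7
  [(84, 5), (147, 6)]))) (.l 0 [])) (.q (.s (.q (.l 8 [(380, 33), (64, 34)]) (.l 8 [(349, 34), (71,
  35)])) (.u (.l 7 [(267, 4)]) (.l 8 [(357, 33), (116, 34)]))) (.l 8 [(145, 34), (198, 35)])))) (.l
  7 [(202, 4)])) (.l 7 [(151, 6)]))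

theorem cn1_64 : check dat1
    vN n1_64 0 256 64 128 16 24 0 64 = true := by
  decide +kernel

def n1_65 : Tr :=
  (.u (.q (.s (.q (.u (.l 7 [(276, 5)]) (.l 9 [(95, 0), (251, 1)])) (.l 9 [(19, 0), (275, 1)])) (.l
  7 [(32, 4), (212, 5)])) (.s (.l 7 [(168, 6), (44, 7)]) (.l 7 [(193, 6)]))) (.q (.s (.q (.l 8 [(42,
  32), (309, 33)]) (.l 9 [(61, 1), (178, 2)])) (.q (.l 8 [(28, 31), (343, 32)]) (.l 8 [(313, 33),
  (50, 34)]))) (.l 8 [(257, 34), (26, 35)])))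

theorem cn1_65 : check dat1
    vN n1_65 0 128 64 128 24 32 0 32 = true := by
  decide +kernel

def n1_66 : Tr :=
  (.q (.q (.q (.l 7 [(235, 4)]) (.l 7 [(14, 4), (210, 5)])) (.l 7 [(16, 4), (194, 5)])) (.l 7 [(180,
  5)]))

theorem cn1_66 : check dat1
    vN n1_66 128 256 64 128 24 32 0 32 = true := by
  decide +kernel

def n1_67 : Tr :=
  (.s (.q (.l 7 [(180, 6)]) (.l 7 [(125, 6), (29, 7)])) (.l 7 [(54, 5), (84, 6)]))

theorem cn1_67 : check dat1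
    vN n1_67 0 256 64 128 24 32 32 64 = true := by
  decide +kernel

def n1_68 : Tr :=
  (.l 0 [])

theorem cn1_68 : check dat1
    vN n1_68 (-256) 256 128 256 0 8 0 64 = true := by
  decide +kernel

def n1_69 : Tr :=
  (.s (.q (.r (.s (.q (.u (.r (.l 0 []) (.l 8 [(642, 0), (384, 1)])) (.l 8 [(82, 0), (1081, 1)]))
  (.l 8 [(472, 0), (409, 1)])) (.l 0 [])) (.s (.q (.l 8 [(352, 0), (487, 1)]) (.l 8 [(348, 0), (331,
  1)])) (.l 8 [(669, 0), (87, 1)]))) (.r (.l 8 [(407, 0), (242, 1)]) (.l 8 [(356, 0), (175, 1)])))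
  (.r (.l 0 []) (.q (.s (.l 8 [(656, 0), (142, 35)]) (.l 0 [])) (.l 8 [(481, 0), (98, 35)]))))

theorem cn1_69 : check dat1
    vN n1_69 (-256) 0 128 192 8 16 0 16 = true := by
  decide +kernel

def n1_70 : Tr :=
  (.l 8 [(330, 0), (59, 1)])

theorem cn1_70 : check dat1
    vN n1_70 (-256) 0 128 192 8 16 16 32 = true := by
  decide +kernel

def n1_71 : Tr :=
  (.l 8 [(193, 0), (45, 1)])

theorem cn1_71 : check dat1
    vN n1_71 (-256) 0 128 192 8 16 32 64 = true := by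
  decide +kernel

def n1_72 : Tr :=
  (.l 0 [])

theorem cn1_72 : check dat1
    vN n1_72 0 256 128 192 8 16 0 64 = true := by
  decide +kernel

def n1_73 : Tr :=
  (.q (.q (.s (.q (.r (.s (.q (.l 8 [(806, 1), (427, 2)]) (.l 8 [(910, 1), (24, 2)])) (.l 0 [])) (.l
  8 [(53, 0), (765, 1)])) (.l 8 [(84, 0), (521, 1)])) (.s (.r (.l 0 []) (.q (.l 8 [(416, 0), (369,
  1)]) (.l 8 [(362, 0), (191, 1)]))) (.l 0 []))) (.l 8 [(211, 0), (200, 1)])) (.l 8 [(144, 0), (104,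
  1)]))

theorem cn1_73 : check dat1
    vN n1_73 (-256) 0 192 256 8 16 0 64 = true := by
  decide +kernel

def n1_74 : Tr :=
  (.s (.l 0 []) (.q (.r (.l 0 []) (.q (.q (.s (.l 0 []) (.l 8 [(197, 33), (562, 34)])) (.l 8 [(88,
  34), (497, 35)])) (.l 8 [(71, 0), (352, 35)]))) (.l 7 [(55, 4), (133, 5)])))

theorem cn1_74 : check dat1
    vN n1_74 0 256 192 256 8 16 0 64 = true := by
  decide +kernel

def n1_75 : Tr :=
  (.q (.u (.r (.s (.q (.l 8 [(228, 0), (296, 1)]) (.l 8 [(223, 0), (178, 1)])) (.q (.l 8 [(475, 0),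
  (37, 1)]) (.l 8 [(355, 0), (55, 1)]))) (.l 8 [(207, 0), (112, 1)])) (.r (.q (.l 8 [(1, 0), (572,
  1)]) (.l 8 [(62, 0), (374, 1)])) (.l 8 [(344, 1), (13, 2)]))) (.r (.l 8 [(131, 0), (167, 1)]) (.l
  8 [(87, 0), (144, 1)])))

theorem cn1_75 : check dat1
    vN n1_75 (-256) (-128) 128 256 16 32 0 32 = true := by
  decide +kernel

def n1_76 : Tr :=
  (.q (.r (.u (.q (.s (.l 8 [(457, 0), (108, 35)]) (.r (.l 8 [(48, 0), (496, 35)]) (.l 8 [(16, 0),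
  (426, 35)]))) (.l 8 [(319, 0), (113, 35)])) (.q (.l 8 [(451, 0), (113, 1)]) (.l 8 [(357, 0), (68,
  1)]))) (.u (.s (.l 8 [(285, 0), (72, 35)]) (.l 8 [(304, 35)])) (.l 8 [(293, 0), (59, 1)]))) (.l 8
  [(254, 0), (18, 35)]))

theorem cn1_76 : check dat1
    vN n1_76 (-128) 0 128 256 16 32 0 32 = true := by
  decide +kernel

def n1_77 : Tr :=
  (.s (.l 8 [(102, 0), (78, 1)]) (.l 8 [(161, 0), (21, 35)]))

theorem cn1_77 : check dat1
    vN n1_77 (-256) 0 128 256 16 32 32 64 = true := by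
  decide +kernel

def n1_78 : Tr :=
  (.u (.s (.q (.q (.s (.l 8 [(123, 34), (539, 35)]) (.l 0 [])) (.l 8 [(28, 34), (481, 35)])) (.l 8
  [(349, 35)])) (.l 0 [])) (.q (.u (.s (.q (.l 8 [(366, 34), (191, 35)]) (.l 8 [(464, 35)])) (.l 0
  [])) (.s (.l 8 [(91, 34), (391, 35)]) (.q (.l 8 [(438, 33), (174, 34)]) (.l 8 [(483, 34), (17,
  35)])))) (.l 8 [(101, 34), (229, 35)])))

theorem cn1_78 : check dat1
    vN n1_78 0 256 128 192 16 20 0 32 = true := by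
  decide +kernel

def n1_79 : Tr :=
  (.u (.s (.q (.q (.l 8 [(490, 34)]) (.l 8 [(154, 34), (273, 35)])) (.l 8 [(323, 35)])) (.q (.s (.q
  (.l 8 [(158, 32), (375, 33)]) (.l 8 [(155, 33), (323, 34)])) (.l 7 [(216, 3)])) (.l 7 [(210,
  5)]))) (.q (.s (.l 8 [(241, 34), (155, 35)]) (.q (.l 8 [(514, 33), (1, 34)]) (.l 8 [(154, 33),
  (285, 34)]))) (.l 8 [(142, 34), (157, 35)])))

theorem cn1_79 : check dat1
    vN n1_79 0 256 128 192 20 24 0 32 = true := by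
  decide +kernel

def n1_80 : Tr :=
  (.s (.q (.s (.l 8 [(283, 34), (22, 35)]) (.q (.l 8 [(116, 33), (278, 34)]) (.l 8 [(276, 34), (69,
  35)]))) (.l 8 [(7, 34), (260, 35)])) (.q (.s (.q (.l 8 [(113, 32), (288, 33)]) (.l 8 [(203, 33),
  (163, 34)])) (.q (.u (.l 8 [(123, 31), (309, 32)]) (.l 8 [(408, 32)])) (.l 8 [(150, 32), (240,
  33)]))) (.s (.l 8 [(265, 34), (37, 35)]) (.l 8 [(165, 33), (163, 34)]))))

theorem cn1_80 : check dat1
    vN n1_80 0 256 128 192 24 32 0 32 = true := by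
  decide +kernel

def n1_81 : Tr :=
  (.q (.s (.r (.q (.l 8 [(126, 0), (397, 35)]) (.l 8 [(168, 0), (249, 35)])) (.l 8 [(31, 0), (279,
  35)])) (.q (.r (.s (.l 8 [(383, 34), (168, 35)]) (.l 8 [(280, 33), (271, 34)])) (.l 8 [(208, 33),
  (152, 34)])) (.l 8 [(253, 34), (137, 35)]))) (.s (.l 8 [(169, 0), (117, 35)]) (.l 8 [(45, 34),
  (261, 35)])))

theorem cn1_81 : check dat1
    vN n1_81 0 256 192 256 16 32 0 32 = true := by
  decide +kernel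

def n1_82 : Tr :=
  (.s (.l 8 [(75, 0), (120, 35)]) (.q (.l 8 [(101, 34), (128, 35)]) (.l 7 [(111, 6), (42, 7)])))

theorem cn1_82 : check dat1
    vN n1_82 0 256 128 256 16 32 32 64 = true := by
  decide +kernel

end Pool.Agent.H768.C4.E
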