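import Mathlib
import Pool.Agent.H768.C4.N2Dat

/-! # Certificates for the weights `(1, 2)` -/

set_option autoImplicit false

namespace Pool.Agent.H768.C4.E

def n1_83 : Tr :=
  (.q (.u (.r (.q (.s (.l 9 [(195, 1), (52, 2)]) (.l 9 [(100, 0), (155, 1)])) (.l 9 [(139, 1), (58,
  2)])) (.s (.l 9 [(46, 0), (91, 1)]) (.l 9 [(122, 0), (27, 1)]))) (.r (.q (.l 9 [(76, 1), (145,
  2)]) (.l 9 [(3, 1), (164, 2)])) (.l 9 [(8, 0), (107, 1)]))) (.u (.r (.l 9 [(37, 1), (111, 2)]) (.l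
  9 [(25, 0), (85, 1)])) (.l 9 [(101, 2)])))

theorem cn1_83 : check dat1
    vN n1_83 (-256) (-128) 0 64 32 64 0 64 = true := by
  decide +kernel

def n1_84 : Tr :=
  (.r (.s (.q (.l 9 [(266, 0), (3, 35)]) (.l 9 [(183, 0), (74, 1)])) (.r (.u (.l 7 [(189, 6), (18,
  7)]) (.l 9 [(310, 0), (2, 1)])) (.q (.l 9 [(92, 0), (168, 35)]) (.l 9 [(174, 0), (82, 35)])))) (.s
  (.l 9 [(70, 0), (94, 35)]) (.q (.l 9 [(68, 34), (115, 35)]) (.l 9 [(14, 0), (170, 35)]))))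

theorem cn1_84 : check dat1
    vN n1_84 (-128) 0 0 32 32 64 0 16 = true := by
  decide +kernel

def n1_85 : Tr :=
  (.r (.s (.l 9 [(87, 0), (139, 1)]) (.r (.l 7 [(136, 7), (39, 8)]) (.l 9 [(224, 0), (16, 1)]))) (.s
  (.l 9 [(140, 0), (17, 35)]) (.u (.l 9 [(61, 0), (124, 35)]) (.l 9 [(95, 0), (72, 35)]))))

theorem cn1_85 : check dat1
    vN n1_85 (-128) 0 0 32 32 64 16 32 = true := by
  decide +kernel

def n1_86 : Tr :=
  (.r (.q (.s (.l 9 [(88, 0), (149, 1)]) (.r (.l 9 [(193, 0), (79, 1)]) (.l 9 [(215, 0), (2, 35)])))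
  (.s (.l 9 [(3, 0), (181, 1)]) (.l 9 [(77, 0), (128, 1)]))) (.s (.l 9 [(114, 0), (28, 1)]) (.q (.l
  9 [(79, 0), (78, 35)]) (.l 9 [(133, 0), (14, 35)]))))

theorem cn1_86 : check dat1
    vN n1_86 (-128) 0 32 64 32 64 0 32 = true := by
  decide +kernel

def n1_87 : Tr :=
  (.u (.r (.s (.l 9 [(166, 1), (1, 2)]) (.q (.l 7 [(143, 8), (6, 9)]) (.l 9 [(22, 0), (153, 1)])))
  (.s (.l 9 [(92, 0), (50, 1)]) (.q (.r (.l 9 [(174, 0), (7, 1)]) (.l 9 [(118, 0), (51, 35)])) (.l 9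
  [(129, 0), (25, 1)])))) (.r (.q (.l 9 [(4, 0), (149, 1)]) (.l 9 [(94, 1), (31, 2)])) (.s (.l 9
  [(40, 0), (62, 1)]) (.l 9 [(95, 0), (21, 1)]))))

theorem cn1_87 : check dat1
    vN n1_87 (-128) 0 0 64 32 64 32 64 = true := by
  decide +kernel

def n1_88 : Tr :=
  (.r (.q (.r (.u (.l 9 [(2, 2), (181, 3)]) (.l 9 [(128, 4), (39, 5)])) (.l 9 [(81, 3), (45, 4)]))
  (.l 9 [(93, 4), (4, 5)])) (.l 9 [(66, 3)]))

theorem cn1_88 : check dat1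
    vN n1_88 (-256) (-128) 64 128 32 64 0 64 = true := by
  decide +kernel

def n1_89 : Tr :=
  (.q (.u (.r (.q (.u (.l 9 [(45, 0), (167, 1)]) (.l 9 [(153, 1), (37, 2)])) (.l 9 [(92, 1), (56,
  2)])) (.s (.l 9 [(22, 0), (83, 1)]) (.l 9 [(95, 0), (14, 1)]))) (.r (.q (.l 9 [(123, 2), (33, 3)])
  (.l 9 [(54, 2), (67, 3)])) (.l 9 [(48, 1), (22, 2)]))) (.r (.l 8 [(81, 34), (47, 35)]) (.u (.l 9
  [(24, 0), (48, 1)]) (.l 9 [(9, 1), (41, 2)]))))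

theorem cn1_89 : check dat1
    vN n1_89 (-128) 0 64 128 32 64 0 64 = true := by
  decide +kernel

def n1_90 : Tr :=
  (.r (.q (.l 7 [(121, 6), (73, 7)]) (.l 7 [(175, 7)])) (.q (.u (.r (.l 9 [(16, 33), (212, 34)]) (.l
  9 [(141, 33), (55, 34)])) (.l 9 [(182, 34), (16, 35)])) (.u (.r (.l 9 [(112, 34), (127, 35)]) (.l
  9 [(25, 33), (181, 34)])) (.l 9 [(82, 34), (118, 35)]))))

theorem cn1_90 : check dat1
    vN n1_90 0 64 0 32 32 64 0 16 = true := by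
  decide +kernel

def n1_91 : Tr :=
  (.r (.l 7 [(147, 6), (13, 7)]) (.u (.s (.r (.l 7 [(104, 7), (45, 8)]) (.q (.l 9 [(64, 32), (152,
  33)]) (.l 7 [(59, 8), (89, 9)]))) (.l 7 [(136, 8)])) (.r (.l 7 [(4, 6), (152, 7)]) (.q (.l 9 [(17,
  32), (182, 33)]) (.l 9 [(105, 33), (103, 34)])))))

theorem cn1_91 : check dat1
    vN n1_91 64 128 0 32 32 64 0 16 = true := by
  decide +kernel

def n1_92 : Tr :=
  (.s (.r (.u (.l 7 [(55, 5), (157, 6)]) (.l 9 [(283, 0), (6, 1)])) (.q (.l 9 [(101, 0), (147, 35)])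
  (.l 9 [(163, 0), (76, 35)]))) (.q (.s (.r (.l 7 [(211, 6)]) (.l 9 [(18, 0), (235, 35)])) (.l 7
  [(61, 6), (120, 7)])) (.l 7 [(176, 7)])))

theorem cn1_92 : check dat1
    vN n1_92 0 128 32 64 32 48 0 16 = true := by
  decide +kernel

def n1_93 : Tr :=
  (.s (.u (.l 9 [(45, 34), (122, 35)]) (.l 9 [(20, 0), (136, 35)])) (.u (.r (.q (.l 9 [(203, 34),
  (11, 35)]) (.l 9 [(89, 34), (134, 35)])) (.q (.l 9 [(115, 33), (67, 34)]) (.l 9 [(14, 33), (178,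
  34)]))) (.r (.l 9 [(51, 34), (149, 35)]) (.l 9 [(159, 34), (9, 35)]))))

theorem cn1_93 : check dat1
    vN n1_93 0 128 32 64 48 64 0 16 = true := by
  decide +kernel

def n1_94 : Tr :=
  (.s (.r (.l 7 [(48, 7), (106, 8)]) (.u (.r (.l 7 [(107, 8), (42, 9)]) (.q (.l 9 [(123, 34), (89,
  35)]) (.l 9 [(14, 34), (200, 35)]))) (.r (.l 9 [(87, 0), (131, 35)]) (.l 9 [(2, 0), (186, 35)]))))
  (.u (.l 7 [(69, 8), (63, 9)]) (.s (.r (.l 7 [(48, 7), (96, 8)]) (.r (.l 7 [(103, 8), (42, 9)]) (.l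
  9 [(105, 34), (98, 35)]))) (.l 7 [(84, 8), (50, 9)]))))

theorem cn1_94 : check dat1
    vN n1_94 0 128 0 32 32 64 16 32 = true := by
  decide +kernel

def n1_95 : Tr :=
  (.r (.s (.r (.l 7 [(26, 6), (155, 7)]) (.l 9 [(189, 0), (8, 35)])) (.l 7 [(107, 7), (50, 8)])) (.s
  (.r (.l 9 [(103, 0), (75, 35)]) (.l 9 [(34, 0), (125, 35)])) (.r (.u (.l 7 [(139, 8), (11, 9)])
  (.l 9 [(71, 0), (126, 35)])) (.u (.q (.l 9 [(113, 34), (83, 35)]) (.l 9 [(25, 34), (171, 35)]))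
  (.l 9 [(11, 34), (161, 35)])))))

theorem cn1_95 : check dat1
    vN n1_95 0 128 32 64 32 64 16 32 = true := by
  decide +kernel

def n1_96 : Tr :=
  (.s (.q (.r (.l 7 [(133, 8), (1, 9)]) (.u (.s (.l 9 [(104, 0), (90, 35)]) (.l 7 [(33, 8), (98,
  9)])) (.r (.l 9 [(170, 0), (32, 35)]) (.l 9 [(83, 0), (102, 35)])))) (.r (.l 7 [(112, 8), (7, 9)])
  (.u (.l 7 [(36, 8), (88, 9)]) (.l 9 [(148, 0), (12, 35)])))) (.q (.u (.l 7 [(63, 8), (55, 9)]) (.l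
  7 [(75, 8), (51, 9)])) (.l 7 [(61, 8), (50, 9)])))

theorem cn1_96 : check dat1
    vN n1_96 0 128 0 32 32 64 32 64 = true := by
  decide +kernel

def n1_97 : Tr :=
  (.s (.r (.u (.l 7 [(14, 7), (125, 8)]) (.l 8 [(19, 32), (172, 33)])) (.q (.q (.l 9 [(113, 0), (43,
  35)]) (.l 9 [(129, 0), (18, 35)])) (.l 9 [(127, 0)]))) (.q (.u (.l 7 [(86, 8), (49, 9)]) (.r (.l 7
  [(55, 7), (87, 8)]) (.s (.l 9 [(94, 0), (53, 35)]) (.l 7 [(63, 8), (78, 9)])))) (.l 7 [(90, 8),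
  (36, 9)])))

theorem cn1_97 : check dat1
    vN n1_97 0 128 32 64 32 64 32 64 = true := by
  decide +kernel

def n1_98 : Tr :=
  (.s (.l 7 [(79, 7), (49, 8)]) (.l 7 [(53, 7), (54, 8)]))

theorem cn1_98 : check dat1
    vN n1_98 128 256 0 32 32 64 0 16 = true := by
  decide +kernel

def n1_99 : Tr :=
  (.l 7 [(73, 5), (82, 6)])

theorem cn1_99 : check dat1
    vN n1_99 128 256 32 64 32 48 0 16 = true := by
  decide +kernel

def n1_100 : Tr :=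
  (.s (.r (.q (.u (.l 7 [(134, 7), (13, 8)]) (.l 9 [(75, 33), (138, 34)])) (.l 7 [(149, 8)])) (.u
  (.s (.q (.l 9 [(47, 32), (152, 33)]) (.l 9 [(134, 33), (74, 34)])) (.q (.l 9 [(150, 32), (58,
  33)]) (.l 7 [(11, 8), (133, 9)]))) (.q (.l 9 [(12, 32), (169, 33)]) (.l 9 [(98, 33), (94, 34)]))))
  (.s (.u (.l 7 [(100, 7), (10, 8)]) (.r (.l 7 [(43, 6), (85, 7)]) (.q (.l 9 [(146, 32), (50, 33)])
  (.l 7 [(115, 8)])))) (.l 7 [(103, 7)])))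

theorem cn1_100 : check dat1
    vN n1_100 128 256 32 64 48 64 0 16 = true := by
  decide +kernel

def n1_101 : Tr :=
  (.u (.l 7 [(93, 8), (18, 9)]) (.s (.u (.l 7 [(80, 8), (52, 9)]) (.r (.l 7 [(90, 7), (53, 8)]) (.s
  (.r (.l 7 [(114, 8), (32, 9)]) (.l 9 [(105, 34), (80, 35)])) (.l 7 [(31, 8), (110, 9)])))) (.l 7
  [(63, 8), (58, 9)])))

theorem cn1_101 : check dat1
    vN n1_101 128 256 0 64 32 64 16 32 = true := by
  decide +kernel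

def n1_102 : Tr :=
  (.u (.l 7 [(65, 8), (31, 9)]) (.s (.l 7 [(90, 8), (28, 9)]) (.l 7 [(73, 8), (30, 9)])))

theorem cn1_102 : check dat1
    vN n1_102 128 256 0 64 32 64 32 64 = true := by
  decide +kernel

def n1_103 : Tr :=
  (.u (.q (.s (.q (.l 9 [(187, 0), (34, 1)]) (.l 9 [(121, 0), (80, 1)])) (.r (.u (.l 7 [(98, 5),
  (113, 6)]) (.l 9 [(213, 0), (22, 1)])) (.q (.l 9 [(81, 0), (129, 35)]) (.l 9 [(123, 0), (67,
  35)])))) (.s (.l 9 [(57, 0), (108, 1)]) (.u (.l 7 [(100, 7), (71, 8)]) (.l 8 [(20, 31), (219,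
  32)])))) (.q (.s (.l 8 [(92, 32), (133, 33)]) (.r (.l 8 [(76, 31), (182, 32)]) (.l 9 [(121, 0),
  (26, 1)]))) (.l 8 [(159, 33), (46, 34)])))

theorem cn1_103 : check dat1
    vN n1_103 0 128 64 128 32 48 0 32 = true := by
  decide +kernel

def n1_104 : Tr :=
  (.u (.s (.q (.l 9 [(69, 0), (74, 35)]) (.l 9 [(93, 0), (26, 35)])) (.q (.r (.q (.l 9 [(4, 34),
  (165, 35)]) (.l 9 [(32, 0), (126, 35)])) (.l 9 [(82, 34), (57, 35)])) (.r (.l 9 [(66, 0), (73,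
  35)]) (.l 9 [(2, 34), (121, 35)])))) (.s (.l 9 [(66, 0), (13, 1)]) (.q (.l 9 [(37, 0), (65, 35)])
  (.l 9 [(57, 0), (27, 35)]))))

theorem cn1_104 : check dat1
    vN n1_104 0 128 64 128 48 64 0 32 = true := by
  decide +kernel

def n1_105 : Tr :=
  (.u (.r (.s (.l 8 [(78, 33), (96, 34)]) (.l 8 [(193, 33), (9, 34)])) (.s (.l 9 [(84, 0), (3, 1)])
  (.q (.l 8 [(109, 31), (56, 32)]) (.l 8 [(20, 31), (137, 32)])))) (.r (.l 8 [(14, 33), (147, 34)])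
  (.l 8 [(88, 32), (33, 33)])))

theorem cn1_105 : check dat1
    vN n1_105 0 128 64 128 32 64 32 64 = true := by
  decide +kernel

def n1_106 : Tr :=
  (.q (.s (.u (.l 7 [(130, 6), (42, 7)]) (.r (.l 7 [(115, 5), (79, 6)]) (.q (.l 9 [(18, 0), (201,
  35)]) (.l 9 [(76, 0), (130, 35)])))) (.l 7 [(31, 5), (119, 6)])) (.l 7 [(57, 6), (92, 7)]))

theorem cn1_106 : check dat1
    vN n1_106 128 256 64 96 32 48 0 32 = true := by
  decide +kernel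

def n1_107 : Tr :=
  (.q (.r (.q (.u (.l 9 [(184, 34), (13, 35)]) (.l 9 [(98, 34), (81, 35)])) (.u (.l 9 [(87, 34),
  (113, 35)]) (.l 9 [(18, 34), (155, 35)]))) (.u (.q (.l 9 [(112, 33), (55, 34)]) (.l 9 [(28, 33),
  (144, 34)])) (.l 9 [(12, 33), (137, 34)]))) (.r (.u (.l 7 [(126, 8), (24, 9)]) (.l 9 [(35, 0),
  (117, 35)])) (.u (.q (.l 9 [(123, 34), (50, 35)]) (.l 9 [(59, 34), (109, 35)])) (.l 9 [(52, 34),
  (87, 35)]))))

theorem cn1_107 : check dat1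
    vN n1_107 128 192 64 96 48 64 0 32 = true := by
  decide +kernel

def n1_108 : Tr :=
  (.q (.u (.l 7 [(98, 6), (31, 7)]) (.s (.q (.l 9 [(19, 33), (165, 34)]) (.l 9 [(112, 34), (74,
  35)])) (.q (.l 9 [(100, 33), (91, 34)]) (.l 7 [(116, 7)])))) (.l 7 [(130, 8)]))

theorem cn1_108 : check dat1
    vN n1_108 192 256 64 96 48 56 0 32 = true := by
  decide +kernel

def n1_109 : Tr :=
  (.q (.u (.q (.s (.l 9 [(55, 32), (118, 33)]) (.l 9 [(146, 32), (36, 33)])) (.s (.l 9 [(132, 33),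
  (50, 34)]) (.l 9 [(27, 32), (164, 33)]))) (.q (.s (.l 9 [(142, 33), (15, 34)]) (.l 9 [(64, 32),
  (99, 33)])) (.s (.l 9 [(66, 33), (95, 34)]) (.l 9 [(136, 33), (33, 34)])))) (.u (.s (.l 7 [(9, 8),
  (134, 9)]) (.l 7 [(136, 9)])) (.q (.s (.l 9 [(152, 34), (9, 35)]) (.l 9 [(54, 33), (117, 34)]))
  (.l 7 [(21, 8), (122, 9)]))))

theorem cn1_109 : check dat1
    vN n1_109 192 256 64 96 56 64 0 32 = true := by
  decide +kernel

def n1_110 : Tr :=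
  (.s (.q (.q (.r (.u (.l 9 [(178, 0), (61, 35)]) (.l 9 [(183, 0), (24, 1)])) (.l 9 [(75, 0), (89,
  35)])) (.r (.l 8 [(102, 31), (202, 32)]) (.l 9 [(112, 0), (37, 35)]))) (.l 8 [(241, 32), (12,
  33)])) (.r (.q (.l 7 [(11, 4), (164, 5)]) (.l 7 [(159, 7)])) (.q (.u (.u (.l 7 [(67, 5), (82, 6)])
  (.l 8 [(43, 29), (195, 30)])) (.l 8 [(112, 30), (131, 31)])) (.l 8 [(155, 31), (111, 32)]))))

theorem cn1_110 : check dat1
    vN n1_110 128 256 96 128 32 48 0 32 = true := by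
  decide +kernel

def n1_111 : Tr :=
  (.q (.s (.r (.l 8 [(5, 29), (176, 30)]) (.l 9 [(1, 33), (99, 34)])) (.r (.q (.u (.l 9 [(2, 33),
  (167, 34)]) (.l 9 [(91, 34), (46, 35)])) (.l 8 [(84, 29), (127, 30)])) (.u (.q (.l 9 [(123, 33),
  (20, 34)]) (.l 9 [(62, 33), (80, 34)])) (.l 9 [(50, 33), (64, 34)])))) (.s (.l 8 [(149, 31), (24,
  32)]) (.r (.l 8 [(214, 31), (9, 32)]) (.l 8 [(7, 29), (183, 30)]))))

theorem cn1_111 : check dat1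
    vN n1_111 128 256 96 128 48 64 0 32 = true := by
  decide +kernel

def n1_112 : Tr :=
  (.s (.u (.q (.r (.l 7 [(92, 7), (46, 8)]) (.u (.l 7 [(70, 8), (68, 9)]) (.l 8 [(131, 31), (60,
  32)]))) (.l 7 [(93, 8), (34, 9)])) (.r (.l 8 [(175, 33), (25, 34)]) (.l 8 [(32, 31), (135, 32)])))
  (.q (.u (.l 7 [(66, 8), (57, 9)]) (.r (.l 7 [(32, 7), (105, 8)]) (.l 8 [(117, 31), (93, 32)])))
  (.u (.l 7 [(72, 8), (40, 9)]) (.l 7 [(77, 8), (47, 9)]))))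

theorem cn1_112 : check dat1
    vN n1_112 128 256 64 128 32 64 32 64 = true := by
  decide +kernel

def n1_113 : Tr :=
  (.q (.u (.r (.s (.l 8 [(57, 0), (117, 1)]) (.l 8 [(171, 0)])) (.l 8 [(59, 0), (42, 1)])) (.r (.q
  (.l 8 [(142, 1), (88, 2)]) (.l 8 [(156, 1), (20, 2)])) (.l 8 [(112, 2), (4, 3)]))) (.u (.l 8 [(51,
  0), (43, 1)]) (.l 8 [(96, 1), (12, 2)])))

theorem cn1_113 : check dat1
    vN n1_113 (-256) (-128) 128 256 32 64 0 64 = true := by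
  decide +kernel

def n1_114 : Tr :=
  (.u (.q (.r (.s (.l 8 [(147, 0), (52, 35)]) (.q (.l 8 [(211, 35)]) (.l 8 [(68, 0), (116, 35)])))
  (.l 8 [(40, 34), (58, 35)])) (.l 8 [(66, 0), (40, 35)])) (.r (.q (.l 8 [(133, 0), (58, 1)]) (.l 8
  [(107, 0), (18, 1)])) (.l 8 [(71, 0), (28, 1)])))

theorem cn1_114 : check dat1
    vN n1_114 (-128) 0 128 256 32 64 0 64 = true := by
  decide +kernel

def n1_115 : Tr :=
  (.q (.s (.q (.s (.l 8 [(216, 34)]) (.r (.l 8 [(219, 33), (37, 34)]) (.l 8 [(57, 32), (144, 33)])))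
  (.l 8 [(133, 34), (53, 35)])) (.q (.s (.u (.l 8 [(7, 31), (258, 32)]) (.l 8 [(190, 32), (42,
  33)])) (.u (.r (.l 8 [(148, 31), (158, 32)]) (.l 8 [(191, 31), (51, 32)])) (.l 8 [(17, 31), (259,
  32)]))) (.s (.l 8 [(176, 33), (43, 34)]) (.l 8 [(176, 32), (64, 33)])))) (.s (.l 8 [(33, 34),
  (110, 35)]) (.q (.l 8 [(145, 33), (42, 34)]) (.l 8 [(64, 33), (95, 34)]))))

theorem cn1_115 : check dat1
    vN n1_115 0 256 128 192 32 48 0 64 = true := by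
  decide +kernel

end Pool.Agent.H768.C4.E
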