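import Mathlib
import Pool.Agent.H768.C4.N2Dat

/-! # Certificates for the weights `(1, 2)` -/

set_option autoImplicit false

namespace Pool.Agent.H768.C4.E

def n1_116 : Tr :=
  (.s (.u (.r (.l 9 [(44, 1), (11, 2)]) (.l 9 [(20, 0), (21, 1)])) (.l 9 [(25, 4), (4, 5)])) (.u (.q
  (.q (.s (.l 9 [(29, 0), (41, 35)]) (.l 8 [(114, 30), (59, 31)])) (.s (.l 9 [(48, 0), (12, 35)])
  (.l 8 [(127, 31), (62, 32)]))) (.s (.l 8 [(100, 32), (40, 33)]) (.l 8 [(36, 31), (124, 32)]))) (.q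
  (.s (.l 9 [(5, 0), (32, 1)]) (.l 8 [(98, 31), (70, 32)])) (.l 8 [(66, 32), (63, 33)]))))

theorem cn1_116 : check dat1
    vN n1_116 0 256 128 192 48 64 0 64 = true := by
  decide +kernel

def n1_117 : Tr :=
  (.s (.q (.r (.l 8 [(8, 0), (172, 35)]) (.l 8 [(92, 34), (8, 35)])) (.l 8 [(32, 0), (77, 35)])) (.q
  (.s (.r (.l 8 [(48, 33), (148, 34)]) (.l 8 [(39, 32), (88, 33)])) (.q (.r (.l 8 [(124, 32), (107,
  33)]) (.l 8 [(37, 31), (119, 32)])) (.l 8 [(161, 33), (12, 34)]))) (.l 8 [(26, 33), (98, 34)])))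

theorem cn1_117 : check dat1
    vN n1_117 0 256 192 256 32 64 0 64 = true := by
  decide +kernel

def n2_0 : Tr :=
  (.s (.q (.s (.u (.l 0 []) (.r (.l 10 []) (.u (.l 0 [(107, 11)]) (.l 10 [(117, 0), (45, 35)]))))
  (.q (.l 0 [(86, 10)]) (.l 0 [(89, 12)]))) (.s (.u (.l 0 [(100, 14)]) (.r (.l 10 []) (.q (.u (.l 0
  [(5, 13), (118, 14)]) (.l 10 [(140, 0), (44, 1)])) (.l 0 [(40, 13), (83, 14)])))) (.l 0 [(84,
  13)]))) (.l 0 [(52, 11)]))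

theorem cn2_0 : check dat2
    vN n2_0 (-256) 0 (-256) (-128) 0 64 0 32 = true := by
  decide +kernel

def n2_1 : Tr :=
  (.s (.u (.l 0 [(50, 14), (30, 15)]) (.q (.l 0 [(109, 14)]) (.l 0 [(8, 13), (89, 14)]))) (.q (.l 0
  [(61, 14)]) (.l 0 [(63, 15)])))

theorem cn2_1 : check dat2
    vN n2_1 (-256) 0 (-256) (-128) 0 64 32 64 = true := by
  decide +kernel

def n2_2 : Tr :=
  (.s (.l 0 []) (.r (.r (.u (.l 0 [(83, 22)]) (.l 10 [(49, 23), (118, 31)])) (.q (.l 0 []) (.l 0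
  [(92, 19)]))) (.u (.l 0 [(9, 23), (38, 24)]) (.l 0 [(26, 22), (6, 23)]))))

theorem cn2_2 : check dat2
    vN n2_2 0 256 (-256) (-128) 0 64 0 64 = true := by
  decide +kernel

def n2_3 : Tr :=
  (.r (.u (.l 10 [(30, 29), (70, 30)]) (.l 9 [])) (.u (.r (.l 10 [(92, 34), (16, 35)]) (.r (.l 10
  [(85, 0), (45, 35)]) (.s (.u (.l 10 [(65, 0), (78, 1)]) (.l 10 [(42, 0), (79, 1)])) (.q (.l 10
  [(141, 0), (8, 35)]) (.u (.l 0 [(110, 13)]) (.u (.l 10 [(77, 0), (82, 1)]) (.l 10 [(65, 0), (80,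
  1)]))))))) (.q (.r (.l 10 []) (.l 10 [(76, 0), (10, 35)])) (.q (.l 9 [(124, 32), (44, 33)]) (.l 9
  [(53, 33), (136, 34)])))))

theorem cn2_3 : check dat2
    vN n2_3 (-256) (-128) (-128) (-64) 0 64 0 32 = true := by
  decide +kernel

def n2_4 : Tr :=
  (.u (.l 0 [(11, 10), (32, 11)]) (.l 9 [(111, 30), (6, 31)]))

theorem cn2_4 : check dat2
    vN n2_4 (-128) 0 (-128) (-64) 0 32 0 32 = true := by
  decide +kernel

def n2_5 : Tr :=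
  (.s (.r (.l 10 [(81, 33), (34, 34)]) (.s (.u (.l 0 [(87, 10)]) (.q (.l 10 [(65, 0), (74, 35)]) (.l
  10 [(109, 0), (45, 35)]))) (.l 0 [(82, 10)]))) (.l 0 [(58, 10)]))

theorem cn2_5 : check dat2
    vN n2_5 (-128) 0 (-128) (-96) 32 64 0 16 = true := by
  decide +kernel

def n2_6 : Tr :=
  (.l 10 [(5, 31), (81, 32)])

theorem cn2_6 : check dat2
    vN n2_6 (-128) 0 (-96) (-64) 32 48 0 16 = true := by
  decide +kernel

def n2_7 : Tr :=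
  (.s (.r (.l 10 [(13, 34), (101, 35)]) (.q (.l 10 [(62, 0), (65, 35)]) (.u (.l 10 [(117, 0), (32,
  35)]) (.l 10 [(111, 0), (24, 35)])))) (.q (.s (.r (.l 0 [(50, 9), (22, 10)]) (.s (.u (.l 0 [(56,
  9), (24, 10)]) (.l 10 [(58, 0), (72, 35)])) (.l 0 [(62, 9), (15, 10)]))) (.l 0 [])) (.s (.r (.l 0
  [(74, 11)]) (.l 0 [(81, 11)])) (.l 0 [(66, 11)]))))

theorem cn2_7 : check dat2
    vN n2_7 (-128) 0 (-96) (-80) 48 64 0 16 = true := by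
  decide +kernel

def n2_8 : Tr :=
  (.s (.l 9 [(101, 31), (76, 32)]) (.r (.l 9 [(50, 30), (126, 31)]) (.q (.s (.l 9 [(163, 31), (28,
  32)]) (.l 9 [(197, 31)])) (.s (.l 9 [(130, 31), (77, 32)]) (.u (.l 0 [(73, 11)]) (.l 9 [(136, 31),
  (81, 32)]))))))

theorem cn2_8 : check dat2
    vN n2_8 (-128) 0 (-80) (-64) 48 64 0 16 = true := by
  decide +kernel

def n2_9 : Tr :=
  (.u (.l 0 [(70, 13)]) (.l 10 [(72, 33), (38, 34)]))

theorem cn2_9 : check dat2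
    vN n2_9 (-128) 0 (-128) (-64) 32 48 16 32 = true := by
  decide +kernel

def n2_10 : Tr :=
  (.u (.l 0 [(95, 13)]) (.u (.s (.q (.l 9 [(73, 31), (134, 32)]) (.l 9 [(124, 32), (111, 33)])) (.u
  (.l 0 [(46, 12), (45, 13)]) (.l 9 [(25, 31), (200, 32)]))) (.l 9 [(116, 32), (90, 33)])))

theorem cn2_10 : check dat2
    vN n2_10 (-128) (-64) (-128) (-64) 48 64 16 32 = true := by
  decide +kernel

def n2_11 : Tr :=
  (.s (.u (.l 0 [(20, 12), (58, 13)]) (.u (.l 0 [(61, 12), (19, 13)]) (.l 9 [(17, 31), (220, 32)])))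
  (.r (.l 0 [(69, 12)]) (.q (.r (.l 0 [(75, 12)]) (.q (.u (.l 0 []) (.s (.l 0 [(82, 12)]) (.l 0 [(7,
  11), (70, 12)]))) (.l 0 [(77, 12)]))) (.l 0 [(80, 13)]))))

theorem cn2_11 : check dat2
    vN n2_11 (-64) 0 (-128) (-64) 48 64 16 32 = true := by
  decide +kernel

def n2_12 : Tr :=
  (.u (.l 10 [(112, 31), (10, 32)]) (.s (.l 9 [(107, 32)]) (.l 9 [(162, 32)])))

theorem cn2_12 : check dat2
    vN n2_12 (-256) 0 (-128) (-64) 0 32 32 64 = true := by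
  decide +kernel

def n2_13 : Tr :=
  (.u (.q (.s (.u (.l 0 [(31, 13), (101, 14)]) (.l 9 [(138, 34), (58, 35)])) (.l 0 [(13, 13), (113,
  14)])) (.s (.l 9 [(128, 0), (108, 35)]) (.l 0 [(31, 13), (80, 14)]))) (.q (.q (.l 9 [(56, 34),
  (151, 35)]) (.l 9 [(36, 0), (171, 35)])) (.s (.l 9 [(139, 0), (42, 35)]) (.l 9 [(124, 0), (98,
  35)]))))

theorem cn2_13 : check dat2
    vN n2_13 (-256) (-128) (-128) (-64) 32 64 32 64 = true := by
  decide +kernel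

def n2_14 : Tr :=
  (.s (.q (.u (.l 0 [(108, 14)]) (.q (.s (.l 9 [(221, 34), (34, 35)]) (.l 9 [(81, 33), (193, 34)]))
  (.l 9 [(57, 34), (224, 35)]))) (.s (.l 0 [(37, 13), (74, 14)]) (.l 0 [(20, 13), (88, 14)]))) (.r
  (.s (.l 0 [(68, 13)]) (.l 0 [(57, 13)])) (.q (.s (.l 0 [(83, 13)]) (.l 0 [(73, 13)])) (.l 0 [(18,
  13), (77, 14)]))))

theorem cn2_14 : check dat2
    vN n2_14 (-128) 0 (-128) (-64) 32 64 32 64 = true := by
  decide +kernel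

def n2_15 : Tr :=
  (.s (.l 9 [(131, 34)]) (.q (.u (.l 9 [(90, 31), (64, 32)]) (.l 9 [(80, 32), (64, 33)])) (.s (.l 9
  [(21, 33), (162, 34)]) (.u (.q (.l 9 [(198, 32)]) (.l 9 [(172, 33), (60, 34)])) (.l 9 [(191, 34),
  (10, 35)])))))

theorem cn2_15 : check dat2
    vN n2_15 (-256) 0 (-64) 0 0 64 0 32 = true := by
  decide +kernel

def n2_16 : Tr :=
  (.s (.u (.q (.l 9 [(55, 0), (108, 35)]) (.l 9 [(100, 0), (49, 35)])) (.l 9 [(81, 0), (31, 35)]))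
  (.u (.q (.s (.l 9 [(10, 0), (208, 35)]) (.l 9 [(118, 34), (144, 35)])) (.s (.l 9 [(95, 0), (109,
  35)]) (.u (.l 9 [(78, 0), (190, 35)]) (.l 9 [(65, 0), (165, 35)])))) (.s (.l 9 [(62, 0), (91,
  35)]) (.q (.l 9 [(2, 0), (192, 35)]) (.r (.l 9 []) (.l 9 [(87, 0), (98, 35)]))))))

theorem cn2_16 : check dat2
    vN n2_16 (-256) 0 (-64) 0 0 64 32 64 = true := by
  decide +kernel

def n2_17 : Tr :=
  (.u (.r (.s (.l 0 []) (.u (.l 10 [(32, 20), (120, 29), (13, 30)]) (.s (.l 0 [(18, 28), (54, 29)])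
  (.q (.u (.l 10 [(10, 28), (151, 29)]) (.l 13 [(128, 2), (35, 11)])) (.u (.l 10 [(32, 20), (135,
  29)]) (.l 13 [(134, 2), (28, 11), (7, 12)])))))) (.q (.l 10 [(12, 20), (126, 29)]) (.l 10 [(15,
  20), (111, 29), (23, 30)]))) (.s (.l 9 [(51, 29), (85, 30)]) (.r (.l 13 [(24, 1), (110, 2), (38,
  11)]) (.q (.l 13 [(130, 2), (9, 10)]) (.l 13 [(12, 0), (135, 1), (37, 10)])))))

theorem cn2_17 : check dat2
    vN n2_17 0 256 (-128) (-64) 0 16 0 64 = true := by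
  decide +kernel

def n2_18 : Tr :=
  (.q (.s (.l 0 []) (.u (.r (.l 10 [(55, 29), (80, 30)]) (.l 0 [(16, 20), (43, 21)])) (.s (.l 0
  [(17, 28), (26, 29)]) (.q (.l 13 [(29, 0), (130, 1)]) (.l 13 [(23, 0), (156, 1)]))))) (.s (.l 0
  []) (.q (.r (.s (.l 0 [(62, 30)]) (.l 13 [(153, 1), (14, 10)])) (.r (.l 10 [(98, 30), (45, 31)])
  (.l 10 [(125, 31), (34, 32)]))) (.r (.l 10 [(181, 31)]) (.l 10 [(76, 31), (138, 32)])))))

theorem cn2_18 : check dat2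
    vN n2_18 0 256 (-128) (-64) 16 32 0 64 = true := by
  decide +kernel

def n2_19 : Tr :=
  (.q (.s (.q (.r (.l 0 []) (.q (.l 0 [(49, 9)]) (.l 0 [(50, 10)]))) (.r (.l 0 [(37, 12)]) (.l 0
  [(12, 11), (42, 12)]))) (.l 0 [])) (.s (.r (.l 0 [(38, 13)]) (.l 0 [(41, 13), (23, 14)])) (.l 0
  [(20, 13)])))

theorem cn2_19 : check dat2
    vN n2_19 0 128 (-128) (-64) 32 64 0 64 = true := by
  decide +kernel

def n2_20 : Tr :=
  (.s (.l 0 []) (.u (.r (.l 0 [(21, 21), (23, 22)]) (.l 0 [])) (.q (.l 7 [(19, 9), (47, 10)]) (.q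
  (.l 7 [(17, 12), (73, 13)]) (.l 7 [(83, 13)])))))

theorem cn2_20 : check dat2
    vN n2_20 128 256 (-128) (-64) 32 64 0 64 = true := by
  decide +kernel

def n2_21 : Tr :=
  (.s (.l 9 [(57, 29), (84, 30)]) (.r (.l 9 [(84, 20), (2, 28), (91, 29)]) (.q (.l 9 [(47, 20),
  (144, 29)]) (.l 7 [(25, 12), (132, 13)]))))

theorem cn2_21 : check dat2
    vN n2_21 0 256 (-64) 0 0 32 0 64 = true := by
  decide +kernel

def n2_22 : Tr :=
  (.s (.u (.s (.l 9 [(134, 31), (63, 32)]) (.q (.l 9 [(3, 30), (194, 31)]) (.r (.l 9 [(39, 29),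
  (134, 30)]) (.l 7 [(128, 10)])))) (.l 9 [(40, 31), (142, 32)])) (.u (.r (.l 9 [(86, 29), (92,
  30)]) (.l 7 [(109, 9)])) (.l 9 [(112, 31), (93, 32)])))

theorem cn2_22 : check dat2
    vN n2_22 0 128 (-64) 0 32 64 0 16 = true := by
  decide +kernel

def n2_23 : Tr :=
  (.r (.l 9 [(137, 30), (46, 31)]) (.u (.s (.s (.q (.l 9 [(29, 31), (211, 32)]) (.l 7 [(114, 10),
  (9, 11)])) (.l 7 [(90, 10), (31, 11)])) (.l 7 [(56, 10), (57, 11)])) (.s (.l 9 [(149, 33), (87,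
  34)]) (.l 7 [(47, 9), (78, 10)]))))

theorem cn2_23 : check dat2
    vN n2_23 0 128 (-64) 0 32 64 16 32 = true := by
  decide +kernel

def n2_24 : Tr :=
  (.q (.l 7 [(6, 8), (82, 9)]) (.l 7 [(90, 10)]))

theorem cn2_24 : check dat2
    vN n2_24 128 256 (-64) 0 32 64 0 32 = true := by
  decide +kernel

def n2_25 : Tr :=
  (.q (.r (.l 9 [(185, 31), (25, 32)]) (.u (.s (.q (.l 7 [(98, 10), (17, 11)]) (.l 7 [(96, 10), (14,
  11)])) (.l 7 [(47, 10), (56, 11)])) (.s (.l 9 [(121, 34), (115, 35)]) (.l 7 [(38, 9), (75,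
  10)])))) (.r (.l 9 [(47, 32), (207, 33)]) (.u (.s (.l 7 [(88, 10), (15, 11)]) (.l 7 [(48, 10),
  (46, 11)])) (.s (.s (.l 9 [(75, 0), (141, 35)]) (.l 7 [(44, 9), (68, 10)])) (.l 7 [(32, 9), (72,
  10)])))))

theorem cn2_25 : check dat2
    vN n2_25 0 128 (-64) 0 32 64 32 64 = true := by
  decide +kernel

def n2_26 : Tr :=
  (.q (.l 7 [(43, 10), (44, 11)]) (.u (.l 7 [(55, 11), (31, 12)]) (.l 7 [(70, 10), (21, 11)])))

theorem cn2_26 : check dat2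
    vN n2_26 128 256 (-64) 0 32 64 32 64 = true := by
  decide +kernel

def n2_27 : Tr :=
  (.s (.u (.l 9 [(85, 0), (5, 1)]) (.l 9 [(54, 0), (7, 1)])) (.u (.q (.l 9 [(99, 34), (30, 35)]) (.u
  (.r (.l 9 []) (.l 9 [(66, 0), (69, 35)])) (.l 9 [(23, 0), (88, 35)]))) (.s (.l 9 [(15, 1), (67,
  35)]) (.r (.l 9 []) (.l 9 [(38, 1), (44, 34), (29, 35)])))))

theorem cn2_27 : check dat2
    vN n2_27 (-256) 0 0 64 0 64 0 64 = true := by
  decide +kernel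

def n2_28 : Tr :=
  (.u (.s (.l 9 [(23, 0), (4, 35)]) (.r (.l 8 []) (.u (.l 9 [(35, 2), (48, 34)]) (.l 9 [(28, 2),
  (36, 34)])))) (.r (.l 8 []) (.l 9 [(10, 0), (7, 1)])))

theorem cn2_28 : check dat2
    vN n2_28 (-256) 0 64 128 0 64 0 64 = true := by
  decide +kernel

def n2_29 : Tr :=
  (.q (.l 9 [(83, 25)]) (.l 9 [(56, 27), (35, 28)]))

theorem cn2_29 : check dat2
    vN n2_29 0 256 0 128 0 32 0 64 = true := by
  decide +kernel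

def n2_30 : Tr :=
  (.s (.u (.q (.l 9 [(158, 32), (10, 33)]) (.l 9 [(83, 33), (104, 34)])) (.l 9 [(42, 33), (92,
  34)])) (.u (.q (.s (.l 9 [(80, 31), (123, 32)]) (.l 7 [(110, 8)])) (.l 7 [(69, 9), (52, 10)])) (.q
  (.l 9 [(51, 31), (122, 32)]) (.s (.l 9 [(156, 33), (22, 34)]) (.l 7 [(113, 9), (19, 10)])))))

theorem cn2_30 : check dat2
    vN n2_30 0 256 0 64 32 64 0 32 = true := by
  decide +kernel

def n2_31 : Tr :=
  (.s (.u (.s (.q (.l 9 [(3, 0), (170, 35)]) (.l 9 [(51, 0), (112, 35)])) (.q (.l 9 [(122, 34), (87,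
  35)]) (.l 7 [(74, 9), (45, 10)]))) (.s (.l 9 [(32, 0), (86, 35)]) (.q (.l 9 [(69, 34), (78, 35)])
  (.q (.l 9 [(16, 34), (126, 35)]) (.l 7 [(2, 8), (125, 9)]))))) (.q (.u (.l 7 [(63, 9), (46, 10)])
  (.s (.l 7 [(125, 9), (5, 10)]) (.l 7 [(102, 9), (16, 10)]))) (.u (.l 7 [(51, 9), (49, 10)]) (.l 7
  [(103, 9), (9, 10)]))))

theorem cn2_31 : check dat2
    vN n2_31 0 256 0 64 32 64 32 64 = true := by
  decide +kernel

def n2_32 : Tr :=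
  (.s (.q (.l 9 [(82, 34), (11, 35)]) (.u (.s (.l 9 [(17, 0), (69, 35)]) (.l 9 [(33, 34), (69,
  35)])) (.l 9 [(8, 34), (66, 35)]))) (.q (.r (.l 9 [(53, 30), (49, 31)]) (.u (.l 9 [(82, 32), (65,
  33)]) (.l 9 [(28, 32), (95, 33)]))) (.q (.s (.l 9 [(21, 33), (97, 34)]) (.q (.l 7 [(132, 9), (5,
  10)]) (.l 7 [(130, 9)]))) (.s (.l 7 [(8, 8), (125, 9)]) (.l 7 [(121, 9)])))))

theorem cn2_32 : check dat2
    vN n2_32 0 256 64 96 32 64 0 64 = true := by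
  decide +kernel

def n2_33 : Tr :=
  (.s (.q (.l 9 [(10, 33), (42, 34)]) (.l 8 [(48, 31), (69, 32)])) (.q (.l 9 [(15, 31), (65, 32)])
  (.q (.l 8 [(91, 30), (70, 31)]) (.l 8 [(105, 31), (56, 32)]))))

theorem cn2_33 : check dat2
    vN n2_33 0 256 96 128 32 64 0 64 = true := by
  decide +kernel

def n2_34 : Tr :=
  (.s (.u (.s (.l 8 [(21, 1), (16, 2)]) (.l 8 [(25, 33), (31, 34)])) (.l 8 [(58, 1), (5, 2)])) (.q
  (.s (.l 8 []) (.l 8 [(17, 29), (87, 30)])) (.s (.l 8 [(6, 31), (53, 32)]) (.u (.q (.l 8 [(94, 31),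
  (31, 32)]) (.l 8 [(58, 31), (56, 32)])) (.l 8 [(3, 31), (77, 32)])))))

theorem cn2_34 : check dat2
    vN n2_34 (-256) 256 128 256 0 64 0 64 = true := by
  decide +kernel

def n3_0 : Tr :=
  (.u (.u (.l 10 [(56, 20), (90, 29), (34, 30)]) (.u (.u (.u (.l 10 [(52, 20), (114, 29), (9, 30)])
  (.l 9 [(114, 20), (9, 21), (49, 29)])) (.l 9 [(17, 19), (106, 20), (53, 29)])) (.l 9 [(115, 19),
  (67, 28), (1, 29)]))) (.u (.u (.l 9 [(1, 16), (67, 17), (115, 26)]) (.u (.l 9 [(53, 16), (106,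
  25), (17, 26)]) (.u (.l 9 [(49, 16), (10, 24), (113, 25)]) (.l 8 [(9, 15), (114, 16), (52,
  25)])))) (.l 8 [(90, 15), (25, 16), (64, 24)])))

theorem cn3_0 : check dat3
    vN n3_0 (-256) 256 (-256) 256 0 0 0 64 = true := by
  decide +kernel

end Pool.Agent.H768.C4.E
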