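import Mathlib
import Pool.Agent.H768.C4.N2T0
import Pool.Agent.H768.C4.N2T1
import Pool.Agent.H768.C4.N2T2
import Pool.Agent.H768.C4.N2T3

/-! # Certificates for the weights `(1, 2)` -/

set_option autoImplicit false

namespace Pool.Agent.H768.C4.E

def Tn1 : Tr :=
  (.u (.s (.u n1_0 (.r (.s (.u n1_1 (.r n1_2 (.q n1_3 n1_4))) n1_5) (.u (.s (.r (.q (.u n1_6 n1_7)
  n1_8) (.q (.u (.r n1_9 (.s (.q n1_10 n1_11) (.u n1_12 (.r n1_13 n1_14)))) (.q (.s n1_15 (.r n1_16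
  n1_17)) n1_18)) n1_19)) (.u n1_20 (.r n1_21 (.r n1_22 (.q (.s (.u n1_23 n1_24) n1_25) n1_26)))))
  (.r (.s (.u n1_27 n1_28) (.u n1_29 n1_30)) (.u (.s n1_31 (.q (.s n1_32 (.q n1_33 n1_34)) n1_35))
  (.s n1_36 (.r (.q n1_37 n1_38) (.u n1_39 n1_40)))))))) (.u n1_41 (.u n1_42 (.r n1_43 (.r n1_44 (.s
  (.q (.u n1_45 (.q n1_46 n1_47)) n1_48) n1_49)))))) (.r (.u (.r (.u (.q (.s n1_50 n1_51) n1_52) (.s
  (.r n1_53 n1_54) n1_55)) (.s (.u (.s n1_56 (.r n1_57 n1_58)) (.r (.q (.s n1_59 n1_60) n1_61)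
  n1_62)) (.u n1_63 (.r n1_64 (.q (.s n1_65 n1_66) n1_67))))) (.r (.r n1_68 (.u (.s (.q (.q n1_69
  n1_70) n1_71) n1_72) (.s n1_73 n1_74))) (.s (.q (.s n1_75 n1_76) n1_77) (.q (.u (.r (.r n1_78
  n1_79) n1_80) n1_81) n1_82)))) (.u (.s (.u (.s n1_83 (.q (.u (.q n1_84 n1_85) n1_86) n1_87)) (.s
  n1_88 n1_89)) (.u (.s (.q (.q (.u (.s n1_90 n1_91) (.r n1_92 n1_93)) (.u n1_94 n1_95)) (.u n1_96
  n1_97)) (.q (.q (.u n1_98 (.r n1_99 n1_100)) n1_101) n1_102)) (.s (.q (.r n1_103 n1_104) n1_105)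
  (.q (.u (.r n1_106 (.s n1_107 (.r n1_108 n1_109))) (.r n1_110 n1_111)) n1_112)))) (.s (.s n1_113
  n1_114) (.u (.r n1_115 n1_116) n1_117)))))

theorem cTn1 : check dat1 vN Tn1 (-256) 256 (-256) 256 0 64 0 64 = true :=
  and_intro (and_intro (and_intro (cn1_0) (and_intro (and_intro (and_intro (cn1_1) (and_intro
  (cn1_2) (and_intro (cn1_3) (cn1_4)))) (cn1_5)) (and_intro (and_intro (and_intro (and_intro
  (and_intro (cn1_6) (cn1_7)) (cn1_8)) (and_intro (and_intro (and_intro (cn1_9) (and_intro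
  (and_intro (cn1_10) (cn1_11)) (and_intro (cn1_12) (and_intro (cn1_13) (cn1_14))))) (and_intro
  (and_intro (cn1_15) (and_intro (cn1_16) (cn1_17))) (cn1_18))) (cn1_19))) (and_intro (cn1_20)
  (and_intro (cn1_21) (and_intro (cn1_22) (and_intro (and_intro (and_intro (cn1_23) (cn1_24))
  (cn1_25)) (cn1_26)))))) (and_intro (and_intro (and_intro (cn1_27) (cn1_28)) (and_intro (cn1_29)
  (cn1_30))) (and_intro (and_intro (cn1_31) (and_intro (and_intro (cn1_32) (and_intro (cn1_33)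
  (cn1_34))) (cn1_35))) (and_intro (cn1_36) (and_intro (and_intro (cn1_37) (cn1_38)) (and_intro
  (cn1_39) (cn1_40))))))))) (and_intro (cn1_41) (and_intro (cn1_42) (and_intro (cn1_43) (and_intro
  (cn1_44) (and_intro (and_intro (and_intro (cn1_45) (and_intro (cn1_46) (cn1_47))) (cn1_48))
  (cn1_49))))))) (and_intro (and_intro (and_intro (and_intro (and_intro (and_intro (cn1_50)
  (cn1_51)) (cn1_52)) (and_intro (and_intro (cn1_53) (cn1_54)) (cn1_55))) (and_intro (and_intro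
  (and_intro (cn1_56) (and_intro (cn1_57) (cn1_58))) (and_intro (and_intro (and_intro (cn1_59)
  (cn1_60)) (cn1_61)) (cn1_62))) (and_intro (cn1_63) (and_intro (cn1_64) (and_intro (and_intro
  (cn1_65) (cn1_66)) (cn1_67)))))) (and_intro (and_intro (cn1_68) (and_intro (and_intro (and_intro
  (and_intro (cn1_69) (cn1_70)) (cn1_71)) (cn1_72)) (and_intro (cn1_73) (cn1_74)))) (and_intro
  (and_intro (and_intro (cn1_75) (cn1_76)) (cn1_77)) (and_intro (and_intro (and_intro (and_intro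
  (cn1_78) (cn1_79)) (cn1_80)) (cn1_81)) (cn1_82))))) (and_intro (and_intro (and_intro (and_intro
  (cn1_83) (and_intro (and_intro (and_intro (cn1_84) (cn1_85)) (cn1_86)) (cn1_87))) (and_intro
  (cn1_88) (cn1_89))) (and_intro (and_intro (and_intro (and_intro (and_intro (and_intro (cn1_90)
  (cn1_91)) (and_intro (cn1_92) (cn1_93))) (and_intro (cn1_94) (cn1_95))) (and_intro (cn1_96)
  (cn1_97))) (and_intro (and_intro (and_intro (cn1_98) (and_intro (cn1_99) (cn1_100))) (cn1_101))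
  (cn1_102))) (and_intro (and_intro (and_intro (cn1_103) (cn1_104)) (cn1_105)) (and_intro (and_intro
  (and_intro (cn1_106) (and_intro (cn1_107) (and_intro (cn1_108) (cn1_109)))) (and_intro (cn1_110)
  (cn1_111))) (cn1_112))))) (and_intro (and_intro (cn1_113) (cn1_114)) (and_intro (and_intro
  (cn1_115) (cn1_116)) (cn1_117)))))

def Tn2 : Tr :=
  (.u (.u (.s (.q n2_0 n2_1) n2_2) (.s (.u (.q (.s n2_3 (.r n2_4 (.q (.u n2_5 (.r n2_6 (.u n2_7
  n2_8))) (.r n2_9 (.s n2_10 n2_11))))) (.r n2_12 (.s n2_13 n2_14))) (.q n2_15 n2_16)) (.u (.r (.r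
  n2_17 n2_18) (.s n2_19 n2_20)) (.r n2_21 (.q (.s (.q n2_22 n2_23) n2_24) (.s n2_25 n2_26)))))) (.u
  (.s (.u n2_27 n2_28) (.r n2_29 (.u (.q n2_30 n2_31) (.u n2_32 n2_33)))) n2_34))

theorem cTn2 : check dat2 vN Tn2 (-256) 256 (-256) 256 0 64 0 64 = true :=
  and_intro (and_intro (and_intro (and_intro (cn2_0) (cn2_1)) (cn2_2)) (and_intro (and_intro
  (and_intro (and_intro (cn2_3) (and_intro (cn2_4) (and_intro (and_intro (cn2_5) (and_intro (cn2_6)
  (and_intro (cn2_7) (cn2_8)))) (and_intro (cn2_9) (and_intro (cn2_10) (cn2_11)))))) (and_intro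
  (cn2_12) (and_intro (cn2_13) (cn2_14)))) (and_intro (cn2_15) (cn2_16))) (and_intro (and_intro
  (and_intro (cn2_17) (cn2_18)) (and_intro (cn2_19) (cn2_20))) (and_intro (cn2_21) (and_intro
  (and_intro (and_intro (cn2_22) (cn2_23)) (cn2_24)) (and_intro (cn2_25) (cn2_26))))))) (and_intro
  (and_intro (and_intro (cn2_27) (cn2_28)) (and_intro (cn2_29) (and_intro (and_intro (cn2_30)
  (cn2_31)) (and_intro (cn2_32) (cn2_33))))) (cn2_34))

def Tn3 : Tr :=
  n3_0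

theorem cTn3 : check dat3 vN Tn3 (-256) 256 (-256) 256 0 0 0 64 = true :=
  cn3_0

end Pool.Agent.H768.C4.E
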