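import Mathlib
import Pool.Agent.H768.C4.Geo
import Pool.Agent.H768.C4.ClassI
import Pool.Agent.H768.C4.N2All

/-! # Lighting for the weights `(1, 2)` -/

set_option autoImplicit false

namespace Pool.Agent.H768.C4

open E

/-- the directions -/
noncomputable def DN (k : Bool) (n : ℕ) : ℂ × ℂ :=
  if k then ((52 / 100) * z8 ^ n, -z8 ^ (2 * n)) else (z8 ^ n, (65 / 100) * z8 ^ (2 * n))

/-- the admissible functionals at `p` -/
def AN (s : ℝ) (a b : ℂ) (p : ℂ × ℂ) : Prop :=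
  ‖b‖ ≤ 1 ∧ (∀ g : ℂ, ‖g‖ = 1 → (a * g).re + s * (b * g ^ 2).re ≤ 1) ∧
    (a * p.1).re + (b * p.2).re = 1 ∧ (a * p.1).im + 2 * (b * p.2).im = 0 ∧ 0 ≤ (a * p.1).re

def PN (s : ℝ) (p : ℂ × ℂ) : Prop :=
  ∃ k n, ∀ a b : ℂ, AN s a b p → 0 < (a * (DN k n).1 + b * (DN k n).2).re

theorem PN_rot {s : ℝ} {p q : ℂ} (h : PN s (z8 * p, z8 ^ 2 * q)) : PN s (p, q) := by
  obtain ⟨k, n, h⟩ := h
  refine ⟨k, n + 7, fun a b ⟨h1, h2, h3, h4, h5⟩ => ?_⟩
  simp only at h3 h4 h5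
  have e1 : a * z8 ^ 7 * (z8 * p) = a * p := by
    have : a * z8 ^ 7 * (z8 * p) = z8 ^ 8 * (a * p) := by ring
    rw [this, z8_8, one_mul]
  have e2 : b * z8 ^ 6 * (z8 ^ 2 * q) = b * q := by
    have : b * z8 ^ 6 * (z8 ^ 2 * q) = z8 ^ 8 * (b * q) := by ring
    rw [this, z8_8, one_mul]
  have := h (a * z8 ^ 7) (b * z8 ^ 6) ⟨by simpa [norm_mul, norm_pow, z8_norm] using h1, by
      intro g hg
      have h6 := h2 (z8 ^ 7 * g) (by rw [norm_mul, norm_pow, z8_norm, hg]; norm_num)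
      have e3 : a * (z8 ^ 7 * g) = a * z8 ^ 7 * g := by ring
      have e4 : b * (z8 ^ 7 * g) ^ 2 = b * z8 ^ 6 * g ^ 2 := by
        have : b * (z8 ^ 7 * g) ^ 2 = z8 ^ 8 * (b * z8 ^ 6 * g ^ 2) := by ring
        rw [this, z8_8, one_mul]
      rw [e3, e4] at h6
      exact h6, by
      simp only [e1, e2]; exact h3, by simp only [e1, e2]; exact h4, by simp only [e1]; exact h5⟩
  have e5 : a * z8 ^ 7 * (DN k n).1 = a * (DN k (n + 7)).1 := by
    cases k <;> simp only [DN, Bool.false_eq_true, if_false, if_true] <;> ring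
  have e6 : b * z8 ^ 6 * (DN k n).2 = b * (DN k (n + 7)).2 := by
    have h14 : z8 ^ (2 * (n + 7)) = z8 ^ 8 * (z8 ^ 6 * z8 ^ (2 * n)) := by ring
    cases k <;> simp only [DN, Bool.false_eq_true, if_false, if_true, h14, z8_8] <;> ring
  rw [e5, e6] at this
  exact this

theorem PN_rots {s : ℝ} (n : ℕ) : ∀ {p q : ℂ},
    PN s (z8 ^ n * p, z8 ^ (2 * n) * q) → PN s (p, q) := by
  induction n with
  | zero => intro p q h; simpa using h
  | succ n ih =>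
    intro p q h
    apply PN_rot
    apply ih
    have e1 : z8 ^ n * (z8 * p) = z8 ^ (n + 1) * p := by ring
    have e2 : z8 ^ (2 * n) * (z8 ^ 2 * q) = z8 ^ (2 * (n + 1)) * q := by ring
    rw [e1, e2]
    exact h

theorem PN_conj {s : ℝ} {p q : ℂ} (h : PN s ((starRingEnd ℂ) p, (starRingEnd ℂ) q)) :
    PN s (p, q) := by
  obtain ⟨k, n, h⟩ := h
  refine ⟨k, 7 * n, fun a b ⟨h1, h2, h3, h4, h5⟩ => ?_⟩
  simp only at h3 h4 h5
  have := h ((starRingEnd ℂ) a) ((starRingEnd ℂ) b) ⟨by rwa [Complex.norm_conj], by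
      intro g hg
      have h6 := h2 ((starRingEnd ℂ) g) (by rwa [Complex.norm_conj])
      have e1 : (starRingEnd ℂ) a * g = (starRingEnd ℂ) (a * (starRingEnd ℂ) g) := by simp
      have e2 : (starRingEnd ℂ) b * g ^ 2 = (starRingEnd ℂ) (b * ((starRingEnd ℂ) g) ^ 2) := by
        simp
      rw [e1, e2, Complex.conj_re, Complex.conj_re]
      exact h6, by
      simp only [← map_mul, Complex.conj_re]; exact h3, by
      simp only [← map_mul, Complex.conj_im]; linarith, by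
      simp only [← map_mul, Complex.conj_re]; exact h5⟩
  have e : (starRingEnd ℂ) (DN k n).1 = (DN k (7 * n)).1 ∧
      (starRingEnd ℂ) (DN k n).2 = (DN k (7 * n)).2 := by
    have e7 : 7 * (2 * n) = 2 * (7 * n) := by ring
    cases k <;> constructor <;> simp only [DN, Bool.false_eq_true, if_false, if_true, map_mul,
      map_neg, conj_z8_pow, map_div₀, map_ofNat, e7]
  rw [← e.1, ← e.2]
  have e3 : (starRingEnd ℂ) a * (DN k n).1 + (starRingEnd ℂ) b * (DN k n).2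
      = (starRingEnd ℂ) (a * (starRingEnd ℂ) (DN k n).1 + b * (starRingEnd ℂ) (DN k n).2) := by
    simp
  rw [e3, Complex.conj_re] at this
  exact this

theorem PN_scale {s : ℝ} {p q : ℂ} {c : ℝ} (hc0 : 0 < c) (hc1 : c ≤ 1) (h : PN s (p, q)) :
    PN s ((c : ℂ) * p, (c : ℂ) * q) := by
  obtain ⟨k, n, h⟩ := h
  refine ⟨k, n, fun a b ⟨h1, h2, h3, h4, h5⟩ => ?_⟩
  simp only at h3 h4 h5
  have hn : ‖(c : ℂ)‖ = c := by
    rw [Complex.norm_real, Real.norm_of_nonneg hc0.le]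
  have e1 : (c : ℂ) * a * p = a * (c * p) := by ring
  have e2 : (c : ℂ) * b * q = b * (c * q) := by ring
  have := h (c * a) (c * b) ⟨by rw [norm_mul, hn]; nlinarith [norm_nonneg b], by
      intro g hg
      have h6 := h2 g hg
      have e3 : ((c : ℂ) * a * g).re = c * (a * g).re := by
        rw [mul_assoc, Complex.re_ofReal_mul]
      have e4 : ((c : ℂ) * b * g ^ 2).re = c * (b * g ^ 2).re := by
        rw [mul_assoc, Complex.re_ofReal_mul]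
      rw [e3, e4]
      nlinarith, by simp only [e1, e2]; exact h3, by simp only [e1, e2]; exact h4,
      by simp only [e1]; exact h5⟩
  have e : (c : ℂ) * a * (DN k n).1 + (c : ℂ) * b * (DN k n).2
      = (c : ℂ) * (a * (DN k n).1 + b * (DN k n).2) := by ring
  rw [e, Complex.re_ofReal_mul] at this
  exact (mul_pos_iff_of_pos_left hc0).1 this

theorem gt_norm (n : ℕ) : (gt n).1 * (gt n).1 + (gt n).2 * (gt n).2 = 4225 := by
  unfold gt
  split <;> norm_num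

theorem mP_le {s : ℝ} {a b : ℂ}
    (hW : ∀ g : ℂ, ‖g‖ = 1 → (a * g).re + s * (b * g ^ 2).re ≤ 1) (m : List (ℤ × ℕ)) :
    (a * ⟨(mP m).1, (mP m).2.1⟩).re + s * (b * ⟨(mP m).2.2.1, (mP m).2.2.2.1⟩).re
      ≤ (mP m).2.2.2.2 - 4 := by
  induction m with
  | nil => simp [mP]
  | cons x m ih =>
    obtain ⟨l, j⟩ := x
    have hg := gt_norm j
    set g := gt j with hgd
    have hgr : (g.1 : ℝ) * g.1 + (g.2 : ℝ) * g.2 = 4225 := by exact_mod_cast hg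
    have h1 := hW ⟨g.1 / 65, g.2 / 65⟩ (by
      rw [Complex.norm_eq_sqrt_sq_add_sq]
      simp only
      have : ((g.1 : ℝ) / 65) ^ 2 + ((g.2 : ℝ) / 65) ^ 2 = 1 := by nlinarith
      rw [this, Real.sqrt_one])
    have hl : (0 : ℝ) ≤ ((l.toNat : ℤ) : ℝ) := by positivity
    simp only [mP, ← hgd]
    set n : ℝ := ((l.toNat : ℤ) : ℝ) with hn
    simp only [Complex.mul_re, Complex.mul_im, sq] at h1 ih ⊢
    push_cast
    rw [show ((l.toNat : ℕ) : ℝ) = n by rw [hn]; push_cast; rfl]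
    have h2 := mul_le_mul_of_nonneg_left h1 (show (0 : ℝ) ≤ 4225 * n by positivity)
    nlinarith

theorem sqrt2_lo : (1.41421356 : ℝ) < √2 := by
  rw [Real.lt_sqrt (by norm_num)]; norm_num

theorem sqrt2_hi : √2 < (1.41421357 : ℝ) := by
  rw [Real.sqrt_lt' (by norm_num)]; norm_num

theorem dir2_DN (k : ℕ) : ∃ (κ : Bool) (n : ℕ), ∀ a b : ℂ, |a.re| ≤ 2 → |a.im| ≤ 2 →
    4 < (a * ⟨(dir2 k).1, (dir2 k).2.1⟩).re + (b * ⟨(dir2 k).2.2.1, (dir2 k).2.2.2⟩).re →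
    0 < (a * (DN κ n).1 + b * (DN κ n).2).re := by
  -- even powers
  have hev : ∀ j, z8 ^ (2 * j) = ⟨((zt (2 * j)).1 : ℝ), ((zt (2 * j)).2 : ℝ)⟩ := by
    intro j
    obtain ⟨c, hc, e1, -, e2⟩ := zt_z8 (2 * j)
    rw [if_pos (by omega)] at e2
    rw [e2] at e1
    simpa using e1
  have hbd : ∀ j, |((zt j).1 : ℝ)| ≤ 1 ∧ |((zt j).2 : ℝ)| ≤ 1 := by
    intro j
    have zper : ∀ m n, zt (n + 8 * m) = zt n := by
      intro m
      induction m with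
      | zero => intro n; rfl
      | succ m ih =>
        intro n
        have : n + 8 * (m + 1) = (n + 8 * m) + 8 := by ring
        rw [this]
        show zt (n + 8 * m) = zt n
        exact ih n
    have h1 : j = j % 8 + 8 * (j / 8) := by omega
    have h3 : zt j = zt (j % 8) := by
      conv_lhs => rw [h1]
      exact zper _ _
    rw [h3]
    have := Nat.mod_lt j (show 0 < 8 by norm_num)
    interval_cases (j % 8) <;> constructor <;> norm_num [zt]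
  -- the slow component: `c₀ z8 ^ j` against `c (zt j)`
  have hslow : ∀ j (c0 : ℝ) (c1 : ℤ), |c0 * (√2 / 2) - c1| ≤ 1 / 2 → ∀ a : ℂ, |a.re| ≤ 2 →
      |a.im| ≤ 2 → j % 2 = 1 →
      (a * ⟨((c1 * (zt j).1 : ℤ) : ℝ), ((c1 * (zt j).2 : ℤ) : ℝ)⟩).re - 2
        ≤ c0 * (a * z8 ^ j).re := by
    intro j c0 c1 hc a ha1 ha2 hj
    obtain ⟨c, hc', e1, -, e2⟩ := zt_z8 j
    rw [if_neg (by omega)] at e2
    have e3 : z8 ^ j = ((√2 / 2 : ℝ) : ℂ) * ⟨((zt j).1 : ℝ), ((zt j).2 : ℝ)⟩ := by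
      rw [← e1, e2, ← mul_assoc, ← Complex.ofReal_mul]
      have : √2 / 2 * √2 = 1 := by nlinarith [s22]
      rw [this, Complex.ofReal_one, one_mul]
    rw [e3]
    have e4 : (a * (((√2 / 2 : ℝ) : ℂ) * ⟨((zt j).1 : ℝ), ((zt j).2 : ℝ)⟩)).re
        = √2 / 2 * (a.re * (zt j).1 - a.im * (zt j).2) := by
      rw [show a * (((√2 / 2 : ℝ) : ℂ) * ⟨((zt j).1 : ℝ), ((zt j).2 : ℝ)⟩)
        = ((√2 / 2 : ℝ) : ℂ) * (a * ⟨((zt j).1 : ℝ), ((zt j).2 : ℝ)⟩) by ring,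
        Complex.re_ofReal_mul, Complex.mul_re]
    rw [e4, Complex.mul_re]
    push_cast
    obtain ⟨b1, b2⟩ := hbd j
    have h5 : |a.re * (zt j).1 - a.im * (zt j).2| ≤ 4 := by
      have h6 : |a.re * ((zt j).1 : ℝ)| ≤ 2 := by
        rw [abs_mul]; nlinarith [abs_nonneg a.re, abs_nonneg ((zt j).1 : ℝ)]
      have h7 : |a.im * ((zt j).2 : ℝ)| ≤ 2 := by
        rw [abs_mul]; nlinarith [abs_nonneg a.im, abs_nonneg ((zt j).2 : ℝ)]
      calc |a.re * ((zt j).1 : ℝ) - a.im * (zt j).2|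
          ≤ |a.re * ((zt j).1 : ℝ)| + |a.im * ((zt j).2 : ℝ)| := abs_sub _ _
        _ ≤ 4 := by linarith
    have h8 : |(c0 * (√2 / 2) - c1) * (a.re * (zt j).1 - a.im * (zt j).2)| ≤ 2 := by
      rw [abs_mul]
      nlinarith [abs_nonneg (c0 * (√2 / 2) - c1),
        abs_nonneg (a.re * ((zt j).1 : ℝ) - a.im * (zt j).2)]
    have h9 := (abs_le.1 h8).1
    nlinarith
  have hslow0 : ∀ j (c1 : ℤ), j % 2 = 0 → ∀ a : ℂ,
      (a * ⟨((c1 * (zt j).1 : ℤ) : ℝ), ((c1 * (zt j).2 : ℤ) : ℝ)⟩).re = c1 * (a * z8 ^ j).re := by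
    intro j c1 hj a
    have : z8 ^ j = ⟨((zt j).1 : ℝ), ((zt j).2 : ℝ)⟩ := by
      have h1 : j = 2 * (j / 2) := by omega
      rw [h1]; exact hev _
    rw [this, Complex.mul_re, Complex.mul_re]
    push_cast; ring
  by_cases hk : k < 8
  · refine ⟨false, k, fun a b ha1 ha2 h => ?_⟩
    simp only [dir2, hk, if_true] at h
    simp only [DN, Bool.false_eq_true, if_false, Complex.add_re]
    have hb : (b * (65 / 100 * z8 ^ (2 * k))).re = 65 / 100 * (b * z8 ^ (2 * k)).re := by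
      rw [show b * (65 / 100 * z8 ^ (2 * k)) = ((65 / 100 : ℝ) : ℂ) * (b * z8 ^ (2 * k)) by
        push_cast; ring, Complex.re_ofReal_mul]
    have hb2 : (b * ⟨((703040 * (zt (2 * k)).1 : ℤ) : ℝ), ((703040 * (zt (2 * k)).2 : ℤ) : ℝ)⟩).re
        = 703040 * (b * z8 ^ (2 * k)).re := by
      have := hslow0 (2 * k) 703040 (by omega) b
      push_cast at this ⊢
      exact this
    rw [hb2] at h
    rw [hb]
    rcases Nat.mod_two_eq_zero_or_one k with hp | hp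
    · rw [if_pos hp] at h
      rw [hslow0 k 1081600 hp a] at h
      push_cast at h
      linarith
    · rw [if_neg (by omega)] at h
      have := hslow k 1081600 764807 (by
        push_cast
        rw [abs_le]
        constructor <;> linarith [sqrt2_lo, sqrt2_hi]) a ha1 ha2 hp
      linarith
  · refine ⟨true, k - 8, fun a b ha1 ha2 h => ?_⟩
    simp only [dir2, hk, if_false] at h
    set j := k - 8
    simp only [DN, if_true, Complex.add_re]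
    have hb : (b * (-z8 ^ (2 * j))).re = -(b * z8 ^ (2 * j)).re := by
      rw [mul_neg, Complex.neg_re]
    have ha : (a * (52 / 100 * z8 ^ j)).re = 52 / 100 * (a * z8 ^ j).re := by
      rw [show a * (52 / 100 * z8 ^ j) = ((52 / 100 : ℝ) : ℂ) * (a * z8 ^ j) by
        push_cast; ring, Complex.re_ofReal_mul]
    have hb2 : (b * ⟨((-1081600 * (zt (2 * j)).1 : ℤ) : ℝ),
        ((-1081600 * (zt (2 * j)).2 : ℤ) : ℝ)⟩).re = -1081600 * (b * z8 ^ (2 * j)).re := by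
      have := hslow0 (2 * j) (-1081600) (by omega) b
      push_cast at this ⊢
      exact this
    rw [hb2] at h
    rw [hb, ha]
    rcases Nat.mod_two_eq_zero_or_one j with hp | hp
    · rw [if_pos hp] at h
      rw [hslow0 j 562432 hp a] at h
      push_cast at h
      linarith
    · rw [if_neg (by omega)] at h
      have := hslow j 562432 397699 (by
        push_cast
        rw [abs_le]
        constructor <;> linarith [sqrt2_lo, sqrt2_hi]) a ha1 ha2 hp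
      linarith

/-- the value computed by the certificates -/
noncomputable def Vn (w : ℤ × ℤ × ℤ × ℤ) (p : ℤ × ℤ × ℤ × ℤ × ℤ) (q : ℝ) (a b : ℂ) : ℝ :=
  (a * ⟨w.1 + p.1, w.2.1 + p.2.1⟩).re + (b * ⟨w.2.2.1 + q * p.2.2.1, w.2.2.2 + q * p.2.2.2.1⟩).re
    - p.2.2.2.2

theorem Vn_light {s : ℝ} (hs0 : 0 ≤ s) (hs1 : s ≤ 1) (k : ℕ) : ∃ (κ : Bool) (n : ℕ), ∀ a b : ℂ,
    ‖b‖ ≤ 1 → (∀ g : ℂ, ‖g‖ = 1 → (a * g).re + s * (b * g ^ 2).re ≤ 1) →
    ∀ m, 0 < Vn (dir2 k) (mP m) s a b → 0 < (a * (DN κ n).1 + b * (DN κ n).2).re := by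
  obtain ⟨κ, n, h⟩ := dir2_DN k
  refine ⟨κ, n, fun a b hb hW m hV => ?_⟩
  have ha : ‖a‖ ≤ 1 + s := by
    apply norm_le_of_re
    intro g hg
    have h1 := hW g hg
    have h2 : |(b * g ^ 2).re| ≤ 1 := by
      refine (Complex.abs_re_le_norm _).trans ?_
      rw [norm_mul, norm_pow, hg]; simpa using hb
    nlinarith [(abs_le.1 h2).1]
  apply h a b ((Complex.abs_re_le_norm a).trans (by linarith))
    ((Complex.abs_im_le_norm a).trans (by linarith))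
  have := mP_le hW m
  simp only [Vn, Complex.mul_re] at hV this ⊢
  nlinarith

theorem pol8_in {x y : ℝ} (h : x ^ 2 + y ^ 2 ≤ 1) : InPoly pol8 (70 * x) (70 * y) := by
  have h' : x ^ 2 + |y| ^ 2 ≤ 1 := by rw [sq_abs]; exact h
  have h0 := abs_nonneg y
  have h1 : x + |y| ≤ 99 / 70 := by nlinarith [sq_nonneg (x - |y|)]
  have h2 : -x + |y| ≤ 99 / 70 := by nlinarith [sq_nonneg (x + |y|)]
  have h3 : |y| ≤ 1 := by nlinarith
  have h4 : x ≤ 1 := by nlinarith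
  have h5 : -1 ≤ x := by nlinarith
  simp only [pol8, InPoly]
  push_cast
  rw [abs_mul, abs_of_pos (by norm_num : (0 : ℝ) < 70)]
  rcases le_total (70 * x) (-29) with g | g
  · left
    refine ⟨by norm_num, by linarith, by linarith, by linarith⟩
  · right
    rcases le_total (70 * x) 29 with g' | g'
    · left
      refine ⟨by norm_num, by linarith, by linarith, by linarith⟩
    · right; left
      refine ⟨by norm_num, by linarith, by linarith, by linarith⟩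

theorem pol6_in {x y : ℝ} (hx : 0 ≤ x) (h : x ^ 2 + y ^ 2 ≤ 1) : InPoly pol6 (70 * x) (70 * y) := by
  have h' : x ^ 2 + |y| ^ 2 ≤ 1 := by rw [sq_abs]; exact h
  have h0 := abs_nonneg y
  have h1 : x + |y| ≤ 99 / 70 := by nlinarith [sq_nonneg (x - |y|)]
  have h3 : |y| ≤ 1 := by nlinarith
  have h4 : x ≤ 1 := by nlinarith
  simp only [pol6, InPoly]
  push_cast
  rw [abs_mul, abs_of_pos (by norm_num : (0 : ℝ) < 70)]
  rcases le_total (70 * x) 29 with g | g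
  · left
    refine ⟨by norm_num, by linarith, by linarith, by linarith⟩
  · right; left
    refine ⟨by norm_num, by linarith, by linarith, by linarith⟩

/-- first family -/
theorem N2_f1 {E S F G r s : ℝ} (hes : E ^ 2 + S ^ 2 = 1) (hfg : F ^ 2 + G ^ 2 = 1)
    (hE : 0 ≤ E) (hS1 : S ≤ 5 / 12 * E) (hS2 : -S ≤ 5 / 12 * E) (hG : 0 ≤ G) (hr0 : 0 ≤ r)
    (hr1 : r ≤ 1) (hs0 : 0 ≤ s) (hs1 : s ≤ 1) : ∃ (κ : Bool) (n : ℕ), ∀ A B : ℂ,
    ‖B‖ ≤ 1 → A.re = 1 - r * B.re → A.im = -(2 * (r * B.im)) →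
    (∀ g : ℂ, ‖g‖ = 1 → (A * (⟨E, S⟩ : ℂ) * g).re + s * (B * (⟨F, G⟩ : ℂ) * g ^ 2).re ≤ 1) →
    0 < (A * (⟨E, S⟩ : ℂ) * (DN κ n).1 + B * (⟨F, G⟩ : ℂ) * (DN κ n).2).re := by
  rcases cert cTn1 hes hfg hE hS1 hS2 hG (r := r) (q := s) (by push_cast; linarith)
    (by push_cast; linarith) (by push_cast; linarith) (by push_cast; linarith) with
    ⟨k, m, q2, -, -, h⟩ | ⟨_, _, _, _, h1, -⟩
  swap
  · exact absurd h1 (by simp [vN])
  obtain ⟨κ, n, hV⟩ := Vn_light hs0 hs1 k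
  refine ⟨κ, n, fun A B hB hA1 hA2 hW => ?_⟩
  have hFG : ‖(⟨F, G⟩ : ℂ)‖ = 1 := by
    rw [Complex.norm_eq_sqrt_sq_add_sq]; simp only; rw [hfg, Real.sqrt_one]
  have hB2 : B.re ^ 2 + B.im ^ 2 ≤ 1 := by
    have : ‖B‖ ^ 2 ≤ 1 := by nlinarith [norm_nonneg B]
    rw [← Complex.normSq_eq_norm_sq, Complex.normSq_apply] at this
    nlinarith
  refine hV _ _ (by rw [norm_mul, hFG, mul_one]; exact hB) hW m ?_
  set w := dir2 k with hw
  set p := mP m with hp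
  obtain ⟨P, hP⟩ : ∃ P : ℝ, P = (w.1 + p.1 : ℝ) := ⟨_, rfl⟩
  obtain ⟨Q, hQ⟩ : ∃ Q : ℝ, Q = (w.2.1 + p.2.1 : ℝ) := ⟨_, rfl⟩
  obtain ⟨W3, hW3⟩ : ∃ Q : ℝ, Q = (w.2.2.1 + s * p.2.2.1 : ℝ) := ⟨_, rfl⟩
  obtain ⟨W4, hW4⟩ : ∃ Q : ℝ, Q = (w.2.2.2 + s * p.2.2.2.1 : ℝ) := ⟨_, rfl⟩
  have hval : ∀ x h : ℤ, (cvN w p (al1 x h)).X1.re r s * E - (cvN w p (al1 x h)).Y1.re r s * S
        + (cvN w p (al1 x h)).X2.re r s * F - (cvN w p (al1 x h)).Y2.re r s * G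
        - (cvN w p (al1 x h)).K.re r s
        = (70 * (P * E - Q * S) - 70 * p.2.2.2.2)
          + (-r * (P * E - Q * S) + (W3 * F - W4 * G)) * x
          + (2 * r * (Q * E + P * S) - (W4 * F + W3 * G)) * h := by
    intro x h
    simp only [cvN, al1, Q4.re, hP, hQ, hW3, hW4]
    push_cast
    ring
  have hc : ∀ c ∈ pol8, 0 < (70 * (P * E - Q * S) - 70 * p.2.2.2.2)
          + (-r * (P * E - Q * S) + (W3 * F - W4 * G)) * c.1
          + (2 * r * (Q * E + P * S) - (W4 * F + W3 * G)) * c.2 ∧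
      0 < (70 * (P * E - Q * S) - 70 * p.2.2.2.2)
          + (-r * (P * E - Q * S) + (W3 * F - W4 * G)) * c.1
          - (2 * r * (Q * E + P * S) - (W4 * F + W3 * G)) * c.2 := by
    intro c hc
    have h1 := h (cvN w p (al1 c.1 c.2)) (by
      simp only [dat1, List.mem_flatMap]
      exact ⟨c, hc, by simp [hw, hp]⟩)
    have h2 := h (cvN w p (al1 c.1 (-c.2))) (by
      simp only [dat1, List.mem_flatMap]
      exact ⟨c, hc, by simp [hw, hp]⟩)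
    rw [hval] at h1 h2
    refine ⟨h1, ?_⟩
    push_cast at h2
    linarith
  have := InPoly.pos hc (pol8_in hB2)
  have e : Vn w p s (A * ⟨E, S⟩) (B * ⟨F, G⟩) * 70 = (70 * (P * E - Q * S) - 70 * p.2.2.2.2)
          + (-r * (P * E - Q * S) + (W3 * F - W4 * G)) * (70 * B.re)
          + (2 * r * (Q * E + P * S) - (W4 * F + W3 * G)) * (70 * B.im) := by
    simp only [Vn, Complex.mul_re, Complex.mul_im, hA1, hA2, ← hP, ← hQ, ← hW3, ← hW4]
    ring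
  rw [← e] at this
  exact (mul_pos_iff_of_pos_right (by norm_num)).1 this

/-- second family -/
theorem N2_f2 {E S F G r s : ℝ} (hes : E ^ 2 + S ^ 2 = 1) (hfg : F ^ 2 + G ^ 2 = 1)
    (hE : 0 ≤ E) (hS1 : S ≤ 5 / 12 * E) (hS2 : -S ≤ 5 / 12 * E) (hG : 0 ≤ G) (hr0 : 0 ≤ r)
    (hr1 : r ≤ 1) (hs0 : 0 ≤ s) (hs1 : s ≤ 1) : ∃ (κ : Bool) (n : ℕ), ∀ A B : ℂ,
    ‖A‖ ≤ 1 + s → 0 ≤ A.re → ‖B‖ ≤ 1 → B.re = 1 - r * A.re → B.im = -(1 / 2 * (r * A.im)) →
    (∀ g : ℂ, ‖g‖ = 1 → (A * (⟨E, S⟩ : ℂ) * g).re + s * (B * (⟨F, G⟩ : ℂ) * g ^ 2).re ≤ 1) →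
    0 < (A * (⟨E, S⟩ : ℂ) * (DN κ n).1 + B * (⟨F, G⟩ : ℂ) * (DN κ n).2).re := by
  rcases cert cTn2 hes hfg hE hS1 hS2 hG (r := r) (q := s) (by push_cast; linarith)
    (by push_cast; linarith) (by push_cast; linarith) (by push_cast; linarith) with
    ⟨k, m, q2, hq2, -, h⟩ | ⟨_, _, _, _, h1, -⟩
  swap
  · exact absurd h1 (by simp [vN])
  obtain ⟨κ, n, hV⟩ := Vn_light hs0 hs1 k
  refine ⟨κ, n, fun A B hA hA0 hB hB1 hB2 hW => ?_⟩
  have hFG : ‖(⟨F, G⟩ : ℂ)‖ = 1 := by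
    rw [Complex.norm_eq_sqrt_sq_add_sq]; simp only; rw [hfg, Real.sqrt_one]
  have hA2 : A.re ^ 2 + A.im ^ 2 ≤ (1 + s) ^ 2 := by
    have : ‖A‖ ^ 2 ≤ (1 + s) ^ 2 := by nlinarith [norm_nonneg A]
    rw [← Complex.normSq_eq_norm_sq, Complex.normSq_apply] at this
    nlinarith
  refine hV _ _ (by rw [norm_mul, hFG, mul_one]; exact hB) hW m ?_
  obtain ⟨ρ, hρ⟩ : ∃ ρ : ℝ, ρ = (64 + q2) / 64 := ⟨_, rfl⟩
  have hρ1 : 1 + s ≤ ρ := by rw [hρ]; linarith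
  have hρ0 : 0 < ρ := by linarith
  set w := dir2 k with hw
  set p := mP m with hp
  obtain ⟨P, hP⟩ : ∃ P : ℝ, P = (w.1 + p.1 : ℝ) := ⟨_, rfl⟩
  obtain ⟨Q, hQ⟩ : ∃ Q : ℝ, Q = (w.2.1 + p.2.1 : ℝ) := ⟨_, rfl⟩
  obtain ⟨W3, hW3⟩ : ∃ Q : ℝ, Q = (w.2.2.1 + s * p.2.2.1 : ℝ) := ⟨_, rfl⟩
  obtain ⟨W4, hW4⟩ : ∃ Q : ℝ, Q = (w.2.2.2 + s * p.2.2.2.1 : ℝ) := ⟨_, rfl⟩
  have hval : ∀ x h : ℤ, (cvN w p (al2 x h q2)).X1.re r s * E
        - (cvN w p (al2 x h q2)).Y1.re r s * S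
        + (cvN w p (al2 x h q2)).X2.re r s * F - (cvN w p (al2 x h q2)).Y2.re r s * G
        - (cvN w p (al2 x h q2)).K.re r s
        = (8960 * (W3 * F - W4 * G) - 8960 * p.2.2.2.2)
          + (64 * ρ * (2 * (P * E - Q * S) - 2 * r * (W3 * F - W4 * G))) * x
          + (64 * ρ * (-2 * (Q * E + P * S) + r * (W4 * F + W3 * G))) * h := by
    intro x h
    simp only [cvN, al2, Q4.re, hP, hQ, hW3, hW4, hρ]
    push_cast
    ring
  have hc : ∀ c ∈ pol6, 0 < (8960 * (W3 * F - W4 * G) - 8960 * p.2.2.2.2)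
          + (64 * ρ * (2 * (P * E - Q * S) - 2 * r * (W3 * F - W4 * G))) * c.1
          + (64 * ρ * (-2 * (Q * E + P * S) + r * (W4 * F + W3 * G))) * c.2 ∧
      0 < (8960 * (W3 * F - W4 * G) - 8960 * p.2.2.2.2)
          + (64 * ρ * (2 * (P * E - Q * S) - 2 * r * (W3 * F - W4 * G))) * c.1
          - (64 * ρ * (-2 * (Q * E + P * S) + r * (W4 * F + W3 * G))) * c.2 := by
    intro c hc
    have h1 := h (cvN w p (al2 c.1 c.2 q2)) (by
      simp only [dat2, List.mem_flatMap]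
      exact ⟨c, hc, by simp [hw, hp]⟩)
    have h2 := h (cvN w p (al2 c.1 (-c.2) q2)) (by
      simp only [dat2, List.mem_flatMap]
      exact ⟨c, hc, by simp [hw, hp]⟩)
    rw [hval] at h1 h2
    refine ⟨h1, ?_⟩
    push_cast at h2
    linarith
  have hin : InPoly pol6 (70 * (A.re / ρ)) (70 * (A.im / ρ)) := by
    apply pol6_in (div_nonneg hA0 hρ0.le)
    rw [div_pow, div_pow, ← add_div, div_le_one (by positivity)]
    nlinarith
  have := InPoly.pos hc hin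
  have e : Vn w p s (A * ⟨E, S⟩) (B * ⟨F, G⟩) * 8960 = (8960 * (W3 * F - W4 * G)
      - 8960 * p.2.2.2.2)
          + (64 * ρ * (2 * (P * E - Q * S) - 2 * r * (W3 * F - W4 * G))) * (70 * (A.re / ρ))
          + (64 * ρ * (-2 * (Q * E + P * S) + r * (W4 * F + W3 * G))) * (70 * (A.im / ρ)) := by
    simp only [Vn, Complex.mul_re, Complex.mul_im, hB1, hB2, ← hP, ← hQ, ← hW3, ← hW4]
    field_simp
    ring
  rw [← e] at this
  exact (mul_pos_iff_of_pos_right (by norm_num)).1 this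

/-- third family -/
theorem N2_f3 {F G s : ℝ} (hfg : F ^ 2 + G ^ 2 = 1) (hG : 0 ≤ G)
    (hs0 : 0 ≤ s) (hs1 : s ≤ 1) : ∃ (κ : Bool) (n : ℕ), ∀ A : ℂ,
    ‖A‖ ≤ 1 + s →
    (∀ g : ℂ, ‖g‖ = 1 → (A * g).re + s * ((⟨F, G⟩ : ℂ) * g ^ 2).re ≤ 1) →
    0 < (A * (DN κ n).1 + ⟨F, G⟩ * (DN κ n).2).re := by
  rcases cert cTn3 (E := 1) (S := 0) (by norm_num) hfg (by norm_num) (by norm_num) (by norm_num) hG
    (r := 0) (q := s) (by push_cast; linarith)
    (by push_cast; linarith) (by push_cast; linarith) (by push_cast; linarith) with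
    ⟨k, m, q2, hq2, -, h⟩ | ⟨_, _, _, _, h1, -⟩
  swap
  · exact absurd h1 (by simp [vN])
  obtain ⟨κ, n, hV⟩ := Vn_light hs0 hs1 k
  refine ⟨κ, n, fun A hA hW => ?_⟩
  have hFG : ‖(⟨F, G⟩ : ℂ)‖ = 1 := by
    rw [Complex.norm_eq_sqrt_sq_add_sq]; simp only; rw [hfg, Real.sqrt_one]
  have hA2 : A.re ^ 2 + A.im ^ 2 ≤ (1 + s) ^ 2 := by
    have : ‖A‖ ^ 2 ≤ (1 + s) ^ 2 := by nlinarith [norm_nonneg A]
    rw [← Complex.normSq_eq_norm_sq, Complex.normSq_apply] at this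
    nlinarith
  refine hV _ _ (by rw [hFG]) hW m ?_
  obtain ⟨ρ, hρ⟩ : ∃ ρ : ℝ, ρ = (64 + q2) / 64 := ⟨_, rfl⟩
  have hρ1 : 1 + s ≤ ρ := by rw [hρ]; linarith
  have hρ0 : 0 < ρ := by linarith
  set w := dir2 k with hw
  set p := mP m with hp
  obtain ⟨P, hP⟩ : ∃ P : ℝ, P = (w.1 + p.1 : ℝ) := ⟨_, rfl⟩
  obtain ⟨Q, hQ⟩ : ∃ Q : ℝ, Q = (w.2.1 + p.2.1 : ℝ) := ⟨_, rfl⟩
  obtain ⟨W3, hW3⟩ : ∃ Q : ℝ, Q = (w.2.2.1 + s * p.2.2.1 : ℝ) := ⟨_, rfl⟩
  obtain ⟨W4, hW4⟩ : ∃ Q : ℝ, Q = (w.2.2.2 + s * p.2.2.2.1 : ℝ) := ⟨_, rfl⟩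
  have hval : ∀ x h : ℤ, (cvN w p (al3 x h q2)).X1.re 0 s * 1
        - (cvN w p (al3 x h q2)).Y1.re 0 s * 0
        + (cvN w p (al3 x h q2)).X2.re 0 s * F - (cvN w p (al3 x h q2)).Y2.re 0 s * G
        - (cvN w p (al3 x h q2)).K.re 0 s
        = (4480 * (W3 * F - W4 * G) - 4480 * p.2.2.2.2)
          + (64 * ρ * P) * x + (64 * ρ * (-Q)) * h := by
    intro x h
    simp only [cvN, al3, Q4.re, hP, hQ, hW3, hW4, hρ]
    push_cast
    ring
  have hc : ∀ c ∈ pol8, 0 < (4480 * (W3 * F - W4 * G) - 4480 * p.2.2.2.2)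
          + (64 * ρ * P) * c.1 + (64 * ρ * (-Q)) * c.2 ∧
      0 < (4480 * (W3 * F - W4 * G) - 4480 * p.2.2.2.2)
          + (64 * ρ * P) * c.1 - (64 * ρ * (-Q)) * c.2 := by
    intro c hc
    have h1 := h (cvN w p (al3 c.1 c.2 q2)) (by
      simp only [dat3, List.mem_flatMap]
      exact ⟨c, hc, by simp [hw, hp]⟩)
    have h2 := h (cvN w p (al3 c.1 (-c.2) q2)) (by
      simp only [dat3, List.mem_flatMap]
      exact ⟨c, hc, by simp [hw, hp]⟩)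
    rw [hval] at h1 h2
    refine ⟨h1, ?_⟩
    push_cast at h2
    linarith
  have hin : InPoly pol8 (70 * (A.re / ρ)) (70 * (A.im / ρ)) := by
    apply pol8_in
    rw [div_pow, div_pow, ← add_div, div_le_one (by positivity)]
    nlinarith
  have := InPoly.pos hc hin
  have e : Vn w p s A ⟨F, G⟩ * 4480 = (4480 * (W3 * F - W4 * G) - 4480 * p.2.2.2.2)
          + (64 * ρ * P) * (70 * (A.re / ρ)) + (64 * ρ * (-Q)) * (70 * (A.im / ρ)) := by
    simp only [Vn, Complex.mul_re, ← hP, ← hQ, ← hW3, ← hW4]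
    field_simp
    ring
  rw [← e] at this
  exact (mul_pos_iff_of_pos_right (by norm_num)).1 this

end Pool.Agent.H768.C4
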