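import Mathlib
import Pool.Agent.H768.C4.N2Light

/-! # Every nonzero point of the bidisc is lit, weights `(1, 2)` -/

set_option autoImplicit false

namespace Pool.Agent.H768.C4

theorem unit_parts {z : ℂ} (hz : ‖z‖ = 1) : z.re ^ 2 + z.im ^ 2 = 1 := by
  have : ‖z‖ ^ 2 = 1 := by rw [hz]; norm_num
  rw [← Complex.normSq_eq_norm_sq, Complex.normSq_apply] at this
  nlinarith

theorem conj_mul_self {z : ℂ} (hz : ‖z‖ = 1) : z * (⟨z.re, -z.im⟩ : ℂ) = 1 := by
  have h := unit_parts hz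
  apply Complex.ext
  · simp only [Complex.mul_re, Complex.one_re]; nlinarith
  · simp only [Complex.mul_im, Complex.one_im]; ring

theorem an_norm {s : ℝ} {a b : ℂ} (hb : ‖b‖ ≤ 1) (hs : 0 ≤ s)
    (hW : ∀ g : ℂ, ‖g‖ = 1 → (a * g).re + s * (b * g ^ 2).re ≤ 1) : ‖a‖ ≤ 1 + s := by
  apply norm_le_of_re
  intro g hg
  have h1 := hW g hg
  have h2 : |(b * g ^ 2).re| ≤ 1 := by
    refine (Complex.abs_re_le_norm _).trans ?_
    rw [norm_mul, norm_pow, hg]; simpa using hb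
  nlinarith [(abs_le.1 h2).1]

/-- first family, `q = r u` with `u` a unit in the lower half plane -/
theorem PN_f1 {s r : ℝ} {p u : ℂ} (hs0 : 0 ≤ s) (hs1 : s ≤ 1) (hp : ‖p‖ = 1) (hu : ‖u‖ = 1)
    (hui : u.im ≤ 0) (hr0 : 0 ≤ r) (hr1 : r ≤ 1) (hsec : Sec p) : PN s (p, (r : ℂ) * u) := by
  obtain ⟨h1, h2, h3⟩ := hsec
  have hp2 := unit_parts hp
  have hu2 := unit_parts hu
  obtain ⟨κ, n, h⟩ := N2_f1 (E := p.re) (S := -p.im) (F := u.re) (G := -u.im) (r := r) (s := s)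
    (by nlinarith) (by nlinarith) h1 (by linarith) (by linarith) (by linarith) hr0 hr1 hs0 hs1
  refine ⟨κ, n, fun a b ⟨g1, g2, g3, g4, g5⟩ => ?_⟩
  simp only at g3 g4 g5
  have ea : a * p * (⟨p.re, -p.im⟩ : ℂ) = a := by rw [mul_assoc, conj_mul_self hp, mul_one]
  have eb : b * u * (⟨u.re, -u.im⟩ : ℂ) = b := by rw [mul_assoc, conj_mul_self hu, mul_one]
  have e1 : b * ((r : ℂ) * u) = (r : ℂ) * (b * u) := by ring
  rw [e1] at g3 g4
  rw [Complex.re_ofReal_mul] at g3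
  rw [Complex.im_ofReal_mul] at g4
  have := h (a * p) (b * u) (by rw [norm_mul, hu, mul_one]; exact g1) (by linarith) (by linarith)
    (by
      rw [ea, eb]
      exact g2)
  rw [ea, eb] at this
  exact this

/-- second family -/
theorem PN_f2 {s r : ℝ} {u q : ℂ} (hs0 : 0 ≤ s) (hs1 : s ≤ 1) (hq : ‖q‖ = 1) (hu : ‖u‖ = 1)
    (hqi : q.im ≤ 0) (hr0 : 0 < r) (hr1 : r ≤ 1) (hsec : Sec u) : PN s ((r : ℂ) * u, q) := by
  obtain ⟨h1, h2, h3⟩ := hsec
  have hq2 := unit_parts hq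
  have hu2 := unit_parts hu
  obtain ⟨κ, n, h⟩ := N2_f2 (E := u.re) (S := -u.im) (F := q.re) (G := -q.im) (r := r) (s := s)
    (by nlinarith) (by nlinarith) h1 (by linarith) (by linarith) (by linarith) hr0.le hr1 hs0 hs1
  refine ⟨κ, n, fun a b ⟨g1, g2, g3, g4, g5⟩ => ?_⟩
  simp only at g3 g4 g5
  have ea : a * u * (⟨u.re, -u.im⟩ : ℂ) = a := by rw [mul_assoc, conj_mul_self hu, mul_one]
  have eb : b * q * (⟨q.re, -q.im⟩ : ℂ) = b := by rw [mul_assoc, conj_mul_self hq, mul_one]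
  have e1 : a * ((r : ℂ) * u) = (r : ℂ) * (a * u) := by ring
  rw [e1] at g3 g4 g5
  rw [Complex.re_ofReal_mul] at g3 g5
  rw [Complex.im_ofReal_mul] at g4
  have := h (a * u) (b * q) (by rw [norm_mul, hu, mul_one]; exact an_norm g1 hs0 g2)
    (nonneg_of_mul_nonneg_right g5 hr0) (by rw [norm_mul, hq, mul_one]; exact g1)
    (by linarith) (by linarith)
    (by
      rw [ea, eb]
      exact g2)
  rw [ea, eb] at this
  exact this

/-- third family -/
theorem PN_f3 {s : ℝ} {q : ℂ} (hs0 : 0 ≤ s) (hs1 : s ≤ 1) (hq : ‖q‖ = 1)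
    (hqi : q.im ≤ 0) : PN s (0, q) := by
  have hq2 := unit_parts hq
  obtain ⟨κ, n, h⟩ := N2_f3 (F := q.re) (G := -q.im) (s := s)
    (by nlinarith) (by linarith) hs0 hs1
  refine ⟨κ, n, fun a b ⟨g1, g2, g3, g4, g5⟩ => ?_⟩
  simp only [mul_zero, Complex.zero_re, Complex.zero_im, zero_add] at g3 g4 g5
  have hbq : b * q = 1 := Complex.ext g3 (by simp only [Complex.one_im]; linarith)
  have eb : b = (⟨q.re, -q.im⟩ : ℂ) := by
    calc b = b * (q * (⟨q.re, -q.im⟩ : ℂ)) := by rw [conj_mul_self hq, mul_one]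
      _ = _ := by rw [← mul_assoc, hbq, one_mul]
  rw [eb]
  exact h a (an_norm g1 hs0 g2) (by rw [← eb]; exact g2)

/-- **every nonzero point of the bidisc is lit** -/
theorem PN_all {s : ℝ} (hs0 : 0 ≤ s) (hs1 : s ≤ 1) {p q : ℂ} (h0 : ¬ (p = 0 ∧ q = 0))
    (hp : ‖p‖ ≤ 1) (hq : ‖q‖ ≤ 1) : PN s (p, q) := by
  have hdiv : ∀ z : ℂ, z ≠ 0 → ‖z / ‖z‖‖ = 1 := by
    intro z hz
    rw [norm_div, Complex.norm_real, norm_norm]
    exact div_self (norm_ne_zero_iff.2 hz)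
  have hmul : ∀ z : ℂ, z ≠ 0 → ((‖z‖ : ℝ) : ℂ) * (z / ‖z‖) = z := by
    intro z hz
    have : ((‖z‖ : ℝ) : ℂ) ≠ 0 := by exact_mod_cast norm_ne_zero_iff.2 hz
    field_simp
  by_cases hp0 : p = 0
  · have hq0 : q ≠ 0 := fun h => h0 ⟨hp0, h⟩
    subst hp0
    have e : ((0 : ℂ), q) = (((‖q‖ : ℝ) : ℂ) * 0, ((‖q‖ : ℝ) : ℂ) * (q / ‖q‖)) := by
      rw [mul_zero, hmul q hq0]
    rw [e]
    apply PN_scale (norm_pos_iff.2 hq0) hq
    rcases le_total (q / ‖q‖).im 0 with h | h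
    · exact PN_f3 hs0 hs1 (hdiv q hq0) h
    · apply PN_conj
      rw [map_zero]
      apply PN_f3 hs0 hs1 (by rw [Complex.norm_conj]; exact hdiv q hq0)
      rw [Complex.conj_im]; linarith
  · -- after scaling and rotation
    have key : ∀ p q : ℂ, p ≠ 0 → ‖p‖ ≤ 1 → ‖q‖ ≤ 1 → (‖p‖ = 1 ∨ ‖q‖ = 1) → Sec p → q.im ≤ 0 →
        PN s (p, q) := by
      intro p q hp0 hp hq h1 hsec hqi
      have hpp : 0 < ‖p‖ := norm_pos_iff.2 hp0
      rcases h1 with h1 | h1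
      · by_cases hq0 : q = 0
        · have := PN_f1 (r := 0) (u := 1) hs0 hs1 h1 (by simp) (by simp) le_rfl zero_le_one hsec
          simpa [hq0] using this
        · have := PN_f1 (r := ‖q‖) (u := q / ‖q‖) hs0 hs1 h1 (hdiv q hq0)
            (by rw [Complex.div_ofReal_im]; exact div_nonpos_of_nonpos_of_nonneg hqi (norm_nonneg _))
            (norm_nonneg _) hq hsec
          rwa [hmul q hq0] at this
      · have := PN_f2 (r := ‖p‖) (u := p / ‖p‖) hs0 hs1 h1 (hdiv p hp0) hqi hpp hp (by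
          obtain ⟨s1, s2, s3⟩ := hsec
          refine ⟨?_, ?_, ?_⟩
          · rw [Complex.div_ofReal_re]; exact div_nonneg s1 hpp.le
          · rw [Complex.div_ofReal_re, Complex.div_ofReal_im, ← mul_div_assoc]
            gcongr
          · rw [Complex.div_ofReal_re, Complex.div_ofReal_im, ← mul_div_assoc, ← neg_div]
            gcongr)
        rwa [hmul p hp0] at this
    have key2 : ∀ p q : ℂ, p ≠ 0 → ‖p‖ ≤ 1 → ‖q‖ ≤ 1 → (‖p‖ = 1 ∨ ‖q‖ = 1) → PN s (p, q) := by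
      intro p q hp0 hp hq h1
      obtain ⟨n, hn⟩ := exists_rot p
      apply PN_rots n
      have np : ‖z8 ^ n * p‖ = ‖p‖ := by rw [norm_mul, norm_pow, z8_norm, one_pow, one_mul]
      have nq : ‖z8 ^ (2 * n) * q‖ = ‖q‖ := by rw [norm_mul, norm_pow, z8_norm, one_pow, one_mul]
      have hne : z8 ^ n * p ≠ 0 := by
        rw [← norm_ne_zero_iff, np]; exact norm_ne_zero_iff.2 hp0
      rcases le_total (z8 ^ (2 * n) * q).im 0 with h | h
      · exact key _ _ hne (by rwa [np]) (by rwa [nq]) (by rwa [np, nq]) hn h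
      · apply PN_conj
        refine key _ _ ?_ (by rwa [Complex.norm_conj, np]) (by rwa [Complex.norm_conj, nq])
          (by rwa [Complex.norm_conj, Complex.norm_conj, np, nq]) ?_ ?_
        · rw [← norm_ne_zero_iff, Complex.norm_conj]; exact norm_ne_zero_iff.2 hne
        · obtain ⟨s1, s2, s3⟩ := hn
          refine ⟨?_, ?_, ?_⟩
          · rw [Complex.conj_re]; exact s1
          · rw [Complex.conj_re, Complex.conj_im]; exact s3
          · rw [Complex.conj_re, Complex.conj_im, neg_neg]; exact s2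
        · rw [Complex.conj_im]; linarith
    have hpp : 0 < ‖p‖ := norm_pos_iff.2 hp0
    have hnd : ∀ z : ℂ, ∀ c : ℝ, 0 < c → ‖z / (c : ℂ)‖ = ‖z‖ / c := by
      intro z c hc
      rw [norm_div, Complex.norm_real, Real.norm_of_nonneg hc.le]
    have hmc : ∀ z : ℂ, ∀ c : ℝ, 0 < c → (c : ℂ) * (z / c) = z := by
      intro z c hc
      have : (c : ℂ) ≠ 0 := by exact_mod_cast hc.ne'
      field_simp
    obtain ⟨c, hc0, hc1, hcp, hcq, hce⟩ : ∃ c : ℝ, 0 < c ∧ c ≤ 1 ∧ ‖p‖ ≤ c ∧ ‖q‖ ≤ c ∧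
        (‖p‖ = c ∨ ‖q‖ = c) := by
      rcases le_total ‖q‖ ‖p‖ with h | h
      · exact ⟨‖p‖, hpp, hp, le_rfl, h, Or.inl rfl⟩
      · exact ⟨‖q‖, lt_of_lt_of_le hpp h, hq, h, le_rfl, Or.inr rfl⟩
    have := PN_scale (s := s) (p := p / c) (q := q / c) hc0 hc1 (by
      apply key2
      · rw [← norm_ne_zero_iff, hnd p c hc0]; positivity
      · rw [hnd p c hc0, div_le_one hc0]; exact hcp
      · rw [hnd q c hc0, div_le_one hc0]; exact hcq
      · rw [hnd p c hc0, hnd q c hc0, div_eq_one_iff_eq hc0.ne', div_eq_one_iff_eq hc0.ne']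
        exact hce)
    rwa [hmc p c hc0, hmc q c hc0] at this

end Pool.Agent.H768.C4
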