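import Mathlib
import Pool.Agent.H768.C4.Geo
import Pool.Agent.H768.C4.ClassII
import Pool.Agent.H768.C4.N2Pts

/-! # Bodies in `ℂ²` which are invariant under a circle action -/

set_option autoImplicit false

open Set Topology Filter

namespace Pool.Agent.H768.C4

theorem mean_mem {V : Type*} [NormedAddCommGroup V] [NormedSpace ℝ V] {K : Set V}
    (hK : Convex ℝ K) (hcl : IsClosed K) {u : ℕ → V} {c : V} {C : ℝ} (hu : ∀ k, u k ∈ K)
    (h : ∀ N : ℕ, ‖∑ k ∈ Finset.range N, (u k - c)‖ ≤ C) : c ∈ K := by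
  have h1 : ∀ N : ℕ, ((N : ℝ) + 1)⁻¹ • ∑ k ∈ Finset.range (N + 1), u k ∈ K := by
    intro N
    rw [Finset.smul_sum]
    refine hK.sum_mem (fun _ _ => by positivity) ?_ (fun k _ => hu k)
    rw [Finset.sum_const, Finset.card_range, nsmul_eq_mul]
    push_cast
    exact mul_inv_cancel₀ (by positivity)
  have h2 : Tendsto (fun N : ℕ => ((N : ℝ) + 1)⁻¹ • ∑ k ∈ Finset.range (N + 1), u k) atTop
      (𝓝 c) := by
    rw [tendsto_iff_norm_sub_tendsto_zero]
    have h3 : Tendsto (fun N : ℕ => C * (1 / ((N : ℝ) + 1))) atTop (𝓝 0) := by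
      have := tendsto_one_div_add_atTop_nhds_zero_nat (𝕜 := ℝ)
      simpa using this.const_mul C
    refine squeeze_zero (fun _ => norm_nonneg _) (fun N => ?_) h3
    have e : ((N : ℝ) + 1)⁻¹ • ∑ k ∈ Finset.range (N + 1), u k - c
        = ((N : ℝ) + 1)⁻¹ • ∑ k ∈ Finset.range (N + 1), (u k - c) := by
      rw [Finset.sum_sub_distrib, Finset.sum_const, Finset.card_range, smul_sub,
        ← Nat.cast_smul_eq_nsmul ℝ, smul_smul]
      push_cast
      rw [inv_mul_cancel₀ (by positivity : (N : ℝ) + 1 ≠ 0), one_smul]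
    rw [e, norm_smul, Real.norm_of_nonneg (by positivity), one_div, mul_comm]
    exact mul_le_mul_of_nonneg_right (h _) (by positivity)
  exact hcl.mem_of_tendsto h2 (Eventually.of_forall h1)

theorem geom_bdd {ω : ℂ} (h1 : ‖ω‖ = 1) (h : ω ≠ 1) (N : ℕ) :
    ‖∑ k ∈ Finset.range N, ω ^ k‖ ≤ 2 / ‖ω - 1‖ := by
  rw [geom_sum_eq h, norm_div]
  have : ‖ω ^ N - 1‖ ≤ 2 := by
    calc ‖ω ^ N - 1‖ ≤ ‖ω ^ N‖ + ‖(1 : ℂ)‖ := norm_sub_le _ _
      _ = 2 := by rw [norm_pow, h1]; norm_num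
  gcongr

/-- the unit complex number with argument `θ` -/
noncomputable def ex (θ : ℝ) : ℂ := Complex.exp (θ * Complex.I)

theorem ex_norm (θ : ℝ) : ‖ex θ‖ = 1 := Complex.norm_exp_ofReal_mul_I θ

theorem ex_re (θ : ℝ) : (ex θ).re = Real.cos θ := Complex.exp_ofReal_mul_I_re θ

theorem ex_im (θ : ℝ) : (ex θ).im = Real.sin θ := Complex.exp_ofReal_mul_I_im θ

theorem ex_add (θ φ : ℝ) : ex (θ + φ) = ex θ * ex φ := by
  simp only [ex]
  rw [← Complex.exp_add]
  push_cast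
  congr 1; ring

theorem ex_zero : ex 0 = 1 := by simp [ex]

theorem ex_pi : ex Real.pi = -1 := by simp [ex]

theorem ex_two_pi : ex (2 * Real.pi) = 1 := by
  simp only [ex]
  push_cast
  exact Complex.exp_two_pi_mul_I

theorem ex_nat (θ : ℝ) (n : ℕ) : ex (n * θ) = ex θ ^ n := by
  simp only [ex]
  rw [← Complex.exp_nat_mul]
  push_cast
  congr 1; ring

theorem exists_ex {c : ℂ} (hc : ‖c‖ = 1) : ∃ θ, c = ex θ := by
  refine ⟨Complex.arg c, ?_⟩
  have := Complex.norm_mul_exp_arg_mul_I c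
  rw [hc] at this
  simpa [ex] using this.symm

theorem ex_ne_one {γ : ℝ} (h : ∀ n : ℤ, γ ≠ n) : ex (2 * Real.pi * γ) ≠ 1 := by
  intro h1
  simp only [ex] at h1
  obtain ⟨n, hn⟩ := Complex.exp_eq_one_iff.1 h1
  apply h n
  have h2 : ((2 * Real.pi * γ : ℝ) : ℂ) * Complex.I = ((n * (2 * Real.pi) : ℝ) : ℂ) * Complex.I := by
    rw [hn]; push_cast; ring
  have h3 := mul_right_cancel₀ Complex.I_ne_zero h2
  have h4 : 2 * Real.pi * γ = n * (2 * Real.pi) := by exact_mod_cast h3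
  have h5 : (2 * Real.pi) ≠ 0 := by positivity
  have h6 : 2 * Real.pi * γ = 2 * Real.pi * n := by linarith
  exact mul_left_cancel₀ h5 h6

/-- a convex body with a linear circle (or torus) action -/
structure Inv (α β : ℝ) (K : Set (ℂ × ℂ)) : Prop where
  conv : Convex ℝ K
  cpt : IsCompact K
  int : (interior K).Nonempty
  flow : ∀ t : ℝ, ∀ z ∈ K, (ex (α * t) * z.1, ex (β * t) * z.2) ∈ K

theorem proj1 {α β : ℝ} (hβ : 0 < β) (hαβ : β < α) {K : Set (ℂ × ℂ)} (hK : Inv α β K)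
    {x v : ℂ × ℂ} (h : ∀ t : ℝ, (ex (α * t) * x.1, ex (β * t) * x.2) + v ∈ K) :
    (x.1, 0) + v ∈ K := by
  have hα : 0 < α := hβ.trans hαβ
  obtain ⟨ω, hω⟩ : ∃ ω, ω = ex (2 * Real.pi * (β / α)) := ⟨_, rfl⟩
  have hω1 : ω ≠ 1 := by
    rw [hω]
    apply ex_ne_one
    intro n hn
    have h1 : 0 < β / α := by positivity
    have h2 : β / α < 1 := (div_lt_one hα).2 hαβ
    rw [hn] at h1 h2
    have h3 : 0 < n := by exact_mod_cast h1
    have h4 : n < 1 := by exact_mod_cast h2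
    omega
  have hωn : ‖ω‖ = 1 := by rw [hω]; exact ex_norm _
  have hu : ∀ k : ℕ, (x.1, ω ^ k * x.2) + v ∈ K := by
    intro k
    have h1 := h (k * (2 * Real.pi / α))
    have e1 : ex (α * (k * (2 * Real.pi / α))) = 1 := by
      have : α * (k * (2 * Real.pi / α)) = k * (2 * Real.pi) := by field_simp
      rw [this, ex_nat, ex_two_pi, one_pow]
    have e2 : ex (β * (k * (2 * Real.pi / α))) = ω ^ k := by
      have : β * (k * (2 * Real.pi / α)) = k * (2 * Real.pi * (β / α)) := by field_simp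
      rw [this, ex_nat, hω]
    rw [e1, e2, one_mul] at h1
    exact h1
  refine mean_mem hK.conv hK.cpt.isClosed (C := 2 / ‖ω - 1‖ * ‖x.2‖) hu (fun N => ?_)
  have e : ∀ k : ℕ, (x.1, ω ^ k * x.2) + v - ((x.1, 0) + v) = (0, ω ^ k * x.2) := by
    intro k
    apply Prod.ext <;> simp
  simp only [e]
  have e2 : ∑ k ∈ Finset.range N, ((0 : ℂ), ω ^ k * x.2)
      = (0, (∑ k ∈ Finset.range N, ω ^ k) * x.2) := by
    apply Prod.ext
    · simp [Prod.fst_sum]
    · simp [Prod.snd_sum, Finset.sum_mul]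
  rw [e2, Prod.norm_def, norm_zero, max_eq_right (norm_nonneg _), norm_mul]
  exact mul_le_mul_of_nonneg_right (geom_bdd hωn hω1 N) (norm_nonneg _)

theorem proj2 {α β : ℝ} (hβ : 0 < β) {K : Set (ℂ × ℂ)} (hK : Inv α β K)
    (hne : ∀ n : ℤ, α / β ≠ n) {x v : ℂ × ℂ}
    (h : ∀ t : ℝ, (ex (α * t) * x.1, ex (β * t) * x.2) + v ∈ K) :
    (0, x.2) + v ∈ K := by
  obtain ⟨ω, hω⟩ : ∃ ω, ω = ex (2 * Real.pi * (α / β)) := ⟨_, rfl⟩
  have hω1 : ω ≠ 1 := by
    rw [hω]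
    exact ex_ne_one hne
  have hωn : ‖ω‖ = 1 := by rw [hω]; exact ex_norm _
  have hu : ∀ k : ℕ, (ω ^ k * x.1, x.2) + v ∈ K := by
    intro k
    have h1 := h (k * (2 * Real.pi / β))
    have e1 : ex (β * (k * (2 * Real.pi / β))) = 1 := by
      have : β * (k * (2 * Real.pi / β)) = k * (2 * Real.pi) := by field_simp
      rw [this, ex_nat, ex_two_pi, one_pow]
    have e2 : ex (α * (k * (2 * Real.pi / β))) = ω ^ k := by
      have : α * (k * (2 * Real.pi / β)) = k * (2 * Real.pi * (α / β)) := by field_simp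
      rw [this, ex_nat, hω]
    rw [e1, e2, one_mul] at h1
    exact h1
  refine mean_mem hK.conv hK.cpt.isClosed (C := 2 / ‖ω - 1‖ * ‖x.1‖) hu (fun N => ?_)
  have e : ∀ k : ℕ, (ω ^ k * x.1, x.2) + v - ((0, x.2) + v) = (ω ^ k * x.1, 0) := by
    intro k
    apply Prod.ext <;> simp
  simp only [e]
  have e2 : ∑ k ∈ Finset.range N, (ω ^ k * x.1, (0 : ℂ))
      = ((∑ k ∈ Finset.range N, ω ^ k) * x.1, 0) := by
    apply Prod.ext
    · simp [Prod.fst_sum, Finset.sum_mul]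
    · simp [Prod.snd_sum]
  rw [e2, Prod.norm_def, norm_zero, max_eq_left (norm_nonneg _), norm_mul]
  exact mul_le_mul_of_nonneg_right (geom_bdd hωn hω1 N) (norm_nonneg _)

/-- translates of balls are moved to balls -/
theorem ball_move {α β : ℝ} {K : Set (ℂ × ℂ)} (hK : Inv α β K) {x : ℂ × ℂ} {ε : ℝ}
    (h : ∀ v : ℂ × ℂ, ‖v‖ < ε → x + v ∈ K) (t : ℝ) :
    ∀ v : ℂ × ℂ, ‖v‖ < ε → (ex (α * t) * x.1, ex (β * t) * x.2) + v ∈ K := by
  intro v hv
  have h1 := hK.flow t _ (h (ex (α * -t) * v.1, ex (β * -t) * v.2) (by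
    rw [Prod.norm_def, norm_mul, norm_mul, ex_norm, ex_norm, one_mul, one_mul]
    rw [Prod.norm_def] at hv
    exact hv))
  have e1 : ex (α * t) * (x + (ex (α * -t) * v.1, ex (β * -t) * v.2)).1
      = ex (α * t) * x.1 + v.1 := by
    rw [Prod.fst_add, mul_add, ← mul_assoc, ← ex_add]
    have : α * t + α * -t = 0 := by ring
    rw [this, ex_zero, one_mul]
  have e2 : ex (β * t) * (x + (ex (α * -t) * v.1, ex (β * -t) * v.2)).2
      = ex (β * t) * x.2 + v.2 := by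
    rw [Prod.snd_add, mul_add, ← mul_assoc, ← ex_add]
    have : β * t + β * -t = 0 := by ring
    rw [this, ex_zero, one_mul]
  rw [e1, e2] at h1
  exact h1

theorem zero_int {α β : ℝ} (hβ : 0 < β) (hαβ : β < α) {K : Set (ℂ × ℂ)} (hK : Inv α β K) :
    (0 : ℂ × ℂ) ∈ interior K := by
  have hα : 0 < α := hβ.trans hαβ
  obtain ⟨x, hx⟩ := hK.int
  obtain ⟨ε, hε, hball⟩ := Metric.isOpen_iff.1 isOpen_interior x hx
  have h1 : ∀ v : ℂ × ℂ, ‖v‖ < ε → x + v ∈ K := by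
    intro v hv
    apply interior_subset
    apply hball
    rw [Metric.mem_ball, dist_eq_norm, add_sub_cancel_left]
    exact hv
  have h2 : ∀ v : ℂ × ℂ, ‖v‖ < ε → (x.1, 0) + v ∈ K := fun v hv =>
    proj1 hβ hαβ hK (fun t => ball_move hK h1 t v hv)
  have h3 : ∀ v : ℂ × ℂ, ‖v‖ < ε → (-x.1, 0) + v ∈ K := by
    intro v hv
    have := ball_move hK h2 (Real.pi / α) v hv
    have e : α * (Real.pi / α) = Real.pi := by field_simp
    simp only [e, ex_pi, mul_zero, neg_mul, one_mul] at this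
    exact this
  rw [mem_interior_iff_mem_nhds, Metric.mem_nhds_iff]
  refine ⟨ε, hε, fun v hv => ?_⟩
  rw [Metric.mem_ball, dist_zero_right] at hv
  have h4 := hK.conv (h2 v hv) (h3 v hv) (a := 1 / 2) (b := 1 / 2) (by norm_num) (by norm_num)
    (by norm_num)
  have e : (1 / 2 : ℝ) • ((x.1, 0) + v) + (1 / 2 : ℝ) • ((-x.1, 0) + v) = v := by
    rw [← smul_add]
    have : ((x.1, 0) + v) + ((-x.1, (0 : ℂ)) + v) = (2 : ℝ) • v := by
      rw [two_smul]
      apply Prod.ext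
      · show x.1 + v.1 + (-x.1 + v.1) = v.1 + v.1
        ring
      · show 0 + v.2 + (0 + v.2) = v.2 + v.2
        ring
    rw [this, smul_smul]; norm_num
  rwa [e] at h4

/-- the covering from the directions -/
theorem cov_of_lit16 {K : Set (ℂ × ℂ)} (hK : Convex ℝ K) (hc : IsCompact K)
    (h0 : (0 : ℂ × ℂ) ∈ interior K) (D : Bool → ℕ → ℂ × ℂ) (hper : ∀ k n, D k n = D k (n % 8))
    (h : ∀ p ∈ K, ¬ (p.1 = 0 ∧ p.2 = 0) → ∃ k n, ∀ a b : ℂ,
      (∀ z ∈ K, (a * z.1 + b * z.2).re ≤ 1) → (a * p.1 + b * p.2).re = 1 →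
      0 < (a * (D k n).1 + b * (D k n).2).re) : Cov 16 K := by
  classical
  let dirs : Finset (ℂ × ℂ) := (Finset.univ : Finset (Bool × Fin 8)).image fun x => -D x.1 x.2
  have hcard : dirs.card ≤ 16 := by
    refine Finset.card_image_le.trans ?_
    simp [Fintype.card_prod]
  have hmem : ∀ k n, -D k n ∈ dirs := by
    intro k n
    rw [hper]
    exact Finset.mem_image.2 ⟨(k, ⟨n % 8, Nat.mod_lt _ (by norm_num)⟩), Finset.mem_univ _, rfl⟩
  obtain ⟨T, hT, hcov⟩ := Pool.Agent.Y512.cover_of_lit hK hc dirs (by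
    intro p hp
    by_cases hp0 : p.1 = 0 ∧ p.2 = 0
    · refine ⟨-D true 0, hmem _ _, ?_⟩
      apply Pool.Agent.H768.D2.lit_of_dual hK h0 hp
      intro f _ hf
      have : p = 0 := Prod.ext hp0.1 hp0.2
      rw [this, map_zero] at hf
      exact absurd hf zero_ne_one
    · obtain ⟨k, n, hk⟩ := h p hp hp0
      refine ⟨-D k n, hmem _ _, ?_⟩
      apply Pool.Agent.H768.D2.lit_of_dual hK h0 hp
      intro f hf hfp
      obtain ⟨a, b, hab⟩ := func_form f
      rw [hab]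
      exact hk a b (fun z hz => by rw [← hab]; exact hf z hz) (by rw [← hab]; exact hfp))
  exact ⟨T, hT.trans hcard, hcov⟩

theorem z8_mod (n : ℕ) (m : ℕ) : z8 ^ (m * n) = z8 ^ (m * (n % 8)) := by
  conv_lhs => rw [← Nat.mod_add_div n 8]
  have : m * (n % 8 + 8 * (n / 8)) = m * (n % 8) + 8 * (m * (n / 8)) := by ring
  rw [this, pow_add, pow_mul z8 8, z8_8, one_pow, mul_one]

theorem DT_per (T1 T2 : ℝ) (k : Bool) (n : ℕ) : DT T1 T2 k n = DT T1 T2 k (n % 8) := by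
  have h1 := z8_mod n 1
  rw [one_mul, one_mul] at h1
  simp only [DT]
  rw [z8_mod n 3, h1]

theorem DN_per (k : Bool) (n : ℕ) : DN k n = DN k (n % 8) := by
  have h1 := z8_mod n 1
  rw [one_mul, one_mul] at h1
  simp only [DN]
  rw [z8_mod n 2, h1]

/-- the derivative condition -/
theorem deriv_zero {A B : ℂ} {α β : ℝ}
    (h : ∀ t : ℝ, (A * ex (α * t) + B * ex (β * t)).re ≤ (A + B).re) :
    α * A.im + β * B.im = 0 := by
  obtain ⟨F, hF⟩ : ∃ F : ℝ → ℝ, F = fun t => A.re * Real.cos (α * t) - A.im * Real.sin (α * t)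
    + (B.re * Real.cos (β * t) - B.im * Real.sin (β * t)) := ⟨_, rfl⟩
  have hF1 : ∀ t, F t = (A * ex (α * t) + B * ex (β * t)).re := by
    intro t
    rw [hF, Complex.add_re, Complex.mul_re, Complex.mul_re, ex_re, ex_im, ex_re, ex_im]
  have hF0 : F 0 = (A + B).re := by
    rw [hF1]; simp [ex_zero]
  have hmax : IsLocalMax F 0 := by
    refine Filter.Eventually.of_forall (fun t => ?_)
    rw [hF0, hF1]
    exact h t
  have hd : HasDerivAt F (A.re * (-Real.sin (α * 0) * α) - A.im * (Real.cos (α * 0) * α)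
      + (B.re * (-Real.sin (β * 0) * β) - B.im * (Real.cos (β * 0) * β))) 0 := by
    rw [hF]
    have h1 : ∀ γ : ℝ, HasDerivAt (fun t : ℝ => γ * t) γ 0 := fun γ => by
      simpa using (hasDerivAt_id (0 : ℝ)).const_mul γ
    exact ((((Real.hasDerivAt_cos _).comp 0 (h1 α)).const_mul A.re).sub
      (((Real.hasDerivAt_sin _).comp 0 (h1 α)).const_mul A.im)).add
      ((((Real.hasDerivAt_cos _).comp 0 (h1 β)).const_mul B.re).sub
      (((Real.hasDerivAt_sin _).comp 0 (h1 β)).const_mul B.im))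
  have := hmax.hasDerivAt_eq_zero hd
  simp only [mul_zero, Real.sin_zero, Real.cos_zero, neg_zero, zero_mul, one_mul, zero_sub] at this
  linarith

/-- the cone condition -/
theorem cone_of_max {A B : ℂ} {α β : ℝ} (hα : 0 < α) (hβ : 0 < β) (hαβ : 2 * β < α)
    (h : ∀ t : ℝ, (A * ex (α * t) + B * ex (β * t)).re ≤ (A + B).re) :
    Real.cos (Real.pi * (β / α)) * |B.im| ≤ Real.sin (Real.pi * (β / α)) * B.re ∧ 0 ≤ B.re := by
  set φ := Real.pi * (β / α) with hφ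
  have hφ0 : 0 < φ := by positivity
  have hφ1 : φ < Real.pi / 2 := by
    have : β / α < 1 / 2 := by
      rw [div_lt_div_iff₀ hα (by norm_num)]; linarith
    rw [hφ]; nlinarith [Real.pi_pos]
  have hs : 0 < Real.sin φ := Real.sin_pos_of_pos_of_lt_pi hφ0 (by linarith [Real.pi_pos])
  have hc : 0 < Real.cos φ := Real.cos_pos_of_mem_Ioo ⟨by linarith, hφ1⟩
  have e2 : β * (2 * Real.pi / α) = 2 * φ := by rw [hφ]; field_simp
  have e1 : α * (2 * Real.pi / α) = 2 * Real.pi := by field_simp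
  have h1 := h (2 * Real.pi / α)
  rw [e1, e2, ex_two_pi, mul_one, Complex.add_re, Complex.add_re, Complex.mul_re, ex_re, ex_im,
    Real.cos_two_mul, Real.sin_two_mul] at h1
  have h2 := h (-(2 * Real.pi / α))
  have e3 : α * -(2 * Real.pi / α) = -(2 * Real.pi) := by linarith
  have e4 : β * -(2 * Real.pi / α) = -(2 * φ) := by linarith
  have e5 : ex (-(2 * Real.pi)) = 1 := by
    have h5 := ex_add (2 * Real.pi) (-(2 * Real.pi))
    rw [add_neg_cancel, ex_zero, ex_two_pi, one_mul] at h5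
    exact h5.symm
  rw [e3, e4, e5, mul_one, Complex.add_re, Complex.add_re, Complex.mul_re, ex_re, ex_im,
    Real.cos_neg, Real.sin_neg, Real.cos_two_mul, Real.sin_two_mul] at h2
  have hsc := Real.sin_sq_add_cos_sq φ
  have key : Real.cos φ * |B.im| ≤ Real.sin φ * B.re := by
    have e : (Real.sin φ ^ 2 + Real.cos φ ^ 2) * B.re = B.re := by rw [hsc, one_mul]
    have a1 : Real.sin φ * (Real.cos φ * B.im) ≤ Real.sin φ * (Real.sin φ * B.re) := by
      linarith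
    have a2 : Real.sin φ * (-(Real.cos φ * B.im)) ≤ Real.sin φ * (Real.sin φ * B.re) := by
      linarith
    have b1 := le_of_mul_le_mul_left a1 hs
    have b2 := le_of_mul_le_mul_left a2 hs
    rcases abs_cases B.im with ⟨e, _⟩ | ⟨e, _⟩
    · rw [e]; exact b1
    · rw [e]; linarith
  refine ⟨key, ?_⟩
  have : 0 ≤ Real.sin φ * B.re := le_trans (by positivity) key
  exact nonneg_of_mul_nonneg_right this hs

theorem cone_sq {A B : ℂ} {α β c : ℝ} (hα : 0 < α) (hβ : 0 < β) (hαβ : 2 * β < α) (hc0 : 0 ≤ c)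
    (hc : c ≤ Real.cos (Real.pi * (β / α)))
    (h : ∀ t : ℝ, (A * ex (α * t) + B * ex (β * t)).re ≤ (A + B).re) :
    c ^ 2 * B.im ^ 2 ≤ (1 - c ^ 2) * B.re ^ 2 ∧ 0 ≤ B.re := by
  obtain ⟨h1, h2⟩ := cone_of_max hα hβ hαβ h
  set φ := Real.pi * (β / α) with hφ
  refine ⟨?_, h2⟩
  have hsc := Real.sin_sq_add_cos_sq φ
  have hcc : c ^ 2 ≤ Real.cos φ ^ 2 := by nlinarith
  have h3 : (Real.cos φ * |B.im|) ^ 2 ≤ (Real.sin φ * B.re) ^ 2 := by
    apply pow_le_pow_left₀ _ h1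
    exact mul_nonneg (hc0.trans hc) (abs_nonneg _)
  rw [mul_pow, mul_pow, sq_abs] at h3
  have h4 : c ^ 2 * B.im ^ 2 ≤ Real.cos φ ^ 2 * B.im ^ 2 :=
    mul_le_mul_of_nonneg_right hcc (sq_nonneg _)
  have h5 : Real.sin φ ^ 2 * B.re ^ 2 ≤ (1 - c ^ 2) * B.re ^ 2 :=
    mul_le_mul_of_nonneg_right (by linarith) (sq_nonneg _)
  linarith

/-- the body in normal position -/
structure NF (α β : ℝ) (K : Set (ℂ × ℂ)) : Prop extends Inv α β K where
  box : ∀ z ∈ K, ‖z.1‖ ≤ 1 ∧ ‖z.2‖ ≤ 1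
  p1 : ∃ z ∈ K, ‖z.1‖ = 1
  p2 : ∃ z ∈ K, ‖z.2‖ = 1

/-- the functional at a point -/
theorem func_facts {α β : ℝ} {K : Set (ℂ × ℂ)} (hK : Inv α β K) {p : ℂ × ℂ} (hp : p ∈ K)
    {a b : ℂ} (hf : ∀ z ∈ K, (a * z.1 + b * z.2).re ≤ 1) (hfp : (a * p.1 + b * p.2).re = 1) :
    ∀ t : ℝ, (a * p.1 * ex (α * t) + b * p.2 * ex (β * t)).re ≤ (a * p.1 + b * p.2).re := by
  intro t
  have := hf _ (hK.flow t p hp)
  rw [hfp]
  have e : a * p.1 * ex (α * t) + b * p.2 * ex (β * t)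
      = a * (ex (α * t) * p.1) + b * (ex (β * t) * p.2) := by ring
  rw [e]
  exact this

theorem circ1 {α β : ℝ} (hα : 0 < α) {K : Set (ℂ × ℂ)} (hK : Inv α β K) {x : ℂ}
    (hx : (x, (0 : ℂ)) ∈ K) {u : ℂ} (hu : ‖u‖ = 1) : (u * x, (0 : ℂ)) ∈ K := by
  obtain ⟨θ, rfl⟩ := exists_ex hu
  have := hK.flow (θ / α) _ hx
  have e : α * (θ / α) = θ := by field_simp
  simp only [e, mul_zero] at this
  exact this

theorem circ2 {α β : ℝ} (hβ : 0 < β) {K : Set (ℂ × ℂ)} (hK : Inv α β K) {x : ℂ}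
    (hx : ((0 : ℂ), x) ∈ K) {u : ℂ} (hu : ‖u‖ = 1) : ((0 : ℂ), u * x) ∈ K := by
  obtain ⟨θ, rfl⟩ := exists_ex hu
  have := hK.flow (θ / β) _ hx
  have e : β * (θ / β) = θ := by field_simp
  simp only [e, mul_zero] at this
  exact this

theorem P1 {α β : ℝ} (hβ : 0 < β) (hαβ : β < α) {K : Set (ℂ × ℂ)} (hK : Inv α β K)
    {z : ℂ × ℂ} (hz : z ∈ K) : (z.1, (0 : ℂ)) ∈ K := by
  have := proj1 hβ hαβ hK (x := z) (v := 0) (fun t => by rw [add_zero]; exact hK.flow t z hz)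
  rwa [add_zero] at this

theorem P2 {α β : ℝ} (hβ : 0 < β) {K : Set (ℂ × ℂ)} (hK : Inv α β K)
    (hne : ∀ n : ℤ, α / β ≠ n) {z : ℂ × ℂ} (hz : z ∈ K) : ((0 : ℂ), z.2) ∈ K := by
  have := proj2 hβ hK hne (x := z) (v := 0) (fun t => by rw [add_zero]; exact hK.flow t z hz)
  rwa [add_zero] at this

/-- bound for the fast coefficient -/
theorem norm_a {α β : ℝ} (hβ : 0 < β) (hαβ : β < α) {K : Set (ℂ × ℂ)} (hK : NF α β K) {a b : ℂ}
    (hf : ∀ z ∈ K, (a * z.1 + b * z.2).re ≤ 1) : ‖a‖ ≤ 1 := by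
  obtain ⟨z, hz, hz1⟩ := hK.p1
  have h1 := P1 hβ hαβ hK.toInv hz
  apply norm_le_of_re
  intro c hc
  have hz0 : z.1 ≠ 0 := by intro h; rw [h, norm_zero] at hz1; exact zero_ne_one hz1
  have h2 := circ1 (hβ.trans hαβ) hK.toInv h1 (u := c / z.1) (by rw [norm_div, hz1, hc, div_one])
  rw [div_mul_cancel₀ _ hz0] at h2
  have := hf _ h2
  simpa using this

/-- **Class I** -/
theorem cov_I {α β : ℝ} (hβ : 0 < β) (hαβ : β < α) (hne : ∀ n : ℤ, α / β ≠ n)
    {K : Set (ℂ × ℂ)} (hK : NF α β K) : Cov 16 K := by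
  have hα : 0 < α := hβ.trans hαβ
  have hκ : 0 < β / α := by positivity
  refine cov_of_lit16 hK.conv hK.cpt (zero_int hβ hαβ hK.toInv)
    (DT ((9 : ℤ) / (10 : ℤ)) ((9 : ℤ) / (10 : ℤ))) (DT_per _ _) (fun p hp hp0 => ?_)
  obtain ⟨k, n, h⟩ := PQ_all (QI_ok (β / α)) (by norm_num) (by norm_num) (by norm_num)
    (by norm_num) (QI_core hκ) (QI_axis _)
    ((QI_core (inv_pos.2 hκ)).mono (fun _ _ _ _ => QI_sw hκ))
    ((QI_axis _).mono (fun _ _ _ _ => QI_sw hκ)) hp0 (hK.box p hp).1 (hK.box p hp).2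
  refine ⟨k, n, fun a b hf hfp => h a b ?_⟩
  have hmax := func_facts hK.toInv hp hf hfp
  have ha := norm_a hβ hαβ hK hf
  have hb : ‖b‖ ≤ 1 := by
    obtain ⟨z, hz, hz1⟩ := hK.p2
    have h1 := P2 hβ hK.toInv hne hz
    apply norm_le_of_re
    intro c hc
    have hz0 : z.2 ≠ 0 := by intro h; rw [h, norm_zero] at hz1; exact zero_ne_one hz1
    have h2 := circ2 hβ hK.toInv h1 (u := c / z.2) (by rw [norm_div, hz1, hc, div_one])
    rw [div_mul_cancel₀ _ hz0] at h2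
    have := hf _ h2
    simpa using this
  have h1 := hf _ (P1 hβ hαβ hK.toInv hp)
  have h2 := hf _ (P2 hβ hK.toInv hne hp)
  simp only [mul_zero, add_zero, zero_add] at h1 h2
  rw [Complex.add_re] at hfp
  have hd := deriv_zero hmax
  refine ⟨ha, hb, hfp, ?_, by linarith, by linarith, fun hk => ?_, fun hk => ?_⟩
  · simp only
    have : α * ((a * p.1).im + β / α * (b * p.2).im) = 0 := by
      field_simp
      linarith
    exact (mul_eq_zero.1 this).resolve_left hα.ne'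
  · have h5 : 5 * β ≤ α := by
      rw [div_le_div_iff₀ hα (by norm_num)] at hk; linarith
    have hcos : (1 + √5) / 4 ≤ Real.cos (Real.pi * (β / α)) := by
      rw [← Real.cos_pi_div_five]
      apply Real.cos_le_cos_of_nonneg_of_le_pi (by positivity)
      · linarith [Real.pi_pos]
      · have := mul_le_mul_of_nonneg_left hk Real.pi_pos.le
        linarith
    obtain ⟨g1, g2⟩ := cone_sq (A := a * p.1) hα hβ (by linarith) (by positivity) hcos hmax
    have h5' : √5 ^ 2 = 5 := Real.sq_sqrt (show (0 : ℝ) ≤ 5 by norm_num)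
    have h6 : (2.236 : ℝ) ≤ √5 := (Real.le_sqrt' (by norm_num)).2 (by norm_num)
    have e1 : ((1 + √5) / 4) ^ 2 = (3 + √5) / 8 := by nlinarith
    rw [e1] at g1
    have g3 : (b * p.2).im ^ 2 ≤ (8 / 11 * (b * p.2).re) ^ 2 := by
      nlinarith [sq_nonneg (b * p.2).im, sq_nonneg (b * p.2).re]
    exact abs_le_of_sq_le_sq g3 (by linarith)
  · exfalso
    have : β / α < 1 := (div_lt_one hα).2 hαβ
    linarith

end Pool.Agent.H768.C4
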