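import Mathlib
import Pool.Agent.H768.C4.GeoW

/-! # Bodies in `ℂ²` which are invariant under a circle action, continued -/

set_option autoImplicit false

open Set Topology Filter

namespace Pool.Agent.H768.C4

/-- bound for the slow coefficient -/
theorem norm_b {α β : ℝ} (hβ : 0 < β) (hαβ : β < α) {K : Set (ℂ × ℂ)} (hK : NF α β K) {a b : ℂ}
    (hf : ∀ z ∈ K, (a * z.1 + b * z.2).re ≤ 1) :
    ‖b‖ ^ 2 * (1 + Real.cos (Real.pi * (β / α))) ≤ 2 := by
  have hα : 0 < α := hβ.trans hαβ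
  set φ := Real.pi * (β / α) with hφ
  obtain ⟨z, hz, hz1⟩ := hK.p2
  have h1 := hK.flow (Real.pi / α) z hz
  have e1 : α * (Real.pi / α) = Real.pi := by field_simp
  have e2 : β * (Real.pi / α) = φ := by rw [hφ]; field_simp
  rw [e1, e2, ex_pi] at h1
  obtain ⟨w, hw⟩ : ∃ w, w = (1 + ex φ) / 2 * z.2 := ⟨_, rfl⟩
  have h2 : ((0 : ℂ), w) ∈ K := by
    have h3 := hK.conv hz h1 (a := 1 / 2) (b := 1 / 2) (by norm_num) (by norm_num) (by norm_num)
    have e : (1 / 2 : ℝ) • z + (1 / 2 : ℝ) • (-1 * z.1, ex φ * z.2) = ((0 : ℂ), w) := by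
      apply Prod.ext
      · simp only [Prod.fst_add, Prod.smul_fst, Complex.real_smul]
        push_cast; ring
      · simp only [Prod.snd_add, Prod.smul_snd, Complex.real_smul, hw]
        push_cast; ring
    rwa [e] at h3
  have hwn : ‖w‖ ^ 2 = (1 + Real.cos φ) / 2 := by
    rw [hw, norm_mul, hz1, mul_one, norm_div, div_pow, ← Complex.normSq_eq_norm_sq,
      Complex.normSq_apply]
    simp only [Complex.add_re, Complex.one_re, Complex.add_im, Complex.one_im, ex_re, ex_im,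
      zero_add, Complex.norm_ofNat]
    nlinarith [Real.sin_sq_add_cos_sq φ]
  have h3 : ‖b‖ * ‖w‖ ≤ 1 := by
    rw [← norm_mul]
    apply norm_le_of_re
    intro c hc
    have := hf _ (circ2 hβ hK.toInv h2 (u := c) hc)
    simp only [mul_zero, zero_add] at this
    have e : b * w * c = b * (c * w) := by ring
    rw [e]; exact this
  have h4 : (‖b‖ * ‖w‖) ^ 2 ≤ 1 := by
    have : 0 ≤ ‖b‖ * ‖w‖ := by positivity
    nlinarith
  rw [mul_pow, hwn] at h4
  linarith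

/-- **Class II**, weights `(3, 1)` -/
theorem cov_II3 {α β : ℝ} (hβ : 0 < β) (hα3 : α = 3 * β)
    {K : Set (ℂ × ℂ)} (hK : NF α β K) : Cov 16 K := by
  have hαβ : β < α := by linarith
  have hα : 0 < α := hβ.trans hαβ
  have hq : β / α = 1 / 3 := by rw [hα3]; field_simp
  refine cov_of_lit16 hK.conv hK.cpt (zero_int hβ hαβ hK.toInv)
    (DT ((13 : ℤ) / (20 : ℤ)) ((7 : ℤ) / (20 : ℤ))) (DT_per _ _) (fun p hp hp0 => ?_)
  obtain ⟨k, n, h⟩ := PQ_all (QF_ok (1 / 3) (4 / 3) 3) (by norm_num) (by norm_num) (by norm_num)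
    (by norm_num) QF3_core QF3_axis QF3_core' QF3_axis' hp0 (hK.box p hp).1 (hK.box p hp).2
  refine ⟨k, n, fun a b hf hfp => h a b ?_⟩
  have hmax := func_facts hK.toInv hp hf hfp
  have ha := norm_a hβ hαβ hK hf
  have hb := norm_b hβ hαβ hK hf
  have hc3 : Real.cos (Real.pi * (β / α)) = 1 / 2 := by
    rw [hq, ← Real.cos_pi_div_three]; congr 1; ring
  rw [hc3] at hb
  obtain ⟨g1, g2⟩ := cone_sq (A := a * p.1) (c := 1 / 2) hα hβ (by linarith) (by norm_num)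
    hc3.ge hmax
  rw [Complex.add_re] at hfp
  have hd := deriv_zero hmax
  refine ⟨ha, by linarith, hfp, ?_, g2, by linarith⟩
  rw [hα3] at hd
  have : β * (3 * (a * p.1).im + (b * p.2).im) = 0 := by linarith
  have := (mul_eq_zero.1 this).resolve_left hβ.ne'
  simp only
  linarith

/-- **Class II**, weights `(n, 1)`, `n ≥ 4` -/
theorem cov_II4 {α β : ℝ} (hβ : 0 < β) (hα4 : 4 * β ≤ α)
    {K : Set (ℂ × ℂ)} (hK : NF α β K) : Cov 16 K := by
  have hαβ : β < α := by linarith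
  have hα : 0 < α := hβ.trans hαβ
  have hκ : 0 < β / α := by positivity
  have hκ4 : β / α ≤ 1 / 4 := by
    rw [div_le_div_iff₀ hα (by norm_num)]; linarith
  refine cov_of_lit16 hK.conv hK.cpt (zero_int hβ hαβ hK.toInv)
    (DT ((7 : ℤ) / (10 : ℤ)) ((9 : ℤ) / (20 : ℤ))) (DT_per _ _) (fun p hp hp0 => ?_)
  obtain ⟨k, n, h⟩ := PQ_all (QF_ok (β / α) (11716 / 10000) 1) (by norm_num) (by norm_num)
    (by norm_num) (by norm_num) (QF4_core hκ hκ4) QF4_axis (QF4_core' hκ hκ4) (QF4_axis' hκ) hp0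
    (hK.box p hp).1 (hK.box p hp).2
  refine ⟨k, n, fun a b hf hfp => h a b ?_⟩
  have hmax := func_facts hK.toInv hp hf hfp
  have ha := norm_a hβ hαβ hK hf
  have hb := norm_b hβ hαβ hK hf
  have hcos : √2 / 2 ≤ Real.cos (Real.pi * (β / α)) := by
    rw [← Real.cos_pi_div_four]
    apply Real.cos_le_cos_of_nonneg_of_le_pi (by positivity)
    · linarith [Real.pi_pos]
    · have := mul_le_mul_of_nonneg_left hκ4 Real.pi_pos.le
      linarith
  obtain ⟨g1, g2⟩ := cone_sq (A := a * p.1) hα hβ (by linarith) (by positivity) hcos hmax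
  have h2 := s22
  have e1 : (√2 / 2) ^ 2 = 1 / 2 := by nlinarith
  rw [e1] at g1
  have h6 : (1.4142 : ℝ) ≤ √2 := (Real.le_sqrt' (by norm_num)).2 (by norm_num)
  rw [Complex.add_re] at hfp
  have hd := deriv_zero hmax
  refine ⟨ha, ?_, hfp, ?_, g2, by linarith⟩
  · have h7 : ‖b‖ ^ 2 * (1 + 1.4142 / 2) ≤ 2 := by
      have : ‖b‖ ^ 2 * (1 + 1.4142 / 2) ≤ ‖b‖ ^ 2 * (1 + Real.cos (Real.pi * (β / α))) :=
        mul_le_mul_of_nonneg_left (by linarith) (sq_nonneg _)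
      linarith
    norm_num at h7 ⊢
    linarith
  · simp only
    have : α * ((a * p.1).im + β / α * (b * p.2).im) = 0 := by
      field_simp
      linarith
    exact (mul_eq_zero.1 this).resolve_left hα.ne'

/-- weights `(1, 2)` -/
theorem cov_N2 {K : Set (ℂ × ℂ)} (hK : Convex ℝ K) (hc : IsCompact K)
    (h0 : (0 : ℂ × ℂ) ∈ interior K)
    (hflow : ∀ g : ℂ, ‖g‖ = 1 → ∀ z ∈ K, (g * z.1, g ^ 2 * z.2) ∈ K)
    (hbox : ∀ z ∈ K, ‖z.1‖ ≤ 1 ∧ ‖z.2‖ ≤ 1) {s : ℝ} (hs0 : 0 ≤ s)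
    (h1 : ((1 : ℂ), (s : ℂ)) ∈ K) (h2 : ∃ z ∈ K, ‖z.2‖ = 1) : Cov 16 K := by
  have hs1 : s ≤ 1 := by
    have := (hbox _ h1).2
    simp only [Complex.norm_real, Real.norm_of_nonneg hs0] at this
    exact this
  have hP2 : ∀ z ∈ K, ((0 : ℂ), z.2) ∈ K := by
    intro z hz
    have h3 := hflow (-1) (by simp) z hz
    have h4 := hK hz h3 (a := 1 / 2) (b := 1 / 2) (by norm_num) (by norm_num) (by norm_num)
    have e : (1 / 2 : ℝ) • z + (1 / 2 : ℝ) • (-1 * z.1, (-1) ^ 2 * z.2) = ((0 : ℂ), z.2) := by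
      apply Prod.ext
      · simp only [Prod.fst_add, Prod.smul_fst, Complex.real_smul]
        push_cast; ring
      · simp only [Prod.snd_add, Prod.smul_snd, Complex.real_smul]
        push_cast; ring
    rwa [e] at h4
  refine cov_of_lit16 hK hc h0 DN DN_per (fun p hp hp0 => ?_)
  obtain ⟨k, n, h⟩ := PN_all hs0 hs1 hp0 (hbox p hp).1 (hbox p hp).2
  refine ⟨k, n, fun a b hf hfp => h a b ?_⟩
  have hmax : ∀ t : ℝ, (a * p.1 * ex (1 * t) + b * p.2 * ex (2 * t)).re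
      ≤ (a * p.1 + b * p.2).re := by
    intro t
    have := hf _ (hflow (ex t) (ex_norm t) p hp)
    rw [hfp, one_mul]
    have e : ex (2 * t) = ex t ^ 2 := by
      have := ex_nat t 2
      push_cast at this
      exact this
    rw [e]
    have e : a * p.1 * ex t + b * p.2 * ex t ^ 2 = a * (ex t * p.1) + b * (ex t ^ 2 * p.2) := by
      ring
    rw [e]
    exact this
  have hd := deriv_zero hmax
  rw [Complex.add_re] at hfp
  refine ⟨?_, ?_, hfp, by linarith, ?_⟩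
  · obtain ⟨z, hz, hz1⟩ := h2
    have h3 := hP2 z hz
    apply norm_le_of_re
    intro c hc
    have hz0 : z.2 ≠ 0 := by intro h; rw [h, norm_zero] at hz1; exact zero_ne_one hz1
    obtain ⟨θ, hθ⟩ := exists_ex (c := c / z.2) (by rw [norm_div, hz1, hc, div_one])
    have h4 := hflow (ex (θ / 2)) (ex_norm _) _ h3
    have e : ex (θ / 2) ^ 2 = c / z.2 := by
      rw [hθ, ← ex_nat]; congr 1; push_cast; ring
    rw [e] at h4
    have h5 := hf _ h4
    simp only [mul_zero, zero_add] at h5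
    rw [div_mul_cancel₀ _ hz0] at h5
    exact h5
  · intro g hg
    have := hf _ (hflow g hg _ h1)
    simp only [mul_one] at this
    rw [Complex.add_re] at this
    have e : b * (g ^ 2 * (s : ℂ)) = (s : ℂ) * (b * g ^ 2) := by ring
    rw [e, Complex.re_ofReal_mul] at this
    exact this
  · have h3 := hf _ (hflow (-1) (by simp) p hp)
    have e : a * (-1 * p.1) + b * ((-1) ^ 2 * p.2) = -(a * p.1) + b * p.2 := by ring
    rw [e, Complex.add_re, Complex.neg_re] at h3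
    linarith

/-- multiplication of the coordinates by nonzero numbers -/
noncomputable def scE (c₁ c₂ : ℂ) (h₁ : c₁ ≠ 0) (h₂ : c₂ ≠ 0) : (ℂ × ℂ) ≃L[ℝ] (ℂ × ℂ) :=
  LinearEquiv.toContinuousLinearEquiv
    { toFun := fun z => (c₁ * z.1, c₂ * z.2)
      invFun := fun z => (c₁⁻¹ * z.1, c₂⁻¹ * z.2)
      map_add' := fun x y => by
        apply Prod.ext <;> simp only [Prod.fst_add, Prod.snd_add] <;> ring
      map_smul' := fun r x => by
        apply Prod.ext <;> simp only [Prod.smul_fst, Prod.smul_snd, Complex.real_smul,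
          RingHom.id_apply] <;> ring
      left_inv := fun z => by
        apply Prod.ext <;> simp only <;> field_simp
      right_inv := fun z => by
        apply Prod.ext <;> simp only <;> field_simp }

theorem scE_apply (c₁ c₂ : ℂ) (h₁ : c₁ ≠ 0) (h₂ : c₂ ≠ 0) (z : ℂ × ℂ) :
    scE c₁ c₂ h₁ h₂ z = (c₁ * z.1, c₂ * z.2) := rfl

theorem Inv.image {α β : ℝ} {K : Set (ℂ × ℂ)} (hK : Inv α β K) (c₁ c₂ : ℂ) (h₁ : c₁ ≠ 0)
    (h₂ : c₂ ≠ 0) : Inv α β (scE c₁ c₂ h₁ h₂ '' K) := by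
  refine ⟨hK.conv.is_linear_image (scE c₁ c₂ h₁ h₂).toLinearMap.isLinear,
    hK.cpt.image (scE c₁ c₂ h₁ h₂).continuous, ?_, ?_⟩
  · have : interior (scE c₁ c₂ h₁ h₂ '' K) = scE c₁ c₂ h₁ h₂ '' interior K :=
      ((scE c₁ c₂ h₁ h₂).toHomeomorph.image_interior K).symm
    rw [this]
    exact hK.int.image _
  · rintro t _ ⟨z, hz, rfl⟩
    refine ⟨_, hK.flow t z hz, ?_⟩
    rw [scE_apply, scE_apply]
    apply Prod.ext <;> simp only <;> ring

theorem exists_NF {α β : ℝ} (hβ : 0 < β) (hαβ : β < α) {K : Set (ℂ × ℂ)} (hK : Inv α β K) :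
    ∃ (c₁ c₂ : ℂ) (h₁ : c₁ ≠ 0) (h₂ : c₂ ≠ 0), NF α β (scE c₁ c₂ h₁ h₂ '' K) := by
  have h0 := zero_int hβ hαβ hK
  have h0K : (0 : ℂ × ℂ) ∈ K := interior_subset h0
  obtain ⟨u, hu, humax⟩ := hK.cpt.exists_isMaxOn ⟨0, h0K⟩
    (continuous_fst.norm (E := ℂ)).continuousOn
  obtain ⟨w, hw, hwmax⟩ := hK.cpt.exists_isMaxOn ⟨0, h0K⟩
    (continuous_snd.norm (E := ℂ)).continuousOn
  obtain ⟨ε, hε, hball⟩ := Metric.isOpen_iff.1 isOpen_interior 0 h0
  have hu0 : 0 < ‖u.1‖ := by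
    have ha : (((ε / 2 : ℝ) : ℂ), (0 : ℂ)) ∈ K := by
      apply interior_subset; apply hball
      rw [Metric.mem_ball, dist_zero_right, Prod.norm_def, Complex.norm_real, norm_zero]
      rw [Real.norm_of_nonneg (by positivity), max_eq_left (by positivity)]
      linarith
    have h1 : ‖(((ε / 2 : ℝ) : ℂ), (0 : ℂ)).1‖ ≤ ‖u.1‖ := humax ha
    rw [Complex.norm_real, Real.norm_of_nonneg (by positivity)] at h1
    linarith
  have hw0 : 0 < ‖w.2‖ := by
    have ha : ((0 : ℂ), ((ε / 2 : ℝ) : ℂ)) ∈ K := by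
      apply interior_subset; apply hball
      rw [Metric.mem_ball, dist_zero_right, Prod.norm_def, Complex.norm_real, norm_zero]
      rw [Real.norm_of_nonneg (by positivity), max_eq_right (by positivity)]
      linarith
    have h1 : ‖((0 : ℂ), ((ε / 2 : ℝ) : ℂ)).2‖ ≤ ‖w.2‖ := hwmax ha
    rw [Complex.norm_real, Real.norm_of_nonneg (by positivity)] at h1
    linarith
  have hc1 : (((‖u.1‖⁻¹ : ℝ)) : ℂ) ≠ 0 := by exact_mod_cast (inv_pos.2 hu0).ne'
  have hc2 : (((‖w.2‖⁻¹ : ℝ)) : ℂ) ≠ 0 := by exact_mod_cast (inv_pos.2 hw0).ne'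
  have n1 : ‖(((‖u.1‖⁻¹ : ℝ)) : ℂ)‖ = ‖u.1‖⁻¹ := by
    rw [Complex.norm_real, Real.norm_of_nonneg (inv_pos.2 hu0).le]
  have n2 : ‖(((‖w.2‖⁻¹ : ℝ)) : ℂ)‖ = ‖w.2‖⁻¹ := by
    rw [Complex.norm_real, Real.norm_of_nonneg (inv_pos.2 hw0).le]
  refine ⟨_, _, hc1, hc2, { toInv := hK.image _ _ _ _, box := ?_, p1 := ?_, p2 := ?_ }⟩
  · rintro _ ⟨z, hz, rfl⟩
    rw [scE_apply]
    simp only
    constructor
    · rw [norm_mul, n1, inv_mul_le_iff₀ hu0, mul_one]
      exact humax hz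
    · rw [norm_mul, n2, inv_mul_le_iff₀ hw0, mul_one]
      exact hwmax hz
  · refine ⟨_, ⟨u, hu, rfl⟩, ?_⟩
    rw [scE_apply]
    simp only
    rw [norm_mul, n1, inv_mul_cancel₀ hu0.ne']
  · refine ⟨_, ⟨w, hw, rfl⟩, ?_⟩
    rw [scE_apply]
    simp only
    rw [norm_mul, n2, inv_mul_cancel₀ hw0.ne']

/-- weights `(2, 1)` -/
theorem cov_II2 {α β : ℝ} (hβ : 0 < β) (hα2 : α = 2 * β)
    {K : Set (ℂ × ℂ)} (hK : NF α β K) : Cov 16 K := by
  have hαβ : β < α := by linarith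
  obtain ⟨w, hw, hw1⟩ := hK.p2
  obtain ⟨z0, hz0, hz01⟩ := hK.p1
  have hunit : ∀ x : ℂ, ∃ c : ℂ, ‖c‖ = 1 ∧ c * x = (‖x‖ : ℂ) := by
    intro x
    by_cases hx : x = 0
    · exact ⟨1, by simp, by simp [hx]⟩
    · refine ⟨(starRingEnd ℂ) x / ‖x‖, ?_, ?_⟩
      · rw [norm_div, Complex.norm_conj, Complex.norm_real, norm_norm]
        exact div_self (norm_ne_zero_iff.2 hx)
      · have hn : (‖x‖ : ℂ) ≠ 0 := by exact_mod_cast norm_ne_zero_iff.2 hx
        rw [div_mul_eq_mul_div, mul_comm, Complex.mul_conj, Complex.normSq_eq_norm_sq,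
          div_eq_iff hn]
        push_cast; ring
  obtain ⟨c₁, hc1, hc1'⟩ := hunit w.1
  obtain ⟨c₂, hc2, hc2'⟩ := hunit w.2
  have h₁ : c₁ ≠ 0 := by intro h; rw [h, norm_zero] at hc1; exact zero_ne_one hc1
  have h₂ : c₂ ≠ 0 := by intro h; rw [h, norm_zero] at hc2; exact zero_ne_one hc2
  let e : (ℂ × ℂ) ≃L[ℝ] (ℂ × ℂ) :=
    (scE c₁ c₂ h₁ h₂).trans (ContinuousLinearEquiv.prodComm ℝ ℂ ℂ)
  have he : ∀ z, e z = (c₂ * z.2, c₁ * z.1) := fun z => rfl
  refine Cov.of_image e ?_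
  refine cov_N2 (s := ‖w.1‖) (hK.conv.is_linear_image e.toLinearMap.isLinear)
    (hK.cpt.image e.continuous) ?_ ?_ ?_ (norm_nonneg _) ?_ ?_
  · have : interior (e '' K) = e '' interior K := (e.toHomeomorph.image_interior K).symm
    rw [this]
    exact ⟨0, zero_int hβ hαβ hK.toInv, map_zero e⟩
  · rintro g hg _ ⟨z, hz, rfl⟩
    obtain ⟨θ, rfl⟩ := exists_ex hg
    refine ⟨_, hK.flow (θ / β) z hz, ?_⟩
    rw [he, he]
    have e1 : α * (θ / β) = (2 : ℕ) * θ := by rw [hα2]; push_cast; field_simp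
    have e2 : β * (θ / β) = θ := by field_simp
    simp only [e1, e2, ex_nat]
    apply Prod.ext <;> simp only <;> ring
  · rintro _ ⟨z, hz, rfl⟩
    rw [he]
    simp only [norm_mul, hc1, hc2, one_mul]
    exact ⟨(hK.box z hz).2, (hK.box z hz).1⟩
  · refine ⟨w, hw, ?_⟩
    rw [he, hc1', hc2', hw1]
    simp
  · refine ⟨_, ⟨z0, hz0, rfl⟩, ?_⟩
    rw [he]
    simp only [norm_mul, hc1, one_mul, hz01]

/-- **bodies with a circle action with two nonzero weights** -/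
theorem cov_flow {α β : ℝ} (hβ : 0 < β) (hαβ : β ≤ α) {K : Set (ℂ × ℂ)} (hK : Inv α β K) :
    Cov 16 K := by
  rcases eq_or_lt_of_le hαβ with h | h
  · refine cov_circled hK.conv hK.cpt hK.int ?_
    intro c hc z hz
    obtain ⟨θ, rfl⟩ := exists_ex hc
    have h1 := hK.flow (θ / α) z hz
    have hα : 0 < α := by linarith
    have e1 : α * (θ / α) = θ := by field_simp
    have e2 : β * (θ / α) = θ := by rw [h]; exact e1
    rw [e1, e2] at h1
    exact h1
  · obtain ⟨c₁, c₂, h₁, h₂, hN⟩ := exists_NF hβ h hK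
    refine Cov.of_image (scE c₁ c₂ h₁ h₂) ?_
    by_cases hn : ∃ n : ℤ, α / β = n
    · obtain ⟨n, hn⟩ := hn
      have hαn : α = n * β := by rw [← hn]; field_simp
      have h1 : (1 : ℝ) < n := by
        rw [← hn]; exact (one_lt_div hβ).2 h
      have h2 : 1 < n := by exact_mod_cast h1
      rcases (show n = 2 ∨ n = 3 ∨ 4 ≤ n by omega) with h3 | h3 | h3
      · subst h3
        exact cov_II2 hβ (by rw [hαn]; norm_num) hN
      · subst h3
        exact cov_II3 hβ (by rw [hαn]; norm_num) hN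
      · apply cov_II4 hβ _ hN
        have h4 : (4 : ℝ) ≤ n := by exact_mod_cast h3
        rw [hαn]
        nlinarith
    · push Not at hn
      exact cov_I hβ h hn hN

end Pool.Agent.H768.C4
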