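import Mathlib
import Pool.Agent.H768.C4.GeoV
import Pool.Agent.H768.C4.Iface
import Pool.Agent.H734.C4.Rot
import Pool.Agent.H164.C4.Form
import Pool.Agent.H44.C4.Flow

/-! # Convex bodies in dimension four with infinitely many affine symmetries -/

set_option autoImplicit false

open Set Topology Module

namespace Pool.Agent.H768.C4

/-- bodies with a one-parameter group of linear symmetries -/
theorem cov_of_flow {V : Type} [NormedAddCommGroup V] [NormedSpace ℝ V] [FiniteDimensional ℝ V]
    (hdim : finrank ℝ V = 4) {K : Set V} (hK : Convex ℝ K) (hc : IsCompact K)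
    (h0 : (0 : V) ∈ interior K) {X : V →L[ℝ] V} (hX : X ≠ 0)
    (hflow : ∀ (t : ℝ), ∀ v ∈ K, NormedSpace.exp (t • X) v ∈ K) : Cov 16 K := by
  obtain ⟨e, α, β, hα, hβ, hβα, he⟩ := Pool.Agent.H164.C4.form V hdim K hc h0 X hX hflow
  let ec : V ≃L[ℝ] (ℂ × ℂ) := e.symm.toContinuousLinearEquiv
  have hec : ∀ v, ec v = e.symm v := fun v => rfl
  refine Cov.of_image ec ?_
  have hconv : Convex ℝ (ec '' K) := hK.is_linear_image ec.toLinearMap.isLinear
  have hcpt : IsCompact (ec '' K) := hc.image ec.continuous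
  have hint : (interior (ec '' K)).Nonempty := by
    have : interior (ec '' K) = ec '' interior K := (ec.toHomeomorph.image_interior K).symm
    rw [this]
    exact Set.Nonempty.image _ ⟨0, h0⟩
  have hfl : ∀ t : ℝ, ∀ z ∈ ec '' K, (ex (α * t) * z.1, ex (β * t) * z.2) ∈ ec '' K := by
    rintro t _ ⟨v, hv, rfl⟩
    refine ⟨_, hflow t v hv, ?_⟩
    have h1 := he t (ec v)
    rw [hec, e.apply_symm_apply] at h1
    rw [hec, h1, e.symm_apply_apply]
    rfl
  rcases eq_or_lt_of_le hβ with hb | hb
  · refine Pool.Agent.H734.C4.rot _ hconv hcpt hint (fun θ z hz => ?_)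
    have h1 := hfl (θ / α) z hz
    have e1 : α * (θ / α) = θ := by field_simp
    rw [← hb, e1, zero_mul, ex_zero, one_mul] at h1
    exact h1
  · exact cov_flow hb hβα ⟨hconv, hcpt, hint, hfl⟩

/-- **convex bodies in dimension four with infinitely many affine symmetries** -/
theorem cov_inf {V : Type} [NormedAddCommGroup V] [NormedSpace ℝ V] [FiniteDimensional ℝ V]
    (hdim : finrank ℝ V = 4) {K : Set V} (hK : Convex ℝ K) (hc : IsCompact K)
    (hint : (interior K).Nonempty) (hinf : {g : V →ᵃ[ℝ] V | g '' K = K}.Infinite) : Cov 16 K := by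
  obtain ⟨c, hcK, X, hX, hflow⟩ := Pool.Agent.H44.C4.flow V K hK hc hint hinf
  have hmem : ∀ v, v ∈ (fun x => -c + x) '' K ↔ c + v ∈ K := by
    intro v
    constructor
    · rintro ⟨x, hx, rfl⟩
      change c + (-c + x) ∈ K
      rwa [add_neg_cancel_left]
    · intro hv
      exact ⟨c + v, hv, neg_add_cancel_left _ _⟩
  refine Cov.of_translate (N := 16) (-c) ?_
  refine cov_of_flow hdim (hK.translate (-c)) (hc.image (continuous_const.add continuous_id)) ?_ hX
    ?_
  · have h1 : interior ((fun x => -c + x) '' K) = (fun x => -c + x) '' interior K :=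
      ((Homeomorph.addLeft (-c)).image_interior K).symm
    rw [h1]
    exact ⟨c, hcK, neg_add_cancel c⟩
  · intro t v hv
    rw [hmem] at hv ⊢
    exact hflow t v hv

end Pool.Agent.H768.C4
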