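import Pool.Agent.H768.C4.CovDef

/-!
# Interface of the project on convex bodies with many affine symmetries

MP_eba1ef_gt (Hadwiger's covering conjecture, very famous). Landed: every convex body in `ℝ⁴` with
infinitely many affine symmetries is covered by `2⁴` translates of its interior. Goal here: there is
`M` such that this holds for all convex bodies in `ℝ⁴` with at least `M` affine symmetries. It follows
from the two statements `S_cmp`, `S_grp` below (any dimension `d`, any number `N`).
-/

set_option autoImplicit false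

open Set Topology Module

namespace Pool.Agent.H768.C4

/-- `d`-dimensional Euclidean space -/
abbrev Ed (d : ℕ) : Type := EuclideanSpace ℝ (Fin d)

/-- convergence of convex bodies in normal position -/
def Conv {d : ℕ} (L : ℕ → Set (Ed d)) (L0 : Set (Ed d)) : Prop :=
  ∀ ε : ℝ, 0 < ε → ∃ n0, ∀ n ≥ n0, L n ⊆ (fun x => (1 + ε) • x) '' L0 ∧
    L0 ⊆ (fun x => (1 + ε) • x) '' L n

/-- **CMP.** (`d ≥ 1` may be used or not, for `d = 0` everything is trivial; take `R` as you like.)
Compactness of the space of affine classes of convex bodies, and semicontinuity of the covering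
number.

Proof. (1) Position: every convex body `K` in `ℝ^d` has an affine image `T K` with
`ball 0 1 ⊆ T K ⊆ closedBall 0 R`, `R = R(d)`. E.g. let `S ⊆ K` be a simplex with `d + 1` vertices in
`K` of maximal `|det|` (compactness); by maximality every `x ∈ K` has barycentric coordinates in
`[-1, 1]` with respect to `S`; map `S` to a fixed simplex which contains `ball 0 1`. (The library may
have John's or another position.)
(2) Blaschke selection: `TopologicalSpace.NonemptyCompacts` of a compact metric space is compact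
(apply to the subtype `closedBall 0 R`, or show directly that the support functions or gauges have a
convergent subsequence). A Hausdorff limit `L0` of convex sets is convex, contains `ball 0 1`
(closedBall 0 1 if closed), and Hausdorff distance `≤ ε` with `closedBall 0 1 ⊆ both` (rescale the
position so that closed unit balls are contained) gives `L n ⊆ (1 + ε) L0` and `L0 ⊆ (1 + ε) L n`.
(3) If `Cov N L0`, then `L0 ⊆ ⋃ (t i + interior L0)`, `interior L0 = ⋃ δ > 0, (1 - δ) interior L0`
(as `0` is an interior point), by compactness `L0 ⊆ ⋃ (t i + (1 - δ) L0)` for one `δ > 0`; hence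
`L n ⊆ (1 + ε) L0 ⊆ ⋃ ((1 + ε) t i + (1 + ε)² (1 - δ) L n)` with `(1 + ε)² (1 - δ) < 1`, so
`Cov N (L n)` for large `n`; and `Cov` is invariant under affine maps (`Cov.of_image`,
`Cov.of_translate` in CovDef.lean). Contradiction. -/
def S_cmp : Prop := ∀ (d N : ℕ) (K : ℕ → Set (Ed d)),
  (∀ n, Convex ℝ (K n) ∧ IsCompact (K n) ∧ (interior (K n)).Nonempty ∧ ¬ Cov N (K n)) →
  ∃ (R : ℝ) (φ : ℕ → ℕ) (T : ℕ → (Ed d ≃ᵃ[ℝ] Ed d)) (L0 : Set (Ed d)), StrictMono φ ∧
    (∀ n, Metric.closedBall 0 1 ⊆ T n '' K (φ n) ∧ T n '' K (φ n) ⊆ Metric.closedBall 0 R) ∧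
    Convex ℝ L0 ∧ IsCompact L0 ∧ Metric.closedBall 0 1 ⊆ L0 ∧
    Conv (fun n => T n '' K (φ n)) L0 ∧ ¬ Cov N L0

/-- **GRP.** A limit of convex bodies with more and more affine symmetries has infinitely many
affine symmetries.

Proof. The symmetries `g` of `L n` satisfy `‖g 0‖ ≤ R` and `‖g.linear‖ ≤ 2 R` (as
`closedBall 0 1 ⊆ L n ⊆ closedBall 0 R`), the same for the inverses (`g` is bijective, as `g '' L n = L n`
has interior points; the inverse is a symmetry as well). So they lie in one compact set of affine maps
(for all `n`), and among `n` different ones, two are close if `n` is large: there are symmetries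
`h n ≠ id` of `L (ψ n)` with `h n → id`. Work with the linear maps `H (x, s) = (g.linear x + s • g 0, s)` of
`Ed d × ℝ`. As in Pool/Agent/H44/C4/Flow.lean (landed, lemma `exp_lim`, which can be reused): with
`t n = ‖H n - 1‖ → 0`, along a subsequence `(t n)⁻¹ • (H n - 1) → X`, `‖X‖ = 1`, and
`(H n) ^ ⌊t / t n⌋₊ → exp (t • X)`; all powers map `L (ψ n) × {1}` to itself, and `L (ψ n)` converges to
`L0`, so `exp (t • X)` maps `L0 × {1}` to itself for all `t ≥ 0`; the affine maps
`x ↦ (exp (t • X) (x, 1)).1` for small `t > 0` (or `t = 1 / k`) are different and are symmetries of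
`L0` (for `g '' L0 = L0` and not only `⊆` use also the inverses, i.e. `-t`). -/
def S_grp : Prop := ∀ (d : ℕ) (R : ℝ) (L : ℕ → Set (Ed d)) (L0 : Set (Ed d)),
  (∀ n, Convex ℝ (L n) ∧ IsCompact (L n) ∧ Metric.closedBall 0 1 ⊆ L n ∧
    L n ⊆ Metric.closedBall 0 R) →
  Convex ℝ L0 → IsCompact L0 → Metric.closedBall 0 1 ⊆ L0 → Conv L L0 →
  (∀ n, ∃ s : Finset (Ed d →ᵃ[ℝ] Ed d), n ≤ s.card ∧ ∀ g ∈ s, g '' L n = L n) →
  {g : Ed d →ᵃ[ℝ] Ed d | g '' L0 = L0}.Infinite

end Pool.Agent.H768.C4
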