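import Pool.Agent.H721.C4.Cmp
import Pool.Agent.H154.C4.Grp

/-!
# From infinitely many to many affine symmetries

If all convex bodies in `ℝ^d` with infinitely many affine symmetries are covered by `N` translates
of their interiors, then there is `M` such that this holds for all convex bodies with at least `M`
affine symmetries.
-/

set_option autoImplicit false

open Set Topology Module

namespace Pool.Agent.H768.C4

theorem many_of_inf {d N : ℕ}
    (h : ∀ L0 : Set (Ed d), Convex ℝ L0 → IsCompact L0 → (interior L0).Nonempty →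
      {g : Ed d →ᵃ[ℝ] Ed d | g '' L0 = L0}.Infinite → Cov N L0) :
    ∃ M : ℕ, ∀ K : Set (Ed d), Convex ℝ K → IsCompact K → (interior K).Nonempty →
      (M : ℕ∞) ≤ {g : Ed d →ᵃ[ℝ] Ed d | g '' K = K}.encard → Cov N K := by
  classical
  by_contra hno
  push Not at hno
  choose K hK hc hi hM hN using hno
  obtain ⟨R, φ, T, L0, hφ, hT, hL, hLc, hLb, hconv, hLN⟩ :=
    Pool.Agent.H721.C4.cmp d N K fun n => ⟨hK n, hc n, hi n, hN n⟩
  apply hLN
  refine h L0 hL hLc ⟨0, interior_mono hLb (by
    rw [interior_closedBall _ one_ne_zero]; exact Metric.mem_ball_self one_pos)⟩ ?_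
  refine Pool.Agent.H154.C4.grp d R (fun n => T n '' K (φ n)) L0 (fun n => ⟨?_, ?_, (hT n).1,
    (hT n).2⟩) hL hLc hLb hconv fun n => ?_
  · exact (hK (φ n)).affine_image (T n).toAffineMap
  · exact (hc (φ n)).image (T n).toAffineMap.continuous_of_finiteDimensional
  · have hn : (n : ℕ∞) ≤ {g : Ed d →ᵃ[ℝ] Ed d | g '' K (φ n) = K (φ n)}.encard :=
      le_trans (by exact_mod_cast hφ.le_apply) (hM (φ n))
    obtain ⟨s, hs, hsn⟩ := Set.exists_subset_encard_eq hn
    have hfin : s.Finite := Set.finite_of_encard_eq_coe hsn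
    let cj : (Ed d →ᵃ[ℝ] Ed d) → (Ed d →ᵃ[ℝ] Ed d) := fun g =>
      ((T n).toAffineMap.comp g).comp (T n).symm.toAffineMap
    have hinj : Function.Injective cj := by
      intro g g' hgg
      ext x : 1
      have := congrArg (fun k : Ed d →ᵃ[ℝ] Ed d => k (T n x)) hgg
      simpa [cj] using this
    refine ⟨hfin.toFinset.image cj, ?_, ?_⟩
    · rw [Finset.card_image_of_injective _ hinj, ← Set.ncard_eq_toFinset_card _ hfin,
        Set.ncard_def, hsn]
      simp
    · intro g hg
      obtain ⟨g', hg', rfl⟩ := Finset.mem_image.1 hg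
      have hg'K : g' '' K (φ n) = K (φ n) := hs (hfin.mem_toFinset.1 hg')
      have : (fun x => cj g' x) '' (T n '' K (φ n)) = T n '' (g' '' K (φ n)) := by
        rw [image_image, image_image]
        apply image_congr
        intro x _
        simp [cj]
      rw [hg'K] at this
      exact this

end Pool.Agent.H768.C4
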