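import Mathlib
import Pool.Agent.H768.C4.Geo

/-! # Bodies in `ℝ⁴` which are invariant under a complex structure -/

set_option autoImplicit false

open Set Topology Module

namespace Pool.Agent.H768.C4

variable {V : Type*} [NormedAddCommGroup V] [NormedSpace ℝ V]

/-- a four-dimensional space with a complex structure is `ℂ²` -/
theorem exists_equiv [FiniteDimensional ℝ V] (hdim : finrank ℝ V = 4) (J : V →ₗ[ℝ] V)
    (hJ : ∀ v, J (J v) = -v) : ∃ e : (ℂ × ℂ) ≃ₗ[ℝ] V,
      ∀ z : ℂ × ℂ, e (Complex.I * z.1, Complex.I * z.2) = J (e z) := by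
  have h1 : ∃ v : V, v ≠ 0 := by
    have : Nontrivial V := Module.nontrivial_of_finrank_pos (R := ℝ) (by omega)
    exact exists_ne 0
  obtain ⟨v₁, hv₁⟩ := h1
  have h2 : ∃ v : V, v ∉ Submodule.span ℝ ({v₁, J v₁} : Set V) := by
    by_contra hcon
    push Not at hcon
    have htop : Submodule.span ℝ ({v₁, J v₁} : Set V) = ⊤ := by
      rw [eq_top_iff]; intro x _; exact hcon x
    have hle : finrank ℝ (Submodule.span ℝ ({v₁, J v₁} : Set V)) ≤ 2 := by
      classical
      have := finrank_span_finset_le_card (R := ℝ) ({v₁, J v₁} : Finset V)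
      have hcard : ({v₁, J v₁} : Finset V).card ≤ 2 := Finset.card_le_two
      have e : ((({v₁, J v₁} : Finset V)) : Set V) = ({v₁, J v₁} : Set V) := by simp
      rw [Set.finrank, e] at this
      exact this.trans hcard
    rw [htop, finrank_top, hdim] at hle
    omega
  obtain ⟨v₂, hv₂⟩ := h2
  let L : (ℂ × ℂ) →ₗ[ℝ] V :=
    { toFun := fun z => z.1.re • v₁ + z.1.im • J v₁ + (z.2.re • v₂ + z.2.im • J v₂)
      map_add' := fun x y => by
        simp only [Prod.fst_add, Prod.snd_add, Complex.add_re, Complex.add_im, add_smul]; abel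
      map_smul' := fun r x => by
        simp only [Prod.smul_fst, Prod.smul_snd, Complex.smul_re, Complex.smul_im, smul_eq_mul,
          mul_smul, smul_add, RingHom.id_apply] }
  have hL : ∀ z, L z = z.1.re • v₁ + z.1.im • J v₁ + (z.2.re • v₂ + z.2.im • J v₂) := fun z => rfl
  have hLJ : ∀ z : ℂ × ℂ, L (Complex.I * z.1, Complex.I * z.2) = J (L z) := by
    intro z
    rw [hL, hL]
    simp only [map_add, map_smul, hJ, Complex.mul_re, Complex.mul_im, Complex.I_re, Complex.I_im,
      zero_mul, one_mul, zero_sub, zero_add, neg_smul, smul_neg]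
    abel
  have hinj : Function.Injective L := by
    rw [injective_iff_map_eq_zero]
    intro z hz
    rw [hL] at hz
    have key : ∀ a b : ℝ, a • v₁ + b • J v₁ ∈ Submodule.span ℝ ({v₁, J v₁} : Set V) := fun a b =>
      Submodule.add_mem _ (Submodule.smul_mem _ _ (Submodule.subset_span (by simp)))
        (Submodule.smul_mem _ _ (Submodule.subset_span (by simp)))
    have hz2 : z.2.re ^ 2 + z.2.im ^ 2 = 0 := by
      by_contra hne
      apply hv₂
      have hJz := congrArg J hz
      simp only [map_add, map_smul, hJ, map_zero, smul_neg] at hJz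
      have e : (z.2.re ^ 2 + z.2.im ^ 2) • v₂
          = (-(z.2.re * z.1.re) - z.2.im * z.1.im) • v₁
            + (-(z.2.re * z.1.im) + z.2.im * z.1.re) • J v₁ := by
        have e1 := congrArg (fun v => z.2.re • v) hz
        have e2 := congrArg (fun v => z.2.im • v) hJz
        simp only [smul_add, smul_neg, smul_smul, smul_zero] at e1 e2
        have e3 : z.2.re * z.2.re + z.2.im * z.2.im = z.2.re ^ 2 + z.2.im ^ 2 := by ring
        rw [← e3, add_smul]
        have e4 : (z.2.re * z.2.re) • v₂ = -((z.2.re * z.1.re) • v₁ + (z.2.re * z.1.im) • J v₁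
            + (z.2.re * z.2.im) • J v₂) := by
          rw [eq_neg_iff_add_eq_zero, ← e1]; abel
        have e5 : (z.2.im * z.2.im) • v₂ = (z.2.im * z.1.re) • J v₁ - (z.2.im * z.1.im) • v₁
            + (z.2.im * z.2.re) • J v₂ := by
          have : (z.2.im * z.1.re) • J v₁ - (z.2.im * z.1.im) • v₁
            + (z.2.im * z.2.re) • J v₂ - (z.2.im * z.2.im) • v₂ = 0 := by
            rw [← e2]; abel
          exact (sub_eq_zero.1 this).symm
        rw [e4, e5]
        have e6 : z.2.im * z.2.re = z.2.re * z.2.im := mul_comm _ _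
        rw [e6, sub_smul, add_smul, neg_smul, neg_smul]
        abel
      have e' : v₂ = (z.2.re ^ 2 + z.2.im ^ 2)⁻¹ • ((z.2.re ^ 2 + z.2.im ^ 2) • v₂) := by
        rw [smul_smul, inv_mul_cancel₀ hne, one_smul]
      rw [e', e]
      exact Submodule.smul_mem _ _ (key _ _)
    have hr2 : z.2.re = 0 := by nlinarith [sq_nonneg z.2.re, sq_nonneg z.2.im]
    have hi2 : z.2.im = 0 := by nlinarith [sq_nonneg z.2.re, sq_nonneg z.2.im]
    rw [hr2, hi2, zero_smul, zero_smul, add_zero, add_zero] at hz
    have hz1 : z.1.re ^ 2 + z.1.im ^ 2 = 0 := by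
      by_contra hne
      apply hv₁
      have hJz := congrArg J hz
      simp only [map_add, map_smul, hJ, map_zero, smul_neg] at hJz
      have e1 := congrArg (fun v => z.1.re • v) hz
      have e2 := congrArg (fun v => z.1.im • v) hJz
      simp only [smul_add, smul_neg, smul_smul, smul_zero] at e1 e2
      have e : (z.1.re ^ 2 + z.1.im ^ 2) • v₁ = 0 := by
        have e3 : z.1.re * z.1.re + z.1.im * z.1.im = z.1.re ^ 2 + z.1.im ^ 2 := by ring
        have e6 : z.1.im * z.1.re = z.1.re * z.1.im := mul_comm _ _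
        rw [e6] at e2
        rw [← e3, add_smul]
        have : (z.1.re * z.1.re) • v₁ + (z.1.im * z.1.im) • v₁
          = ((z.1.re * z.1.re) • v₁ + (z.1.re * z.1.im) • J v₁)
            - ((z.1.re * z.1.im) • J v₁ + -((z.1.im * z.1.im) • v₁)) := by abel
        rw [this, e1, e2, sub_zero]
      rcases smul_eq_zero.1 e with h | h
      · exact absurd h hne
      · exact h
    have hr1 : z.1.re = 0 := by nlinarith [sq_nonneg z.1.re, sq_nonneg z.1.im]
    have hi1 : z.1.im = 0 := by nlinarith [sq_nonneg z.1.re, sq_nonneg z.1.im]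
    apply Prod.ext
    · exact Complex.ext hr1 hi1
    · exact Complex.ext hr2 hi2
  have hfr : finrank ℝ (ℂ × ℂ) = finrank ℝ V := by
    rw [hdim, Module.finrank_prod, Complex.finrank_real_complex]
  exact ⟨LinearEquiv.ofInjectiveOfFinrankEq L hinj hfr, fun z => hLJ z⟩

/-- convex bodies with a complex structure in dimension four -/
theorem cov_complex [FiniteDimensional ℝ V] (hdim : finrank ℝ V = 4) {K : Set V}
    (hK : Convex ℝ K) (hc : IsCompact K) (hint : (interior K).Nonempty) (J : V →ₗ[ℝ] V)
    (hJ : ∀ v, J (J v) = -v)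
    (hs : ∀ θ : ℝ, ∀ v ∈ K, Real.cos θ • v + Real.sin θ • J v ∈ K) : Cov 16 K := by
  obtain ⟨e, he⟩ := exists_equiv hdim J hJ
  let ec : V ≃L[ℝ] (ℂ × ℂ) := e.symm.toContinuousLinearEquiv
  have hec : ∀ v, ec v = e.symm v := fun v => rfl
  refine Cov.of_image ec ?_
  apply cov_circled
  · exact hK.is_linear_image ec.toLinearMap.isLinear
  · exact hc.image ec.continuous
  · have : interior (ec '' K) = ec '' interior K := (ec.toHomeomorph.image_interior K).symm
    rw [this]
    exact hint.image _
  · rintro c hc' _ ⟨v, hv, rfl⟩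
    have h1 := hs (Complex.arg c) v hv
    refine ⟨_, h1, ?_⟩
    have hcc : c = ⟨Real.cos (Complex.arg c), Real.sin (Complex.arg c)⟩ := by
      have h2 := Complex.norm_mul_cos_arg c
      have h3 := Complex.norm_mul_sin_arg c
      rw [hc', one_mul] at h2 h3
      exact Complex.ext h2.symm h3.symm
    have hJe : ec (J v) = (Complex.I * (ec v).1, Complex.I * (ec v).2) := by
      apply e.injective
      rw [hec, e.apply_symm_apply, he, hec, e.apply_symm_apply]
    rw [map_add, map_smul, map_smul, hJe]
    set w := ec v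
    generalize Real.cos (Complex.arg c) = C at hcc ⊢
    generalize Real.sin (Complex.arg c) = S at hcc ⊢
    rw [hcc]
    apply Prod.ext <;> apply Complex.ext <;>
      simp [Complex.mul_re, Complex.mul_im, sub_eq_add_neg]

end Pool.Agent.H768.C4
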